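import Pool.Agent.H7.Qup.Bd
import Pool.Agent.H7.Qup.Rel

/-!
# LG Up: property (iv) goes up along dominant regular maps

`strongly_up`: let `p : U' → U` be a dominant regular map of quasi-projective varieties of the same dimension.  If all closed subvarieties of `U` of positive dimension on which a form `R` is not identically `0` are of log general type, then
all closed subvarieties of `U'` of positive dimension on which a certain form `R'` is not identically `0` are of log general type.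
The closure in `U` of the image of the subvariety `Z'` of `U'` given by `Q'` is given by the ideal `Q'.comap (aeval γ)`, where the forms `γ` represent the map `p`; if `R'` is not `0` on `Z'` then it has the same dimension as `Z'`
(equations of the coordinates, `exists_eq`), and `logGT_up` applies.
-/

set_option autoImplicit false

open MvPolynomial

noncomputable section

namespace Pool.Agent.LG

open Pool.Agent.H17 (PN VanishesAt vanishesAt_mk_iff)
open Pool.Agent.H17GT (coordFun)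
open Pool.Agent.H17LG.Variety (FunField ratio IsLogGeneralType)
open Pool.Agent.H62.FC (Homog)
open Pool.Agent.H62.SA (locVar OnBd)
open Pool.Agent.H17R (gen gen_eq_zero_iff ratio_self coordFun_ne_zero_iff adjoin_ratio)
open Pool.Agent.H7.Bir (vals rmap mem_of_open)
open Pool.Agent.H7.Qup

variable {N M : ℕ} {P : Ideal (MvPolynomial (Fin (N + 1)) ℂ)} {P' Q' : Ideal (MvPolynomial (Fin (M + 1)) ℂ)} {s s' : ℕ}
  {G : Fin s → MvPolynomial (Fin (N + 1)) ℂ} {G' : Fin s' → MvPolynomial (Fin (M + 1)) ℂ} {p : PN M → PN N}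

/-- representations by forms of positive degree -/
theorem exists_rep_pos (hp : IsDominantMap P P' G G' p) {y : PN M} (hy : y ∈ locVar P' G') :
    ∃ (D : ℕ) (γ : Fin (N + 1) → MvPolynomial (Fin (M + 1)) ℂ), 1 ≤ D ∧ Rep P' G' p D γ ∧ vals γ y.rep ≠ 0 := by
  obtain ⟨D, γ, hγ, hv⟩ := hp.exists_rep hy
  obtain ⟨j, hj⟩ : ∃ j, y.rep j ≠ 0 := by
    by_contra h
    push Not at h
    exact y.rep_nonzero (funext h)
  have hvals : ∀ x : Fin (M + 1) → ℂ, vals (fun i => γ i * X j) x = x j • vals γ x := by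
    intro x
    funext i
    change eval x (γ i * X j) = x j * eval x (γ i)
    rw [map_mul, eval_X, mul_comm]
  refine ⟨D + 1, fun i => γ i * X j, by omega, ⟨fun i => (hγ.hom i).mul (isHomogeneous_X ℂ j), fun y' hy' hv' => ?_⟩, ?_⟩
  · have h1 : vals γ y'.rep ≠ 0 := fun h0 => hv' (by rw [hvals, h0, smul_zero])
    have h2 : y'.rep j ≠ 0 := fun h0 => hv' (by rw [hvals, h0, zero_smul])
    rw [hγ.rep y' hy' h1]
    unfold Pool.Agent.H7.Bir.rmap
    rw [dif_pos h1, dif_pos hv', Projectivization.mk_eq_mk_iff']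
    exact ⟨(y'.rep j)⁻¹, by rw [hvals, smul_smul, inv_mul_cancel₀ h2, one_smul]⟩
  · rw [hvals]
    exact smul_ne_zero hj hv

theorem locVar_mono (h : P' ≤ Q') : locVar Q' G' ⊆ locVar P' G' := fun _ hx => ⟨fun F hF n hn => hx.1 F (h hF) n hn, hx.2⟩

/-- homogeneous components and substitution of forms of positive degree -/
theorem component_aeval {γ : Fin (N + 1) → MvPolynomial (Fin (M + 1)) ℂ} {D : ℕ} (hD : 1 ≤ D) (hγ : ∀ i, (γ i).IsHomogeneous D)
    (F : MvPolynomial (Fin (N + 1)) ℂ) (n : ℕ) : homogeneousComponent (D * n) (aeval γ F) = aeval γ (homogeneousComponent n F) := by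
  classical
  conv_lhs => rw [← MvPolynomial.sum_homogeneousComponent F, map_sum, map_sum]
  have h1 : ∀ m, homogeneousComponent (D * n) (aeval γ (homogeneousComponent m F)) = if m = n then aeval γ (homogeneousComponent n F) else 0 := by
    intro m
    have h2 : (aeval γ (homogeneousComponent m F)) ∈ homogeneousSubmodule (Fin (M + 1)) ℂ (D * m) :=
      aeval_homog hγ (homogeneousComponent_isHomogeneous m F)
    rw [homogeneousComponent_of_mem h2]
    by_cases h : m = n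
    · subst h
      rw [if_pos rfl, if_pos rfl]
    · rw [if_neg h, if_neg]
      intro h3
      exact h (Nat.eq_of_mul_eq_mul_left (Nat.lt_of_lt_of_le Nat.zero_lt_one hD) h3.symm)
  rw [Finset.sum_congr rfl fun m _ => h1 m, Finset.sum_ite_eq']
  by_cases h : n ∈ Finset.range (F.totalDegree + 1)
  · rw [if_pos h]
  · rw [if_neg h, homogeneousComponent_eq_zero, map_zero]
    rw [Finset.mem_range] at h
    omega

theorem homog_comap {γ : Fin (N + 1) → MvPolynomial (Fin (M + 1)) ℂ} {D : ℕ} (hD : 1 ≤ D) (hγ : ∀ i, (γ i).IsHomogeneous D) (hQ' : Homog Q') :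
    Homog (Q'.comap (aeval γ : MvPolynomial (Fin (N + 1)) ℂ →ₐ[ℂ] MvPolynomial (Fin (M + 1)) ℂ)) := by
  intro F hF n
  rw [Ideal.mem_comap] at hF ⊢
  rw [← component_aeval hD hγ]
  exact hQ' _ hF _

/-- the map from a subvariety to the closure of its image -/
theorem dominant_comap [Q'.IsPrime] (hp : IsDominantMap P P' G G' p) (hQ' : Homog Q') (hPQ' : P' ≤ Q') (hG' : ∀ m, ∃ n, (G' m).IsHomogeneous n)
    (hne : (locVar Q' G').Nonempty) {γ : Fin (N + 1) → MvPolynomial (Fin (M + 1)) ℂ} {D : ℕ} (hγ : Rep P' G' p D γ) {k₀ : Fin (N + 1)} (hk : γ k₀ ∉ Q') :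
    IsDominantMap (Q'.comap (aeval γ : MvPolynomial (Fin (N + 1)) ℂ →ₐ[ℂ] MvPolynomial (Fin (M + 1)) ℂ)) Q' G G' p := by
  have hsub : locVar Q' G' ⊆ locVar P' G' := locVar_mono hPQ'
  refine ⟨fun y hy => ⟨fun F hF n hn => ?_, (hp.maps y (hsub hy)).2⟩, fun y hy => ?_, fun F n hF h => ?_⟩
  · rw [Ideal.mem_comap] at hF
    obtain ⟨D', γ', hγ', hne'⟩ := hp.exists_rep (hsub hy)
    rw [hγ'.vanishes_iff (hsub hy) hne' hn]
    have hmem : γ k₀ ^ n * aeval γ' F ∈ Q' := by
      refine mem_of_open hQ' hG' hne (((hγ.hom k₀).pow n).mul (aeval_homog hγ'.hom hn)) fun y₁ hy₁ => ?_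
      have h3 : eval y₁.rep (aeval γ F) = 0 := hy₁.1 _ hF _ (aeval_homog hγ.hom hn)
      unfold VanishesAt
      rw [map_mul, map_pow, Pool.Agent.H7.Bir.eval_comp, ← eval_smul hn]
      have h4 : eval y₁.rep (γ k₀) • vals γ' y₁.rep = eval y₁.rep (γ' k₀) • vals γ y₁.rep := by
        funext i
        have h5 := hγ.prop hγ' (hsub hy₁) k₀ i
        change eval y₁.rep (γ k₀) * eval y₁.rep (γ' i) = eval y₁.rep (γ' k₀) * eval y₁.rep (γ i)
        rw [h5, mul_comm]
      rw [h4, eval_smul hn, ← Pool.Agent.H7.Bir.eval_comp, h3, mul_zero]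
    rcases Ideal.IsPrime.mem_or_mem inferInstance hmem with h1 | h1
    · exact absurd (Ideal.IsPrime.mem_of_pow_mem inferInstance n h1) hk
    · exact hy.1 _ h1 _ (aeval_homog hγ'.hom hn)
  · obtain ⟨D', γ', h1, h2, h3⟩ := hp.regular y (hsub hy)
    exact ⟨D', γ', h1, h2, fun y' hy' => h3 y' (hsub hy')⟩
  · rw [Ideal.mem_comap]
    refine mem_of_open hQ' hG' hne (aeval_homog hγ.hom hF) fun y hy => ?_
    have h2 : eval (p y).rep F = 0 := h y hy
    by_cases h1 : vals γ y.rep = 0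
    · unfold VanishesAt
      rw [Pool.Agent.H7.Bir.eval_comp, h1]
      have h3 := eval_smul hF 0 (p y).rep
      rw [zero_smul, h2, mul_zero] at h3
      exact h3
    · exact (hγ.vanishes_iff (hsub hy) h1 hF).1 h2


/-- a transcendence basis of a subfield over which the field is algebraic -/
theorem exists_basis_down {K K' : Type} [Field K] [Algebra ℂ K] [Field K'] [Algebra ℂ K'] [Algebra K K'] [IsScalarTower ℂ K K'] [Algebra.IsAlgebraic K K'] {w : ℕ} {z' : Fin w → K'}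
    (hz' : IsTranscendenceBasis ℂ z') : ∃ z : Fin w → K, IsTranscendenceBasis ℂ z := by
  obtain ⟨ι, x, hx⟩ := exists_isTranscendenceBasis' ℂ K
  have h1 := trdeg_add_eq ℂ K (A := K')
  rw [← hx.cardinalMk_eq_trdeg, ← hz'.cardinalMk_eq_trdeg, trdeg_eq_zero_iff.2 inferInstance, add_zero] at h1
  obtain ⟨f⟩ := Cardinal.eq.1 h1
  exact ⟨x ∘ f.symm, hx.comp_equiv f.symm⟩

/-- the value of a form at the image of the generic point -/
theorem gen_aeval {Q : Ideal (MvPolynomial (Fin (N + 1)) ℂ)} [Q.IsPrime] [Q'.IsPrime] {e : FunField Q →ₐ[ℂ] FunField Q'} (he : Compat Q Q' G' p e)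
    {γ : Fin (N + 1) → MvPolynomial (Fin (M + 1)) ℂ} {D : ℕ} (hγ : Rep Q' G' p D γ) (hv : ∃ y ∈ locVar Q' G', vals γ y.rep ≠ 0) {j : Fin (M + 1)} (hj : X j ∉ Q') {i₁ : Fin (N + 1)} (hi : X i₁ ∉ Q)
    {D₁ : ℕ} {F : MvPolynomial (Fin (N + 1)) ℂ} (hF : F.IsHomogeneous D₁) : gen Q' j (aeval γ F) = gen Q' j (γ i₁) ^ D₁ * e (gen Q i₁ F) := by
  have h1 : gen Q' j (aeval γ F) = aeval (fun k => gen Q' j (γ k)) F := Pool.Agent.H7.Bir.aeval_comp _ _ _
  have h2 : (fun k => gen Q' j (γ k)) = fun k => gen Q' j (γ i₁) * e (ratio Q k i₁) := by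
    funext k
    rw [← he D γ hγ hv j hj i₁ hi k, mul_comm]
  rw [h1, h2, Pool.Agent.H92.GT.Proj.aeval_scale hF]
  congr 1
  exact (MvPolynomial.comp_aeval_apply _ _ _).symm


private theorem abs_alg {K L : Type} [Field K] [Field L] [Algebra K L] {m : ℕ} {c : Fin (m + 1) → K} (hcl : c (Fin.last m) ≠ 0) {r g : L} (hg : g ≠ 0)
    (h : ∑ l : Fin (m + 1), g * algebraMap K L (c l) * r ^ (l : ℕ) = 0) : IsAlgebraic K r := by
  have h2 : ∑ l : Fin (m + 1), algebraMap K L (c l) * r ^ (l : ℕ) = 0 := by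
    have h1 : g * ∑ l : Fin (m + 1), algebraMap K L (c l) * r ^ (l : ℕ) = 0 := by
      rw [← h, Finset.mul_sum]
      exact Finset.sum_congr rfl fun l _ => (mul_assoc _ _ _).symm
    exact (mul_eq_zero.1 h1).resolve_left hg
  refine ⟨∑ l : Fin (m + 1), Polynomial.C (c l) * Polynomial.X ^ (l : ℕ), fun h3 => hcl ?_, ?_⟩
  · have h4 := congrArg (fun q => Polynomial.coeff q m) h3
    simp only [Polynomial.finsetSum_coeff, Polynomial.coeff_C_mul, Polynomial.coeff_X_pow, Polynomial.coeff_zero] at h4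
    rw [Finset.sum_eq_single (Fin.last m)] at h4
    · simpa using h4
    · intro l _ hl
      have h5 : (l : ℕ) ≠ m := fun h6 => hl (Fin.ext h6)
      rw [if_neg (Ne.symm h5), mul_zero]
    · intro h5
      exact absurd (Finset.mem_univ _) h5
  · rw [map_sum, ← h2]
    refine Finset.sum_congr rfl fun l _ => ?_
    rw [map_mul, map_pow, Polynomial.aeval_C, Polynomial.aeval_X]

/-- the equation of a coordinate -/
theorem isAlgebraic_ratio {Q : Ideal (MvPolynomial (Fin (N + 1)) ℂ)} [Q.IsPrime] [Q'.IsPrime] {e : FunField Q →ₐ[ℂ] FunField Q'} (he : Compat Q Q' G' p e)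
    {γ : Fin (N + 1) → MvPolynomial (Fin (M + 1)) ℂ} {D : ℕ} (hγ : Rep Q' G' p D γ) (hv : ∃ y ∈ locVar Q' G', vals γ y.rep ≠ 0) {j : Fin (M + 1)} (hj : X j ∉ Q') {i₁ : Fin (N + 1)} (hi : X i₁ ∉ Q)
    (hi' : γ i₁ ∉ Q') {i : Fin (M + 1)} {m D₁ : ℕ} {α : Fin (m + 1) → MvPolynomial (Fin (N + 1)) ℂ} (hα : ∀ l, (α l).IsHomogeneous D₁) (hlast : α (Fin.last m) ∉ Q)
    (hmem : ∑ l : Fin (m + 1), aeval γ (α l) * X i ^ (l : ℕ) * X j ^ (m - (l : ℕ)) ∈ Q') :
    letI := e.toRingHom.toAlgebra; IsAlgebraic (FunField Q) (ratio Q' i j) := by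
  let _ : Algebra (FunField Q) (FunField Q') := e.toRingHom.toAlgebra
  have hcj : coordFun Q' j ≠ 0 := coordFun_ne_zero_iff.2 hj
  have hci : coordFun Q i₁ ≠ 0 := coordFun_ne_zero_iff.2 hi
  set c : Fin (m + 1) → FunField Q := fun l => gen Q i₁ (α l) with hc
  have hcl : c (Fin.last m) ≠ 0 := fun h0 => hlast ((gen_eq_zero_iff hci (hα _)).1 h0)
  have hg : gen Q' j (γ i₁) ≠ 0 := fun h0 => hi' ((gen_eq_zero_iff hcj (hγ.hom i₁)).1 h0)
  -- the equation in the function field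
  have hhom : (∑ l : Fin (m + 1), aeval γ (α l) * X i ^ (l : ℕ) * X j ^ (m - (l : ℕ))).IsHomogeneous (D * D₁ + m) := by
    refine IsHomogeneous.sum _ _ _ fun l _ => ?_
    have h1 := ((aeval_homog hγ.hom (hα l)).mul ((isHomogeneous_X ℂ i).pow (l : ℕ))).mul ((isHomogeneous_X ℂ j).pow (m - (l : ℕ)))
    have h2 : D * D₁ + 1 * (l : ℕ) + 1 * (m - (l : ℕ)) = D * D₁ + m := by
      have := l.is_le
      omega
    rwa [h2] at h1
  have h0 : gen Q' j (∑ l : Fin (m + 1), aeval γ (α l) * X i ^ (l : ℕ) * X j ^ (m - (l : ℕ))) = 0 := (gen_eq_zero_iff hcj hhom).2 hmem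
  refine abs_alg (c := c) hcl (g := gen Q' j (γ i₁) ^ D₁) (pow_ne_zero _ hg) ?_
  rw [← h0]
  unfold gen
  rw [map_sum]
  refine Finset.sum_congr rfl fun l _ => ?_
  rw [map_mul, map_mul, map_pow, map_pow, aeval_X, aeval_X, ratio_self hcj, one_pow, mul_one]
  have h2 := gen_aeval he hγ hv hj hi (hα l)
  unfold gen at h2
  rw [h2]
  rfl

/-- If the coordinates of a variety are algebraic over a field, then the function field is. -/
theorem isAlgebraic_of_ratio {Q : Ideal (MvPolynomial (Fin (N + 1)) ℂ)} [Q.IsPrime] [Q'.IsPrime] (e : FunField Q →ₐ[ℂ] FunField Q') {j : Fin (M + 1)} (hj : X j ∉ Q')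
    (h : letI := e.toRingHom.toAlgebra; ∀ i, IsAlgebraic (FunField Q) (ratio Q' i j)) :
    letI := e.toRingHom.toAlgebra; Algebra.IsAlgebraic (FunField Q) (FunField Q') := by
  let _ : Algebra (FunField Q) (FunField Q') := e.toRingHom.toAlgebra
  have _ : IsScalarTower ℂ (FunField Q) (FunField Q') := IsScalarTower.of_algebraMap_eq fun c => (e.commutes c).symm
  have hcj : coordFun Q' j ≠ 0 := coordFun_ne_zero_iff.2 hj
  have h1 : (⊤ : IntermediateField ℂ (FunField Q')) ≤ (algebraicClosure (FunField Q) (FunField Q')).restrictScalars ℂ := by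
    rw [← adjoin_ratio hcj, IntermediateField.adjoin_le_iff]
    rintro _ ⟨i, rfl⟩
    exact (h i).isIntegral
  refine ⟨fun x => ?_⟩
  have h2 : x ∈ (algebraicClosure (FunField Q) (FunField Q')).restrictScalars ℂ := h1 (IntermediateField.mem_top)
  exact (mem_algebraicClosure_iff.1 h2)

theorem strongly_up [P.IsPrime] [P'.IsPrime] (hP : Homog P) (hP' : Homog P') (hG : ∀ m, ∃ n, (G m).IsHomogeneous n) (hG' : ∀ m, ∃ n, (G' m).IsHomogeneous n)
    (hne : (locVar P' G').Nonempty) {k : ℕ} (hz : ∃ z : Fin k → FunField P, IsTranscendenceBasis ℂ z) (hz' : ∃ z : Fin k → FunField P', IsTranscendenceBasis ℂ z) (hp : IsDominantMap P P' G G' p)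
    {R : MvPolynomial (Fin (N + 1)) ℂ} {r : ℕ} (hR : R.IsHomogeneous r) (hRP : R ∉ P)
    (hst : ∀ (Q : Ideal (MvPolynomial (Fin (N + 1)) ℂ)) [Q.IsPrime], Homog Q → P ≤ Q → R ∉ Q → (locVar Q G).Nonempty → ∀ w, 1 ≤ w → (∃ z : Fin w → FunField Q, IsTranscendenceBasis ℂ z) →
      IsLogGeneralType (OnBd Q G (k := w))) :
    ∃ (R' : MvPolynomial (Fin (M + 1)) ℂ) (r' : ℕ), R'.IsHomogeneous r' ∧ R' ∉ P' ∧
      ∀ (Q' : Ideal (MvPolynomial (Fin (M + 1)) ℂ)) [Q'.IsPrime], Homog Q' → P' ≤ Q' → R' ∉ Q' → (locVar Q' G').Nonempty → ∀ w, 1 ≤ w → (∃ z : Fin w → FunField Q', IsTranscendenceBasis ℂ z) →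
        IsLogGeneralType (OnBd Q' G' (k := w)) := by
  obtain ⟨y₀, hy₀⟩ := hne
  have hne : (locVar P' G').Nonempty := ⟨y₀, hy₀⟩
  obtain ⟨z, hz1⟩ := hz
  obtain ⟨z', hz1'⟩ := hz'
  obtain ⟨j, hj⟩ := exists_coord hy₀
  choose m D₁ α hα hαP hrel using exists_eq hp hP' hG' hne hz1 hz1' hj
  obtain ⟨D, γ, hD, hγ, hv⟩ := exists_rep_pos hp hy₀
  have hmaps := hp.maps_iff hP' hG' hγ ⟨y₀, hy₀, hv⟩
  obtain ⟨k₀, hk₀⟩ : ∃ k, eval y₀.rep (γ k) ≠ 0 := by
    by_contra hcon
    push Not at hcon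
    exact hv (funext hcon)
  have hkP : γ k₀ ∉ P' := fun h1 => hk₀ (hy₀.1 _ h1 D (hγ.hom k₀))
  set B : MvPolynomial (Fin (N + 1)) ℂ := R * ∏ i, α i (Fin.last (m i)) with hB
  have hBhom : B.IsHomogeneous (r + ∑ i, D₁ i) := hR.mul (IsHomogeneous.prod _ _ _ fun i _ => hα i _)
  have hBP : B ∉ P := by
    intro h1
    rcases Ideal.IsPrime.mem_or_mem inferInstance h1 with h2 | h2
    · exact hRP h2
    · obtain ⟨i, -, h3⟩ := (Ideal.IsPrime.prod_mem_iff (p := P)).1 h2
      exact hαP i h3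
  set T : MvPolynomial (Fin (M + 1)) ℂ := aeval γ B * γ k₀ * X j with hT
  have hThom : T.IsHomogeneous (D * (r + ∑ i, D₁ i) + D + 1) := ((aeval_homog hγ.hom hBhom).mul (hγ.hom k₀)).mul (isHomogeneous_X ℂ j)
  have hTP : T ∉ P' := by
    intro h1
    rcases Ideal.IsPrime.mem_or_mem inferInstance h1 with h2 | h2
    · rcases Ideal.IsPrime.mem_or_mem inferInstance h2 with h3 | h3
      · exact hBP ((hmaps _ B hBhom).1 h3)
      · exact hkP h3
    · exact hj h2
  refine ⟨T, _, hThom, hTP, fun Q' _ hQ' hPQ' hTQ' hne' w hw hzw => ?_⟩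
  have hjQ : X j ∉ Q' := fun h => hTQ' (Ideal.mul_mem_left _ _ h)
  have hkQ : γ k₀ ∉ Q' := fun h => hTQ' (Ideal.mul_mem_right _ _ (Ideal.mul_mem_left _ _ h))
  have hBQ : aeval γ B ∉ Q' := fun h => hTQ' (Ideal.mul_mem_right _ _ (Ideal.mul_mem_right _ _ h))
  have hsub : locVar Q' G' ⊆ locVar P' G' := locVar_mono hPQ'
  set Q : Ideal (MvPolynomial (Fin (N + 1)) ℂ) := Q'.comap (aeval γ : MvPolynomial (Fin (N + 1)) ℂ →ₐ[ℂ] MvPolynomial (Fin (M + 1)) ℂ) with hQdef
  have hQprime : Q.IsPrime := Ideal.IsPrime.comap _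
  have hQ : Homog Q := homog_comap hD hγ.hom hQ'
  have hPQ : P ≤ Q := by
    intro F hF
    rw [hQdef, Ideal.mem_comap, ← MvPolynomial.sum_homogeneousComponent F, map_sum]
    exact Ideal.sum_mem _ fun n _ => hPQ' ((hmaps n _ (homogeneousComponent_isHomogeneous n F)).2 (hP F hF n))
  have hBQ' : B ∉ Q := fun h => hBQ h
  have hRQ : R ∉ Q := fun h => hBQ' (Ideal.mul_mem_right _ _ h)
  have hαQ : ∀ i, α i (Fin.last (m i)) ∉ Q := by
    intro i h
    apply hBQ'
    rw [hB]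
    refine Ideal.mul_mem_left _ _ ?_
    exact (Ideal.IsPrime.prod_mem_iff (p := Q)).2 ⟨i, Finset.mem_univ i, h⟩
  have hpQ : IsDominantMap Q Q' G G' p := dominant_comap hp hQ' hPQ' hG' hne' hγ hkQ
  obtain ⟨y₁, hy₁⟩ := hne'
  have hne' : (locVar Q' G').Nonempty := ⟨y₁, hy₁⟩
  have hγ' : Rep Q' G' p D γ := ⟨hγ.hom, fun y hy => hγ.rep y (hsub hy)⟩
  have hv' : ∃ y ∈ locVar Q' G', vals γ y.rep ≠ 0 := by
    by_contra hcon
    push Not at hcon
    exact hkQ (mem_of_open hQ' hG' hne' (hγ.hom k₀) fun y hy => congrFun (hcon y hy) k₀)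
  have hkQ' : X k₀ ∉ Q := by
    intro h
    rw [hQdef, Ideal.mem_comap, aeval_X] at h
    exact hkQ h
  -- the equations
  have hmem : ∀ i, ∑ l : Fin (m i + 1), aeval γ (α i l) * X i ^ (l : ℕ) * X j ^ (m i - (l : ℕ)) ∈ Q' := by
    intro i
    have hhom : (∑ l : Fin (m i + 1), aeval γ (α i l) * X i ^ (l : ℕ) * X j ^ (m i - (l : ℕ))).IsHomogeneous (D * D₁ i + m i) := by
      refine IsHomogeneous.sum _ _ _ fun l _ => ?_
      have h1 := ((aeval_homog hγ.hom (hα i l)).mul ((isHomogeneous_X ℂ i).pow (l : ℕ))).mul ((isHomogeneous_X ℂ j).pow (m i - (l : ℕ)))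
      have h2 : D * D₁ i + 1 * (l : ℕ) + 1 * (m i - (l : ℕ)) = D * D₁ i + m i := by
        have := l.is_le
        omega
      rwa [h2] at h1
    have h1 : γ k₀ * ∑ l : Fin (m i + 1), aeval γ (α i l) * X i ^ (l : ℕ) * X j ^ (m i - (l : ℕ)) ∈ Q' := by
      refine mem_of_open hQ' hG' hne' ((hγ.hom k₀).mul hhom) fun y hy => ?_
      unfold VanishesAt
      rw [map_mul]
      by_cases h2 : eval y.rep (γ k₀) = 0
      · rw [h2, zero_mul]
      have h3 : vals γ y.rep ≠ 0 := fun h => h2 (congrFun h k₀)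
      have h4 : p (Projectivization.mk ℂ y.rep y.rep_nonzero) = Projectivization.mk ℂ (vals γ y.rep) h3 := by
        rw [y.mk_rep, hγ.rep y (hsub hy) h3]
        unfold Pool.Agent.H7.Bir.rmap
        rw [dif_pos h3]
      have h5 := hrel i y.rep y.rep_nonzero (vals γ y.rep) h3 (by rw [y.mk_rep]; exact hsub hy) h4
      have h6 : eval y.rep (∑ l : Fin (m i + 1), aeval γ (α i l) * X i ^ (l : ℕ) * X j ^ (m i - (l : ℕ))) = 0 := by
        rw [← h5, map_sum]
        refine Finset.sum_congr rfl fun l _ => ?_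
        rw [map_mul, map_mul, map_pow, map_pow, eval_X, eval_X, Pool.Agent.H7.Bir.eval_comp]
      rw [h6, mul_zero]
    exact (Ideal.IsPrime.mem_or_mem inferInstance h1).resolve_left hkQ
  -- the dimensions
  obtain ⟨e, he⟩ := exists_compat hpQ hQ' hG' hne'
  have hzQ : ∃ z : Fin w → FunField Q, IsTranscendenceBasis ℂ z := by
    obtain ⟨zw, hzw⟩ := hzw
    let _ : Algebra (FunField Q) (FunField Q') := e.toRingHom.toAlgebra
    have _ : IsScalarTower ℂ (FunField Q) (FunField Q') := IsScalarTower.of_algebraMap_eq fun c => (e.commutes c).symm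
    have _ : Algebra.IsAlgebraic (FunField Q) (FunField Q') := isAlgebraic_of_ratio e hjQ fun i => isAlgebraic_ratio he hγ' hv' hjQ hkQ' hkQ (hα i) (hαQ i) (hmem i)
    exact exists_basis_down hzw
  exact logGT_up hpQ hQ' hG hG' hne' hzQ hzw (hst Q hQ hPQ hRQ ⟨p y₁, hpQ.maps y₁ hy₁⟩ w hw hzQ)

end Pool.Agent.LG
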