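import Pool.Agent.LG.Defs

/-!
# LG Pb: bound for the order of an algebraic element by the order of a polynomial

`h` satisfies `∑ C_i(x) h^i = 0` with polynomials `C_i`, not all `0`; divide by a power of `h`: `C_0 ≠ 0`.  `C_0(x) = - h (C_1(x) + C_2(x) h + …)`, the bracket has order `≥ 0` (it is not `0` because `C_0(x) ≠ 0`).  Compare
`exists_relation` in `H68/KR/KOD.lean`.  `p = C_0`.
-/

set_option autoImplicit false

open MvPolynomial
open Pool.Agent.H23 (RatForm regularForms PrimeDivisorOver fc dualDer)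

noncomputable section

namespace Pool.Agent.LG

variable {K : Type} [Field K] [Algebra ℂ K] {k n D : ℕ} {ι : Type}

open Classical in
/-- the additive valuation with values in `WithTop ℤ` of an integer valued valuation -/
private def avf {L : Type} [Field L] (ν : L → ℤ) (a : L) : WithTop ℤ := if a = 0 then ⊤ else ((ν a : ℤ) : WithTop ℤ)

private theorem avf_zero {L : Type} [Field L] (ν : L → ℤ) : avf ν (0 : L) = ⊤ := if_pos rfl

private theorem avf_ne {L : Type} [Field L] (ν : L → ℤ) {a : L} (ha : a ≠ 0) : avf ν a = ((ν a : ℤ) : WithTop ℤ) := if_neg ha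

private def av {L : Type} [Field L] [Algebra ℂ L] {ν : L → ℤ} (hν : IV L ν) : AddValuation L (WithTop ℤ) :=
  AddValuation.of (avf ν) (avf_zero ν)
    (by
      rw [avf_ne ν one_ne_zero]
      have h := hν.const 1 one_ne_zero
      rw [map_one] at h
      rw [h]
      rfl)
    (by
      intro a b
      by_cases ha : a = 0
      · subst ha
        rw [zero_add]
        exact min_le_right _ _
      by_cases hb : b = 0
      · subst hb
        rw [add_zero]
        exact min_le_left _ _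
      by_cases hab : a + b = 0
      · rw [hab, avf_zero]
        exact le_top
      rw [avf_ne ν ha, avf_ne ν hb, avf_ne ν hab, ← WithTop.coe_min]
      exact WithTop.coe_le_coe.2 (hν.add ha hb hab))
    (by
      intro a b
      by_cases ha : a = 0
      · subst ha
        rw [zero_mul, avf_zero, WithTop.top_add]
      by_cases hb : b = 0
      · subst hb
        rw [mul_zero, avf_zero, WithTop.add_top]
      rw [avf_ne ν ha, avf_ne ν hb, avf_ne ν (mul_ne_zero ha hb), hν.mul ha hb, WithTop.coe_add])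

private theorem av_ne {L : Type} [Field L] [Algebra ℂ L] {ν : L → ℤ} (hν : IV L ν) {a : L} (ha : a ≠ 0) : av hν a = ((ν a : ℤ) : WithTop ℤ) := avf_ne ν ha

private theorem av_nonneg {L : Type} [Field L] [Algebra ℂ L] {ν : L → ℤ} (hν : IV L ν) {a : L} (ha : a ≠ 0 → 0 ≤ ν a) : 0 ≤ av hν a := by
  by_cases h : a = 0
  · rw [h, AddValuation.map_zero]
    exact le_top
  · rw [av_ne hν h]
    exact WithTop.coe_le_coe.2 (ha h)

private theorem av_aeval {L : Type} [Field L] [Algebra ℂ L] {ν : L → ℤ} (hν : IV L ν) {m : ℕ} {x : Fin m → L} (h0 : ∀ i, x i ≠ 0 → 0 ≤ ν (x i)) (p : MvPolynomial (Fin m) ℂ) :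
    0 ≤ av hν (aeval x p) := by
  induction p using MvPolynomial.induction_on with
  | C a =>
    rw [MvPolynomial.aeval_C]
    refine av_nonneg hν fun ha => ?_
    rw [hν.const a]
    rintro rfl
    exact ha (map_zero _)
  | add p q hp hq =>
    rw [map_add]
    exact (av hν).map_le_add hp hq
  | mul_X p i hp =>
    rw [map_mul, MvPolynomial.aeval_X, (av hν).map_mul]
    exact add_nonneg hp (av_nonneg hν (h0 i))

theorem iv_aeval_nonneg {L : Type} [Field L] [Algebra ℂ L] {ν : L → ℤ} (hν : IV L ν) {m : ℕ} {x : Fin m → L} (h0 : ∀ i, x i ≠ 0 → 0 ≤ ν (x i)) (p : MvPolynomial (Fin m) ℂ) (hp : aeval x p ≠ 0) :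
    0 ≤ ν (aeval x p) := by
  have h := av_aeval hν h0 p
  rw [av_ne hν hp] at h
  exact WithTop.coe_le_coe.1 h

private theorem exists_rel {L : Type} [Field L] [Algebra ℂ L] {m : ℕ} {x : Fin m → L} (hx : AlgebraicIndependent ℂ x) {h : L} (halg : IsAlgebraic (Algebra.adjoin ℂ (Set.range x)) h) :
    ∃ F : Polynomial (MvPolynomial (Fin m) ℂ), F ≠ 0 ∧ F.eval₂ (MvPolynomial.aeval x).toRingHom h = 0 := by
  obtain ⟨p, hp, hph⟩ := halg
  refine ⟨p.map hx.aevalEquiv.symm.toRingEquiv.toRingHom, ?_, ?_⟩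
  · have hinj : Function.Injective hx.aevalEquiv.symm.toRingEquiv.toRingHom := hx.aevalEquiv.symm.injective
    exact (Polynomial.map_ne_zero_iff hinj).2 hp
  · rw [Polynomial.eval₂_map]
    have hc : ((MvPolynomial.aeval x).toRingHom : MvPolynomial (Fin m) ℂ →+* L).comp hx.aevalEquiv.symm.toRingEquiv.toRingHom =
        algebraMap (Algebra.adjoin ℂ (Set.range x)) L := by
      ext y
      obtain ⟨q, rfl⟩ := hx.aevalEquiv.surjective y
      have h1 : hx.aevalEquiv.symm.toRingEquiv.toRingHom (hx.aevalEquiv q) = q := hx.aevalEquiv.symm_apply_apply q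
      rw [RingHom.comp_apply, h1, hx.algebraMap_aevalEquiv q]
      rfl
    rw [hc]
    exact hph

theorem exists_pbound {L : Type} [Field L] [Algebra ℂ L] {m : ℕ} {x : Fin m → L} (hx : AlgebraicIndependent ℂ x) {h : L} (hh : h ≠ 0) (halg : IsAlgebraic (Algebra.adjoin ℂ (Set.range x)) h) :
    ∃ p : MvPolynomial (Fin m) ℂ, p ≠ 0 ∧ ∀ ν : L → ℤ, IV L ν → (∀ i, x i ≠ 0 → 0 ≤ ν (x i)) → 0 ≤ ν h → ν h ≤ ν (aeval x p) := by
  obtain ⟨F, hF, hFh⟩ := exists_rel hx halg
  obtain ⟨G, hG0, hGh⟩ : ∃ G : Polynomial (MvPolynomial (Fin m) ℂ), G.coeff 0 ≠ 0 ∧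
      G.eval₂ (MvPolynomial.aeval x).toRingHom h = 0 := by
    obtain ⟨G, hG⟩ := Polynomial.exists_eq_pow_rootMultiplicity_mul_and_not_dvd F hF 0
    rw [map_zero, sub_zero] at hG
    refine ⟨G, fun h1 => hG.2 (Polynomial.X_dvd_iff.2 h1), ?_⟩
    rw [hG.1, Polynomial.eval₂_mul, Polynomial.eval₂_pow, Polynomial.eval₂_X] at hFh
    exact (mul_eq_zero.1 hFh).resolve_left (pow_ne_zero _ hh)
  refine ⟨G.coeff 0, hG0, fun ν hν hxv hhv => ?_⟩
  have hp0 : aeval x (G.coeff 0) ≠ 0 := fun h1 => hG0 ((injective_iff_map_eq_zero _).1 hx _ h1)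
  have h1 : G.eval₂ (MvPolynomial.aeval x).toRingHom h =
      MvPolynomial.aeval x (G.coeff 0) +
        h * G.divX.eval₂ (MvPolynomial.aeval x).toRingHom h := by
    conv_lhs => rw [← Polynomial.divX_mul_X_add G]
    rw [Polynomial.eval₂_add, Polynomial.eval₂_mul, Polynomial.eval₂_X, Polynomial.eval₂_C]
    rw [add_comm, mul_comm]
    rfl
  rw [h1] at hGh
  have h2 : 0 ≤ av hν (G.divX.eval₂ (MvPolynomial.aeval x).toRingHom h) := by
    rw [Polynomial.eval₂_eq_sum_range]
    refine AddValuation.map_le_sum (av hν) fun i _ => ?_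
    rw [(av hν).map_mul, (av hν).map_pow]
    exact add_nonneg (av_aeval hν hxv _) (nsmul_nonneg (av_nonneg hν fun _ => hhv) i)
  have h3 : av hν h ≤ av hν (aeval x (G.coeff 0)) := by
    rw [eq_neg_of_add_eq_zero_left hGh, (av hν).map_neg, (av hν).map_mul]
    exact le_add_of_nonneg_right h2
  rw [av_ne hν hh, av_ne hν hp0] at h3
  exact WithTop.coe_le_coe.1 h3

end Pool.Agent.LG
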