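import Pool.Agent.LG.Defs

/-!
# LG Wt: expansion of an exterior product

* `exists_term`: expand the multilinear `wd η` (`MultilinearMap.map_sum`, `MultilinearMap.map_smul_univ`): `wd η = ∑_J (∏ M i (J i)) • wd (ζ i (J i))`; `o` of a sum of nonzero terms is at least the minimum (induction over the finite
  set of the nonzero terms, `FV.addf`), so some nonzero term has `o (∏ M • wd …) ≤ o (wd η)`, and `o (∏ M • wd …) = ∑ v (M i (J i)) + o (wd …) ≥ o (wd …)`.
* `exists_term'`: some term of the expansion is not `0`.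
-/

set_option autoImplicit false

open MvPolynomial
open Pool.Agent.H23 (RatForm regularForms PrimeDivisorOver fc dualDer)

noncomputable section

namespace Pool.Agent.LG

variable {K : Type} [Field K] [Algebra ℂ K] {k n D : ℕ} {ι : Type}

private theorem wt_expand {β : Type} [Fintype β] {η : Fin n → Ω[K⁄ℂ]} {M : Fin n → β → K} {ζ : Fin n → β → Ω[K⁄ℂ]}
    (hη : ∀ i, η i = ∑ b, M i b • ζ i b) :
    wd η = ∑ J : Fin n → β, (∏ i, M i (J i)) • wd (fun i => ζ i (J i)) := by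
  classical
  have h1 : η = fun i => ∑ b, M i b • ζ i b := funext hη
  have h2 : wd η = (exteriorPower.ιMulti K n).toMultilinearMap (fun i => ∑ b, M i b • ζ i b) := by
    rw [h1]; rfl
  rw [h2, MultilinearMap.map_sum]
  refine Finset.sum_congr rfl fun J _ => ?_
  rw [MultilinearMap.map_smul_univ]
  rfl

private theorem wt_sum {v : K → ℤ} {o : RatForm K n → ℤ} (h : FV n v o) {α : Type} (s : Finset α) (T : α → RatForm K n)
    (hs : ∑ a ∈ s, T a ≠ 0) : ∃ a ∈ s, T a ≠ 0 ∧ o (T a) ≤ o (∑ a ∈ s, T a) := by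
  classical
  induction s using Finset.induction_on with
  | empty => exact absurd Finset.sum_empty hs
  | insert a s ha ih =>
    rw [Finset.sum_insert ha] at hs ⊢
    by_cases h1 : T a = 0
    · rw [h1, zero_add] at hs ⊢
      obtain ⟨b, hb, hb1, hb2⟩ := ih hs
      exact ⟨b, Finset.mem_insert_of_mem hb, hb1, hb2⟩
    by_cases h2 : ∑ a ∈ s, T a = 0
    · rw [h2, add_zero]
      exact ⟨a, Finset.mem_insert_self a s, h1, le_rfl⟩
    obtain ⟨b, hb, hb1, hb2⟩ := ih h2
    have h3 := h.addf h1 h2 hs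
    rcases min_le_iff.1 h3 with h4 | h4
    · exact ⟨a, Finset.mem_insert_self a s, h1, h4⟩
    · exact ⟨b, Finset.mem_insert_of_mem hb, hb1, hb2.trans h4⟩

private theorem wt_one {v : K → ℤ} (hv : IV K v) : v 1 = 0 := by
  simpa using hv.const 1 one_ne_zero

private theorem wt_prod {v : K → ℤ} (hv : IV K v) {α : Type} (s : Finset α) (a : α → K) (h0 : ∀ i ∈ s, a i ≠ 0)
    (h : ∀ i ∈ s, 0 ≤ v (a i)) : 0 ≤ v (∏ i ∈ s, a i) := by
  classical
  induction s using Finset.induction_on with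
  | empty => rw [Finset.prod_empty, wt_one hv]
  | insert i s hi ih =>
    rw [Finset.prod_insert hi]
    have h1 : ∏ i ∈ s, a i ≠ 0 := Finset.prod_ne_zero_iff.2 fun j hj => h0 j (Finset.mem_insert_of_mem hj)
    rw [hv.mul (h0 i (Finset.mem_insert_self i s)) h1]
    have h2 := ih (fun j hj => h0 j (Finset.mem_insert_of_mem hj)) (fun j hj => h j (Finset.mem_insert_of_mem hj))
    have h3 := h i (Finset.mem_insert_self i s)
    omega

theorem exists_term {v : K → ℤ} {o : RatForm K n → ℤ} (h : FV n v o) {β : Type} [Fintype β] {η : Fin n → Ω[K⁄ℂ]} {M : Fin n → β → K} {ζ : Fin n → β → Ω[K⁄ℂ]}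
    (hη : ∀ i, η i = ∑ b, M i b • ζ i b) (hM : ∀ i b, M i b ≠ 0 → 0 ≤ v (M i b)) (hne : wd η ≠ 0) : ∃ J : Fin n → β, wd (fun i => ζ i (J i)) ≠ 0 ∧ o (wd fun i => ζ i (J i)) ≤ o (wd η) := by
  classical
  have h1 := wt_expand hη
  have h2 : ∑ J : Fin n → β, (∏ i, M i (J i)) • wd (fun i => ζ i (J i)) ≠ 0 := by rwa [← h1]
  obtain ⟨J, -, hJ1, hJ2⟩ := wt_sum h Finset.univ _ h2
  rw [← h1] at hJ2
  have h3 : ∏ i, M i (J i) ≠ 0 := left_ne_zero_of_smul hJ1
  have h4 : wd (fun i => ζ i (J i)) ≠ 0 := right_ne_zero_of_smul hJ1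
  refine ⟨J, h4, ?_⟩
  rw [h.smul h3 h4] at hJ2
  have h5 := wt_prod h.toIV Finset.univ (fun i => M i (J i)) (fun i hi => Finset.prod_ne_zero_iff.1 h3 i hi)
    (fun i hi => hM _ _ (Finset.prod_ne_zero_iff.1 h3 i hi))
  have h6 : 0 ≤ v (∏ i, M i (J i)) := h5
  omega

/-- without valuations -/
theorem exists_term' {β : Type} [Fintype β] {η : Fin n → Ω[K⁄ℂ]} {M : Fin n → β → K} {ζ : Fin n → β → Ω[K⁄ℂ]} (hη : ∀ i, η i = ∑ b, M i b • ζ i b) (hne : wd η ≠ 0) :
    ∃ J : Fin n → β, wd (fun i => ζ i (J i)) ≠ 0 := by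
  classical
  by_contra hcon
  push Not at hcon
  apply hne
  rw [wt_expand hη]
  refine Finset.sum_eq_zero fun J _ => ?_
  rw [hcon J, smul_zero]


end Pool.Agent.LG
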