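import Pool.Agent.LG.Vb
import Pool.Agent.LG.Wt
import Pool.Agent.LG.Pb

/-!
# LG C1: case I (the map to the torus is generically finite)

For `c` with `X c ≠ 0` and `J : Fin (k + 1) → ι` with `wd (dd (X (J i) / X c)) ≠ 0` the `x i = X (J i) / X c` are a transcendence basis (`basis_of_wd`), so `φ = F / X c` and `φ' = F / (X c w^D)` are algebraic over them:
polynomials `p`, `p'` by `exists_pbound`.  `N` = the maximum of `1` and of all their degrees (finitely many `c, J`).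
Given `v, o, c`: `exists_term` (`CH.mat`) gives `J` with `o (dx_J) ≤ o ω`.  If `v w ≥ 0` then `v φ ≥ 0` (a sum of products of elements of order `≥ 0`), else `v φ' ≥ 0`; `v_le_one`, and `0 ≤ o (dx_J)` (`FV.reg`).
`v 1 = 0` (`IV.const`).
-/

set_option autoImplicit false

open MvPolynomial
open Pool.Agent.H23 (RatForm regularForms PrimeDivisorOver fc dualDer)

noncomputable section

namespace Pool.Agent.LG

variable {K : Type} [Field K] [Algebra ℂ K] {k n D : ℕ} {ι : Type}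

private theorem c1_one {v : K → ℤ} (hv : IV K v) : v 1 = 0 := by
  have h := hv.const 1 one_ne_zero
  rwa [map_one] at h

private theorem c1_inv {v : K → ℤ} (hv : IV K v) {a : K} (ha : a ≠ 0) : v a⁻¹ = - v a := by
  have h := hv.mul ha (inv_ne_zero ha)
  rw [mul_inv_cancel₀ ha, c1_one hv] at h
  omega

private theorem c1_div {v : K → ℤ} (hv : IV K v) {a b : K} (ha : a ≠ 0) (hb : b ≠ 0) : v (a / b) = v a - v b := by
  rw [div_eq_mul_inv, hv.mul ha (inv_ne_zero hb), c1_inv hv hb]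
  ring

private theorem c1_pow {v : K → ℤ} (hv : IV K v) {a : K} (ha : a ≠ 0) (m : ℕ) : v (a ^ m) = m * v a := by
  induction m with
  | zero => simp [c1_one hv]
  | succ m ih =>
    rw [pow_succ, hv.mul (pow_ne_zero m ha) ha, ih]
    push_cast
    ring

private theorem c1_sum {v : K → ℤ} (hv : IV K v) {β : Type} (s : Finset β) (a : β → K) (h0 : ∀ b ∈ s, a b ≠ 0 → 0 ≤ v (a b)) (hs : ∑ b ∈ s, a b ≠ 0) : 0 ≤ v (∑ b ∈ s, a b) := by
  classical
  induction s using Finset.induction_on with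
  | empty => simp at hs
  | insert b s hb ih =>
    rw [Finset.sum_insert hb] at hs ⊢
    have h0' : ∀ b ∈ s, a b ≠ 0 → 0 ≤ v (a b) := fun b' hb' => h0 b' (Finset.mem_insert_of_mem hb')
    by_cases h1 : a b = 0
    · rw [h1, zero_add] at hs ⊢
      exact ih h0' hs
    · by_cases h2 : ∑ b ∈ s, a b = 0
      · rw [h2, add_zero]
        exact h0 b (Finset.mem_insert_self b s) h1
      · have h3 := hv.add h1 h2 hs
        have h4 := h0 b (Finset.mem_insert_self b s) h1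
        have h5 := ih h0' h2
        exact le_trans (le_min h4 h5) h3

/-- `F / X c` has order `≥ 0` if `v w ≥ 0` -/
private theorem c1_phi (S : Dat K ι n D) {v : K → ℤ} (hv : IV K v) {c : ι} (hc : S.X c ≠ 0) (hle : ∀ b, S.X b ≠ 0 → v (S.X c) ≤ v (S.X b)) (hF : S.F ≠ 0) (hw : S.w ≠ 0) (hw0 : 0 ≤ v S.w) :
    0 ≤ v (S.F / S.X c) := by
  have h1 : S.F / S.X c = ∑ i : Fin (D + 1), (S.X (S.cf i) / S.X c) * S.w ^ (i : ℕ) := by
    rw [Dat.F, Finset.sum_div]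
    refine Finset.sum_congr rfl fun i _ => ?_
    ring
  have h2 : S.F / S.X c ≠ 0 := div_ne_zero hF hc
  rw [h1] at h2 ⊢
  refine c1_sum hv _ _ (fun i _ hi => ?_) h2
  have h3 : S.X (S.cf i) ≠ 0 := by
    intro h
    rw [h, zero_div, zero_mul] at hi
    exact hi rfl
  rw [hv.mul (div_ne_zero h3 hc) (pow_ne_zero _ hw), c1_div hv h3 hc, c1_pow hv hw]
  have h4 := hle _ h3
  have h5 : 0 ≤ ((i : ℕ) : ℤ) * v S.w := mul_nonneg (Int.natCast_nonneg _) hw0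
  omega

/-- `F / (X c w^D)` has order `≥ 0` if `v w ≤ 0` -/
private theorem c1_phi' (S : Dat K ι n D) {v : K → ℤ} (hv : IV K v) {c : ι} (hc : S.X c ≠ 0) (hle : ∀ b, S.X b ≠ 0 → v (S.X c) ≤ v (S.X b)) (hF : S.F ≠ 0) (hw : S.w ≠ 0) (hw0 : v S.w ≤ 0) :
    0 ≤ v (S.F / (S.X c * S.w ^ D)) := by
  have h1 : S.F / (S.X c * S.w ^ D) = ∑ i : Fin (D + 1), (S.X (S.cf i) / S.X c) * (S.w⁻¹) ^ (D - (i : ℕ)) := by
    rw [Dat.F, Finset.sum_div]
    refine Finset.sum_congr rfl fun i _ => ?_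
    have hi : (i : ℕ) ≤ D := Nat.lt_succ_iff.1 i.2
    have h2 : S.w ^ D = S.w ^ (i : ℕ) * S.w ^ (D - (i : ℕ)) := by
      rw [← pow_add]
      congr 1
      omega
    rw [h2, inv_pow]
    have h3 : S.w ^ (i : ℕ) ≠ 0 := pow_ne_zero _ hw
    have h4 : S.w ^ (D - (i : ℕ)) ≠ 0 := pow_ne_zero _ hw
    field_simp
  have h2 : S.F / (S.X c * S.w ^ D) ≠ 0 := div_ne_zero hF (mul_ne_zero hc (pow_ne_zero _ hw))
  rw [h1] at h2 ⊢
  refine c1_sum hv _ _ (fun i _ hi => ?_) h2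
  have h3 : S.X (S.cf i) ≠ 0 := by
    intro h
    rw [h, zero_div, zero_mul] at hi
    exact hi rfl
  rw [hv.mul (div_ne_zero h3 hc) (pow_ne_zero _ (inv_ne_zero hw)), c1_div hv h3 hc, c1_pow hv (inv_ne_zero hw), c1_inv hv hw]
  have h4 := hle _ h3
  have h5 : 0 ≤ ((D - (i : ℕ) : ℕ) : ℤ) * (- v S.w) := mul_nonneg (Int.natCast_nonneg _) (by omega)
  omega

/-- the polynomials -/
private theorem c1_pol {z : Fin (k + 1) → K} (hz : IsTranscendenceBasis ℂ z) {x : Fin (k + 1) → K} {g : K} (hg : g ≠ 0) :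
    ∃ m : ℕ, wd (fun i => dd (x i)) ≠ 0 → ∀ (v : K → ℤ) (o : RatForm K (k + 1) → ℤ), FV (k + 1) v o → (∀ i, x i ≠ 0 → 0 ≤ v (x i)) → 0 ≤ v g →
      v g ≤ m * (o (wd fun i => dd (x i)) + 1) := by
  by_cases hx : wd (fun i => dd (x i)) ≠ 0
  · have hb := basis_of_wd hz hx
    have halg : IsAlgebraic (Algebra.adjoin ℂ (Set.range x)) g := by
      have := hb.isAlgebraic
      exact this.isAlgebraic g
    obtain ⟨p, hp, hpb⟩ := exists_pbound hb.1 hg halg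
    refine ⟨p.totalDegree, fun _ v o h h0 hvg => ?_⟩
    have h1 := hpb v h.toIV h0 hvg
    have h0' : ∀ i, 0 ≤ v (x i) := fun i => h0 i (hb.1.ne_zero i)
    exact h1.trans (v_le_one hx h h0' hp)
  · exact ⟨0, fun h => absurd h hx⟩

theorem caseI {z : Fin (k + 1) → K} (hz : IsTranscendenceBasis ℂ z) [Fintype ι] (S : Dat K ι n D) (hF : S.F ≠ 0) (hw : S.w ≠ 0) (I : Fin (k + 1) → Fin n)
    (hI : wd (fun i => S.δ (I i)) ≠ 0) : ∃ N : ℤ, 1 ≤ N ∧ Bd S 1 1 (wd fun i => S.δ (I i)) N := by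
  classical
  have hp1 : ∀ (q : ι × (Fin (k + 1) → ι)), ∃ m : ℕ, S.X q.1 ≠ 0 → wd (fun i => dd (S.X (q.2 i) / S.X q.1)) ≠ 0 → ∀ (v : K → ℤ) (o : RatForm K (k + 1) → ℤ), FV (k + 1) v o →
      (∀ i, S.X (q.2 i) / S.X q.1 ≠ 0 → 0 ≤ v (S.X (q.2 i) / S.X q.1)) → 0 ≤ v (S.F / S.X q.1) → v (S.F / S.X q.1) ≤ m * (o (wd fun i => dd (S.X (q.2 i) / S.X q.1)) + 1) := by
    intro q
    by_cases hc : S.X q.1 ≠ 0
    · obtain ⟨m, hm⟩ := c1_pol hz (x := fun i => S.X (q.2 i) / S.X q.1) (div_ne_zero hF hc)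
      exact ⟨m, fun _ => hm⟩
    · exact ⟨0, fun h => absurd h hc⟩
  have hp2 : ∀ (q : ι × (Fin (k + 1) → ι)), ∃ m : ℕ, S.X q.1 ≠ 0 → wd (fun i => dd (S.X (q.2 i) / S.X q.1)) ≠ 0 → ∀ (v : K → ℤ) (o : RatForm K (k + 1) → ℤ), FV (k + 1) v o →
      (∀ i, S.X (q.2 i) / S.X q.1 ≠ 0 → 0 ≤ v (S.X (q.2 i) / S.X q.1)) → 0 ≤ v (S.F / (S.X q.1 * S.w ^ D)) →
        v (S.F / (S.X q.1 * S.w ^ D)) ≤ m * (o (wd fun i => dd (S.X (q.2 i) / S.X q.1)) + 1) := by
    intro q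
    by_cases hc : S.X q.1 ≠ 0
    · obtain ⟨m, hm⟩ := c1_pol hz (x := fun i => S.X (q.2 i) / S.X q.1) (div_ne_zero hF (mul_ne_zero hc (pow_ne_zero D hw)))
      exact ⟨m, fun _ => hm⟩
    · exact ⟨0, fun h => absurd h hc⟩
  choose m1 hm1 using hp1
  choose m2 hm2 using hp2
  have hterm : ∀ (v : K → ℤ) (o : RatForm K (k + 1) → ℤ), FV (k + 1) v o → ∀ c, CH S v c →
      ∃ J : Fin (k + 1) → ι, wd (fun i => dd (S.X (J i) / S.X c)) ≠ 0 ∧ (∀ i, S.X (J i) / S.X c ≠ 0 → 0 ≤ v (S.X (J i) / S.X c)) ∧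
        0 ≤ o (wd fun i => dd (S.X (J i) / S.X c)) ∧ o (wd fun i => dd (S.X (J i) / S.X c)) ≤ o (wd fun i => S.δ (I i)) := by
    intro v o h c hc
    obtain ⟨M, hM, hδ⟩ := hc.mat
    obtain ⟨J, hJ, hJo⟩ := exists_term h (η := fun i => S.δ (I i)) (M := fun i b => M (I i) b) (ζ := fun _ b => dd (S.X b / S.X c)) (fun i => hδ (I i)) (fun i b => hM (I i) b) hI
    have h0 : ∀ i, S.X (J i) / S.X c ≠ 0 → 0 ≤ v (S.X (J i) / S.X c) := by
      intro i hi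
      have h1 : S.X (J i) ≠ 0 := by
        intro h'
        rw [h', zero_div] at hi
        exact hi rfl
      rw [c1_div h.toIV h1 hc.ne]
      have := hc.le _ h1
      omega
    exact ⟨J, hJ, h0, h.reg _ h0 hJ, hJo⟩
  refine ⟨1 + ((∑ q : ι × (Fin (k + 1) → ι), (m1 q + m2 q) : ℕ) : ℤ), by omega, ⟨?_, ?_⟩⟩
  · intro v o h _ c hc
    obtain ⟨J, hJ, h0, hnn, hle⟩ := hterm v o h c hc
    have hq : ((m1 (c, J) : ℕ) : ℤ) ≤ 1 + ((∑ q : ι × (Fin (k + 1) → ι), (m1 q + m2 q) : ℕ) : ℤ) ∧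
        ((m2 (c, J) : ℕ) : ℤ) ≤ 1 + ((∑ q : ι × (Fin (k + 1) → ι), (m1 q + m2 q) : ℕ) : ℤ) := by
      have h1 : m1 (c, J) + m2 (c, J) ≤ ∑ q : ι × (Fin (k + 1) → ι), (m1 q + m2 q) :=
        Finset.single_le_sum (f := fun q : ι × (Fin (k + 1) → ι) => m1 q + m2 q) (fun _ _ => Nat.zero_le _) (Finset.mem_univ (c, J))
      constructor <;> omega
    set N : ℤ := 1 + ((∑ q : ι × (Fin (k + 1) → ι), (m1 q + m2 q) : ℕ) : ℤ) with hN
    have hN0 : 0 ≤ N := by omega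
    have hmain : ∀ m : ℤ, m ≤ N → ∀ t : ℤ, t ≤ m * (o (wd fun i => dd (S.X (J i) / S.X c)) + 1) → t ≤ N * (v 1 + ((1 : ℕ) : ℤ) * (o (wd fun i => S.δ (I i)) + 1)) := by
      intro m hm t ht
      rw [c1_one h.toIV]
      have h1 : m * (o (wd fun i => dd (S.X (J i) / S.X c)) + 1) ≤ N * (o (wd fun i => dd (S.X (J i) / S.X c)) + 1) :=
        mul_le_mul_of_nonneg_right hm (by omega)
      have h2 : N * (o (wd fun i => dd (S.X (J i) / S.X c)) + 1) ≤ N * (o (wd fun i => S.δ (I i)) + 1) :=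
        mul_le_mul_of_nonneg_left (by omega) hN0
      push_cast
      rw [zero_add, one_mul]
      exact ht.trans (h1.trans h2)
    by_cases hw0 : 0 ≤ v S.w
    · have h1 := c1_phi S h.toIV hc.ne hc.le hF hw hw0
      have h2 := hm1 (c, J) hc.ne hJ v o h h0 h1
      refine hmain _ hq.1 _ ?_
      rw [min_eq_left hw0, mul_zero, sub_zero]
      rwa [c1_div h.toIV hF hc.ne] at h2
    · have h1 := c1_phi' S h.toIV hc.ne hc.le hF hw (by omega)
      have h2 := hm2 (c, J) hc.ne hJ v o h h0 h1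
      refine hmain _ hq.2 _ ?_
      rw [min_eq_right (by omega)]
      dsimp only at h2
      rw [c1_div h.toIV hF (mul_ne_zero hc.ne (pow_ne_zero _ hw)), h.mul hc.ne (pow_ne_zero _ hw), c1_pow h.toIV hw] at h2
      calc v S.F - v (S.X c) - D * v S.w = v S.F - (v (S.X c) + D * v S.w) := by ring
        _ ≤ _ := h2
  · intro v o h _ c hc _
    obtain ⟨J, hJ, h0, hnn, hle⟩ := hterm v o h c hc
    rw [c1_one h.toIV]
    push_cast
    omega

end Pool.Agent.LG
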