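import Pool.Agent.LG.Wd
import Pool.Agent.LG.Wt

/-!
# LG Ci: choice of the form

* `exists_I1`: `K` is algebraic over `ℂ(X)`: there is a transcendence basis of `K` in `Set.range X` (`exists_isTranscendenceBasis_subset`-like), it has `k + 1` elements `X (b i)`; `wd_ne_of_basis`; `dd (X b) ∈ span (δ)` and `exists_term'`.
* `exists_I2`: the same with `w` (transcendental over `ℂ(X)`): a transcendence basis `X (b 1), …, X (b k)` of `ℂ(X)`, followed by `w`, is one of `K`.
-/

set_option autoImplicit false

open MvPolynomial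
open Pool.Agent.H23 (RatForm regularForms PrimeDivisorOver fc dualDer)

noncomputable section

namespace Pool.Agent.LG

variable {K : Type} [Field K] [Algebra ℂ K] {k n D : ℕ} {ι : Type}

open scoped IntermediateField.algebraAdjoinAdjoin in
private theorem ci_alg (s : Set K) (h : Algebra.IsAlgebraic (IntermediateField.adjoin ℂ s) K) :
    Algebra.IsAlgebraic (Algebra.adjoin ℂ s) K :=
  Algebra.IsAlgebraic.trans (Algebra.adjoin ℂ s) (IntermediateField.adjoin ℂ s) K

theorem exists_I1 {z : Fin (k + 1) → K} (hz : IsTranscendenceBasis ℂ z) [Fintype ι] (S : Dat K ι n D) (halg : Algebra.IsAlgebraic (IntermediateField.adjoin ℂ (Set.range S.X)) K)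
    (hspan : ∀ a, dd (S.X a) ∈ Submodule.span K (Set.range S.δ)) : ∃ I : Fin (k + 1) → Fin n, wd (fun i => S.δ (I i)) ≠ 0 := by
  classical
  have := ci_alg _ halg
  obtain ⟨t, ht, hb⟩ := exists_isTranscendenceBasis_subset (R := ℂ) (Set.range S.X)
  obtain ⟨e⟩ := Cardinal.eq.mp (hz.cardinalMk_eq hb)
  have hb' : IsTranscendenceBasis ℂ (fun i : Fin (k + 1) => ((e i : t) : K)) := hb.comp_equiv e
  have hne := wd_ne_of_basis hb'
  have hM : ∀ i : Fin (k + 1), ∃ c : Fin n → K, ∑ j, c j • S.δ j = dd ((e i : t) : K) := by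
    intro i
    obtain ⟨a, ha⟩ := ht (e i).2
    rw [← ha]
    exact (Submodule.mem_span_range_iff_exists_fun K).mp (hspan a)
  choose M hM using hM
  exact exists_term' (ζ := fun _ j => S.δ j) (fun i => (hM i).symm) hne

theorem exists_I2 {z : Fin (k + 1) → K} (hz : IsTranscendenceBasis ℂ z) [Fintype ι] (S : Dat K ι n D)
    (halg : Algebra.IsAlgebraic (IntermediateField.adjoin ℂ (insert S.w (Set.range S.X))) K) (htr : Transcendental (IntermediateField.adjoin ℂ (Set.range S.X)) S.w)
    (hspan : ∀ a, dd (S.X a) ∈ Submodule.span K (Set.range S.δ)) : ∃ I : Fin k → Fin n, wd (sn (fun i => S.δ (I i)) (dd S.w)) ≠ 0 := by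
  classical
  have := ci_alg _ halg
  have hw : Transcendental ℂ S.w :=
    htr.restrictScalars (algebraMap ℂ (IntermediateField.adjoin ℂ (Set.range S.X))).injective
  have hs : AlgebraicIndepOn ℂ id ({S.w} : Set K) := by
    refine (algebraicIndependent_singleton_iff (⟨S.w, rfl⟩ : ({S.w} : Set K))).mpr ?_
    exact hw
  obtain ⟨t, hst, ht, hb⟩ := exists_isTranscendenceBasis_between (R := ℂ) ({S.w} : Set K)
    (insert S.w (Set.range S.X)) (by simp) hs
  have hwt : S.w ∈ t := hst rfl
  obtain ⟨e₀⟩ := Cardinal.eq.mp (hz.cardinalMk_eq hb)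
  -- the last element is `w`
  let e : Fin (k + 1) ≃ t := (Equiv.swap (Fin.last k) (e₀.symm ⟨S.w, hwt⟩)).trans e₀
  have hlast : e (Fin.last k) = ⟨S.w, hwt⟩ := by simp [e]
  have hb' : IsTranscendenceBasis ℂ (fun i : Fin (k + 1) => ((e i : t) : K)) := hb.comp_equiv e
  have hne := wd_ne_of_basis hb'
  have hM : ∀ i : Fin k, ∃ c : Fin n → K, ∑ j, c j • S.δ j = dd ((e i.castSucc : t) : K) := by
    intro i
    have h1 : ((e i.castSucc : t) : K) ∈ Set.range S.X := by
      rcases ht (e i.castSucc).2 with h | h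
      · exfalso
        have h2 : e i.castSucc = e (Fin.last k) := by
          rw [hlast]; exact Subtype.ext h
        have h3 := e.injective h2
        exact absurd h3 (Fin.castSucc_lt_last i).ne
      · exact h
    obtain ⟨a, ha⟩ := h1
    rw [← ha]
    exact (Submodule.mem_span_range_iff_exists_fun K).mp (hspan a)
  choose M hM using hM
  obtain ⟨J, hJ⟩ := exists_term' (K := K) (n := k + 1) (β := Option (Fin n))
    (η := fun i => dd ((e i : t) : K))
    (M := fun i => Fin.lastCases (motive := fun _ => Option (Fin n) → K) (fun b => if b = none then 1 else 0)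
      (fun i b => b.elim 0 (M i)) i)
    (ζ := fun i => Fin.lastCases (motive := fun _ => Option (Fin n) → Ω[K⁄ℂ]) (fun _ => dd S.w)
      (fun _ b => b.elim 0 S.δ) i) (by
      intro i
      refine Fin.lastCases ?_ (fun i => ?_) i
      · simp [hlast]
      · simp [Fintype.sum_option, hM]) hne
  have hJ' : ∀ i : Fin k, ∃ j : Fin n, J i.castSucc = some j := by
    intro i
    rcases hi : J i.castSucc with _ | j
    · exfalso
      apply hJ
      refine (exteriorPower.ιMulti K (k + 1)).map_coord_zero i.castSucc ?_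
      simp [hi]
    · exact ⟨j, rfl⟩
  choose I hI using hJ'
  refine ⟨I, ?_⟩
  have heq : sn (fun i => S.δ (I i)) (dd S.w) = fun i : Fin (k + 1) =>
      Fin.lastCases (motive := fun _ => Option (Fin n) → Ω[K⁄ℂ]) (fun _ => dd S.w)
      (fun _ b => b.elim 0 S.δ) i (J i) := by
    funext i
    refine Fin.lastCases ?_ (fun i => ?_) i
    · simp [sn]
    · simp [sn, hI]
  rw [heq]
  exact hJ

end Pool.Agent.LG
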