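import Pool.Agent.H45.LG.CaseII

/-!
# LG Rv: case II

`Pool.Agent.H45.LG.caseII` with the hypothesis `Dat.Three`.
-/

set_option autoImplicit false

open MvPolynomial
open Pool.Agent.H23 (RatForm regularForms PrimeDivisorOver fc dualDer)

noncomputable section

namespace Pool.Agent.LG

variable {K : Type} [Field K] [Algebra ℂ K] {k n D : ℕ} {ι : Type}

theorem caseII {z : Fin (k + 1) → K} (hz : IsTranscendenceBasis ℂ z) [Fintype ι] (S : Dat K ι n D) (h3 : S.Three) (hF : S.F ≠ 0) (_hw : S.w ≠ 0)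
    (htr : Transcendental (IntermediateField.adjoin ℂ (Set.range S.X)) S.w) (_h1 : ∃ a, S.X a = 1) (I : Fin k → Fin n) (hI : wd (sn (fun i => S.δ (I i)) (dd S.w)) ≠ 0) :
    ∃ (f₀ : K) (m₀ : ℕ) (N : ℤ), f₀ ≠ 0 ∧ 1 ≤ m₀ ∧ 1 ≤ N ∧ Bd S f₀ m₀ (wd (sn (fun i => S.δ (I i)) (dd S.w))) N :=
  Pool.Agent.H45.LG.caseII hz S hF (le_trans h3.three (Nat.le_add_right _ _)) htr I hI

end Pool.Agent.LG
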