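import Pool.Agent.LG.Fv
import Pool.Agent.LG.C1
import Pool.Agent.LG.Rv
import Pool.Agent.LG.Ci

/-!
# LG Cr: varieties with good data are of log general type

* `lgt_of_bd`: the forms `f_(a,i) ω^m`, `m = N m₀`, `f_(a,i) = f₀^N X_a w^i / F`, `a ∈ ι`, `i ≤ D`, the first one with `X a = 1`, `i = 0`.  For `E` take `v, o` (`exists_fv`), a chart `c` (`ch_of_chart`): for `X a ≠ 0`
  `v f_(a,i) ≥ N v f₀ + v (X c) + D min 0 (v w) - v F`; `Bd.le`; `f_(a,i) = 0` is trivial (`PoleAtMost` of `0`: `g = 1`-like; `exists_fv` gives `ω = g • η` for some `f ≠ 0`, then replace `f` by `0`).  For `¬ B E`: `Good.off` and `Bd.nn`.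
  Algebraic: `ℂ(f_(a,i) / f_(a₀,0))` contains `X a` (`i = 0`) and `w` (`a = a₀`, `i = 1`; if `D = 0` use … the case `D = 0` does not occur: assume `1 ≤ D`).
* `core`: `by_cases` on `Transcendental ℂ(X) w`; if not, `K` is algebraic over `ℂ(X)`.
-/

set_option autoImplicit false

open MvPolynomial
open Pool.Agent.H23 (RatForm regularForms PrimeDivisorOver fc dualDer)

noncomputable section

namespace Pool.Agent.LG

variable {K : Type} [Field K] [Algebra ℂ K] {k n D : ℕ} {ι : Type}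

private lemma alg_mono {F F' : IntermediateField ℂ K} (h : F ≤ F') (hF : Algebra.IsAlgebraic F K) :
    Algebra.IsAlgebraic F' K := by
  letI : Algebra F F' := (IntermediateField.inclusion h).toRingHom.toAlgebra
  haveI : IsScalarTower F F' K := IsScalarTower.of_algebraMap_eq fun _ => rfl
  exact Algebra.IsAlgebraic.tower_top (K := F) F'

private lemma alg_of_insert {T : Set K} {w : K} (hw : IsAlgebraic (IntermediateField.adjoin ℂ T) w)
    (h : Algebra.IsAlgebraic (IntermediateField.adjoin ℂ (insert w T)) K) :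
    Algebra.IsAlgebraic (IntermediateField.adjoin ℂ T) K := by
  set F := IntermediateField.adjoin ℂ T with hF
  have h1 : IntermediateField.adjoin ℂ (insert w T) ≤ (algebraicClosure F K).restrictScalars ℂ := by
    rw [IntermediateField.adjoin_le_iff]
    rintro x (rfl | hx)
    · exact mem_algebraicClosure_iff.2 hw
    · refine mem_algebraicClosure_iff.2 ?_
      have h2 : x ∈ F := IntermediateField.subset_adjoin _ _ hx
      exact isAlgebraic_algebraMap (⟨x, h2⟩ : F)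
  have h2 : Algebra.IsAlgebraic (algebraicClosure F K) K := alg_mono h1 h
  exact Algebra.IsAlgebraic.trans F (algebraicClosure F K) K

private lemma iv_one {v : K → ℤ} (h : IV K v) : v 1 = 0 := by
  simpa using h.const 1 one_ne_zero

private lemma iv_pow {v : K → ℤ} (h : IV K v) {a : K} (ha : a ≠ 0) (n : ℕ) :
    v (a ^ n) = n * v a := by
  induction n with
  | zero => simp [iv_one h]
  | succ n ih =>
    rw [pow_succ, h.mul (pow_ne_zero _ ha) ha, ih]
    push_cast
    ring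

private lemma iv_inv {v : K → ℤ} (h : IV K v) {a : K} (ha : a ≠ 0) : v a⁻¹ = -v a := by
  have h1 := h.mul ha (inv_ne_zero ha)
  rw [mul_inv_cancel₀ ha, iv_one h] at h1
  linarith

private lemma iv_div {v : K → ℤ} (h : IV K v) {a b : K} (ha : a ≠ 0) (hb : b ≠ 0) :
    v (a / b) = v a - v b := by
  rw [div_eq_mul_inv, h.mul ha (inv_ne_zero hb), iv_inv h hb]
  ring

private lemma min_le_mul {D i : ℕ} (hi : i ≤ D) (x : ℤ) : D * min 0 x ≤ i * x := by
  rcases le_total 0 x with h | h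
  · rw [min_eq_left h, mul_zero]
    positivity
  · rw [min_eq_right h]
    have : (i : ℤ) ≤ D := by exact_mod_cast hi
    nlinarith

theorem lgt_of_bd [Algebra.EssFiniteType ℂ K] {z : Fin (k + 1) → K} (hz : IsTranscendenceBasis ℂ z) [Fintype ι] (S : Dat K ι n D) (hD : 1 ≤ D) {B : PrimeDivisorOver K (k + 1) → Prop} (h : S.Good B)
    {f₀ : K} {m₀ : ℕ} {ω : RatForm K (k + 1)} {N : ℤ} (hf : f₀ ≠ 0) (hm : 1 ≤ m₀) (hω : ω ≠ 0) (hN : 1 ≤ N) (hB : Bd S f₀ m₀ ω N) : H17LG.IsLogGeneralType B := by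
  classical
  obtain ⟨N', rfl⟩ : ∃ N' : ℕ, N = N' := ⟨N.toNat, by omega⟩
  have hN' : 1 ≤ N' := by exact_mod_cast hN
  obtain ⟨a₀, ha₀⟩ := h.one
  have ha₀' : S.X a₀ ≠ 0 := by rw [ha₀]; exact one_ne_zero
  let T := {p : ι × Fin (D + 1) // S.X p.1 ≠ 0}
  let t₀ : T := ⟨(a₀, 0), ha₀'⟩
  have hcard : 0 < Fintype.card T := Fintype.card_pos_iff.2 ⟨t₀⟩
  obtain ⟨r, hr⟩ : ∃ r, Fintype.card T = r + 1 := ⟨Fintype.card T - 1, by omega⟩
  let e₀ : Fin (r + 1) ≃ T := (Fintype.equivFinOfCardEq hr).symm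
  let e : Fin (r + 1) ≃ T := (Equiv.swap 0 (e₀.symm t₀)).trans e₀
  have he0 : e 0 = t₀ := by simp [e]
  let g : T → K := fun p => f₀ ^ N' * S.X p.1.1 * S.w ^ (p.1.2 : ℕ) / S.F
  have hg : ∀ p, g p ≠ 0 := fun p =>
    div_ne_zero (mul_ne_zero (mul_ne_zero (pow_ne_zero _ hf) p.2) (pow_ne_zero _ h.w_ne)) h.F_ne
  have hgt : g t₀ = f₀ ^ N' / S.F := by simp [g, t₀, ha₀]
  refine ⟨N' * m₀, Nat.mul_pos hN' hm, ω, hω, r, fun i => g (e i), hg _, ?_, ?_⟩
  · intro i E
    obtain ⟨v, o, hfv, hord, ht, hreg⟩ := exists_fv hz E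
    obtain ⟨c, hc⟩ := h.chart E
    have hch := ch_of_chart hord hc
    have hiv := hfv.toIV
    obtain ⟨⟨⟨a, j⟩, ha⟩, hp⟩ : ∃ p : T, e i = p := ⟨_, rfl⟩
    simp only [hp]
    have hvg : v (g ⟨(a, j), ha⟩) = N' * v f₀ + v (S.X a) + (j : ℕ) * v S.w - v S.F := by
      change v (f₀ ^ N' * S.X a * S.w ^ (j : ℕ) / S.F) = _
      rw [iv_div hiv (mul_ne_zero (mul_ne_zero (pow_ne_zero _ hf) ha) (pow_ne_zero _ h.w_ne)) h.F_ne,
        hiv.mul (mul_ne_zero (pow_ne_zero _ hf) ha) (pow_ne_zero _ h.w_ne),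
        hiv.mul (pow_ne_zero _ hf) ha, iv_pow hiv hf, iv_pow hiv h.w_ne]
    have h1 : v (S.X c) ≤ v (S.X a) := hch.le a ha
    have h2 : (D : ℤ) * min 0 (v S.w) ≤ (j : ℕ) * v S.w := min_le_mul (by omega) _
    constructor
    · intro hBE
      have h3 := h.off E hBE c hc
      have h3' : v S.F = v (S.X c) + D * min 0 (v S.w) := by
        rw [hord _ h.F_ne, hord _ hc.ne, hord _ h.w_ne] at h3
        have h4 : (min 0 ((v S.w : ℤ) : WithTop ℤ)) = ((min 0 (v S.w) : ℤ) : WithTop ℤ) := by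
          rw [← WithTop.coe_zero, WithTop.coe_min]
        rw [h4, ← WithTop.coe_nsmul, ← WithTop.coe_add] at h3
        have h5 := WithTop.coe_injective h3
        rw [h5, nsmul_eq_mul]
      have h4 := hB.nn v o hfv ht c hch h3'
      refine (hreg (N' * m₀) _ ω (hg _) hω).1 ?_
      rw [hvg]
      have h5 : 0 ≤ (N' : ℤ) * (v f₀ + m₀ * o ω) := mul_nonneg (by positivity) h4
      push_cast
      nlinarith
    · intro _
      have h4 := hB.le v o hfv ht c hch
      refine (hreg (N' * m₀) _ ω (hg _) hω).2 ?_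
      rw [hvg]
      push_cast
      nlinarith
  · refine alg_mono ?_ h.alg
    have hq : ∀ p : T, g p / g (e 0) = S.X p.1.1 * S.w ^ (p.1.2 : ℕ) := by
      intro p
      rw [he0, hgt]
      change f₀ ^ N' * S.X p.1.1 * S.w ^ (p.1.2 : ℕ) / S.F / (f₀ ^ N' / S.F) = _
      have hF := h.F_ne
      have hfN : f₀ ^ N' ≠ 0 := pow_ne_zero _ hf
      field_simp
    have hmem : ∀ p : T, S.X p.1.1 * S.w ^ (p.1.2 : ℕ) ∈
        IntermediateField.adjoin ℂ (Set.range fun i => g (e i) / g (e 0)) := by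
      intro p
      refine IntermediateField.subset_adjoin _ _ ⟨e.symm p, ?_⟩
      simp only [Equiv.apply_symm_apply]
      exact hq p
    rw [IntermediateField.adjoin_le_iff]
    rintro x (rfl | ⟨a, rfl⟩)
    · have h1 := hmem ⟨(a₀, ⟨1, by omega⟩), ha₀'⟩
      simpa [ha₀] using h1
    · by_cases ha : S.X a = 0
      · rw [ha]
        exact zero_mem _
      · have h1 := hmem ⟨(a, 0), ha⟩
        simpa using h1

theorem core [Algebra.EssFiniteType ℂ K] {z : Fin (k + 1) → K} (hz : IsTranscendenceBasis ℂ z) [Fintype ι] (S : Dat K ι n D) (hD : 1 ≤ D) {B : PrimeDivisorOver K (k + 1) → Prop} (h : S.Good B)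
    (h3 : Transcendental (IntermediateField.adjoin ℂ (Set.range S.X)) S.w → S.Three) : H17LG.IsLogGeneralType B := by
  by_cases htr : Transcendental (IntermediateField.adjoin ℂ (Set.range S.X)) S.w
  · obtain ⟨I, hI⟩ := exists_I2 hz S h.alg htr h.span
    obtain ⟨f₀, m₀, N, hf, hm, hN, hB⟩ := caseII hz S (h3 htr) h.F_ne h.w_ne htr h.one I hI
    exact lgt_of_bd hz S hD h hf hm hI hN hB
  · have halg : Algebra.IsAlgebraic (IntermediateField.adjoin ℂ (Set.range S.X)) K :=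
      alg_of_insert (not_not.1 htr) h.alg
    obtain ⟨I, hI⟩ := exists_I1 hz S halg h.span
    obtain ⟨N, hN, hB⟩ := caseI hz S h.F_ne h.w_ne I hI
    exact lgt_of_bd hz S hD h one_ne_zero le_rfl hI hN hB

end Pool.Agent.LG
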