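import Pool.Agent.LG.Defs

/-!
# LG Fv: the orders of functions and of top forms along a prime divisor

`b` the basis of `H17LG.exists_logDivisorCoords`, `v a` the integer with `E.ord a = v a` for `a ≠ 0` (`H23.exists_int`), `o ω = v (fc b ω)`.
* `smul`, `addf`: `fc b` is linear and injective (`H23.eq_fc_smul`).
* `log`: `fc b (wd (dd ∘ a)) = b.det (dd ∘ a)` is the determinant of the matrix `dualDer b i (a j)` (`H23.fc_ιMulti`, `Module.Basis.det_apply`); every term of the Leibniz formula has order `≥ ∑ v (a j) - 1`: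
  the entries of the row `i = 0` have order `≥ ord (a j) - 1` (last clause of `exists_logDivisorCoords`), the others order `≥ ord (a j)`.
* `reg`: all entries are in the valuation ring.
* the last two clauses: `g = fc b ω`, `η = wd b = wd (dd ∘ g)`, which is regular (`AddSubgroup.subset_closure`).
-/

set_option autoImplicit false

open MvPolynomial
open Pool.Agent.H23 (RatForm regularForms PrimeDivisorOver fc dualDer)

noncomputable section

namespace Pool.Agent.LG

variable {K : Type} [Field K] [Algebra ℂ K] {k n D : ℕ} {ι : Type}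

omit [Algebra ℂ K] in
private lemma fv_ord_prod (w : AddValuation K (WithTop ℤ)) {σ : Type} (s : Finset σ) (f : σ → K) :
    w (∏ i ∈ s, f i) = ∑ i ∈ s, w (f i) := by
  classical
  induction s using Finset.induction_on with
  | empty => simp
  | insert a s ha ih => rw [Finset.prod_insert ha, Finset.sum_insert ha, w.map_mul, ih]

omit [Algebra ℂ K] in
private lemma fv_le_sum (w : AddValuation K (WithTop ℤ)) {σ : Type} (s : Finset σ) (f : σ → K)
    (c : WithTop ℤ) (h : ∀ i ∈ s, c ≤ w (f i)) : c ≤ w (∑ i ∈ s, f i) := by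
  classical
  induction s using Finset.induction_on with
  | empty => simp
  | insert a s ha ih =>
    rw [Finset.sum_insert ha]
    exact w.map_le_add (h a (Finset.mem_insert_self _ _))
      (ih fun i hi => h i (Finset.mem_insert_of_mem hi))

omit [Algebra ℂ K] in
private lemma fv_le_det (w : AddValuation K (WithTop ℤ)) {r : ℕ} (A : Matrix (Fin r) (Fin r) K)
    (c : Fin r → WithTop ℤ) (h : ∀ i j, c j ≤ w (A i j)) : ∑ j, c j ≤ w A.det := by
  rw [Matrix.det_apply]
  apply fv_le_sum
  intro σ _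
  have h1 : ∑ j, c j ≤ w (∏ i, A (σ i) i) := by
    rw [fv_ord_prod]
    exact Finset.sum_le_sum fun i _ => h (σ i) i
  rcases Int.units_eq_one_or (Equiv.Perm.sign σ) with hs | hs
  · rw [hs, one_smul]
    exact h1
  · rw [hs, Units.neg_smul, one_smul, w.map_neg]
    exact h1

private lemma fv_nsmul (m : ℕ) (x : ℤ) : m • (x : WithTop ℤ) = ((m * x : ℤ) : WithTop ℤ) := by
  induction m with
  | zero => simp
  | succ m ih =>
    rw [succ_nsmul, ih, ← WithTop.coe_add]
    congr 1
    push_cast
    ring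

theorem exists_fv [Algebra.EssFiniteType ℂ K] {z : Fin (k + 1) → K} (hz : IsTranscendenceBasis ℂ z) (E : PrimeDivisorOver K (k + 1)) :
    ∃ (v : K → ℤ) (o : RatForm K (k + 1) → ℤ), FV (k + 1) v o ∧ (∀ a, a ≠ 0 → E.ord a = (v a : WithTop ℤ)) ∧ (∃ t, t ≠ 0 ∧ v t = 1) ∧
      ∀ (m : ℕ) (f : K) (ω : RatForm K (k + 1)), f ≠ 0 → ω ≠ 0 → (0 ≤ v f + m * o ω → H17GT.RegularAlong E m f ω) ∧ (0 ≤ v f + m * o ω + m → H17LG.LogRegularAlong E m f ω) := by
  classical
  obtain ⟨g, b, hb, hg0, hg, hη, hη', hη0⟩ := H17LG.exists_logDivisorCoords hz E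
  have hex : ∀ a : K, ∃ q : ℤ, a ≠ 0 → E.ord a = (q : WithTop ℤ) := by
    intro a
    by_cases ha : a = 0
    · exact ⟨0, fun h => absurd ha h⟩
    · obtain ⟨q, hq⟩ := Pool.Agent.H23.exists_int E.ord ha
      exact ⟨q, fun _ => hq⟩
  choose v hv using hex
  have hfc : ∀ ω : RatForm K (k + 1), ω ≠ 0 → fc b ω ≠ 0 := by
    intro ω hω h0
    apply hω
    rw [Pool.Agent.H23.eq_fc_smul b ω, h0, zero_smul]
  have hpos : ∀ a : K, a ≠ 0 → (0 ≤ E.ord a ↔ 0 ≤ v a) := by
    intro a ha
    rw [hv a ha]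
    exact_mod_cast Iff.rfl
  have hIV : IV K v := by
    refine ⟨?_, ?_, ?_⟩
    · intro a c ha hc
      have h1 := E.ord.map_mul a c
      rw [hv a ha, hv c hc, hv _ (mul_ne_zero ha hc)] at h1
      exact_mod_cast h1
    · intro a c ha hc hac
      have h1 := E.ord.map_add a c
      rw [hv a ha, hv c hc, hv _ hac] at h1
      exact_mod_cast h1
    · intro c hc
      have hc1 : algebraMap ℂ K c ≠ 0 := by
        rwa [Ne, map_eq_zero]
      have h1 : 0 ≤ v (algebraMap ℂ K c) := (hpos _ hc1).1 (E.ord_const c)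
      have hc2 : algebraMap ℂ K c⁻¹ ≠ 0 := by
        rw [Ne, map_eq_zero]
        exact inv_ne_zero hc
      have h2 : 0 ≤ v (algebraMap ℂ K c⁻¹) := (hpos _ hc2).1 (E.ord_const c⁻¹)
      have h3 : v (algebraMap ℂ K c) + v (algebraMap ℂ K c⁻¹) = 0 := by
        have h4 := E.ord.map_mul (algebraMap ℂ K c) (algebraMap ℂ K c⁻¹)
        rw [← map_mul, mul_inv_cancel₀ hc, map_one, E.ord.map_one, hv _ hc1, hv _ hc2] at h4
        exact_mod_cast h4.symm
      omega
  have hdet : ∀ a : Fin (k + 1) → K, fc b (wd fun i => dd (a i)) =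
      (Matrix.of fun i j => dualDer b i (a j)).det := by
    intro a
    rw [wd, Pool.Agent.H23.fc_ιMulti, Module.Basis.det_apply]
    rfl
  have hpow : ∀ (m : ℕ) (f : K) (ω : RatForm K (k + 1)), f ≠ 0 → ω ≠ 0 →
      E.ord (f * fc b ω ^ m) = ((v f + m * v (fc b ω) : ℤ) : WithTop ℤ) := by
    intro m f ω hf hω
    rw [E.ord.map_mul, E.ord.map_pow, hv f hf, hv _ (hfc ω hω), fv_nsmul, ← WithTop.coe_add]
  have hmem : exteriorPower.ιMulti K (k + 1) (fun i => b i) ∈
      regularForms (k + 1) E.localRing := by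
    apply AddSubgroup.subset_closure
    refine ⟨1, g, E.localRing.one_mem, hg, ?_⟩
    rw [one_smul]
    simp only [hb]
  refine ⟨v, fun ω => v (fc b ω), ⟨hIV, ?_, ?_, ?_, ?_⟩, hv, ?_, ?_⟩
  · intro c ω hc hω
    rw [map_smul, smul_eq_mul]
    exact hIV.mul hc (hfc ω hω)
  · intro ω ω' hω hω' h
    rw [map_add]
    refine hIV.add (hfc ω hω) (hfc ω' hω') ?_
    rw [← map_add]
    exact hfc _ h
  · intro a ha hne
    have hne' := hfc _ hne
    have h1 : ∑ j, E.ord (a j) ≤ E.ord (g 0 * fc b (wd fun i => dd (a i))) := by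
      have h2 : g 0 * fc b (wd fun i => dd (a i)) =
          (Matrix.of fun i j => (if i = 0 then g 0 else 1) * dualDer b i (a j)).det := by
        rw [hdet]
        have h3 := Matrix.det_mul_column (fun i : Fin (k + 1) => if i = 0 then g 0 else 1)
          (Matrix.of fun i j => dualDer b i (a j))
        simp only [Matrix.of_apply] at h3
        rw [h3]
        congr 1
        rw [Fin.prod_univ_succ]
        simp
      rw [h2]
      apply fv_le_det
      intro i j
      rw [Matrix.of_apply]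
      by_cases hi : i = 0
      · rw [if_pos hi, hi]
        exact hη0 (a j)
      · rw [if_neg hi, one_mul]
        exact hη' i hi (a j)
    rw [E.ord.map_mul, hg0, hv _ hne', Finset.sum_congr rfl fun j _ => hv _ (ha j)] at h1
    have h4 : ((∑ j, v (a j) : ℤ) : WithTop ℤ) ≤
        ((1 + v (fc b (wd fun i => dd (a i))) : ℤ) : WithTop ℤ) := by
      push_cast
      exact h1
    have h5 := WithTop.coe_le_coe.1 h4
    change ∑ i, v (a i) ≤ v (fc b (wd fun i => dd (a i))) + 1
    linarith
  · intro a ha hne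
    have hne' := hfc _ hne
    have ha' : ∀ i, 0 ≤ E.ord (a i) := by
      intro i
      by_cases h0 : a i = 0
      · rw [h0, E.ord.map_zero]
        exact le_top
      · exact (hpos _ h0).2 (ha i h0)
    have h1 : ∑ j : Fin (k + 1), (0 : WithTop ℤ) ≤ E.ord (fc b (wd fun i => dd (a i))) := by
      rw [hdet]
      apply fv_le_det
      intro i j
      exact hη i (a j) (ha' j)
    rw [Finset.sum_const_zero] at h1
    exact (hpos _ hne').1 h1
  · obtain ⟨t, ht⟩ := E.exists_uniformizer
    have ht0 : t ≠ 0 := by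
      rintro rfl
      simp at ht
    refine ⟨t, ht0, ?_⟩
    rw [hv t ht0] at ht
    exact_mod_cast ht
  · intro m f ω hf hω
    constructor
    · intro h
      refine ⟨fc b ω, _, hmem, Pool.Agent.H23.eq_fc_smul b ω, ?_⟩
      rw [hpow m f ω hf hω]
      exact_mod_cast h
    · intro h
      refine ⟨fc b ω, _, hmem, Pool.Agent.H23.eq_fc_smul b ω, ?_⟩
      rw [hpow m f ω hf hω]
      exact_mod_cast h

theorem ch_of_chart [Fintype ι] {S : Dat K ι n D} {E : PrimeDivisorOver K k} {v : K → ℤ} (hv : ∀ a, a ≠ 0 → E.ord a = (v a : WithTop ℤ)) {c : ι} (h : S.Chart E c) : CH S v c := by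
  refine ⟨h.ne, ?_, ?_⟩
  · intro b hb
    have h1 := h.le b
    rw [hv _ h.ne, hv _ hb] at h1
    exact_mod_cast h1
  · obtain ⟨M, hM, hδ⟩ := h.mat
    refine ⟨M, fun i b hb => ?_, hδ⟩
    have h1 := hM i b
    rw [hv _ hb] at h1
    exact_mod_cast h1

end Pool.Agent.LG
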