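import Pool.Agent.LG.Wd

/-!
# LG Vb: the order of a polynomial is bounded by the order of the form

Induction on the total degree of `p`: if `p` is a constant `≠ 0`, `v (p) = 0` and the right side is `≥ 0`.  Otherwise some `q = ∂_j p ≠ 0` has smaller degree; `wd_replace` and `FV.log` for the family `x` with `x_j` replaced by `p (x)`,
followed by `a`: `∑_{i ≠ j} v (x_i) + v (p (x)) + v a ≤ o (q(x) • b • ω) + 1 = v (q (x)) + v b + o ω + 1`, so `v (p (x)) ≤ v (q (x)) + (o ω + 1 + v b - v a)`.  The second clause of `v_le_two`: `FV.log` for `sn x a`.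
All `x_i`, `p (x)`, `q (x)` are not `0`: `algInd_of_wd`.
-/

set_option autoImplicit false

open MvPolynomial
open Pool.Agent.H23 (RatForm regularForms PrimeDivisorOver fc dualDer)

noncomputable section

namespace Pool.Agent.LG

variable {K : Type} [Field K] [Algebra ℂ K] {k n D : ℕ} {ι : Type}

private lemma Vb_eq_C {σ : Type} (P : MvPolynomial σ ℂ)
    (h : ∀ i, pderiv i P = 0) : P = C (coeff 0 P) := by
  classical
  ext m
  rw [coeff_C]
  by_cases hm : m = 0
  · subst hm; simp
  · rw [if_neg (Ne.symm hm)]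
    obtain ⟨i, hi⟩ : ∃ i, m i ≠ 0 := by
      by_contra hcon
      push Not at hcon
      exact hm (Finsupp.ext hcon)
    have h1 := congrArg (coeff (m - Finsupp.single i 1)) (h i)
    rw [coeff_pderiv, coeff_zero] at h1
    have h2 : m - Finsupp.single i 1 + Finsupp.single i 1 = m :=
      Finsupp.sub_add_single_one_cancel hi
    rw [h2] at h1
    rcases mul_eq_zero.1 h1 with h1 | h1
    · exact h1
    · exfalso
      have : ((((m - Finsupp.single i 1 : σ →₀ ℕ)) i + 1 : ℕ) : ℂ) = 0 := by push_cast; exact h1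
      exact Nat.cast_ne_zero.2 (Nat.succ_ne_zero _) this

private lemma Vb_totalDegree {σ : Type} (P : MvPolynomial σ ℂ) (i : σ) (h : pderiv i P ≠ 0) :
    (pderiv i P).totalDegree < P.totalDegree := by
  classical
  obtain ⟨m, hm, hmd⟩ := Finset.exists_mem_eq_sup (pderiv i P).support
    (support_nonempty.2 h) (fun s => s.sum fun _ e => e)
  rw [mem_support_iff, coeff_pderiv] at hm
  have h1 : coeff (m + Finsupp.single i 1) P ≠ 0 := left_ne_zero_of_mul hm
  have h2 := le_totalDegree (mem_support_iff.2 h1)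
  have h3 : (m + Finsupp.single i 1).degree = m.degree + 1 := by
    rw [map_add, Finsupp.degree_single]
  have h4 : (m + Finsupp.single i 1).sum (fun _ e => e) = (m + Finsupp.single i 1).degree := rfl
  have h5 : m.sum (fun _ e => e) = m.degree := rfl
  have h6 : (pderiv i P).totalDegree = m.degree := hmd
  rw [h4, h3] at h2
  omega

/-- a polynomial of positive degree has a nonzero partial derivative (of smaller degree); a polynomial of degree zero has value of order zero -/
private lemma Vb_step {m : ℕ} {v : K → ℤ} (hv : IV K v) (x : Fin m → K) {p : MvPolynomial (Fin m) ℂ} (hp : p ≠ 0) :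
    v (aeval x p) = 0 ∨ ∃ j, pderiv j p ≠ 0 ∧ (pderiv j p).totalDegree < p.totalDegree := by
  by_cases h : ∀ i, pderiv i p = 0
  · left
    have h1 := Vb_eq_C p h
    rw [h1, aeval_C]
    refine hv.const _ ?_
    intro h2
    rw [h2, map_zero] at h1
    exact hp h1
  · right
    push Not at h
    obtain ⟨j, hj⟩ := h
    exact ⟨j, hj, Vb_totalDegree p j hj⟩

/-- the induction on the degree -/
private lemma Vb_ind {m : ℕ} {v : K → ℤ} (hv : IV K v) (x : Fin m → K) {A : ℤ} (hA : 0 ≤ A)
    (hstep : ∀ p : MvPolynomial (Fin m) ℂ, p ≠ 0 → ∀ j, pderiv j p ≠ 0 → v (aeval x p) ≤ v (aeval x (pderiv j p)) + A) :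
    ∀ N : ℕ, ∀ p : MvPolynomial (Fin m) ℂ, p ≠ 0 → p.totalDegree ≤ N → v (aeval x p) ≤ p.totalDegree * A := by
  intro N
  induction N with
  | zero =>
    intro p hp hN
    rcases Vb_step hv x hp with h | ⟨j, _, hj⟩
    · rw [h]; exact mul_nonneg (Int.natCast_nonneg _) hA
    · omega
  | succ N ih =>
    intro p hp hN
    rcases Vb_step hv x hp with h | ⟨j, hq, hj⟩
    · rw [h]; exact mul_nonneg (Int.natCast_nonneg _) hA
    · have h1 := ih _ hq (by omega)
      have h2 := hstep p hp j hq
      have h3 : (((pderiv j p).totalDegree : ℤ) + 1) * A ≤ p.totalDegree * A := by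
        refine mul_le_mul_of_nonneg_right ?_ hA
        exact_mod_cast hj
      calc v (aeval x p) ≤ v (aeval x (pderiv j p)) + A := h2
        _ ≤ (pderiv j p).totalDegree * A + A := by linarith
        _ = (((pderiv j p).totalDegree : ℤ) + 1) * A := by ring
        _ ≤ _ := h3

private lemma Vb_ne {m : ℕ} {x : Fin m → K} (hx : AlgebraicIndependent ℂ x) {p : MvPolynomial (Fin m) ℂ} (hp : p ≠ 0) :
    aeval x p ≠ 0 := by
  intro h
  exact hp (algebraicIndependent_iff.1 hx p h)

private lemma Vb_x_ne {m : ℕ} {x : Fin m → K} (hx : AlgebraicIndependent ℂ x) (i : Fin m) : x i ≠ 0 := by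
  have h := Vb_ne hx (p := X i) (X_ne_zero i)
  rwa [aeval_X] at h

private lemma Vb_sum {m : ℕ} {f : Fin m → ℤ} (j : Fin m) (hf : ∀ i, i ≠ j → 0 ≤ f i) : f j ≤ ∑ i, f i := by
  rw [← Finset.add_sum_erase Finset.univ f (Finset.mem_univ j)]
  have h : 0 ≤ ∑ i ∈ Finset.univ.erase j, f i :=
    Finset.sum_nonneg fun i hi => hf i (Finset.ne_of_mem_erase hi)
  linarith

private lemma Vb_dd_sn (x : Fin k → K) (y : K) :
    (fun i => dd (sn x y i)) = sn (fun i => dd (x i)) (dd y) := by
  funext l
  refine Fin.lastCases ?_ (fun i => ?_) l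
  · unfold sn
    rw [Fin.snoc_last, Fin.snoc_last]
  · unfold sn
    rw [Fin.snoc_castSucc, Fin.snoc_castSucc]

private lemma Vb_sn_ne {x : Fin k → K} {y : K} (hx : ∀ i, x i ≠ 0) (hy : y ≠ 0) (i : Fin (k + 1)) : sn x y i ≠ 0 := by
  refine Fin.lastCases ?_ (fun i => ?_) i
  · unfold sn
    rw [Fin.snoc_last]; exact hy
  · unfold sn
    rw [Fin.snoc_castSucc]; exact hx i

private lemma Vb_sn_sum (v : K → ℤ) (x : Fin k → K) (y : K) :
    ∑ i, v (sn x y i) = ∑ i, v (x i) + v y := by
  rw [Fin.sum_univ_castSucc]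
  unfold sn
  simp only [Fin.snoc_castSucc, Fin.snoc_last]

theorem v_le_one {x : Fin n → K} (hx : wd (fun i => dd (x i)) ≠ 0) {v : K → ℤ} {o : RatForm K n → ℤ} (h : FV n v o) (h0 : ∀ i, 0 ≤ v (x i)) {p : MvPolynomial (Fin n) ℂ} (hp : p ≠ 0) :
    v (aeval x p) ≤ p.totalDegree * (o (wd fun i => dd (x i)) + 1) := by
  have hind := algInd_of_wd hx
  have hxne : ∀ i, x i ≠ 0 := Vb_x_ne hind
  have hA : 0 ≤ o (wd fun i => dd (x i)) + 1 :=
    le_trans (Finset.sum_nonneg fun i _ => h0 i) (h.log x hxne hx)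
  refine Vb_ind h.toIV x hA ?_ p.totalDegree p hp le_rfl
  intro p hp j hq
  have hqx := Vb_ne hind hq
  have hpx := Vb_ne hind hp
  have h1 := wd_replace' x p j
  have h2 : wd (fun i => dd (Function.update x j (aeval x p) i)) ≠ 0 := by
    rw [h1]; exact smul_ne_zero hqx hx
  have h3 := h.log (Function.update x j (aeval x p)) (by
    intro i
    by_cases hij : i = j
    · subst hij; rw [Function.update_self]; exact hpx
    · rw [Function.update_of_ne hij]; exact hxne i) h2
  rw [h1, h.smul hqx hx] at h3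
  have h4 : v (aeval x p) ≤ ∑ i, v (Function.update x j (aeval x p) i) := by
    have h5 := Vb_sum (f := fun i => v (Function.update x j (aeval x p) i)) j (by
      intro i hij
      show 0 ≤ v (Function.update x j (aeval x p) i)
      rw [Function.update_of_ne hij]; exact h0 i)
    have h6 : v (Function.update x j (aeval x p) j) = v (aeval x p) := by rw [Function.update_self]
    rw [← h6]; exact h5
  linarith

theorem v_le_two {x : Fin k → K} {y a b : K} (hy : wd (sn (fun i => dd (x i)) (dd y)) ≠ 0) (ha : a ≠ 0) (hb : b ≠ 0)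
    (hab : wd (sn (fun i => dd (x i)) (dd a)) = b • wd (sn (fun i => dd (x i)) (dd y))) {v : K → ℤ} {o : RatForm K (k + 1) → ℤ} (h : FV (k + 1) v o) (h0 : ∀ i, 0 ≤ v (x i))
    {p : MvPolynomial (Fin k) ℂ} (hp : p ≠ 0) :
    v (aeval x p) ≤ p.totalDegree * (o (wd (sn (fun i => dd (x i)) (dd y))) + 1 + v b - v a) ∧ 0 ≤ o (wd (sn (fun i => dd (x i)) (dd y))) + 1 + v b - v a := by
  have hind' : AlgebraicIndependent ℂ (sn x y) := by
    refine algInd_of_wd ?_
    rw [Vb_dd_sn]; exact hy
  have hind : AlgebraicIndependent ℂ x := by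
    have h1 := hind'.comp Fin.castSucc (Fin.castSucc_injective _)
    have h2 : sn x y ∘ Fin.castSucc = x := by
      funext i
      exact Fin.snoc_castSucc (α := fun _ => K) _ _ _
    rwa [h2] at h1
  have hxne : ∀ i, x i ≠ 0 := Vb_x_ne hind
  have hab0 : wd (sn (fun i => dd (x i)) (dd a)) ≠ 0 := by
    rw [hab]; exact smul_ne_zero hb hy
  have hA : 0 ≤ o (wd (sn (fun i => dd (x i)) (dd y))) + 1 + v b - v a := by
    have h1 := h.log (sn x a) (Vb_sn_ne hxne ha) (by rw [Vb_dd_sn]; exact hab0)
    rw [Vb_sn_sum, Vb_dd_sn, hab, h.smul hb hy] at h1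
    have h2 : 0 ≤ ∑ i, v (x i) := Finset.sum_nonneg fun i _ => h0 i
    linarith
  refine ⟨?_, hA⟩
  refine Vb_ind h.toIV x hA ?_ p.totalDegree p hp le_rfl
  intro p hp j hq
  have hqx := Vb_ne hind hq
  have hpx := Vb_ne hind hp
  have h1 := wd_replace x p j (dd a)
  have h2 : wd (sn (fun i => dd (Function.update x j (aeval x p) i)) (dd a)) ≠ 0 := by
    rw [h1]; exact smul_ne_zero hqx hab0
  have h3 := h.log (sn (Function.update x j (aeval x p)) a) (Vb_sn_ne (by
    intro i
    by_cases hij : i = j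
    · subst hij; rw [Function.update_self]; exact hpx
    · rw [Function.update_of_ne hij]; exact hxne i) ha) (by rw [Vb_dd_sn]; exact h2)
  rw [Vb_sn_sum, Vb_dd_sn, h1, h.smul hqx hab0, hab, h.smul hb hy] at h3
  have h4 : v (aeval x p) ≤ ∑ i, v (Function.update x j (aeval x p) i) := by
    have h5 := Vb_sum (f := fun i => v (Function.update x j (aeval x p) i)) j (by
      intro i hij
      show 0 ≤ v (Function.update x j (aeval x p) i)
      rw [Function.update_of_ne hij]; exact h0 i)
    have h6 : v (Function.update x j (aeval x p) j) = v (aeval x p) := by rw [Function.update_self]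
    rw [← h6]; exact h5
  linarith

end Pool.Agent.LG
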