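import Pool.Agent.LG.Defs

/-!
# LG Al1: a transcendence basis adapted to a subfield

`S ⊆ K`, and `K` is not algebraic over `K₀ = ℂ(S)`.  A transcendence basis of `K₀` over `ℂ` (finite, `trdeg K = n`), extended to a transcendence basis `s : Fin n → K` of `K` (`exists_isTranscendenceBasis_superset` or similar) has at least one more element `s j`.  In characteristic `0` the `d (s i)` are a basis of `Ω` (search for
`exists_basis_kaehler` in `Pool/Agent/H17LG`, `H23`, `H17GT`).  The derivation `dualDer b j` is `0` on `ℂ(s_i, i ≠ j)` (`dualDer_coord`) and on the elements which are algebraic over it (apply the derivation to the minimal polynomial, characteristic `0`), so on `S`.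
-/

set_option autoImplicit false

open MvPolynomial

noncomputable section

namespace Pool.Agent.LG

variable {K : Type} [Field K] [Algebra ℂ K] {n : ℕ}

/-- the field of constants of a derivation -/
private def kerF (D : Derivation ℂ K K) : IntermediateField ℂ K where
  carrier := {x | D x = 0}
  mul_mem' := by
    intro a b ha hb
    have ha' : D a = 0 := ha
    have hb' : D b = 0 := hb
    show D (a * b) = 0
    rw [D.leibniz, ha', hb', smul_zero, smul_zero, add_zero]
  add_mem' := by
    intro a b ha hb
    have ha' : D a = 0 := ha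
    have hb' : D b = 0 := hb
    show D (a + b) = 0
    rw [map_add, ha', hb', add_zero]
  algebraMap_mem' := fun c => D.map_algebraMap c
  inv_mem' := by
    intro x hx
    have hx' : D x = 0 := hx
    show D x⁻¹ = 0
    rw [D.leibniz_inv, hx', smul_zero]

private lemma mem_kerF (D : Derivation ℂ K K) {x : K} : x ∈ kerF D ↔ D x = 0 := Iff.rfl

/-- the derivation over its field of constants -/
private def overC (D : Derivation ℂ K K) : Derivation (kerF D) K K :=
  Derivation.mk'
    { toFun := D
      map_add' := D.map_add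
      map_smul' := by
        intro c x
        have hc : D (c : K) = 0 := c.2
        rw [IntermediateField.smul_def, smul_eq_mul, D.leibniz, hc, smul_zero, add_zero]
        rfl }
    (fun a b => D.leibniz a b)

private lemma der_eq_zero (D : Derivation ℂ K K) {f : K} (hf : IsAlgebraic (kerF D) f) : D f = 0 := by
  have hi : IsIntegral (kerF D) f := hf.isIntegral
  have hs : (minpoly (kerF D) f).Separable := (minpoly.irreducible hi).separable
  have h1 := (overC D).map_aeval (minpoly (kerF D) f) f
  rw [minpoly.aeval, map_zero] at h1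
  have h2 : Polynomial.aeval f (Polynomial.derivative (minpoly (kerF D) f)) ≠ 0 :=
    hs.aeval_derivative_ne_zero (minpoly.aeval _ _)
  have h3 := (smul_eq_zero.1 h1.symm).resolve_left h2
  exact h3

/-- a derivation which is zero on `I` is zero on the elements which are algebraic over `ℂ[I]` -/
private lemma der_eq_zero_of_adjoin (D : Derivation ℂ K K) {I : Set K} (hI : ∀ x ∈ I, D x = 0) {f : K}
    (hf : IsAlgebraic (Algebra.adjoin ℂ I) f) : D f = 0 := by
  apply der_eq_zero
  obtain ⟨p, hp, hpf⟩ := hf
  have hle : Algebra.adjoin ℂ I ≤ (kerF D).toSubalgebra := Algebra.adjoin_le fun x hx => hI x hx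
  refine ⟨p.map (Subalgebra.inclusion hle).toRingHom, ?_, ?_⟩
  · rw [Ne, Polynomial.map_eq_zero_iff]
    · exact hp
    · exact Subalgebra.inclusion_injective hle
  · rw [Polynomial.aeval_def, Polynomial.eval₂_map]
    exact hpf

/-- a transcendence basis with an element which is not needed for `S` -/
private lemma exists_set (S : Set K) (h : ¬ Algebra.IsAlgebraic (IntermediateField.adjoin ℂ S) K) :
    ∃ (I B : Set K) (t : K), I ⊆ B ∧ t ∈ B ∧ t ∉ I ∧ IsTranscendenceBasis ℂ ((↑) : B → K) ∧
      ∀ f ∈ S, IsAlgebraic (Algebra.adjoin ℂ I) f := by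
  obtain ⟨I, hI⟩ := (AlgebraicIndependent.matroid ℂ K).exists_isBasis S
  obtain ⟨B, hB, hIB⟩ := hI.indep.exists_isBase_superset
  have hI' := AlgebraicIndependent.matroid_isBasis_iff.1 hI
  have hB' := AlgebraicIndependent.matroid_isBase_iff.1 hB
  have hne : ¬ B ⊆ I := by
    intro hBI
    apply h
    have hBS : B ⊆ S := hBI.trans hI'.2.1
    have h1 : Algebra.IsAlgebraic (Algebra.adjoin ℂ S) K :=
      isAlgebraic_iff_exists_isTranscendenceBasis_subset.2 ⟨B, hBS, hB'⟩
    refine ⟨fun x => ?_⟩
    obtain ⟨p, hp, hpx⟩ := h1.isAlgebraic x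
    have hle : Algebra.adjoin ℂ S ≤ (IntermediateField.adjoin ℂ S).toSubalgebra :=
      IntermediateField.algebra_adjoin_le_adjoin ℂ S
    refine ⟨p.map (Subalgebra.inclusion hle).toRingHom, ?_, ?_⟩
    · rw [Ne, Polynomial.map_eq_zero_iff]
      · exact hp
      · exact Subalgebra.inclusion_injective hle
    · rw [Polynomial.aeval_def, Polynomial.eval₂_map]
      exact hpx
  obtain ⟨t, htB, htI⟩ := Set.not_subset.1 hne
  exact ⟨I, B, t, hIB, htB, htI, hB', hI'.2.2⟩

/-- if `K` is not algebraic over `ℂ(S)`, there is a transcendence basis with an element which is not needed for `S` -/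
theorem exists_basis_of_not_algebraic [Algebra.EssFiniteType ℂ K] {z : Fin n → K} (hz : IsTranscendenceBasis ℂ z) (S : Set K) (h : ¬ Algebra.IsAlgebraic (IntermediateField.adjoin ℂ S) K) :
    ∃ (s : Fin n → K) (b : Module.Basis (Fin n) K Ω[K⁄ℂ]) (j : Fin n), IsTranscendenceBasis ℂ s ∧ (∀ i, b i = dd (s i)) ∧ ∀ f ∈ S, Pool.Agent.H23.dualDer b j f = 0 := by
  classical
  obtain ⟨I, B, t, hIB, htB, htI, hB, hS⟩ := exists_set S h
  have hcard := hz.lift_cardinalMk_eq hB
  rw [Cardinal.lift_id, Cardinal.lift_id] at hcard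
  obtain ⟨e⟩ := Cardinal.eq.1 hcard
  have hs : IsTranscendenceBasis ℂ (fun i => ((e i : B) : K)) := hB.comp_equiv e
  obtain ⟨b, hb⟩ := Pool.Agent.H23.exists_basis_kaehler hs
  refine ⟨fun i => ((e i : B) : K), b, e.symm ⟨t, htB⟩, hs, hb, fun f hf => ?_⟩
  refine der_eq_zero_of_adjoin _ (I := I) (fun x hx => ?_) (hS f hf)
  have hx' : x = ((e (e.symm ⟨x, hIB hx⟩) : B) : K) := by
    rw [Equiv.apply_symm_apply]
  have hc := Pool.Agent.H23.dualDer_coord b hb (e.symm ⟨t, htB⟩) (e.symm ⟨x, hIB hx⟩)
  rw [← hx'] at hc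
  rw [hc, if_neg]
  intro heq
  have h2 := congrArg Subtype.val (e.symm.injective heq)
  apply htI
  have h3 : t = x := h2
  rw [h3]
  exact hx

end Pool.Agent.LG
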