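import Pool.Agent.LG.GD
import Pool.Agent.TN.Osg

/-!
# LG G4a: theta functions: the factor of automorphy is an exponential

* `dense_ne`: a product of two entire functions, both not zero, is not zero.
* `eq_smul_of_norm_eq`: entire functions of equal norm are proportional.
* `automorphy`: `θ i (y + l) = c * exp (2 ∑ conj (W j l) * W j y) * θ i y`.
* `recur`: the lattice points near the real line of a vector.
-/

set_option autoImplicit false

open Topology Filter MvPolynomial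
open Pool.Agent.PXF (Cn form IsThetaForm ThreePoints)

noncomputable section

namespace Pool.Agent.LG

variable {n κ d : ℕ}

/-- a spanning subgroup is cocompact -/
theorem g4_cocompact {Λ : AddSubgroup (Fin n → ℂ)} (h : Submodule.span ℝ (Λ : Set (Fin n → ℂ)) = ⊤) :
    ∃ C : ℝ, 0 < C ∧ ∀ b : Fin n → ℂ, ∃ l ∈ Λ, ‖b - l‖ ≤ C := by
  classical
  obtain ⟨T, hTs, hT⟩ : ∃ T : Finset (Fin n → ℂ), (T : Set (Fin n → ℂ)) ⊆ (Λ : Set (Fin n → ℂ)) ∧ Submodule.span ℝ (T : Set (Fin n → ℂ)) = ⊤ := by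
    have h1 : (Submodule.span ℝ (Λ : Set (Fin n → ℂ))).FG := by
      rw [h]
      exact Module.Finite.fg_top
    obtain ⟨T, hTs, hT⟩ := (Submodule.fg_span_iff_fg_span_finset_subset _).1 h1
    exact ⟨T, hTs, by rw [← hT, h]⟩
  refine ⟨(∑ t ∈ T, ‖t‖) + 1, by positivity, fun b => ?_⟩
  have hb : b ∈ Submodule.span ℝ (T : Set (Fin n → ℂ)) := by rw [hT]; trivial
  obtain ⟨c, -, hc⟩ := Submodule.mem_span_finset.1 hb
  refine ⟨∑ t ∈ T, ⌊c t⌋ • t, Λ.sum_mem fun t ht => Λ.zsmul_mem (hTs ht) _, ?_⟩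
  refine le_trans ?_ (le_add_of_nonneg_right zero_le_one)
  rw [← hc, ← Finset.sum_sub_distrib]
  refine (norm_sum_le _ _).trans (Finset.sum_le_sum fun t _ => ?_)
  have h2 : c t • t - ⌊c t⌋ • t = (Int.fract (c t)) • t := by
    rw [Int.fract, sub_smul]
    congr 1
    exact (Int.cast_smul_eq_zsmul ℝ _ _).symm
  rw [h2, norm_smul, Real.norm_of_nonneg (Int.fract_nonneg _)]
  exact mul_le_of_le_one_left (norm_nonneg _) (Int.fract_lt_one _).le

theorem an_of_diff {f : (Fin n → ℂ) → ℂ} (hf : Differentiable ℂ f) (w : Fin n → ℂ) : AnalyticAt ℂ f w := by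
  have h1 : ∀ᶠ y in 𝓝 w, ‖f y‖ < ‖f w‖ + 1 := (hf.continuous.norm.continuousAt (x := w)).eventually_lt_const (lt_add_one _)
  obtain ⟨r, hr, hb⟩ := Metric.eventually_nhds_iff_ball.1 h1
  refine Pool.Agent.TN.osgood_pi hr (fun y hy => (hb y hy).le) fun y _ l => ?_
  have h2 : Differentiable ℂ fun t : ℂ => y + t • (Pi.single l 1 : Fin n → ℂ) := by fun_prop
  exact (hf.comp h2) 0

/-- an entire function which is zero near a point is zero -/
theorem entire_zero {f : (Fin n → ℂ) → ℂ} (hf : Differentiable ℂ f) {p : Fin n → ℂ} (h : ∀ᶠ y in 𝓝 p, f y = 0) : ∀ y, f y = 0 := by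
  have h1 : AnalyticOnNhd ℂ f Set.univ := fun y _ => an_of_diff hf y
  have h2 := h1.eqOn_zero_of_preconnected_of_eventuallyEq_zero isPreconnected_univ (Set.mem_univ p) h
  exact fun y => h2 (Set.mem_univ y)

theorem entire_mul {f g : (Fin n → ℂ) → ℂ} (hf : Differentiable ℂ f) (hg : Differentiable ℂ g) {p q : Fin n → ℂ} (hp : f p ≠ 0) (hq : g q ≠ 0) : ∃ y, f y ≠ 0 ∧ g y ≠ 0 := by
  by_contra! H
  have h1 : ∀ᶠ y in 𝓝 p, f y ≠ 0 := (hf.continuous.continuousAt (x := p)).eventually_ne hp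
  exact hq (entire_zero hg (h1.mono fun y hy => H y hy) q)

/-- entire functions of one variable of equal norm are proportional -/
theorem eq_smul_one {F G : ℂ → ℂ} (hF : Differentiable ℂ F) (hG : Differentiable ℂ G) (h : ∀ z, ‖G z‖ = ‖F z‖) (h0 : F 0 ≠ 0) : ∀ z, G z = G 0 / F 0 * F z := by
  have h1 : ∀ᶠ z in 𝓝 (0 : ℂ), F z ≠ 0 := (hF.continuous.continuousAt (x := (0 : ℂ))).eventually_ne h0
  have h2 : ∀ᶠ z in 𝓝 (0 : ℂ), DifferentiableAt ℂ (fun z => G z / F z) z := h1.mono fun z hz => (hG z).div (hF z) hz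
  have h3 : IsLocalMax (norm ∘ fun z => G z / F z) 0 := by
    filter_upwards [h1] with z hz
    simp only [Function.comp, norm_div, h]
    rw [div_self (norm_ne_zero_iff.2 hz), div_self (norm_ne_zero_iff.2 h0)]
  have h4 := Complex.eventually_eq_of_isLocalMax_norm h2 h3
  have h5 : ∀ᶠ z in 𝓝 (0 : ℂ), (G z - G 0 / F 0 * F z) = 0 := by
    filter_upwards [h1, h4] with z hz hz'
    rw [← hz', div_mul_cancel₀ _ hz, sub_self]
  have h6 : AnalyticOnNhd ℂ (fun z => G z - G 0 / F 0 * F z) Set.univ := fun z _ => (hG.sub (hF.const_mul _)).analyticAt z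
  have h7 := h6.eqOn_zero_of_preconnected_of_eventuallyEq_zero isPreconnected_univ (Set.mem_univ 0) h5
  exact fun z => sub_eq_zero.1 (h7 (Set.mem_univ z))

theorem eq_smul_of_norm_eq {f g : (Fin n → ℂ) → ℂ} (hf : Differentiable ℂ f) (hg : Differentiable ℂ g) (h : ∀ y, ‖g y‖ = ‖f y‖) {y₀ : Fin n → ℂ} (h0 : f y₀ ≠ 0) (y : Fin n → ℂ) :
    g y = g y₀ / f y₀ * f y := by
  have hl : Differentiable ℂ fun z : ℂ => y₀ + z • (y - y₀) := by fun_prop
  have h1 := eq_smul_one (F := fun z => f (y₀ + z • (y - y₀))) (G := fun z => g (y₀ + z • (y - y₀))) (hf.comp hl) (hg.comp hl) (fun z => h _) (by simpa using h0) 1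
  simpa using h1

/-- the exponent -/
def ex {r : ℕ} (W : Fin r → Cn n →L[ℂ] ℂ) (l y : Cn n) : ℂ := ∑ j, 2 * (starRingEnd ℂ (W j l) * W j y)

theorem ex_add {r : ℕ} (W : Fin r → Cn n →L[ℂ] ℂ) (l y y' : Cn n) : ex W l (y + y') = ex W l y + ex W l y' := by
  simp only [ex, map_add, mul_add, Finset.sum_add_distrib]

theorem ex_sub {r : ℕ} (W : Fin r → Cn n →L[ℂ] ℂ) (l y y' : Cn n) : ex W l (y - y') = ex W l y - ex W l y' := by
  simp only [ex, map_sub, mul_sub, Finset.sum_sub_distrib]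

theorem ex_diff {r : ℕ} (W : Fin r → Cn n →L[ℂ] ℂ) (l : Cn n) : Differentiable ℂ (ex W l) := by
  unfold ex
  refine Differentiable.fun_sum fun j _ => ?_
  exact (((W j).differentiable).const_mul _).const_mul _

theorem sum_sq_add {r : ℕ} (W : Fin r → Cn n →L[ℂ] ℂ) (l y : Cn n) : ∑ j, ‖W j (y + l)‖ ^ 2 = ∑ j, ‖W j y‖ ^ 2 + ((ex W l y).re + ∑ j, ‖W j l‖ ^ 2) := by
  simp only [ex, Complex.re_sum]
  rw [← Finset.sum_add_distrib, ← Finset.sum_add_distrib]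
  refine Finset.sum_congr rfl fun j _ => ?_
  rw [map_add]
  have h : ∀ a b : ℂ, ‖a + b‖ ^ 2 = ‖a‖ ^ 2 + ((2 * (starRingEnd ℂ b * a)).re + ‖b‖ ^ 2) := by
    intro a b
    rw [← Complex.normSq_eq_norm_sq, ← Complex.normSq_eq_norm_sq, ← Complex.normSq_eq_norm_sq, Complex.normSq_apply, Complex.normSq_apply, Complex.normSq_apply]
    simp only [Complex.add_re, Complex.add_im, Complex.mul_re, Complex.mul_im, Complex.conj_re, Complex.conj_im, Complex.re_ofNat, Complex.im_ofNat]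
    ring
  exact h _ _

/-- the factor of automorphy of the `θ i` -/
theorem automorphy {Λ : AddSubgroup (Cn (κ + 1))} {θ : Fin (d + 1) → Cn (κ + 1) → ℂ} (h : IsThetaForm Λ θ) (hne : ∃ i y, θ i y ≠ 0) :
    ∃ (r : ℕ) (W : Fin r → Cn (κ + 1) →L[ℂ] ℂ), (∀ y, (∀ j, W j y = 0) → y = 0) ∧
      ∀ l ∈ Λ, ∃ c : ℂ, ‖c‖ = Real.exp (∑ j, ‖W j l‖ ^ 2) ∧ ∀ y i, θ i (y + l) = c * Complex.exp (ex W l y) * θ i y := by
  obtain ⟨r, W, hW, hq⟩ := h.quasiPeriodic
  obtain ⟨i₀, y₀, h0⟩ := hne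
  refine ⟨r, W, hW, fun l hl => ?_⟩
  have hf : Differentiable ℂ (θ i₀) := h.holomorphic i₀
  have hg : Differentiable ℂ fun y => θ i₀ (y + l) * Complex.exp (-ex W l y) := by
    have h1 : Differentiable ℂ fun y : Cn (κ + 1) => θ i₀ (y + l) := hf.comp (differentiable_id.add_const l)
    exact h1.mul ((ex_diff W l).neg.cexp)
  set S : ℝ := ∑ j, ‖W j l‖ ^ 2 with hS
  have hnorm : ∀ y, ‖θ i₀ (y + l) * Complex.exp (-ex W l y) * (Real.exp (-S) : ℂ)‖ = ‖θ i₀ y‖ := by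
    intro y
    obtain ⟨e, he, he'⟩ := hq l hl y
    rw [he', norm_mul, norm_mul, norm_mul, he, Complex.norm_exp, sum_sq_add W l y, Complex.norm_real, Real.norm_of_nonneg (Real.exp_pos _).le, Complex.neg_re]
    have h1 : Real.exp (∑ j, ‖W j y‖ ^ 2 + ((ex W l y).re + ∑ j, ‖W j l‖ ^ 2) - ∑ j, ‖W j y‖ ^ 2) * Real.exp (-(ex W l y).re) * Real.exp (-S) = 1 := by
      rw [← Real.exp_add, ← Real.exp_add, ← hS]
      rw [show ∑ j, ‖W j y‖ ^ 2 + ((ex W l y).re + S) - ∑ j, ‖W j y‖ ^ 2 + -(ex W l y).re + -S = 0 by ring, Real.exp_zero]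
    calc Real.exp (∑ j, ‖W j y‖ ^ 2 + ((ex W l y).re + ∑ j, ‖W j l‖ ^ 2) - ∑ j, ‖W j y‖ ^ 2) * ‖θ i₀ y‖ * Real.exp (-(ex W l y).re) * Real.exp (-S)
        = Real.exp (∑ j, ‖W j y‖ ^ 2 + ((ex W l y).re + ∑ j, ‖W j l‖ ^ 2) - ∑ j, ‖W j y‖ ^ 2) * Real.exp (-(ex W l y).re) * Real.exp (-S) * ‖θ i₀ y‖ := by ring
      _ = ‖θ i₀ y‖ := by rw [h1, one_mul]
  have hg' : Differentiable ℂ fun y => θ i₀ (y + l) * Complex.exp (-ex W l y) * (Real.exp (-S) : ℂ) := hg.mul_const _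
  have key := eq_smul_of_norm_eq hf hg' hnorm h0
  set c₀ : ℂ := θ i₀ (y₀ + l) * Complex.exp (-ex W l y₀) * (Real.exp (-S) : ℂ) / θ i₀ y₀ with hc₀
  have hc₀' : ‖c₀‖ = 1 := by
    rw [hc₀, norm_div, hnorm, div_self (norm_ne_zero_iff.2 h0)]
  have hEne : (Real.exp (-S) : ℂ) ≠ 0 := by exact_mod_cast (Real.exp_pos _).ne'
  have hES : (Real.exp S : ℂ) * (Real.exp (-S) : ℂ) = 1 := by
    rw [← Complex.ofReal_mul, ← Real.exp_add, add_neg_cancel, Real.exp_zero, Complex.ofReal_one]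
  have h1 : ∀ y, θ i₀ (y + l) = c₀ * (Real.exp S : ℂ) * Complex.exp (ex W l y) * θ i₀ y := by
    intro y
    have h2 := key y
    have h3 : Complex.exp (-ex W l y) * Complex.exp (ex W l y) = 1 := by rw [← Complex.exp_add, neg_add_cancel, Complex.exp_zero]
    calc θ i₀ (y + l) = θ i₀ (y + l) * (Complex.exp (-ex W l y) * Complex.exp (ex W l y)) * ((Real.exp S : ℂ) * (Real.exp (-S) : ℂ)) := by rw [h3, hES, mul_one, mul_one]
      _ = (θ i₀ (y + l) * Complex.exp (-ex W l y) * (Real.exp (-S) : ℂ)) * (Complex.exp (ex W l y) * (Real.exp S : ℂ)) := by ring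
      _ = c₀ * (Real.exp S : ℂ) * Complex.exp (ex W l y) * θ i₀ y := by rw [h2]; ring
  refine ⟨c₀ * (Real.exp S : ℂ), ?_, ?_⟩
  · rw [norm_mul, hc₀', one_mul, Complex.norm_real, Real.norm_of_nonneg (Real.exp_pos _).le]
  -- the other `θ i`: equal to the identity where `θ i₀ ≠ 0`
  intro y i
  have hd : Differentiable ℂ fun y => θ i (y + l) - c₀ * (Real.exp S : ℂ) * Complex.exp (ex W l y) * θ i y := by
    have h2 : Differentiable ℂ fun y : Cn (κ + 1) => θ i (y + l) := (h.holomorphic i).comp (differentiable_id.add_const l)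
    exact h2.sub ((((ex_diff W l).cexp).const_mul _).mul (h.holomorphic i))
  have h2 : ∀ᶠ y in 𝓝 y₀, θ i (y + l) - c₀ * (Real.exp S : ℂ) * Complex.exp (ex W l y) * θ i y = 0 := by
    filter_upwards [(hf.continuous.continuousAt (x := y₀)).eventually_ne h0] with y hy
    obtain ⟨e, -, he'⟩ := hq l hl y
    have h3 : e = c₀ * (Real.exp S : ℂ) * Complex.exp (ex W l y) := by
      have h4 := he' i₀
      rw [h1 y] at h4
      exact (mul_right_cancel₀ hy h4).symm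
    rw [he' i, h3, sub_self]
  exact sub_eq_zero.1 (entire_zero hd h2 y)

/-- recurrence of the real line of `w` -/
theorem recur {Λ : AddSubgroup (Fin n → ℂ)} (h : Submodule.span ℝ (Λ : Set (Fin n → ℂ)) = ⊤) (w : Fin n → ℂ) {ε : ℝ} (hε : 0 < ε) (T : ℝ) : ∃ t : ℝ, T ≤ t ∧ ∃ l ∈ Λ, ‖(t : ℂ) • w - l‖ < ε := by
  obtain ⟨C, hC, hl⟩ := g4_cocompact h
  set T' : ℝ := max T 1 with hT'
  have hT1 : 1 ≤ T' := le_max_right _ _
  choose l hlm hl using fun k : ℕ => hl (((k * T' : ℝ) : ℂ) • w)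
  have hb : ∀ k : ℕ, ((k * T' : ℝ) : ℂ) • w - l k ∈ Metric.closedBall (0 : Fin n → ℂ) C := fun k => by
    rw [mem_closedBall_zero_iff]
    exact hl k
  obtain ⟨a, -, φ, hφ, hlim⟩ := (isCompact_closedBall (0 : Fin n → ℂ) C).tendsto_subseq hb
  have h1 := Metric.cauchySeq_iff.1 hlim.cauchySeq ε hε
  obtain ⟨N, hN⟩ := h1
  have h2 := hN (N + 1) (Nat.le_succ N) N le_rfl
  have hlt : φ N < φ (N + 1) := hφ (Nat.lt_succ_self N)
  refine ⟨((φ (N + 1) - φ N : ℕ) : ℝ) * T', ?_, l (φ (N + 1)) - l (φ N), Λ.sub_mem (hlm _) (hlm _), ?_⟩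
  · have h3 : (1 : ℝ) ≤ ((φ (N + 1) - φ N : ℕ) : ℝ) := by
      exact_mod_cast (by omega : 1 ≤ φ (N + 1) - φ N)
    calc T ≤ T' := le_max_left _ _
      _ = 1 * T' := (one_mul _).symm
      _ ≤ _ := mul_le_mul_of_nonneg_right h3 (by linarith)
  · rw [dist_eq_norm] at h2
    simp only [Function.comp] at h2
    have h3 : (((((φ (N + 1) - φ N : ℕ) : ℝ) * T' : ℝ)) : ℂ) • w - (l (φ (N + 1)) - l (φ N)) = (((φ (N + 1) : ℕ) * T' : ℝ) : ℂ) • w - l (φ (N + 1)) - ((((φ N : ℕ) * T' : ℝ) : ℂ) • w - l (φ N)) := by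
      rw [Nat.cast_sub hlt.le]
      push_cast
      module
    rw [h3]
    exact h2

end Pool.Agent.LG
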