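import Pool.Agent.LG.Cu

/-!
# LG Id: identities between differentials from identities on the torus

`∑ f_l dF_l = 0` if `∑ (g_l / h_l) ∂_i (G_l / H_l) = 0` on `ℂ^n`, where `f_l`, `F_l` are the pull-backs of `g_l / h_l`, `G_l / H_l`.
Proof.  `H23` gives a basis `b i = d (s i)` of `Ω` for a transcendence basis `s` (`H17LG.exists_basis_kaehler` or the same lemma in `H23`); it is enough that `c = ∑ f_l ∂_j F_l` is `0` for every `j` (`Ω` has the coordinates `dualDer b j`).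
Suppose `c ≠ 0`.  `exists_curve_on` with `Φ = {f_l, F_l, c}` and the forms of `NZ` for the `h_l`, `H_l`.  `Lft.ex`, `Lft.curve`: `y(t)` analytic with `L (γ t) (y t)` near `0`; `h_l(y t) ≠ 0`, `H_l(y t) ≠ 0`.  `ev t (F_l) = G_l(y t) / H_l(y t)`, so
`ev t (∂_j F_l) = ∑_i (wr H_l G_l i / H_l²)(y t) (y_i)'(t)`, and `ev t c = ∑_l (g_l / h_l)(y t) ∑_i … = 0`.  But `c⁻¹ ∈ R`.
-/

set_option autoImplicit false

open MvPolynomial Topology Filter
open Pool.Agent.PXF (Cn form IsThetaForm)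
open Pool.Agent.H23 (dualDer dualDer_apply exists_basis_kaehler)

noncomputable section

namespace Pool.Agent.LG

variable {K : Type} [Field K] [Algebra ℂ K] {N κ d n : ℕ} {ξ : Fin (N + 1) → K} {Q : Ideal (MvPolynomial (Fin (N + 1)) ℂ)} {Λ : AddSubgroup (Cn (κ + 1))} {θ : Fin (d + 1) → Cn (κ + 1) → ℂ}
  {L : (Fin (N + 1) → ℂ) → Cn (κ + 1) → Prop}

private theorem fderiv_eq_sum (G : Cn (κ + 1) → ℂ) (y v : Cn (κ + 1)) : fderiv ℂ G y v = ∑ i, v i * pd G i y := by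
  have h : v = ∑ i, v i • (Pi.single i 1 : Cn (κ + 1)) := by
    ext j
    rw [Finset.sum_apply]
    simp [Pi.single_apply]
  conv_lhs => rw [h]
  rw [map_sum]
  refine Finset.sum_congr rfl fun i _ => ?_
  rw [map_smul, smul_eq_mul]
  rfl

/-- the chain rule for a quotient of entire functions -/
theorem deriv_quot {G H : Cn (κ + 1) → ℂ} (hG : Differentiable ℂ G) (hH : Differentiable ℂ H) {y : ℂ → Cn (κ + 1)} {t : ℂ} (hy : DifferentiableAt ℂ y t) (h0 : H (y t) ≠ 0) :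
    deriv (fun t => G (y t) / H (y t)) t = ∑ i, wr H G i (y t) / H (y t) ^ 2 * deriv y t i := by
  have h1 : HasDerivAt (fun t => G (y t)) (fderiv ℂ G (y t) (deriv y t)) t := (hG (y t)).hasFDerivAt.comp_hasDerivAt t hy.hasDerivAt
  have h2 : HasDerivAt (fun t => H (y t)) (fderiv ℂ H (y t) (deriv y t)) t := (hH (y t)).hasFDerivAt.comp_hasDerivAt t hy.hasDerivAt
  have h3 := (h1.div h2 h0).deriv
  change deriv (fun t => G (y t) / H (y t)) t = _ at h3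
  rw [h3, fderiv_eq_sum, fderiv_eq_sum, Finset.sum_mul, Finset.mul_sum, ← Finset.sum_sub_distrib, Finset.sum_div]
  refine Finset.sum_congr rfl fun i _ => ?_
  unfold wr
  ring

theorem dd_identity [Algebra.EssFiniteType ℂ K] {z : Fin n → K} (hz : IsTranscendenceBasis ℂ z) (homog : ∀ F ∈ Q, ∀ m, homogeneousComponent m F ∈ Q) (hgp : GP Q ξ) (hL : Lft Q Λ L) {σ : Type} [Fintype σ] (f F : σ → K) (g h G H : σ → Cn (κ + 1) → ℂ)
    (hf : ∀ l, IsVal Q ξ L (f l) (g l) (h l)) (hF : ∀ l, IsVal Q ξ L (F l) (G l) (H l)) (hh : ∀ l, NZ Q L (h l)) (hH : ∀ l, NZ Q L (H l)) (dG : ∀ l, Differentiable ℂ (G l)) (dH : ∀ l, Differentiable ℂ (H l))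
    (hid : ∀ y, (∀ l, h l y ≠ 0) → (∀ l, H l y ≠ 0) → ∀ i, ∑ l, g l y / h l y * (wr (H l) (G l) i y / H l y ^ 2) = 0) : ∑ l, f l • dd (F l) = 0 := by
  classical
  obtain ⟨b, hb⟩ := exists_basis_kaehler hz
  refine b.ext_elem fun j => ?_
  rw [map_zero, Finsupp.zero_apply]
  have hc : b.repr (∑ l, f l • dd (F l)) j = ∑ l, f l * dualDer b j (F l) := by
    rw [map_sum, Finsupp.finsetSum_apply]
    refine Finset.sum_congr rfl fun l _ => ?_
    rw [map_smul, Finsupp.smul_apply, smul_eq_mul, dualDer_apply]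
  rw [hc]
  by_contra hne
  choose D₁ B₁ hB₁ hBQ₁ hBn₁ using hh
  choose D₂ B₂ hB₂ hBQ₂ hBn₂ using hH
  obtain ⟨R, ev, j₀, γ, hcur, hΦ, hj, hR, hγ, hγj, hcone, hana, hB, hval⟩ := exists_curve_on homog hgp hz b hb j
    (insert (∑ l, f l * dualDer b j (F l)) (Finset.univ.image f ∪ Finset.univ.image F)) (Sum.elim B₁ B₂)
    (by rintro (i | i); exacts [⟨_, hB₁ i⟩, ⟨_, hB₂ i⟩]) (by rintro (i | i); exacts [hBQ₁ i, hBQ₂ i])
  obtain ⟨y₀, hy₀⟩ := hL.ex (γ 0) (hcone 0)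
  obtain ⟨y, hya, hy0, hyL⟩ := hL.curve γ hana (Eventually.of_forall hcone) y₀ hy₀
  have hfR : ∀ l, f l ∈ R := fun l => (hΦ _ (by simp)).1
  have hFR : ∀ l, F l ∈ R := fun l => (hΦ _ (by simp)).1
  have hcR := hΦ _ (Finset.mem_insert_self _ _)
  have hn₁ : ∀ t, L (γ t) (y t) → ∀ l, h l (y t) ≠ 0 := fun t ht l => hBn₁ l _ _ (hcone t) ht (hB t (Sum.inl l))
  have hn₂ : ∀ t, L (γ t) (y t) → ∀ l, H l (y t) ≠ 0 := fun t ht l => hBn₂ l _ _ (hcone t) ht (hB t (Sum.inr l))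
  have hL0 : L (γ 0) (y 0) := by rw [hy0]; exact hy₀
  have e1 : ∀ l, ev 0 ⟨f l, hfR l⟩ = g l (y 0) / h l (y 0) := fun l => hval 0 _ _ (hfR l) (hf l _ _ (hcone 0) hL0 (hn₁ 0 hL0 l))
  have e2 : ∀ l, ev 0 ⟨dualDer b j (F l), hcur.stable _ (hFR l)⟩ = ∑ i, wr (H l) (G l) i (y 0) / H l (y 0) ^ 2 * deriv y 0 i := by
    intro l
    have h1 : (fun t => ev t ⟨F l, hFR l⟩) =ᶠ[𝓝 0] fun t => G l (y t) / H l (y t) := by
      filter_upwards [hyL] with t ht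
      exact hval t _ _ (hFR l) (hF l _ _ (hcone t) ht (hn₂ t ht l))
    rw [← (hcur.deriv _ (hFR l)).self_of_nhds, h1.deriv_eq, deriv_quot (dG l) (dH l) hya.differentiableAt (hn₂ 0 hL0 l)]
  have e3 : ev 0 ⟨∑ l, f l * dualDer b j (F l), hcR.1⟩ = 0 := by
    have h1 : (⟨∑ l, f l * dualDer b j (F l), hcR.1⟩ : R) = ∑ l, (⟨f l, hfR l⟩ : R) * ⟨dualDer b j (F l), hcur.stable _ (hFR l)⟩ := by
      apply Subtype.ext
      simp
    rw [h1, map_sum]
    calc ∑ l, ev 0 ((⟨f l, hfR l⟩ : R) * ⟨dualDer b j (F l), hcur.stable _ (hFR l)⟩)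
        = ∑ l, g l (y 0) / h l (y 0) * ∑ i, wr (H l) (G l) i (y 0) / H l (y 0) ^ 2 * deriv y 0 i :=
          Finset.sum_congr rfl fun l _ => by rw [map_mul, e1, e2]
      _ = ∑ i, deriv y 0 i * ∑ l, g l (y 0) / h l (y 0) * (wr (H l) (G l) i (y 0) / H l (y 0) ^ 2) := by
          simp only [Finset.mul_sum]
          rw [Finset.sum_comm]
          refine Finset.sum_congr rfl fun i _ => Finset.sum_congr rfl fun l _ => ?_
          ring
      _ = 0 := by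
          refine Finset.sum_eq_zero fun i _ => ?_
          rw [hid _ (hn₁ 0 hL0) (hn₂ 0 hL0) i, mul_zero]
  have e4 : ev 0 ⟨∑ l, f l * dualDer b j (F l), hcR.1⟩ * ev 0 ⟨(∑ l, f l * dualDer b j (F l))⁻¹, hcR.2⟩ = 1 := by
    rw [← map_mul]
    have h1 : (⟨∑ l, f l * dualDer b j (F l), hcR.1⟩ : R) * ⟨(∑ l, f l * dualDer b j (F l))⁻¹, hcR.2⟩ = 1 := by
      apply Subtype.ext
      exact mul_inv_cancel₀ hne
    rw [h1, map_one]
  rw [e3, zero_mul] at e4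
  exact zero_ne_one e4

end Pool.Agent.LG
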