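import Pool.Agent.LG.Cv1
import Pool.Agent.H5.DG.ImplRoot

/-!
# LG Cv2: analytic curves with given derivations

`K = ℂ(s)(y)` (`exists_plane`), `M(s, y) = 0`, `M a + M' b = g₀(s)`.  Every `f ∈ Φ` and its inverse is `p(s, y) / q(s)`; `g = g₀ ∏ q ∈ ℂ[s]`, `g ≠ 0`.  `R = ℂ[s, y, 1 / g]`.
* `Φ`, `Φ⁻¹ ⊆ R`.  `R` is stable under the dual derivation `∂_j` (`dualDer_coord`: `∂_j s_i = δ_ij`; `∂_j y = - (∂_(s_j) M)(s, y) / M'(s, y)`, and `M'(s, y) b(s, y) = g₀`; Leibniz).
* Take `s₀ ∈ ℂⁿ` with `g(s₀) ≠ 0`, a root `y₀` of `M(s₀, T)` (monic, of positive degree); `M'(s₀, y₀) b = g₀(s₀) ≠ 0`.  The implicit function theorem (`HasStrictFDerivAt`/`AnalyticAt` version, one variable `t`, `M(s₀ + t e_j, T)`) gives `y(t)`, analytic at `0`, `y(0) = y₀`,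
  `M(s₀ + t e_j, y(t)) = 0` and `g(s₀ + t e_j) ≠ 0` for `|t| < ε`.
* `ev t : R → ℂ` for `|t| < ε`: `p(s, y) / g^r ↦ p(s₀ + t e_j, y(t)) / g(s₀ + t e_j)^r`; well defined because `ker` (if `p(s, y) = 0` in `K` then `M ∣ p`, and `M(s₀ + t e_j, y(t)) = 0`).  For `|t| ≥ ε` take `ev 0`.
* `t ↦ ev t f` is analytic at `0` for the generators, so for all `f ∈ R`; both sides of `(ev t f)' = ev t (∂_j f)` are derivations of `f`, and they agree for the generators.
-/

set_option autoImplicit false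

open MvPolynomial Topology Filter
open Pool.Agent.H23 (dualDer)

noncomputable section

namespace Pool.Agent.LG

variable {K : Type} [Field K] [Algebra ℂ K] {n : ℕ}

/-- `ev t f`, `f ∈ R`, is the value of the function `f` at the point `t` of a curve along which the derivative of the functions is the derivation `D₀` -/
structure IsCurve (D₀ : Derivation ℂ K K) (R : Subalgebra ℂ K) (ev : ℂ → R →ₐ[ℂ] ℂ) : Prop where
  stable : ∀ f ∈ R, D₀ f ∈ R
  analytic : ∀ f : R, AnalyticAt ℂ (fun t => ev t f) 0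
  deriv : ∀ (f : K) (hf : f ∈ R), ∀ᶠ t in 𝓝 (0 : ℂ), deriv (fun t => ev t ⟨f, hf⟩) t = ev t ⟨D₀ f, stable f hf⟩

/-! ### values of polynomials -/

/-- the value at a point of `ℂⁿ × ℂ` -/
private def cv (z : Fin n → ℂ) (w : ℂ) : Polynomial (MvPolynomial (Fin n) ℂ) →+* ℂ :=
  Polynomial.eval₂RingHom (MvPolynomial.eval z) w

private lemma cv_apply (z : Fin n → ℂ) (w : ℂ) (p : Polynomial (MvPolynomial (Fin n) ℂ)) :
    cv z w p = p.eval₂ (MvPolynomial.eval z) w := rfl

/-- the value at the point `(s, y)` of `K` as a ring homomorphism -/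
private def ph (s : Fin n → K) (y : K) : Polynomial (MvPolynomial (Fin n) ℂ) →+* K :=
  Polynomial.eval₂RingHom (aeval s : MvPolynomial (Fin n) ℂ →ₐ[ℂ] K).toRingHom y

private lemma pv_eq (s : Fin n → K) (y : K) (p : Polynomial (MvPolynomial (Fin n) ℂ)) :
    pv s y p = ph s y p := rfl

private lemma ph_C (s : Fin n → K) (y : K) (c : MvPolynomial (Fin n) ℂ) :
    ph s y (Polynomial.C c) = aeval s c := by
  change Polynomial.eval₂ _ _ _ = _
  rw [Polynomial.eval₂_C]
  rfl

private lemma ph_X (s : Fin n → K) (y : K) : ph s y Polynomial.X = y := by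
  change Polynomial.eval₂ _ _ _ = _
  rw [Polynomial.eval₂_X]

/-- the line through `s₀` -/
private def ln (s₀ : Fin n → ℂ) (j : Fin n) (t : ℂ) : Fin n → ℂ := fun i => s₀ i + (if j = i then t else 0)

private lemma ln_zero (s₀ : Fin n → ℂ) (j : Fin n) : ln s₀ j 0 = s₀ := by
  funext i
  simp [ln]

private lemma der_aeval (D : Derivation ℂ K K) {s : Fin n → K} {j : Fin n} (hD : ∀ i, D (s i) = if j = i then 1 else 0)
    (c : MvPolynomial (Fin n) ℂ) : D (aeval s c) = aeval s (pderiv j c) := by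
  induction c using MvPolynomial.induction_on with
  | C a =>
    rw [MvPolynomial.aeval_C, D.map_algebraMap, pderiv_C, map_zero]
  | add p q hp hq => rw [map_add, map_add, hp, hq, map_add, map_add]
  | mul_X p i hp =>
    rw [map_mul, MvPolynomial.aeval_X, D.leibniz, hp, hD, pderiv_mul, pderiv_X, map_add, map_mul, map_mul,
      MvPolynomial.aeval_X, smul_eq_mul, smul_eq_mul, Pi.single_apply]
    by_cases h : j = i
    · rw [if_pos h, if_pos h.symm, map_one]; ring
    · rw [if_neg h, if_neg (Ne.symm h), map_zero]; ring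

private lemma hasDerivAt_eval (s₀ : Fin n → ℂ) (j : Fin n) (c : MvPolynomial (Fin n) ℂ) (t : ℂ) :
    HasDerivAt (fun t => MvPolynomial.eval (ln s₀ j t) c) (MvPolynomial.eval (ln s₀ j t) (pderiv j c)) t := by
  induction c using MvPolynomial.induction_on with
  | C a =>
    simp only [MvPolynomial.eval_C, pderiv_C, map_zero]
    exact hasDerivAt_const t a
  | add p q hp hq =>
    simp only [map_add]
    exact hp.add hq
  | mul_X p i hp =>
    have h1 : HasDerivAt (fun t => ln s₀ j t i) (if j = i then 1 else 0) t := by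
      by_cases h : j = i
      · simp only [ln, if_pos h]
        exact (hasDerivAt_id t).const_add _
      · simp only [ln, if_neg h]
        exact hasDerivAt_const t _
    have h2 := hp.mul h1
    have h3 : (fun t => MvPolynomial.eval (ln s₀ j t) (p * X i)) =
        (fun t => MvPolynomial.eval (ln s₀ j t) p) * fun t => ln s₀ j t i := by
      funext t
      simp only [map_mul, MvPolynomial.eval_X, Pi.mul_apply]
    rw [h3]
    refine h2.congr_deriv ?_
    rw [pderiv_mul, pderiv_X, map_add, map_mul, map_mul, MvPolynomial.eval_X, Pi.single_apply]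
    by_cases h : j = i
    · rw [if_pos h, if_pos h.symm, map_one]
    · rw [if_neg h, if_neg (Ne.symm h), map_zero]

/-- the partial derivative with respect to `s_j` -/
private lemma exists_q (D : Derivation ℂ K K) {s : Fin n → K} {j : Fin n} (hD : ∀ i, D (s i) = if j = i then 1 else 0)
    (y : K) (s₀ : Fin n → ℂ) (p : Polynomial (MvPolynomial (Fin n) ℂ)) :
    ∃ q : Polynomial (MvPolynomial (Fin n) ℂ), D (ph s y p) = ph s y q + ph s y (Polynomial.derivative p) * D y ∧
      ∀ (u : ℂ → ℂ) (u' t : ℂ), HasDerivAt u u' t →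
        HasDerivAt (fun t => cv (ln s₀ j t) (u t) p)
          (cv (ln s₀ j t) (u t) q + cv (ln s₀ j t) (u t) (Polynomial.derivative p) * u') t := by
  induction p using Polynomial.induction_on' with
  | add p q hp hq =>
    obtain ⟨p', h1, h2⟩ := hp
    obtain ⟨q', h3, h4⟩ := hq
    refine ⟨p' + q', ?_, ?_⟩
    · rw [map_add, map_add, h1, h3, Polynomial.derivative_add, map_add, map_add]
      ring
    · intro u u' t hu
      have h5 := (h2 u u' t hu).add (h4 u u' t hu)
      have h6 : (fun t => cv (ln s₀ j t) (u t) (p + q)) =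
          (fun t => cv (ln s₀ j t) (u t) p) + fun t => cv (ln s₀ j t) (u t) q := by
        funext t
        simp only [map_add, Pi.add_apply]
      rw [h6]
      refine h5.congr_deriv ?_
      rw [Polynomial.derivative_add, map_add, map_add]
      ring
  | monomial m a =>
    refine ⟨Polynomial.monomial m (pderiv j a), ?_, ?_⟩
    · have h1 : ∀ c : MvPolynomial (Fin n) ℂ, ∀ m : ℕ, ph s y (Polynomial.monomial m c) = aeval s c * y ^ m := by
        intro c m
        change Polynomial.eval₂ _ _ _ = _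
        rw [Polynomial.eval₂_monomial]
        rfl
      rw [h1, h1, Polynomial.derivative_monomial, h1, D.leibniz, der_aeval D hD, D.leibniz_pow, map_mul, map_natCast]
      simp only [smul_eq_mul, nsmul_eq_mul]
      ring
    · intro u u' t hu
      have h1 : ∀ c : MvPolynomial (Fin n) ℂ, ∀ m : ℕ, ∀ z : Fin n → ℂ, ∀ w : ℂ,
          cv z w (Polynomial.monomial m c) = MvPolynomial.eval z c * w ^ m := by
        intro c m z w
        rw [cv_apply, Polynomial.eval₂_monomial]
      simp only [h1, Polynomial.derivative_monomial]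
      have h2 := (hasDerivAt_eval s₀ j a t).mul (hu.pow m)
      refine h2.congr_deriv ?_
      rw [map_mul, map_natCast, Pi.pow_apply]
      ring

/-! ### the evaluations -/

/-- the ring `ℂ[s, y, 1 / g]` -/
private def rg (s : Fin n → K) (y : K) (g : MvPolynomial (Fin n) ℂ) : Subalgebra ℂ K :=
  Algebra.adjoin ℂ (Set.range s ∪ {y, (aeval s g)⁻¹})

private lemma s_mem (s : Fin n → K) (y : K) (g : MvPolynomial (Fin n) ℂ) (i : Fin n) : s i ∈ rg s y g :=
  Algebra.subset_adjoin (Or.inl ⟨i, rfl⟩)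

private lemma y_mem (s : Fin n → K) (y : K) (g : MvPolynomial (Fin n) ℂ) : y ∈ rg s y g :=
  Algebra.subset_adjoin (Or.inr (Or.inl rfl))

private lemma inv_mem' (s : Fin n → K) (y : K) (g : MvPolynomial (Fin n) ℂ) : (aeval s g)⁻¹ ∈ rg s y g :=
  Algebra.subset_adjoin (Or.inr (Or.inr rfl))

private lemma aeval_mem (s : Fin n → K) (y : K) (g c : MvPolynomial (Fin n) ℂ) : aeval s c ∈ rg s y g := by
  induction c using MvPolynomial.induction_on with
  | C a => rw [MvPolynomial.aeval_C]; exact Subalgebra.algebraMap_mem _ _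
  | add p q hp hq => rw [map_add]; exact add_mem hp hq
  | mul_X p i hp => rw [map_mul, MvPolynomial.aeval_X]; exact mul_mem hp (s_mem s y g i)

private lemma ph_mem (s : Fin n → K) (y : K) (g : MvPolynomial (Fin n) ℂ) (p : Polynomial (MvPolynomial (Fin n) ℂ)) :
    ph s y p ∈ rg s y g := by
  induction p using Polynomial.induction_on' with
  | add p q hp hq => rw [map_add]; exact add_mem hp hq
  | monomial m a =>
    change Polynomial.eval₂ _ _ _ ∈ _
    rw [Polynomial.eval₂_monomial]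
    exact mul_mem (aeval_mem s y g a) (pow_mem (y_mem s y g) m)

private lemma div_mem (s : Fin n → K) (y : K) {g c : MvPolynomial (Fin n) ℂ} (h0 : aeval s g ≠ 0) (h : c ∣ g) :
    (aeval s c)⁻¹ ∈ rg s y g := by
  obtain ⟨e, rfl⟩ := h
  rw [map_mul] at h0
  have h1 : (aeval s c)⁻¹ = aeval s e * (aeval s (c * e))⁻¹ := by
    have h2 : aeval s c ≠ 0 := left_ne_zero_of_mul h0
    have h3 : aeval s e ≠ 0 := right_ne_zero_of_mul h0
    rw [map_mul]
    field_simp
  rw [h1]
  exact mul_mem (aeval_mem s y _ e) (inv_mem' s y _)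

private lemma exists_rep (s : Fin n → K) (y : K) {g : MvPolynomial (Fin n) ℂ} (h0 : aeval s g ≠ 0) {f : K}
    (hf : f ∈ rg s y g) : ∃ (p : Polynomial (MvPolynomial (Fin n) ℂ)) (r : ℕ), f * aeval s g ^ r = ph s y p := by
  induction hf using Algebra.adjoin_induction with
  | mem x hx =>
    rcases hx with ⟨i, rfl⟩ | hx
    · exact ⟨Polynomial.C (X i), 0, by rw [ph_C, MvPolynomial.aeval_X, pow_zero, mul_one]⟩
    · rcases hx with rfl | hx
      · exact ⟨Polynomial.X, 0, by rw [ph_X, pow_zero, mul_one]⟩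
      · rw [Set.mem_singleton_iff] at hx
        subst hx
        exact ⟨1, 1, by rw [map_one, pow_one, inv_mul_cancel₀ h0]⟩
  | algebraMap c =>
    exact ⟨Polynomial.C (C c), 0, by rw [ph_C, MvPolynomial.aeval_C, pow_zero, mul_one]⟩
  | add x y' _ _ hx hy =>
    obtain ⟨p, r, h1⟩ := hx
    obtain ⟨p', r', h2⟩ := hy
    refine ⟨p * Polynomial.C g ^ r' + p' * Polynomial.C g ^ r, r + r', ?_⟩
    rw [map_add, map_mul, map_mul, map_pow, map_pow, ph_C, ← h1, ← h2]
    ring
  | mul x y' _ _ hx hy =>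
    obtain ⟨p, r, h1⟩ := hx
    obtain ⟨p', r', h2⟩ := hy
    refine ⟨p * p', r + r', ?_⟩
    rw [map_mul, ← h1, ← h2]
    ring

/-- the evaluation given by a point of the curve `M = 0` -/
private lemma exists_ev {s : Fin n → K} {y : K} {M : Polynomial (MvPolynomial (Fin n) ℂ)} (hM : Plane s y M)
    {g : MvPolynomial (Fin n) ℂ} (h0 : aeval s g ≠ 0) (σ : Polynomial (MvPolynomial (Fin n) ℂ) →+* ℂ)
    (hσ : ∀ c : ℂ, σ (Polynomial.C (C c)) = c) (h1 : σ M = 0) (h2 : σ (Polynomial.C g) ≠ 0) :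
    ∃ φ : rg s y g →ₐ[ℂ] ℂ, ∀ (f : K) (hf : f ∈ rg s y g) (p : Polynomial (MvPolynomial (Fin n) ℂ)) (r : ℕ),
      f * aeval s g ^ r = ph s y p → φ ⟨f, hf⟩ * σ (Polynomial.C g) ^ r = σ p := by
  have hrep : ∀ f : rg s y g, ∃ (p : Polynomial (MvPolynomial (Fin n) ℂ)) (r : ℕ), (f : K) * aeval s g ^ r = ph s y p :=
    fun f => exists_rep s y h0 f.2
  choose P r hP using hrep
  have hkey : ∀ (f : rg s y g) (p : Polynomial (MvPolynomial (Fin n) ℂ)) (e : ℕ), (f : K) * aeval s g ^ e = ph s y p →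
      σ (P f) / σ (Polynomial.C g) ^ r f * σ (Polynomial.C g) ^ e = σ p := by
    intro f p e h
    have h3 : pv s y (p * Polynomial.C g ^ r f - P f * Polynomial.C g ^ e) = 0 := by
      rw [pv_eq, map_sub, map_mul, map_mul, map_pow, map_pow, ph_C, ← h, ← hP f]
      ring
    obtain ⟨m, hm⟩ := hM.ker _ h3
    have h4 : σ p * σ (Polynomial.C g) ^ r f = σ (P f) * σ (Polynomial.C g) ^ e := by
      have h5 := congrArg σ hm
      rw [map_sub, map_mul, map_mul, map_pow, map_pow, map_mul, h1, zero_mul] at h5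
      exact sub_eq_zero.1 h5
    rw [div_mul_eq_mul_div, ← h4, mul_div_assoc, div_self (pow_ne_zero _ h2), mul_one]
  have hcan : ∀ (a b : ℂ) (e : ℕ), a * σ (Polynomial.C g) ^ e = b * σ (Polynomial.C g) ^ e → a = b :=
    fun a b e h => mul_right_cancel₀ (pow_ne_zero e h2) h
  refine ⟨{ toFun := fun f => σ (P f) / σ (Polynomial.C g) ^ r f
            map_one' := ?_, map_mul' := ?_, map_zero' := ?_, map_add' := ?_, commutes' := ?_ }, ?_⟩
  · have := hkey 1 1 0 (by simp)
    simpa using this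
  · intro f f'
    apply hcan _ _ (r f + r f')
    rw [hkey (f * f') (P f * P f') (r f + r f') (by
      rw [map_mul, ← hP f, ← hP f']
      push_cast
      ring), map_mul]
    have h3 := hkey f (P f) (r f) (hP f)
    have h4 := hkey f' (P f') (r f') (hP f')
    linear_combination (-(σ (P f'))) * h3 - (σ (P f) / σ (Polynomial.C g) ^ r f * σ (Polynomial.C g) ^ r f) * h4
  · have := hkey 0 0 0 (by simp)
    simpa using this
  · intro f f'
    apply hcan _ _ (r f + r f')
    rw [hkey (f + f') (P f * Polynomial.C g ^ r f' + P f' * Polynomial.C g ^ r f) (r f + r f') (by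
      rw [map_add, map_mul, map_mul, map_pow, map_pow, ph_C, ← hP f, ← hP f']
      push_cast
      ring), map_add, map_mul, map_mul, map_pow, map_pow]
    have h3 := hkey f (P f) (r f) (hP f)
    have h4 := hkey f' (P f') (r f') (hP f')
    linear_combination (-(σ (Polynomial.C g) ^ r f')) * h3 - (σ (Polynomial.C g) ^ r f) * h4
  · intro c
    have := hkey (algebraMap ℂ (rg s y g) c) (Polynomial.C (C c)) 0 (by
      rw [pow_zero, mul_one, ph_C, MvPolynomial.aeval_C]
      rfl)
    rw [pow_zero, mul_one, hσ] at this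
    exact this
  · intro f hf p e h
    exact hkey ⟨f, hf⟩ p e h

theorem exists_curve [Algebra.EssFiniteType ℂ K] {s : Fin n → K} (hs : IsTranscendenceBasis ℂ s) (b : Module.Basis (Fin n) K Ω[K⁄ℂ]) (hb : ∀ i, b i = dd (s i)) (j : Fin n) (Φ : Finset K) :
    ∃ (R : Subalgebra ℂ K) (ev : ℂ → R →ₐ[ℂ] ℂ), IsCurve (dualDer b j) R ev ∧ ∀ f ∈ Φ, f ∈ R ∧ f⁻¹ ∈ R := by
  classical
  obtain ⟨y, M, hM⟩ := exists_plane hs
  obtain ⟨a, b', g₀, hg₀, hab⟩ := hM.sep
  choose P Q hQ hPQ using hM.frac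
  set D : Derivation ℂ K K := dualDer b j with hDdef
  have hD : ∀ i, D (s i) = if j = i then 1 else 0 := fun i => Pool.Agent.H23.dualDer_coord b hb j i
  set g : MvPolynomial (Fin n) ℂ := g₀ * ∏ f ∈ Φ, Q f * Q f⁻¹ with hg
  have hgne : g ≠ 0 := mul_ne_zero hg₀ (Finset.prod_ne_zero_iff.2 fun f _ => mul_ne_zero (hQ f) (hQ f⁻¹))
  have hinj : ∀ c : MvPolynomial (Fin n) ℂ, c ≠ 0 → aeval s c ≠ 0 := by
    intro c hc h
    apply hc
    apply hs.1
    rw [h, map_zero]
  have hgs : aeval s g ≠ 0 := hinj g hgne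
  -- the point
  obtain ⟨s₀, hs₀⟩ : ∃ s₀ : Fin n → ℂ, MvPolynomial.eval s₀ g ≠ 0 := by
    by_contra hcon
    push Not at hcon
    apply hgne
    apply MvPolynomial.funext
    intro z
    rw [hcon z, map_zero]
  have hcoeff : M.natDegree ≠ 0 := by
    intro h
    have h1 : M = 1 := hM.monic.natDegree_eq_zero.1 h
    have h2 := hM.root
    rw [pv_eq, h1, map_one] at h2
    exact one_ne_zero h2
  obtain ⟨y₀, hy₀⟩ : ∃ y₀ : ℂ, cv s₀ y₀ M = 0 := by
    have h1 : (M.map (MvPolynomial.eval s₀)).degree ≠ 0 := by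
      rw [hM.monic.degree_map, Polynomial.degree_eq_natDegree hM.monic.ne_zero]
      exact_mod_cast hcoeff
    obtain ⟨y₀, h2⟩ := IsAlgClosed.exists_root _ h1
    refine ⟨y₀, ?_⟩
    rw [cv_apply, ← Polynomial.eval_map]
    exact h2
  have hder : ∀ (z : Fin n → ℂ) (w : ℂ), cv z w M = 0 → MvPolynomial.eval z g ≠ 0 →
      cv z w (Polynomial.derivative M) ≠ 0 := by
    intro z w h1 h2 h3
    have h4 := congrArg (cv z w) hab
    rw [map_add, map_mul, map_mul, h1, h3, zero_mul, zero_mul, add_zero] at h4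
    have h5 : cv z w (Polynomial.C g₀) = MvPolynomial.eval z g₀ := by
      rw [cv_apply, Polynomial.eval₂_C]
    rw [h5] at h4
    apply h2
    rw [hg, map_mul, ← h4, zero_mul]
  obtain ⟨u, hu1, hu2, hu3⟩ := Pool.Agent.H5.DG.exists_root_fun (κ := M.natDegree)
    (fun i t => MvPolynomial.eval (ln s₀ j t) (M.coeff i)) (z₀ := 0) (u₀ := y₀)
    (fun i => (Differentiable.analyticAt (fun t => (hasDerivAt_eval s₀ j (M.coeff i) t).differentiableAt) 0))
    (by
      have h1 := hy₀
      rw [cv_apply, Polynomial.eval₂_eq_sum_range] at h1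
      simp only [ln_zero]
      exact h1)
    (by
      have h1 : HasDerivAt (fun w => cv s₀ w M) (cv s₀ y₀ (Polynomial.derivative M)) y₀ := by
        have h2 := (M.map (MvPolynomial.eval s₀)).hasDerivAt y₀
        have h3 : (fun w => cv s₀ w M) = fun w => (M.map (MvPolynomial.eval s₀)).eval w := by
          funext w
          rw [cv_apply, Polynomial.eval_map]
        rw [h3]
        refine h2.congr_deriv ?_
        rw [Polynomial.derivative_map, cv_apply, Polynomial.eval_map]
      have h2 : HasDerivAt (fun w => cv s₀ w M)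
          (∑ i ∈ Finset.range (M.natDegree + 1), MvPolynomial.eval s₀ (M.coeff i) * (i * y₀ ^ (i - 1))) y₀ := by
        have h3 : (fun w => cv s₀ w M) = fun w => ∑ i ∈ Finset.range (M.natDegree + 1),
            MvPolynomial.eval s₀ (M.coeff i) * w ^ i := by
          funext w
          rw [cv_apply, Polynomial.eval₂_eq_sum_range]
        rw [h3]
        refine HasDerivAt.fun_sum fun i _ => ?_
        exact (hasDerivAt_pow i y₀).const_mul _
      simp only [ln_zero]
      rw [← h1.unique h2]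
      exact hder s₀ y₀ hy₀ hs₀)
  -- the ball
  have hcont : ∀ᶠ t in 𝓝 (0 : ℂ), MvPolynomial.eval (ln s₀ j t) g ≠ 0 := by
    have h1 : ContinuousAt (fun t => MvPolynomial.eval (ln s₀ j t) g) 0 := (hasDerivAt_eval s₀ j g 0).continuousAt
    apply h1.eventually_ne
    rw [ln_zero]
    exact hs₀
  obtain ⟨ε, hε, hball⟩ := Metric.eventually_nhds_iff.1 ((hu1.eventually_analyticAt.and hu3).and hcont)
  have hb1 : ∀ t : ℂ, ‖t‖ < ε → AnalyticAt ℂ u t ∧ cv (ln s₀ j t) (u t) M = 0 ∧ MvPolynomial.eval (ln s₀ j t) g ≠ 0 := by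
    intro t ht
    obtain ⟨⟨h1, h2⟩, h3⟩ := hball (by rwa [dist_zero_right])
    refine ⟨h1, ?_, h3⟩
    rw [cv_apply, Polynomial.eval₂_eq_sum_range]
    exact h2
  set T : ℂ → ℂ := fun t => if ‖t‖ < ε then t else 0 with hT
  have hTlt : ∀ t, ‖T t‖ < ε := by
    intro t
    rw [hT]
    dsimp only
    split_ifs with h
    · exact h
    · rwa [norm_zero]
  set σ : ℂ → Polynomial (MvPolynomial (Fin n) ℂ) →+* ℂ := fun t => cv (ln s₀ j (T t)) (u (T t)) with hσ
  have hσC : ∀ t (c : MvPolynomial (Fin n) ℂ), σ t (Polynomial.C c) = MvPolynomial.eval (ln s₀ j (T t)) c := by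
    intro t c
    rw [hσ]
    dsimp only
    rw [cv_apply, Polynomial.eval₂_C]
  have hσg : ∀ t, σ t (Polynomial.C g) ≠ 0 := by
    intro t
    rw [hσC]
    exact (hb1 _ (hTlt t)).2.2
  have hev : ∀ t, ∃ φ : rg s y g →ₐ[ℂ] ℂ, ∀ (f : K) (hf : f ∈ rg s y g)
      (p : Polynomial (MvPolynomial (Fin n) ℂ)) (r : ℕ),
      f * aeval s g ^ r = ph s y p → φ ⟨f, hf⟩ * σ t (Polynomial.C g) ^ r = σ t p := by
    intro t
    apply exists_ev hM hgs (σ t)
    · intro c
      rw [hσC, MvPolynomial.eval_C]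
    · exact (hb1 _ (hTlt t)).2.1
    · exact hσg t
  choose ev hev using hev
  have hevp : ∀ t p, ev t ⟨ph s y p, ph_mem s y g p⟩ = σ t p := by
    intro t p
    have := hev t _ (ph_mem s y g p) p 0 (by rw [pow_zero, mul_one])
    rwa [pow_zero, mul_one] at this
  have hloc : ∀ (t : ℂ), ‖t‖ < ε → ∀ (F G : ℂ → ℂ) (v : ℂ), (∀ t, ‖t‖ < ε → F t = G t) → HasDerivAt G v t →
      HasDerivAt F v t := by
    intro t ht F G v h1 h2
    apply h2.congr_of_eventuallyEq
    have h3 : ∀ᶠ t' in 𝓝 t, ‖t'‖ < ε := continuous_norm.continuousAt.eventually (Iio_mem_nhds ht)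
    filter_upwards [h3] with t' ht'
    exact h1 t' ht'
  have hTt : ∀ t, ‖t‖ < ε → T t = t := fun t ht => if_pos ht
  -- the derivative of `y`
  have hDy : D y ∈ rg s y g ∧ ∀ (h : D y ∈ rg s y g) (t : ℂ), ‖t‖ < ε → ev t ⟨D y, h⟩ = _root_.deriv u t := by
    obtain ⟨q, hq1, hq2⟩ := exists_q D hD y s₀ M
    have h1 : ph s y q + ph s y (Polynomial.derivative M) * D y = 0 := by
      rw [← hq1, ← pv_eq, hM.root, map_zero]
    have h2 : ph s y (Polynomial.derivative M) * ph s y b' = aeval s g₀ := by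
      have h3 := congrArg (ph s y) hab
      rw [map_add, map_mul, map_mul, ← pv_eq s y M, hM.root, zero_mul, zero_add, ph_C] at h3
      exact h3
    have hg₀s : aeval s g₀ ≠ 0 := hinj g₀ hg₀
    have h4 : D y = -(ph s y q * ph s y b') * (aeval s g₀)⁻¹ := by
      rw [eq_mul_inv_iff_mul_eq₀ hg₀s, ← h2]
      linear_combination (ph s y b') * h1
    have h5 : D y ∈ rg s y g := by
      rw [h4]
      exact mul_mem (neg_mem (mul_mem (ph_mem s y g q) (ph_mem s y g b')))
        (div_mem s y hgs (Dvd.intro _ rfl))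
    refine ⟨h5, ?_⟩
    intro h t ht
    have h6 : (⟨ph s y q, ph_mem s y g q⟩ : rg s y g) +
        ⟨ph s y (Polynomial.derivative M), ph_mem s y g _⟩ * ⟨D y, h⟩ = 0 := Subtype.ext h1
    have h7 := congrArg (ev t) h6
    rw [map_add, map_mul, map_zero, hevp, hevp] at h7
    have h8 := hq2 u (_root_.deriv u t) t (hb1 t ht).1.differentiableAt.hasDerivAt
    have h9 : HasDerivAt (fun t => cv (ln s₀ j t) (u t) M) 0 t :=
      hloc t ht _ (fun _ => 0) 0 (fun t' ht' => (hb1 t' ht').2.1) (hasDerivAt_const t 0)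
    have h10 := h8.unique h9
    have h11 : ∀ p, σ t p = cv (ln s₀ j t) (u t) p := by
      intro p
      rw [hσ]
      dsimp only
      rw [hTt t ht]
    rw [h11, h11] at h7
    have h12 := hder _ _ (hb1 t ht).2.1 (hb1 t ht).2.2
    apply mul_left_cancel₀ h12
    linear_combination h7 - h10
  obtain ⟨hDyR, hDyev⟩ := hDy
  -- the derivative of the polynomials
  have hpoly : ∀ p, ∀ hf : ph s y p ∈ rg s y g, ∃ hDf : D (ph s y p) ∈ rg s y g, ∀ t, ‖t‖ < ε →
      HasDerivAt (fun t => ev t ⟨ph s y p, hf⟩) (ev t ⟨D (ph s y p), hDf⟩) t := by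
    intro p hf
    obtain ⟨q, hq1, hq2⟩ := exists_q D hD y s₀ p
    have h1 : D (ph s y p) ∈ rg s y g := by
      rw [hq1]
      exact add_mem (ph_mem s y g q) (mul_mem (ph_mem s y g _) hDyR)
    refine ⟨h1, fun t ht => ?_⟩
    have h2 : (⟨D (ph s y p), h1⟩ : rg s y g) = (⟨ph s y q, ph_mem s y g q⟩ : rg s y g) +
        ⟨ph s y (Polynomial.derivative p), ph_mem s y g _⟩ * ⟨D y, hDyR⟩ := Subtype.ext hq1
    have h11 : ∀ t, ‖t‖ < ε → ∀ p, σ t p = cv (ln s₀ j t) (u t) p := by
      intro t ht p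
      rw [hσ]
      dsimp only
      rw [hTt t ht]
    rw [h2, map_add, map_mul, hevp, hevp, hDyev hDyR t ht, h11 t ht, h11 t ht]
    refine hloc t ht _ (fun t => cv (ln s₀ j t) (u t) p) _ (fun t' ht' => ?_) ?_
    · rw [hevp, h11 t' ht']
    · exact hq2 u (_root_.deriv u t) t (hb1 t ht).1.differentiableAt.hasDerivAt
  -- all elements
  have hall' : ∀ f, f ∈ rg s y g → ∃ hf : f ∈ rg s y g, ∃ hDf : D f ∈ rg s y g, ∀ t, ‖t‖ < ε →
      HasDerivAt (fun t => ev t ⟨f, hf⟩) (ev t ⟨D f, hDf⟩) t := by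
    intro f hf
    induction hf using Algebra.adjoin_induction with
    | mem x hx =>
      rcases hx with ⟨i, rfl⟩ | hx
      · have h1 : s i = ph s y (Polynomial.C (X i)) := by rw [ph_C, MvPolynomial.aeval_X]
        have h2 := hpoly (Polynomial.C (X i)) (ph_mem s y g _)
        simp only [← h1] at h2
        exact ⟨s_mem s y g i, h2⟩
      · rcases hx with rfl | hx
        · have h2 := hpoly Polynomial.X (ph_mem s x g _)
          simp only [ph_X] at h2
          exact ⟨y_mem s x g, h2⟩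
        · rw [Set.mem_singleton_iff] at hx
          subst hx
          obtain ⟨h1, h2⟩ := hpoly (Polynomial.C g) (ph_mem s y g _)
          simp only [ph_C] at h1 h2
          have h3 : D (aeval s g)⁻¹ = -((aeval s g)⁻¹ ^ 2 * D (aeval s g)) := by
            have h4 : D (aeval s g * (aeval s g)⁻¹) = 0 := by
              rw [mul_inv_cancel₀ hgs]
              exact D.map_one_eq_zero
            rw [D.leibniz, smul_eq_mul, smul_eq_mul] at h4
            apply mul_left_cancel₀ hgs
            have h5 : aeval s g * -((aeval s g)⁻¹ ^ 2 * D (aeval s g)) = -((aeval s g)⁻¹ * D (aeval s g)) := by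
              field_simp
            rw [h5]
            exact eq_neg_of_add_eq_zero_left h4
          have h4 : D (aeval s g)⁻¹ ∈ rg s y g := by
            rw [h3]
            exact neg_mem (mul_mem (pow_mem (inv_mem' s y g) 2) h1)
          refine ⟨inv_mem' s y g, h4, fun t ht => ?_⟩
          have h5 : ∀ t, ev t ⟨(aeval s g)⁻¹, inv_mem' s y g⟩ = (ev t ⟨aeval s g, aeval_mem s y g g⟩)⁻¹ := by
            intro t
            have h6 : (⟨(aeval s g)⁻¹, inv_mem' s y g⟩ : rg s y g) * ⟨aeval s g, aeval_mem s y g g⟩ = 1 :=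
              Subtype.ext (inv_mul_cancel₀ hgs)
            have h7 := congrArg (ev t) h6
            rw [map_mul, map_one] at h7
            exact eq_inv_of_mul_eq_one_left h7
          have h6 : ∀ t, ev t ⟨aeval s g, aeval_mem s y g g⟩ ≠ 0 := by
            intro t h7
            have h8 := hevp t (Polynomial.C g)
            simp only [ph_C] at h8
            rw [h7] at h8
            exact hσg t h8.symm
          have h7 : (⟨D (aeval s g)⁻¹, h4⟩ : rg s y g) =
              -((⟨(aeval s g)⁻¹, inv_mem' s y g⟩ : rg s y g) ^ 2 * ⟨D (aeval s g), h1⟩) := Subtype.ext h3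
          have h8 := (h2 t ht).inv (h6 t)
          have h9 : ev t ⟨D (aeval s g)⁻¹, h4⟩ =
              -((ev t ⟨aeval s g, aeval_mem s y g g⟩)⁻¹ ^ 2 * ev t ⟨D (aeval s g), h1⟩) := by
            rw [h7, map_neg (ev t), map_mul (ev t), map_pow (ev t), h5]
          rw [h9]
          simp only [h5]
          refine h8.congr_deriv ?_
          rw [div_eq_mul_inv, inv_pow]
          ring
    | algebraMap c =>
      refine ⟨Subalgebra.algebraMap_mem _ c, ?_, fun t ht => ?_⟩
      · rw [D.map_algebraMap]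
        exact zero_mem _
      · have h1 : ∀ h, (⟨D (algebraMap ℂ K c), h⟩ : rg s y g) = 0 := fun h => Subtype.ext (D.map_algebraMap c)
        rw [h1, map_zero]
        have h2 : (fun t => ev t ⟨algebraMap ℂ K c, Subalgebra.algebraMap_mem _ c⟩) = fun _ => c := by
          funext t
          exact (ev t).commutes c
        rw [h2]
        exact hasDerivAt_const t c
    | add x z _ _ h1 h2 =>
      obtain ⟨hx, h3, h4⟩ := h1
      obtain ⟨hz, h5, h6⟩ := h2
      have h7 : D (x + z) ∈ rg s y g := by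
        rw [map_add]
        exact add_mem h3 h5
      refine ⟨add_mem hx hz, h7, fun t ht => ?_⟩
      have h8 : (⟨D (x + z), h7⟩ : rg s y g) = ⟨D x, h3⟩ + ⟨D z, h5⟩ := Subtype.ext (map_add D x z)
      rw [h8, map_add]
      have h9 : (fun t => ev t ⟨x + z, add_mem hx hz⟩) = (fun t => ev t ⟨x, hx⟩) + fun t => ev t ⟨z, hz⟩ := by
        funext t
        exact map_add (ev t) ⟨x, hx⟩ ⟨z, hz⟩
      rw [h9]
      exact (h4 t ht).add (h6 t ht)
    | mul x z _ _ h1 h2 =>
      obtain ⟨hx, h3, h4⟩ := h1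
      obtain ⟨hz, h5, h6⟩ := h2
      have h0 : D (x * z) = x * D z + z * D x := by
        rw [D.leibniz, smul_eq_mul, smul_eq_mul]
      have h7 : D (x * z) ∈ rg s y g := by
        rw [h0]
        exact add_mem (mul_mem hx h5) (mul_mem hz h3)
      refine ⟨mul_mem hx hz, h7, fun t ht => ?_⟩
      have h8 : (⟨D (x * z), h7⟩ : rg s y g) = ⟨x, hx⟩ * ⟨D z, h5⟩ + ⟨z, hz⟩ * ⟨D x, h3⟩ := Subtype.ext h0
      rw [h8, map_add, map_mul, map_mul]
      have h9 : (fun t => ev t ⟨x * z, mul_mem hx hz⟩) = (fun t => ev t ⟨x, hx⟩) * fun t => ev t ⟨z, hz⟩ := by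
        funext t
        exact map_mul (ev t) ⟨x, hx⟩ ⟨z, hz⟩
      rw [h9]
      refine ((h4 t ht).mul (h6 t ht)).congr_deriv ?_
      ring
  have hall : ∀ f, ∀ hf : f ∈ rg s y g, ∃ hDf : D f ∈ rg s y g, ∀ t, ‖t‖ < ε →
      HasDerivAt (fun t => ev t ⟨f, hf⟩) (ev t ⟨D f, hDf⟩) t := by
    intro f hf
    obtain ⟨_, h1, h2⟩ := hall' f hf
    exact ⟨h1, h2⟩
  have hnb : ∀ᶠ t in 𝓝 (0 : ℂ), ‖t‖ < ε := by
    have h1 : ‖(0 : ℂ)‖ < ε := by rwa [norm_zero]
    exact continuous_norm.continuousAt.eventually (Iio_mem_nhds h1)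
  refine ⟨rg s y g, ev, ⟨fun f hf => (hall f hf).1, ?_, ?_⟩, ?_⟩
  · intro f
    rw [Complex.analyticAt_iff_eventually_differentiableAt]
    filter_upwards [hnb] with t ht
    exact ((hall f f.2).2 t ht).differentiableAt
  · intro f hf
    filter_upwards [hnb] with t ht
    exact ((hall f hf).2 t ht).deriv
  · intro f hf
    have h1 : ∀ e : K, Q e ∣ g → e ∈ rg s y g := by
      intro e he
      have h2 : e = ph s y (P e) * (aeval s (Q e))⁻¹ := by
        rw [← pv_eq, ← hPQ e, mul_assoc, mul_inv_cancel₀ (hinj _ (hQ e)), mul_one]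
      rw [h2]
      exact mul_mem (ph_mem s y g _) (div_mem s y hgs he)
    have h3 : Q f * Q f⁻¹ ∣ g := (Finset.dvd_prod_of_mem (fun f => Q f * Q f⁻¹) hf).trans (Dvd.intro_left _ rfl)
    exact ⟨h1 f ((Dvd.intro _ rfl).trans h3), h1 f⁻¹ ((Dvd.intro_left _ rfl).trans h3)⟩

end Pool.Agent.LG
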