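import Pool.Agent.LG.Va
import Pool.Agent.LG.Cv2

/-!
# LG Wc: the map to `ℙ¹` as a rational function

`IsV Q ξ V w`: at every point `(a, q)` the function `w` has the value `q 1 / q 0` if `q 0 ≠ 0`, and `w⁻¹` has the value `q 0 / q 1` if `q 1 ≠ 0`.

* `VMap.change`: a linear change of the coordinates of `ℙ¹` (forms `γ' = M' γ`).
* `exists_w`: `VMap` at `a₀` gives `γ 0`, `γ 1`; `p₀` is a multiple of `(γ 0 (a₀), γ 1 (a₀))`, so both are not `0` there and not in `Q`; `w = γ 1 (ξ) / γ 0 (ξ)`.  For another point `a` with forms `γ' 0`, `γ' 1`: where all four forms … the two vectors `γ(a')`, `γ'(a')` are both in `V a'`, so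
  they are proportional wherever `γ ≠ 0`, `γ' ≠ 0`: `γ 1 γ' 0 - γ 0 γ' 1 ∈ Q` (Nullstellensatz / `eq_of_regAt`), and `w γ' 0 (ξ) = γ' 1 (ξ)`.
* `V_const`: along a curve with constant `w` the map to `ℙ¹` is constant (`IsV` at `γ 0` gives `q 0 ≠ 0` or `q 1 ≠ 0`, say `q 0 ≠ 0`; `VMap` at `γ 0` gives forms, `γ' 0 (γ t) ≠ 0` near `0`; `ev t w = γ' 1 (γ t) / γ' 0 (γ t)`).
-/

set_option autoImplicit false

open MvPolynomial Topology Filter
open Pool.Agent.PXF (Cn form IsThetaForm)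

noncomputable section

namespace Pool.Agent.LG

variable {K : Type} [Field K] [Algebra ℂ K] {N κ d : ℕ} {ξ : Fin (N + 1) → K} {Q : Ideal (MvPolynomial (Fin (N + 1)) ℂ)} {V : (Fin (N + 1) → ℂ) → Cn 2 → Prop}

/-- `w` is the quotient of the homogeneous coordinates of the map to `ℙ¹` -/
def IsV (Q : Ideal (MvPolynomial (Fin (N + 1)) ℂ)) (ξ : Fin (N + 1) → K) (V : (Fin (N + 1) → ℂ) → Cn 2 → Prop) (w : K) : Prop :=
  ∀ a q, Cone Q a → V a q → (q 0 ≠ 0 → RegAt ξ a w (q 1 / q 0)) ∧ (q 1 ≠ 0 → RegAt ξ a w⁻¹ (q 0 / q 1))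

theorem VMap.change (hV : VMap Q V) {M M' : Matrix (Fin 2) (Fin 2) ℂ} (h : M * M' = 1) : VMap Q (fun a p => V a (M.mulVec p)) := by
  have h' : M' * M = 1 := mul_eq_one_comm.1 h
  intro a ha
  obtain ⟨D, γ, hγ, hne, hV'⟩ := hV a ha
  have hev : ∀ (b : Fin (N + 1) → ℂ) (i : Fin 2), eval b (∑ j, C (M' i j) * γ j) =
      M'.mulVec (fun j => eval b (γ j)) i := by
    intro b i
    rw [map_sum]
    simp only [map_mul, eval_C]
    rfl
  have hinj : ∀ v : Fin 2 → ℂ, M.mulVec (M'.mulVec v) = v := by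
    intro v
    rw [Matrix.mulVec_mulVec, h, Matrix.one_mulVec]
  have hinj' : ∀ v : Fin 2 → ℂ, M'.mulVec (M.mulVec v) = v := by
    intro v
    rw [Matrix.mulVec_mulVec, h', Matrix.one_mulVec]
  refine ⟨D, fun i => ∑ j, C (M' i j) * γ j, fun i => ?_, ?_, fun a' ha' hne' q => ?_⟩
  · refine IsHomogeneous.sum _ _ _ fun j _ => ?_
    have h1 := (isHomogeneous_C (Fin (N + 1)) (M' i j)).mul (hγ j)
    rwa [zero_add] at h1
  · by_contra hcon
    push Not at hcon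
    obtain ⟨i, hi⟩ := hne
    have h0 : M'.mulVec (fun j => eval a (γ j)) = 0 := by
      funext k
      rw [← hev a k, hcon k]
      rfl
    have h1 := hinj (fun j => eval a (γ j))
    rw [h0, Matrix.mulVec_zero] at h1
    exact hi (congrFun h1 i).symm
  · have hne2 : ∃ i, eval a' (γ i) ≠ 0 := by
      by_contra hcon
      push Not at hcon
      obtain ⟨i, hi⟩ := hne'
      refine hi ?_
      rw [hev a' i]
      have h0 : (fun j => eval a' (γ j)) = 0 := by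
        funext k
        exact hcon k
      rw [h0, Matrix.mulVec_zero]
      rfl
    refine (hV' a' ha' hne2 (M.mulVec q)).trans (exists_congr fun c => and_congr_right fun _ => ?_)
    have e1 : (fun i => c * eval a' (∑ j, C (M' i j) * γ j)) =
        M'.mulVec (fun i => c * eval a' (γ i)) := by
      funext i
      rw [hev a' i]
      have h2 : (fun i => c * eval a' (γ i)) = c • fun i => eval a' (γ i) := rfl
      rw [h2, Matrix.mulVec_smul]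
      rfl
    rw [e1]
    constructor
    · intro h3
      rw [← h3, hinj']
    · intro h3
      rw [h3, hinj]

theorem VMap.ex (hV : VMap Q V) {a : Fin (N + 1) → ℂ} (ha : Cone Q a) : ∃ q : Cn 2, q ≠ 0 ∧ V a q := by
  obtain ⟨D, γ, hγ, ⟨i, hi⟩, hV'⟩ := hV a ha
  refine ⟨fun i => eval a (γ i), fun h => hi (congrFun h i), ?_⟩
  refine (hV' a ha ⟨i, hi⟩ _).2 ⟨1, one_ne_zero, ?_⟩
  funext j
  rw [one_mul]

theorem VMap.smul (hV : VMap Q V) {a : Fin (N + 1) → ℂ} (ha : Cone Q a) {q q' : Cn 2} (h : V a q) : V a q' ↔ ∃ c : ℂ, c ≠ 0 ∧ q' = c • q := by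
  obtain ⟨D, γ, hγ, hne, hV'⟩ := hV a ha
  obtain ⟨c, hc, rfl⟩ := (hV' a ha hne q).1 h
  rw [hV' a ha hne q']
  constructor
  · rintro ⟨e, he, rfl⟩
    refine ⟨e / c, div_ne_zero he hc, ?_⟩
    funext j
    show e * eval a (γ j) = e / c * (c * eval a (γ j))
    field_simp
  · rintro ⟨e, he, rfl⟩
    refine ⟨e * c, mul_ne_zero he hc, ?_⟩
    funext j
    show e * (c * eval a (γ j)) = e * c * eval a (γ j)
    ring

theorem exists_w (hQ : Q.IsPrime) (hgp : GP Q ξ) (hV : VMap Q V) {a₀ : Fin (N + 1) → ℂ} {p₀ : Cn 2} (ha : Cone Q a₀) (hp : V a₀ p₀) (h0 : p₀ 0 ≠ 0) (h1 : p₀ 1 ≠ 0) : ∃ w : K, w ≠ 0 ∧ IsV Q ξ V w := by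
  obtain ⟨D, γ, hγ, hne, hV'⟩ := hV a₀ ha
  obtain ⟨c, hc, rfl⟩ := (hV' a₀ ha hne p₀).1 hp
  have g0 : eval a₀ (γ 0) ≠ 0 := right_ne_zero_of_mul h0
  have g1 : eval a₀ (γ 1) ≠ 0 := right_ne_zero_of_mul h1
  have n0 : aeval ξ (γ 0) ≠ 0 := aeval_ne_zero hgp ha (hγ 0) g0
  have n1 : aeval ξ (γ 1) ≠ 0 := aeval_ne_zero hgp ha (hγ 1) g1
  refine ⟨aeval ξ (γ 1) / aeval ξ (γ 0), div_ne_zero n1 n0, ?_⟩
  intro a q haQ hq
  obtain ⟨D', γ', hγ', hne', hV''⟩ := hV a haQ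
  obtain ⟨e, he, rfl⟩ := (hV'' a haQ hne' q).1 hq
  have hhom : (γ 1 * γ' 0 - γ 0 * γ' 1).IsHomogeneous (D + D') :=
    ((hγ 1).mul (hγ' 0)).sub ((hγ 0).mul (hγ' 1))
  have hmem : γ 1 * γ' 0 - γ 0 * γ' 1 ∈ Q := by
    by_contra hcon
    obtain ⟨b, hb, hb0⟩ := exists_cone_point hQ hgp hhom hcon
    rw [map_sub, map_mul, map_mul] at hb0
    have e1 : ∃ i, eval b (γ i) ≠ 0 := by
      by_contra h2
      push Not at h2
      rw [h2 0, h2 1, zero_mul, zero_mul, sub_zero] at hb0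
      exact hb0 rfl
    have e2 : ∃ i, eval b (γ' i) ≠ 0 := by
      by_contra h2
      push Not at h2
      rw [h2 0, h2 1, mul_zero, mul_zero, sub_zero] at hb0
      exact hb0 rfl
    have e3 : V b (fun i => eval b (γ i)) := by
      refine (hV' b hb e1 _).2 ⟨1, one_ne_zero, ?_⟩
      funext j
      rw [one_mul]
    obtain ⟨f, _, hf2⟩ := (hV'' b hb e2 _).1 e3
    have e4 : eval b (γ 0) = f * eval b (γ' 0) := congrFun hf2 0
    have e5 : eval b (γ 1) = f * eval b (γ' 1) := congrFun hf2 1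
    refine hb0 ?_
    rw [e4, e5]
    ring
  have key : aeval ξ (γ 1) * aeval ξ (γ' 0) = aeval ξ (γ 0) * aeval ξ (γ' 1) := by
    have h2 := (hgp.zero _ _ hhom).2 hmem
    rw [map_sub, map_mul, map_mul] at h2
    exact sub_eq_zero.1 h2
  have key1 : aeval ξ (γ 1) / aeval ξ (γ 0) * aeval ξ (γ' 0) = aeval ξ (γ' 1) := by
    rw [div_mul_eq_mul_div, key]
    field_simp
  constructor
  · intro hq0
    have h2 : eval a (γ' 0) ≠ 0 := right_ne_zero_of_mul hq0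
    refine ⟨D', γ' 1, γ' 0, hγ' 1, hγ' 0, h2, key1, ?_⟩
    show eval a (γ' 1) = e * eval a (γ' 1) / (e * eval a (γ' 0)) * eval a (γ' 0)
    field_simp
  · intro hq1
    have h2 : eval a (γ' 1) ≠ 0 := right_ne_zero_of_mul hq1
    refine ⟨D', γ' 0, γ' 1, hγ' 0, hγ' 1, h2, ?_, ?_⟩
    · rw [← key1, ← mul_assoc, inv_mul_cancel₀ (div_ne_zero n1 n0), one_mul]
    · show eval a (γ' 0) = e * eval a (γ' 0) / (e * eval a (γ' 1)) * eval a (γ' 1)
      field_simp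

theorem V_const (hQ : Q.IsPrime) (hgp : GP Q ξ) (hV : VMap Q V) {w : K} (hw : IsV Q ξ V w) {γ : ℂ → Fin (N + 1) → ℂ} (hγ : AnalyticAt ℂ γ 0) (hc : ∀ᶠ t in 𝓝 (0 : ℂ), Cone Q (γ t)) {w₀ w₁ : ℂ}
    (h : ∀ᶠ t in 𝓝 (0 : ℂ), (∀ c, RegAt ξ (γ t) w c → c = w₀) ∧ (∀ c, RegAt ξ (γ t) w⁻¹ c → c = w₁)) : ∃ q : Cn 2, ∀ᶠ t in 𝓝 (0 : ℂ), V (γ t) q := by
  have _ := hQ
  have _ := hgp
  obtain ⟨D, g, hg, ⟨i, hi⟩, hV'⟩ := hV (γ 0) hc.self_of_nhds
  have hcont : ContinuousAt (fun t => eval (γ t) (g i)) 0 :=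
    (MvPolynomial.continuous_eval (g i)).continuousAt.comp hγ.continuousAt
  have hev : ∀ᶠ t in 𝓝 (0 : ℂ), eval (γ t) (g i) ≠ 0 := hcont.eventually_ne hi
  have hmem : ∀ t, Cone Q (γ t) → eval (γ t) (g i) ≠ 0 → V (γ t) (fun j => eval (γ t) (g j)) := by
    intro t ht hne
    refine (hV' (γ t) ht ⟨i, hne⟩ _).2 ⟨1, one_ne_zero, ?_⟩
    funext j
    rw [one_mul]
  have h2 : i = 0 ∨ i = 1 := by
    fin_cases i
    · exact Or.inl rfl
    · exact Or.inr rfl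
  rcases h2 with rfl | rfl
  · refine ⟨![1, w₀], ?_⟩
    filter_upwards [hc, h, hev] with t ht1 ht2 ht3
    have h3 := hmem t ht1 ht3
    have h4 := ht2.1 _ ((hw (γ t) _ ht1 h3).1 ht3)
    refine (hV' (γ t) ht1 ⟨0, ht3⟩ _).2 ⟨(eval (γ t) (g 0))⁻¹, inv_ne_zero ht3, ?_⟩
    funext j
    have h5 : j = 0 ∨ j = 1 := by
      fin_cases j
      · exact Or.inl rfl
      · exact Or.inr rfl
    rcases h5 with rfl | rfl
    · show (1 : ℂ) = (eval (γ t) (g 0))⁻¹ * eval (γ t) (g 0)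
      rw [inv_mul_cancel₀ ht3]
    · show w₀ = (eval (γ t) (g 0))⁻¹ * eval (γ t) (g 1)
      rw [← h4, div_eq_inv_mul]
  · refine ⟨![w₁, 1], ?_⟩
    filter_upwards [hc, h, hev] with t ht1 ht2 ht3
    have h3 := hmem t ht1 ht3
    have h4 := ht2.2 _ ((hw (γ t) _ ht1 h3).2 ht3)
    refine (hV' (γ t) ht1 ⟨1, ht3⟩ _).2 ⟨(eval (γ t) (g 1))⁻¹, inv_ne_zero ht3, ?_⟩
    funext j
    have h5 : j = 0 ∨ j = 1 := by
      fin_cases j
      · exact Or.inl rfl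
      · exact Or.inr rfl
    rcases h5 with rfl | rfl
    · show w₁ = (eval (γ t) (g 1))⁻¹ * eval (γ t) (g 0)
      rw [← h4, div_eq_inv_mul]
    · show (1 : ℂ) = (eval (γ t) (g 1))⁻¹ * eval (γ t) (g 1)
      rw [inv_mul_cancel₀ ht3]

end Pool.Agent.LG
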