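import Pool.Agent.LG.Ex
import Pool.Agent.LG.Gf

/-!
# LG Un: the form is regular where the equation of the boundary is a unit

`ν`, `e` from `exists_ext` for the splitting field of `S.P`.
* `unit_nonneg`: if `ν (w - r) > 0` for a root `r` then `r` is integral (`ν r ≥ 0` or `r = 0`), `(S.Q c) (w) = (S.Q c) (w) - (S.Q c) (r)` is `(w - r)` times an element of order `≥ 0`, so it has order `> 0`, against `v F = v (X c)`.  So
  all `ν (w - r) ≤ 0` and `ν f₀ ≥ 0`.
`ν (1 / (w - r) - 1 / (w - r')) ≥ min (- ν (w - r)) (- ν (w - r')) ≥ 0` (`S.IsF0`; the factors are not `0`).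
-/

set_option autoImplicit false

open MvPolynomial
open Pool.Agent.H23 (RatForm regularForms PrimeDivisorOver fc dualDer)

noncomputable section

namespace Pool.Agent.LG

variable {K : Type} [Field K] [Algebra ℂ K] {k n D : ℕ} {ι : Type}

section OR

variable {L : Type} [Field L] [Algebra ℂ L] {ν : L → ℤ}

private theorem un_one (hν : IV L ν) : ν 1 = 0 := by
  simpa using hν.const 1 one_ne_zero

private theorem un_neg (hν : IV L ν) {a : L} (ha : a ≠ 0) : ν (-a) = ν a := by
  have h1 : ν (-1) = 0 := by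
    have h := hν.const (-1) (by simp)
    simpa using h
  have h := hν.mul (a := (-1 : L)) (b := a) (by simp) ha
  rw [h1, zero_add] at h
  rwa [neg_one_mul] at h

private theorem un_inv (hν : IV L ν) {a : L} (ha : a ≠ 0) : ν a⁻¹ = - ν a := by
  have h := hν.mul (a := a) (b := a⁻¹) ha (inv_ne_zero ha)
  rw [mul_inv_cancel₀ ha, un_one hν] at h
  linarith

/-- the ring of the elements of order `≥ 0` -/
private def OR (hν : IV L ν) : Subring L where
  carrier := {a | a = 0 ∨ 0 ≤ ν a}
  mul_mem' := by
    intro a b ha hb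
    by_cases h0 : a = 0
    · left; simp [h0]
    by_cases h1 : b = 0
    · left; simp [h1]
    right
    rw [hν.mul h0 h1]
    rcases ha with ha | ha
    · exact absurd ha h0
    rcases hb with hb | hb
    · exact absurd hb h1
    exact add_nonneg ha hb
  one_mem' := by
    right
    rw [un_one hν]
  add_mem' := by
    intro a b ha hb
    by_cases h0 : a = 0
    · simpa [h0] using hb
    by_cases h1 : b = 0
    · simpa [h1] using ha
    by_cases h2 : a + b = 0
    · left; exact h2
    right
    rcases ha with ha | ha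
    · exact absurd ha h0
    rcases hb with hb | hb
    · exact absurd hb h1
    exact le_trans (le_min ha hb) (hν.add h0 h1 h2)
  zero_mem' := by left; rfl
  neg_mem' := by
    intro a ha
    rcases ha with ha | ha
    · left; simp [ha]
    · by_cases h0 : a = 0
      · left; simp [h0]
      right
      rwa [un_neg hν h0]

private theorem mem_OR (hν : IV L ν) {a : L} : a ∈ OR hν ↔ (a = 0 ∨ 0 ≤ ν a) := Iff.rfl

/-- a polynomial with coefficients in the ring, which vanishes at `r`, has positive order at `w` if `w - r` has -/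
private theorem un_pos (hν : IV L ν) {N : ℕ} {q : Fin N → L} (hq : ∀ i, q i ∈ OR hν) {w r : L} (hw : w ∈ OR hν) (hr : r ∈ OR hν) (h0 : w - r ≠ 0)
    (hQr : ∑ i, q i * r ^ (i : ℕ) = 0) (hQw : ∑ i, q i * w ^ (i : ℕ) ≠ 0) : ν (w - r) ≤ ν (∑ i, q i * w ^ (i : ℕ)) := by
  have h1 : ∃ g ∈ OR hν, ∑ i, q i * w ^ (i : ℕ) = (w - r) * g := by
    have h2 : ∀ i : Fin N, ∃ g ∈ OR hν, w ^ (i : ℕ) - r ^ (i : ℕ) = (w - r) * g := by
      intro i
      obtain ⟨g, hg⟩ := sub_dvd_pow_sub_pow (⟨w, hw⟩ : OR hν) ⟨r, hr⟩ (i : ℕ)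
      refine ⟨g, g.2, ?_⟩
      have h := congrArg (Subtype.val) hg
      exact h
    choose g hg hgg using h2
    refine ⟨∑ i, q i * g i, Subring.sum_mem _ fun i _ => Subring.mul_mem _ (hq i) (hg i), ?_⟩
    calc ∑ i, q i * w ^ (i : ℕ) = ∑ i, q i * w ^ (i : ℕ) - ∑ i, q i * r ^ (i : ℕ) := by rw [hQr, sub_zero]
      _ = ∑ i, q i * (w ^ (i : ℕ) - r ^ (i : ℕ)) := by
        rw [← Finset.sum_sub_distrib]
        exact Finset.sum_congr rfl fun i _ => by ring
      _ = ∑ i, (w - r) * (q i * g i) := Finset.sum_congr rfl fun i _ => by rw [hgg i]; ring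
      _ = _ := by rw [Finset.mul_sum]
  obtain ⟨g, hg, h1⟩ := h1
  have hg0 : g ≠ 0 := by
    intro h
    apply hQw
    rw [h1, h, mul_zero]
  rw [h1, hν.mul h0 hg0]
  rcases (mem_OR hν).1 hg with h | h
  · exact absurd h hg0
  · linarith

end OR

private theorem un_root (S : Dat K ι n D) {K' : Type} [Field K'] [Algebra K K'] {r : K'} (hr : r ∈ (S.P.map (algebraMap K K')).roots) :
    ∑ i : Fin (D + 1), algebraMap K K' (S.X (S.cf i)) * r ^ (i : ℕ) = 0 := by
  have h := Polynomial.isRoot_of_mem_roots hr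
  rw [Polynomial.IsRoot.def, Polynomial.eval_map, Dat.P, Polynomial.eval₂_finsetSum] at h
  simpa using h

theorem unit_nonneg [Fintype ι] (S : Dat K ι n D) (h3 : S.Three) (hF : S.F ≠ 0) {f₀ : K} (hf : S.IsF0 f₀) {v : K → ℤ} (hv : IV K v) (ht : ∃ t, t ≠ 0 ∧ v t = 1) {c : ι}
    (hc : CH S v c) (hw : 0 ≤ v S.w) (hF' : v S.F = v (S.X c)) : 0 ≤ v f₀ := by
  classical
  have hP : S.P ≠ 0 := by
    intro h
    apply h3.zero
    rw [h, Polynomial.coeff_zero]
  obtain ⟨ν, e, he, hν, hve⟩ := exists_ext (K' := S.P.SplittingField) hv ht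
  have hsp : (S.P.map (algebraMap K S.P.SplittingField)).Splits := Polynomial.SplittingField.splits S.P
  have hf0 := hf S.P.SplittingField hsp
  have hne := f0_ne hF hf
  have hwm : algebraMap K S.P.SplittingField S.w ∈ OR hν := by
    by_cases h : S.w = 0
    · rw [h, map_zero]; exact Subring.zero_mem _
    · right
      rw [hve _ h]
      positivity
  have hPr : ∀ r, r ∈ (S.P.map (algebraMap K S.P.SplittingField)).roots → ∑ i : Fin (D + 1), algebraMap K S.P.SplittingField (S.X (S.cf i)) * r ^ (i : ℕ) = 0 := by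
    intro r hr
    exact un_root S hr
  have hwr : ∀ r, r ∈ (S.P.map (algebraMap K S.P.SplittingField)).roots → algebraMap K S.P.SplittingField S.w - r ≠ 0 := by
    intro r hr h
    have h1 := hPr r hr
    rw [← sub_eq_zero.1 h] at h1
    apply hF
    apply (algebraMap K S.P.SplittingField).injective
    rw [map_zero, Dat.F, map_sum, ← h1]
    exact Finset.sum_congr rfl fun i _ => by rw [map_mul, map_pow]
  have key : ∀ r, r ∈ (S.P.map (algebraMap K S.P.SplittingField)).roots → ν (algebraMap K S.P.SplittingField S.w - r) ≤ 0 := by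
    intro r hr
    by_contra hcon
    push Not at hcon
    have hrm : r ∈ OR hν := by
      have h : r = algebraMap K S.P.SplittingField S.w - (algebraMap K S.P.SplittingField S.w - r) := by ring
      rw [h]
      exact Subring.sub_mem _ hwm (Or.inr hcon.le)
    have hQw : ∑ i : Fin (D + 1), algebraMap K S.P.SplittingField (S.X (S.cf i) / S.X c) * (algebraMap K S.P.SplittingField S.w) ^ (i : ℕ) = algebraMap K S.P.SplittingField (S.F / S.X c) := by
      rw [Dat.F, Finset.sum_div, map_sum]
      exact Finset.sum_congr rfl fun i _ => by rw [← map_pow, ← map_mul]; congr 1; ring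
    have hQr : ∑ i : Fin (D + 1), algebraMap K S.P.SplittingField (S.X (S.cf i) / S.X c) * r ^ (i : ℕ) = 0 := by
      rw [← mul_zero (algebraMap K S.P.SplittingField (S.X c)⁻¹), ← hPr r hr, Finset.mul_sum]
      exact Finset.sum_congr rfl fun i _ => by rw [div_eq_mul_inv, map_mul]; ring
    have hFc : S.F / S.X c ≠ 0 := div_ne_zero hF hc.ne
    have hq : ∀ i : Fin (D + 1), algebraMap K S.P.SplittingField (S.X (S.cf i) / S.X c) ∈ OR hν := by
      intro i
      by_cases h : S.X (S.cf i) = 0
      · rw [h, zero_div, map_zero]; exact Subring.zero_mem _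
      · right
        rw [hve _ (div_ne_zero h hc.ne), div_eq_mul_inv, hv.mul h (inv_ne_zero hc.ne), un_inv hv hc.ne]
        have := hc.le _ h
        exact mul_nonneg (by linarith) (by linarith)
    have h1 := un_pos hν hq hwm hrm (hwr r hr) hQr (by rw [hQw]; simpa using hFc)
    rw [hQw, hve _ hFc, div_eq_mul_inv, hv.mul hF (inv_ne_zero hc.ne), un_inv hv hc.ne, hF'] at h1
    have h2 : e * (v (S.X c) + -v (S.X c)) = 0 := by ring
    rw [h2] at h1
    linarith
  have hmem : algebraMap K S.P.SplittingField f₀ ∈ OR hν := by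
    rw [hf0, Dat.pr]
    apply Subring.prod_mem
    intro p hp
    rw [Finset.mem_offDiag, Multiset.mem_toFinset, Multiset.mem_toFinset] at hp
    have hi : ∀ r, r ∈ (S.P.map (algebraMap K S.P.SplittingField)).roots → (algebraMap K S.P.SplittingField S.w - r)⁻¹ ∈ OR hν := by
      intro r hr
      right
      rw [un_inv hν (hwr r hr)]
      have := key r hr
      linarith
    exact Subring.sub_mem _ (hi _ hp.1) (hi _ hp.2.1)
  rcases (mem_OR hν).1 hmem with h | h
  · exact absurd ((map_eq_zero _).1 h) hne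
  · rw [hve _ hne] at h
    by_contra hcon
    push Not at hcon
    have : e * v f₀ < 0 := mul_neg_of_pos_of_neg (by linarith) hcon
    linarith


end Pool.Agent.LG
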