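import Pool.Agent.LG.C2b
import Pool.Agent.LG.Un
import Pool.Agent.LG.Wt

/-!
# LG C2: case II, the divisors at which `w` is finite

`N` = the maximum of `1` and of the numbers of `pair_bound` over all `c, J` (finitely many) to which it applies.  Given `v, o, c`: `exists_term` with `η = sn (δ ∘ I) (dd w)`, `β = ι` (`CH.mat` for the first `k` factors; the last factor is `dd w` = the sum with
the single coefficient `1`; `ι` is not empty) gives `J` with `o (ω_J) ≤ o ω`.  `0 ≤ v F - v (X c)` (all terms `X (cf i) w^i / X c` have order `≥ 0`), so `T_J = v f₀ + m0 (o ω_J + 1) ≥ 0` and `N_J T_J ≤ N T_J ≤ N T`.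
Second clause: `unit_nonneg` and `0 ≤ o (ω_J) ≤ o ω` (`FV.reg`).
-/

set_option autoImplicit false

open MvPolynomial
open Pool.Agent.H23 (RatForm regularForms PrimeDivisorOver fc dualDer)

noncomputable section

namespace Pool.Agent.LG

variable {K : Type} [Field K] [Algebra ℂ K] {k n D : ℕ} {ι : Type}

private theorem sn_last {α : Type} (x : Fin k → α) (y : α) : sn x y (Fin.last k) = y := by
  simp [sn]

private theorem sn_castSucc {α : Type} (x : Fin k → α) (y : α) (i : Fin k) : sn x y i.castSucc = x i := by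
  simp [sn]

private theorem iv_div {L : Type} [Field L] [Algebra ℂ L] {v : L → ℤ} (h : IV L v) {a b : L} (ha : a ≠ 0) (hb : b ≠ 0) : v (a / b) = v a - v b := by
  have h1 : v (a / b * b) = v (a / b) + v b := h.mul (div_ne_zero ha hb) hb
  rw [div_mul_cancel₀ a hb] at h1
  omega

private theorem iv_pow {L : Type} [Field L] [Algebra ℂ L] {v : L → ℤ} (h : IV L v) {a : L} (ha : a ≠ 0) (m : ℕ) : v (a ^ m) = m * v a := by
  induction m with
  | zero =>
    have h1 : v (algebraMap ℂ L 1) = 0 := h.const 1 one_ne_zero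
    rw [map_one] at h1
    simp [h1]
  | succ m ih =>
    rw [pow_succ, h.mul (pow_ne_zero m ha) ha, ih]
    push_cast
    ring

private theorem iv_sum {L : Type} [Field L] [Algebra ℂ L] {v : L → ℤ} (h : IV L v) {β : Type} (s : Finset β) (g : β → L) (hg : ∀ i ∈ s, g i ≠ 0 → 0 ≤ v (g i))
    (hs : ∑ i ∈ s, g i ≠ 0) : 0 ≤ v (∑ i ∈ s, g i) := by
  classical
  induction s using Finset.induction_on with
  | empty => exact absurd (Finset.sum_empty) hs
  | insert a s ha ih =>
    rw [Finset.sum_insert ha] at hs ⊢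
    by_cases h1 : g a = 0
    · rw [h1, zero_add] at hs ⊢
      exact ih (fun i hi => hg i (Finset.mem_insert_of_mem hi)) hs
    · by_cases h2 : ∑ i ∈ s, g i = 0
      · rw [h2, add_zero] at hs ⊢
        exact hg a (Finset.mem_insert_self a s) h1
      · have h3 := ih (fun i hi => hg i (Finset.mem_insert_of_mem hi)) h2
        have h4 := hg a (Finset.mem_insert_self a s) h1
        have h5 := h.add h1 h2 hs
        exact le_trans (le_min h4 h3) h5

private theorem F_nonneg [Fintype ι] (S : Dat K ι n D) (hF : S.F ≠ 0) (hw : S.w ≠ 0) {v : K → ℤ} (hv : IV K v) {c : ι} (hc : CH S v c) (hw0 : 0 ≤ v S.w) :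
    0 ≤ v S.F - v (S.X c) := by
  rw [← iv_div hv hF hc.ne]
  have h1 : S.F / S.X c = ∑ i : Fin (D + 1), S.X (S.cf i) / S.X c * S.w ^ (i : ℕ) := by
    rw [Dat.F, Finset.sum_div]
    exact Finset.sum_congr rfl fun i _ => by ring
  have h2 : S.F / S.X c ≠ 0 := div_ne_zero hF hc.ne
  rw [h1] at h2 ⊢
  refine iv_sum hv _ _ (fun i _ hi => ?_) h2
  have h3 : S.X (S.cf i) ≠ 0 := by
    intro h
    exact hi (by rw [h, zero_div, zero_mul])
  rw [hv.mul (div_ne_zero h3 hc.ne) (pow_ne_zero _ hw), iv_div hv h3 hc.ne, iv_pow hv hw]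
  have h4 := hc.le _ h3
  have h5 : 0 ≤ ((i : ℕ) : ℤ) * v S.w := mul_nonneg (Int.natCast_nonneg _) hw0
  omega

theorem caseII_fin {z : Fin (k + 1) → K} (hz : IsTranscendenceBasis ℂ z) [Fintype ι] (S : Dat K ι n D) (h3 : S.Three) (hF : S.F ≠ 0) (hw : S.w ≠ 0)
    (htr : Transcendental (IntermediateField.adjoin ℂ (Set.range S.X)) S.w) (h1 : ∃ a, S.X a = 1) {f₀ : K} (hf : S.IsF0 f₀) (I : Fin k → Fin n) (hI : wd (sn (fun i => S.δ (I i)) (dd S.w)) ≠ 0) :
    ∃ N : ℤ, 1 ≤ N ∧ ∀ (v : K → ℤ) (o : RatForm K (k + 1) → ℤ), FV (k + 1) v o → (∃ t, t ≠ 0 ∧ v t = 1) → ∀ c, CH S v c → 0 ≤ v S.w →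
      (0 ≤ v S.F - v (S.X c) ∧ v S.F - v (S.X c) ≤ N * (v f₀ + S.m0 * (o (wd (sn (fun i => S.δ (I i)) (dd S.w))) + 1))) ∧
        (v S.F = v (S.X c) → 0 ≤ v f₀ + S.m0 * o (wd (sn (fun i => S.δ (I i)) (dd S.w)))) := by
  classical
  obtain ⟨a₀, _⟩ := id h1
  -- one number for every chart and every form
  have key : ∀ p : ι × (Fin k → ι), ∃ N : ℤ, 1 ≤ N ∧ (S.X p.1 ≠ 0 → wd (sn (fun i => dd (S.X (p.2 i) / S.X p.1)) (dd S.w)) ≠ 0 →
      ∀ (v : K → ℤ) (o : RatForm K (k + 1) → ℤ), FV (k + 1) v o → (∃ t, t ≠ 0 ∧ v t = 1) → CH S v p.1 → 0 ≤ v S.w →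
      v S.F - v (S.X p.1) ≤ N * (v f₀ + S.m0 * (o (wd (sn (fun i => dd (S.X (p.2 i) / S.X p.1)) (dd S.w))) + 1))) := by
    intro p
    by_cases hc : S.X p.1 ≠ 0
    · by_cases hJ : wd (sn (fun i => dd (S.X (p.2 i) / S.X p.1)) (dd S.w)) ≠ 0
      · obtain ⟨N, hN1, hN2⟩ := pair_bound hz S h3 hF htr h1 hf hc hJ
        exact ⟨N, hN1, fun _ _ => hN2⟩
      · exact ⟨1, le_refl _, fun _ h => absurd h hJ⟩
    · exact ⟨1, le_refl _, fun h => absurd h hc⟩
  choose Np hNp1 hNp2 using key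
  have hle : ∀ p, Np p ≤ ∑ q, Np q := fun p =>
    Finset.single_le_sum (f := Np) (fun q _ => le_trans zero_le_one (hNp1 q)) (Finset.mem_univ p)
  refine ⟨∑ q, Np q, le_trans (hNp1 (a₀, fun _ => a₀)) (hle _), ?_⟩
  intro v o hvo ht c hc hw0
  obtain ⟨M, hM1, hM2⟩ := hc.mat
  have hterm := exists_term (h := hvo) (β := ι) (η := sn (fun i => S.δ (I i)) (dd S.w))
    (M := sn (fun i => M (I i)) (fun b => if b = a₀ then (1 : K) else 0))
    (ζ := sn (fun _ : Fin k => fun b => dd (S.X b / S.X c)) (fun _ => dd S.w)) ?_ ?_ hI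
  rotate_left
  · intro i
    refine Fin.lastCases ?_ (fun i => ?_) i
    · rw [sn_last, sn_last, sn_last]
      simp
    · rw [sn_castSucc, sn_castSucc, sn_castSucc]
      exact hM2 (I i)
  · intro i
    refine Fin.lastCases ?_ (fun i => ?_) i
    · intro b hb
      rw [sn_last] at hb ⊢
      by_cases h : b = a₀
      · simp only [h, if_true]
        have := hvo.toIV.const 1 one_ne_zero
        rw [map_one] at this
        exact this.ge
      · simp [h] at hb
    · intro b hb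
      rw [sn_castSucc] at hb ⊢
      exact hM1 (I i) b hb
  obtain ⟨J, hJ0, hJo⟩ := hterm
  have hJe : (fun i => sn (fun _ : Fin k => fun b => dd (S.X b / S.X c)) (fun _ => dd S.w) i (J i)) =
      sn (fun i : Fin k => dd (S.X (J i.castSucc) / S.X c)) (dd S.w) := by
    funext i
    refine Fin.lastCases ?_ (fun i => ?_) i
    · rw [sn_last, sn_last]
    · rw [sn_castSucc, sn_castSucc]
  rw [hJe] at hJ0 hJo
  have hb := hNp2 (c, fun i => J i.castSucc) hc.ne hJ0 v o hvo ht hc hw0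
  have hN1 := hNp1 (c, fun i => J i.castSucc)
  have hNle := hle (c, fun i => J i.castSucc)
  have hFn := F_nonneg S hF hw hvo.toIV hc hw0
  simp only at hb
  set NJ := Np (c, fun i => J i.castSucc)
  set N := ∑ q, Np q
  set oJ := o (wd (sn (fun i : Fin k => dd (S.X (J i.castSucc) / S.X c)) (dd S.w))) with hoJ
  set oω := o (wd (sn (fun i => S.δ (I i)) (dd S.w)))
  have hm0 : (0 : ℤ) ≤ (S.m0 : ℤ) := Int.natCast_nonneg _
  have hT0 : 0 ≤ v f₀ + S.m0 * (oJ + 1) := by
    by_contra h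
    push Not at h
    have : NJ * (v f₀ + S.m0 * (oJ + 1)) < 0 := mul_neg_of_pos_of_neg (by omega) h
    omega
  have hTT : v f₀ + S.m0 * (oJ + 1) ≤ v f₀ + S.m0 * (oω + 1) := by
    have : (S.m0 : ℤ) * (oJ + 1) ≤ S.m0 * (oω + 1) := mul_le_mul_of_nonneg_left (by omega) hm0
    omega
  refine ⟨⟨hFn, ?_⟩, ?_⟩
  · calc v S.F - v (S.X c) ≤ NJ * (v f₀ + S.m0 * (oJ + 1)) := hb
      _ ≤ N * (v f₀ + S.m0 * (oJ + 1)) := mul_le_mul_of_nonneg_right hNle hT0
      _ ≤ N * (v f₀ + S.m0 * (oω + 1)) := mul_le_mul_of_nonneg_left hTT (by omega)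
  · intro hFc
    have h4 : 0 ≤ v f₀ := unit_nonneg S h3 hF hf hvo.toIV ht hc hw0 hFc
    have hwe : (sn (fun i : Fin k => dd (S.X (J i.castSucc) / S.X c)) (dd S.w)) =
        fun i => dd ((sn (fun i : Fin k => S.X (J i.castSucc) / S.X c) S.w : Fin (k + 1) → K) i) := by
      funext i
      refine Fin.lastCases ?_ (fun i => ?_) i
      · rw [sn_last, sn_last]
      · rw [sn_castSucc, sn_castSucc]
    have h5 : 0 ≤ oJ := by
      rw [hoJ, hwe]
      refine hvo.reg _ (fun i => ?_) (by rw [← hwe]; exact hJ0)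
      refine Fin.lastCases ?_ (fun i => ?_) i
      · rw [sn_last]
        exact fun _ => hw0
      · rw [sn_castSucc]
        intro hi
        have h6 : S.X (J i.castSucc) ≠ 0 := by
          intro h
          exact hi (by rw [h, zero_div])
        rw [iv_div hvo.toIV h6 hc.ne]
        have := hc.le _ h6
        omega
    have h7 : 0 ≤ (S.m0 : ℤ) * oω := mul_nonneg hm0 (by omega)
    omega

end Pool.Agent.LG
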