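import Pool.Agent.LG.Tr
import Pool.Agent.LG.Pb

/-!
# LG C2a: a polynomial which bounds the differences of the roots

`x i = X (J i) / X c`, `K'` the splitting field of `S.P`, `L = ℂ(X)`.  Every root `r ∈ K'` of `S.P` is algebraic over `L`, `L` is algebraic over `ℂ(x)` (`tr_alg`), so `r - r'` is algebraic over `ℂ(x) ⊆ K'`, and `x` (mapped to `K'`) is algebraically
independent.  `p` = the product of the polynomials of `exists_pbound` for `r - r'` (`r ≠ r'`, in `K'`) and for `ℓ = X (cf D) / X c ≠ 0` (in `K`, `v ℓ ≥ 0` by `CH.le`).  `ν (r - r') ≥ min (ν (w - r), ν (w - r')) ≥ 0`.  All factors have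
`ν (aeval x p_i) ≥ 0` (`iv_aeval_nonneg`; they are not `0` by algebraic independence), so each is `≤ ν (aeval x p) = e * v (aeval x p)`.
`Q_root`: the roots of `S.Q c` are those of `S.P` (`S.P = C (X c) * S.Q c`).
-/

set_option autoImplicit false

open MvPolynomial
open Pool.Agent.H23 (RatForm regularForms PrimeDivisorOver fc dualDer)

noncomputable section

namespace Pool.Agent.LG

variable {K : Type} [Field K] [Algebra ℂ K] {k n D : ℕ} {ι : Type}


theorem P_eq (S : Dat K ι n D) {c : ι} (hc : S.X c ≠ 0) : S.P = Polynomial.C (S.X c) * S.Q c := by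
  rw [Dat.P, Dat.Q, Finset.mul_sum]
  refine Finset.sum_congr rfl fun i _ => ?_
  rw [← mul_assoc, ← Polynomial.C_mul, mul_div_cancel₀ _ hc]

private lemma c2a_coeff (S : Dat K ι n D) (m : ℕ) :
    S.P.coeff m = ∑ i : Fin (D + 1), if m = (i : ℕ) then S.X (S.cf i) else 0 := by
  rw [Dat.P, Polynomial.finset_sum_coeff]
  refine Finset.sum_congr rfl fun i _ => ?_
  rw [Polynomial.coeff_C_mul_X_pow]

private lemma c2a_coeff_mem (S : Dat K ι n D) (m : ℕ) :
    S.P.coeff m ∈ IntermediateField.adjoin ℂ (Set.range S.X) := by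
  rw [c2a_coeff]
  apply sum_mem
  intro i _
  split_ifs
  · exact IntermediateField.subset_adjoin _ _ ⟨_, rfl⟩
  · exact zero_mem _

private lemma c2a_coeff_last (S : Dat K ι n D) : S.P.coeff D = S.X (S.cf (Fin.last D)) := by
  rw [c2a_coeff, Finset.sum_eq_single (Fin.last D)]
  · rw [if_pos]
    exact (Fin.val_last D).symm
  · intro i _ hi
    rw [if_neg]
    intro h
    exact hi (Fin.ext (by rw [← h, Fin.val_last]))
  · intro h
    exact absurd (Finset.mem_univ _) h

private lemma c2a_map {K' : Type} [Field K'] [Algebra K K'] [Algebra ℂ K'] [IsScalarTower ℂ K K']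
    {m : ℕ} {x : Fin m → K} {a : K} (ha : IsAlgebraic (Algebra.adjoin ℂ (Set.range x)) a) :
    IsAlgebraic (Algebra.adjoin ℂ (Set.range fun i => algebraMap K K' (x i)))
      (algebraMap K K' a) := by
  obtain ⟨f, hf⟩ : ∃ f : K →ₐ[ℂ] K', f = IsScalarTower.toAlgHom ℂ K K' := ⟨_, rfl⟩
  have hfa : ∀ a, f a = algebraMap K K' a := fun a => by rw [hf]; rfl
  have hmem : ∀ a : Algebra.adjoin ℂ (Set.range x), f a ∈
      Algebra.adjoin ℂ (Set.range fun i => algebraMap K K' (x i)) := by
    intro a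
    have h1 : f a ∈ (Algebra.adjoin ℂ (Set.range x)).map f := ⟨a, a.2, rfl⟩
    rw [AlgHom.map_adjoin] at h1
    refine Algebra.adjoin_mono ?_ h1
    rintro _ ⟨_, ⟨i, rfl⟩, rfl⟩
    exact ⟨i, (hfa _).symm⟩
  let g : Algebra.adjoin ℂ (Set.range x) →ₐ[ℂ]
      Algebra.adjoin ℂ (Set.range fun i => algebraMap K K' (x i)) :=
    (f.comp (Algebra.adjoin ℂ (Set.range x)).val).codRestrict _ hmem
  have hg : Function.Injective g := by
    intro a b hab
    have h1 : f a = f b := congrArg Subtype.val hab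
    exact Subtype.ext (f.toRingHom.injective h1)
  exact IsAlgebraic.ringHom_of_comp_eq g (algebraMap K K') ha hg
    (RingHom.ext fun a => hfa a)

private lemma c2a_root {K' : Type} [Field K'] [Algebra K K'] [Algebra ℂ K'] [IsScalarTower ℂ K K']
    {m : ℕ} {x : Fin m → K} {q : Polynomial K} (hq : q ≠ 0)
    (hco : ∀ i, IsAlgebraic (Algebra.adjoin ℂ (Set.range x)) (q.coeff i)) {r : K'}
    (hr : (q.map (algebraMap K K')).eval r = 0) :
    IsAlgebraic (Algebra.adjoin ℂ (Set.range fun i => algebraMap K K' (x i))) r := by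
  obtain ⟨A, hA⟩ : ∃ A, A = Algebra.adjoin ℂ (Set.range fun i => algebraMap K K' (x i)) := ⟨_, rfl⟩
  have hco' : ∀ i, (q.map (algebraMap K K')).coeff i ∈ Subalgebra.algebraicClosure A K' := by
    intro i
    rw [Subalgebra.mem_algebraicClosure, Polynomial.coeff_map, hA]
    exact c2a_map (hco i)
  rw [← hA]
  obtain ⟨T, hT⟩ : ∃ T, T = (Subalgebra.algebraicClosure A K').toSubring := ⟨_, rfl⟩
  have h1 : IsAlgebraic (Subalgebra.algebraicClosure A K') r := by
    obtain ⟨q', hq'⟩ : ∃ q' : Polynomial (Subalgebra.algebraicClosure A K'),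
        q'.map (algebraMap (Subalgebra.algebraicClosure A K') K') = q.map (algebraMap K K') := by
      have h2 : q.map (algebraMap K K') ∈
          Polynomial.lifts (algebraMap (Subalgebra.algebraicClosure A K') K') := by
        rw [Polynomial.lifts_iff_coeff_lifts]
        intro i
        exact ⟨⟨_, hco' i⟩, rfl⟩
      obtain ⟨q', h3⟩ := (Polynomial.mem_lifts _).1 h2
      exact ⟨q', h3⟩
    refine ⟨q', ?_, ?_⟩
    · intro h0
      rw [h0, Polynomial.map_zero] at hq'
      exact hq ((Polynomial.map_eq_zero (algebraMap K K')).1 hq'.symm)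
    · rw [Polynomial.aeval_def, Polynomial.eval₂_eq_eval_map, hq', hr]
  exact IsAlgebraic.restrictScalars A h1

private lemma c2a_neg {L : Type} [Field L] [Algebra ℂ L] {v : L → ℤ} (hv : IV L v) {a : L}
    (ha : a ≠ 0) : v (-a) = v a := by
  have h1 : -a = algebraMap ℂ L (-1) * a := by rw [map_neg, map_one, neg_one_mul]
  have h2 : algebraMap ℂ L (-1) ≠ 0 := by
    rw [map_neg, map_one]
    exact neg_ne_zero.2 one_ne_zero
  rw [h1, hv.mul h2 ha, hv.const _ (by norm_num), zero_add]

private lemma c2a_div {v : K → ℤ} (hv : IV K v) {a b : K} (ha : a ≠ 0) (hb : b ≠ 0) :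
    v (a / b) = v a - v b := by
  have h1 := hv.mul (div_ne_zero ha hb) hb
  rw [div_mul_cancel₀ _ hb] at h1
  omega

private lemma c2a_prod {L : Type} [Field L] [Algebra ℂ L] {v : L → ℤ} (hv : IV L v) {κ : Type*}
    (s : Finset κ) (f : κ → L) (h0 : ∀ i ∈ s, f i ≠ 0) : v (∏ i ∈ s, f i) = ∑ i ∈ s, v (f i) := by
  classical
  induction s using Finset.induction_on with
  | empty =>
    rw [Finset.prod_empty, Finset.sum_empty]
    have := hv.const 1 one_ne_zero
    rwa [map_one] at this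
  | insert a s ha ih =>
    rw [Finset.prod_insert ha, Finset.sum_insert ha, hv.mul (h0 a (Finset.mem_insert_self a s))
      (Finset.prod_ne_zero_iff.2 fun i hi => h0 i (Finset.mem_insert_of_mem hi)),
      ih fun i hi => h0 i (Finset.mem_insert_of_mem hi)]

theorem exists_p {z : Fin (k + 1) → K} (hz : IsTranscendenceBasis ℂ z) [Fintype ι] (S : Dat K ι n D) (h3 : S.Three)
    (htr : Transcendental (IntermediateField.adjoin ℂ (Set.range S.X)) S.w) (h1 : ∃ a, S.X a = 1) {c : ι} (hc : S.X c ≠ 0) {J : Fin k → ι}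
    (hJ : wd (sn (fun i => dd (S.X (J i) / S.X c)) (dd S.w)) ≠ 0) :
    ∃ p : MvPolynomial (Fin k) ℂ, p ≠ 0 ∧ ∀ v : K → ℤ, IV K v → CH S v c → 0 ≤ v (aeval (fun i => S.X (J i) / S.X c) p) ∧ v (S.X (S.cf (Fin.last D)) / S.X c) ≤ v (aeval (fun i => S.X (J i) / S.X c) p) ∧
      ∀ (ν : S.P.SplittingField → ℤ) (e : ℤ), 1 ≤ e → IV S.P.SplittingField ν → (∀ a : K, a ≠ 0 → ν (algebraMap K _ a) = e * v a) →
        ∀ r r' : S.P.SplittingField, (S.P.map (algebraMap K _)).eval r = 0 → (S.P.map (algebraMap K _)).eval r' = 0 → r ≠ r' →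
          0 ≤ ν (algebraMap K _ S.w - r) → 0 ≤ ν (algebraMap K _ S.w - r') → ν (r - r') ≤ e * v (aeval (fun i => S.X (J i) / S.X c) p) := by
  classical
  obtain ⟨x, hx⟩ : ∃ x : Fin k → K, x = fun i => S.X (J i) / S.X c := ⟨_, rfl⟩
  have hxi : ∀ i, x i = S.X (J i) / S.X c := fun i => by rw [hx]
  rw [← hx]
  simp only [← hxi] at hJ
  have hP0 : S.P ≠ 0 := by
    intro h0
    apply h3.zero
    rw [h0, Polynomial.coeff_zero]
  have hlast : S.X (S.cf (Fin.last D)) ≠ 0 := by
    have h4 : S.P.leadingCoeff ≠ 0 := Polynomial.leadingCoeff_ne_zero.2 hP0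
    have h5 : S.P.leadingCoeff = S.P.coeff D := congrArg S.P.coeff h3.deg
    rwa [h5, c2a_coeff_last] at h4
  have hxL : ∀ i, x i ∈ IntermediateField.adjoin ℂ (Set.range S.X) := by
    intro i
    rw [hxi]
    exact div_mem (IntermediateField.subset_adjoin _ _ ⟨_, rfl⟩)
      (IntermediateField.subset_adjoin _ _ ⟨_, rfl⟩)
  have halg : ∀ l ∈ IntermediateField.adjoin ℂ (Set.range S.X),
      IsAlgebraic (Algebra.adjoin ℂ (Set.range x)) l :=
    fun l hl => tr_alg hz htr hxL hJ hl
  have hind : AlgebraicIndependent ℂ x := by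
    have h4 : sn (fun i => dd (x i)) (dd S.w) = fun i => dd (sn x S.w i) := by
      funext i
      refine Fin.lastCases ?_ (fun j => ?_) i
      · simp [sn]
      · simp [sn]
    rw [h4] at hJ
    have h5 := algInd_of_wd hJ
    have h6 : x = sn x S.w ∘ Fin.castSucc := by
      funext i
      simp [sn]
    rw [h6]
    exact h5.comp _ (Fin.castSucc_injective k)
  have hxx : ∀ p : MvPolynomial (Fin k) ℂ, p ≠ 0 → aeval x p ≠ 0 := fun p hp h0 =>
    hp (hind (by rw [h0, map_zero]))
  obtain ⟨pl, hpl0, hpl⟩ := exists_pbound hind (div_ne_zero hlast hc)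
    (halg _ (div_mem (IntermediateField.subset_adjoin _ _ ⟨_, rfl⟩)
      (IntermediateField.subset_adjoin _ _ ⟨_, rfl⟩)))
  obtain ⟨x', hx'⟩ : ∃ x' : Fin k → S.P.SplittingField,
    x' = fun i => algebraMap K S.P.SplittingField (x i) := ⟨_, rfl⟩
  have hind' : AlgebraicIndependent ℂ x' := by
    rw [hx']
    exact hind.map' (f := IsScalarTower.toAlgHom ℂ K S.P.SplittingField)
      (algebraMap K S.P.SplittingField).injective
  have haev : ∀ p : MvPolynomial (Fin k) ℂ,
      aeval x' p = algebraMap K S.P.SplittingField (aeval x p) := by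
    intro p
    rw [hx', ← MvPolynomial.aeval_algebraMap_apply]
    rfl
  have hroot : ∀ r : S.P.SplittingField, (S.P.map (algebraMap K _)).eval r = 0 →
      IsAlgebraic (Algebra.adjoin ℂ (Set.range x')) r := by
    intro r hr
    rw [hx']
    exact c2a_root hP0 (fun i => halg _ (c2a_coeff_mem S i)) hr
  obtain ⟨R, hR⟩ : ∃ R, R = ((S.P.map (algebraMap K S.P.SplittingField)).roots.toFinset).offDiag :=
    ⟨_, rfl⟩
  have hPm : S.P.map (algebraMap K S.P.SplittingField) ≠ 0 := by
    rw [Ne, Polynomial.map_eq_zero]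
    exact hP0
  have hRm : ∀ q : S.P.SplittingField × S.P.SplittingField, q ∈ R ↔
      (S.P.map (algebraMap K S.P.SplittingField)).eval q.1 = 0 ∧
      (S.P.map (algebraMap K S.P.SplittingField)).eval q.2 = 0 ∧ q.1 ≠ q.2 := by
    intro q
    rw [hR, Finset.mem_offDiag, Multiset.mem_toFinset, Multiset.mem_toFinset,
      Polynomial.mem_roots hPm, Polynomial.mem_roots hPm]
    rfl
  have hex : ∀ q : S.P.SplittingField × S.P.SplittingField, ∃ p : MvPolynomial (Fin k) ℂ, p ≠ 0 ∧
      (q ∈ R → ∀ ν : S.P.SplittingField → ℤ, IV S.P.SplittingField ν →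
        (∀ i, x' i ≠ 0 → 0 ≤ ν (x' i)) → 0 ≤ ν (q.1 - q.2) → ν (q.1 - q.2) ≤ ν (aeval x' p)) := by
    intro q
    by_cases hq : q ∈ R
    · obtain ⟨h4, h5, h6⟩ := (hRm q).1 hq
      have h7 : IsAlgebraic (Algebra.adjoin ℂ (Set.range x')) (q.1 - q.2) :=
        (Subalgebra.algebraicClosure (Algebra.adjoin ℂ (Set.range x'))
          S.P.SplittingField).sub_mem (hroot _ h4) (hroot _ h5)
      obtain ⟨p, hp0, hp⟩ := exists_pbound hind' (sub_ne_zero.2 h6) h7
      exact ⟨p, hp0, fun _ => hp⟩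
    · exact ⟨1, one_ne_zero, fun h => absurd h hq⟩
  choose pp hpp0 hpp using hex
  refine ⟨pl * ∏ q ∈ R, pp q, mul_ne_zero hpl0 (Finset.prod_ne_zero_iff.2 fun q _ => hpp0 q), ?_⟩
  intro v hv hch
  have hxv : ∀ i, x i ≠ 0 → 0 ≤ v (x i) := by
    intro i hi
    have h4 : S.X (J i) ≠ 0 := by
      intro h0
      apply hi
      rw [hxi, h0, zero_div]
    rw [hxi, c2a_div hv h4 hc]
    have := hch.le (J i) h4
    omega
  have hvp : v (aeval x (pl * ∏ q ∈ R, pp q)) = v (aeval x pl) + ∑ q ∈ R, v (aeval x (pp q)) := by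
    rw [map_mul, map_prod, hv.mul (hxx _ hpl0)
      (Finset.prod_ne_zero_iff.2 fun q _ => hxx _ (hpp0 q)), c2a_prod hv]
    exact fun q _ => hxx _ (hpp0 q)
  have hpos : ∀ q ∈ R, 0 ≤ v (aeval x (pp q)) := fun q _ =>
    iv_aeval_nonneg hv hxv _ (hxx _ (hpp0 q))
  have hlpos : 0 ≤ v (aeval x pl) := iv_aeval_nonneg hv hxv _ (hxx _ hpl0)
  have hsum : 0 ≤ ∑ q ∈ R, v (aeval x (pp q)) := Finset.sum_nonneg hpos
  refine ⟨by rw [hvp]; exact add_nonneg hlpos hsum, ?_, ?_⟩
  · have h4 := hpl v hv hxv (by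
      rw [c2a_div hv hlast hc]
      have := hch.le _ hlast
      omega)
    rw [hvp]
    omega
  · intro ν e he hν hνv r r' hr hr' hrr h4 h5
    have hxν : ∀ i, x' i ≠ 0 → 0 ≤ ν (x' i) := by
      intro i hi
      have h6 : x i ≠ 0 := by
        intro h0
        apply hi
        rw [hx']
        simp only [h0, map_zero]
      rw [hx']
      simp only
      rw [hνv _ h6]
      exact mul_nonneg (by omega) (hxv i h6)
    have hwr : ∀ s : S.P.SplittingField, (S.P.map (algebraMap K _)).eval s = 0 →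
        algebraMap K S.P.SplittingField S.w - s ≠ 0 := by
      intro s hs h0
      rw [sub_eq_zero] at h0
      rw [← h0, Polynomial.eval_map_algebraMap, Polynomial.aeval_algebraMap_apply] at hs
      have h6 := (map_eq_zero (algebraMap K S.P.SplittingField)).1 hs
      exact eval_ne_zero htr (c2a_coeff_mem S) hP0 (by simpa using h6)
    have h6 : 0 ≤ ν (r - r') := by
      have h7 := hν.add (hwr r' hr') (neg_ne_zero.2 (hwr r hr)) (by
        have : algebraMap K S.P.SplittingField S.w - r' +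
          -(algebraMap K S.P.SplittingField S.w - r) = r - r' := by ring
        rw [this]
        exact sub_ne_zero.2 hrr)
      have h8 : algebraMap K S.P.SplittingField S.w - r' +
          -(algebraMap K S.P.SplittingField S.w - r) = r - r' := by ring
      rw [h8, c2a_neg hν (hwr r hr)] at h7
      exact le_trans (le_min h5 h4) h7
    have hqR : (r, r') ∈ R := (hRm _).2 ⟨hr, hr', hrr⟩
    have h7 := hpp (r, r') hqR ν hν hxν h6
    rw [haev, hνv _ (hxx _ (hpp0 _))] at h7
    refine le_trans h7 (mul_le_mul_of_nonneg_left ?_ (by omega))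
    rw [hvp]
    have h8 : v (aeval x (pp (r, r'))) ≤ ∑ q ∈ R, v (aeval x (pp q)) :=
      Finset.single_le_sum hpos hqR
    omega

end Pool.Agent.LG
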