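import Pool.Agent.LG.Rg

/-!
# LG Ce: a closed point of the centre of a divisor

Choose `j` with `ξ j ≠ 0` and `E.ord (ξ j)` smallest, `x i = ξ i / ξ j`, so `0 ≤ E.ord (x i)`.  `𝔭 = {F | 0 < E.ord (F(x))}` is a prime ideal of `ℂ[X₀, …, X_N]`, `X_j - 1 ∈ 𝔭`, `Q ⊆ 𝔭` (homogeneous components, `GP.zero`, `F_m(x) = F_m(ξ) / ξ_j^m`).
If not `BdG`, then `G m ∉ 𝔭` for some `m`.  Nullstellensatz: a zero `a` of `𝔭` with `eval a (G m) ≠ 0`; `a j = 1`.
If `RegAt ξ a f c` (`A`, `B` of degree `D`): `f B(x) = A(x)`, `B ∉ 𝔭` as `B(a) ≠ 0`, so `E.ord B(x) = 0`; if `c ≠ 0` then `A(a) ≠ 0`, and `E.ord A(x) = 0`.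
-/

set_option autoImplicit false

open MvPolynomial
open Pool.Agent.H23 (PrimeDivisorOver)

noncomputable section

namespace Pool.Agent.LG

variable {K : Type} [Field K] [Algebra ℂ K] {N : ℕ} {ξ : Fin (N + 1) → K} {Q : Ideal (MvPolynomial (Fin (N + 1)) ℂ)}

private theorem Ce_aeval {D : ℕ} {F : MvPolynomial (Fin (N + 1)) ℂ} (hF : F.IsHomogeneous D) (c : K) (ξ : Fin (N + 1) → K) :
    aeval (fun i => ξ i / c) F = c⁻¹ ^ D * aeval ξ F := by
  rw [aeval_def, aeval_def, eval₂_eq', eval₂_eq', Finset.mul_sum]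
  refine Finset.sum_congr rfl fun d hd => ?_
  have h1 : ∑ i, d i = D := by
    have h := hF (mem_support_iff.1 hd)
    rw [Finsupp.weight_apply, Finsupp.sum_fintype _ _ (fun _ => by simp)] at h
    simpa using h
  have h2 : ∏ i, (ξ i / c) ^ d i = c⁻¹ ^ D * ∏ i, ξ i ^ d i := by
    rw [← h1, ← Finset.prod_pow_eq_pow_sum, ← Finset.prod_mul_distrib]
    refine Finset.prod_congr rfl fun i _ => ?_
    rw [div_eq_mul_inv, mul_pow]
    ring
  rw [h2]
  ring

/-- the polynomials whose value at `x` has positive order -/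
private def pI {k : ℕ} (E : PrimeDivisorOver K k) (x : Fin (N + 1) → K) (hx : ∀ i, 0 ≤ E.ord (x i)) : Ideal (MvPolynomial (Fin (N + 1)) ℂ) where
  carrier := {F | 0 < E.ord (aeval x F)}
  add_mem' := fun {F G} hF hG => by
    simp only [Set.mem_ofPred_eq, map_add] at *
    exact lt_of_lt_of_le (lt_min hF hG) (E.ord.map_add _ _)
  zero_mem' := by
    simp
  smul_mem' := fun F G hG => by
    have hF : 0 ≤ E.ord (aeval x F) := by
      have : aeval x F ∈ E.localRing := by
        induction F using MvPolynomial.induction_on with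
        | C a => rw [aeval_C]; exact E.localRing.algebraMap_mem a
        | add p q hp hq => rw [map_add]; exact E.localRing.add_mem hp hq
        | mul_X p i hp => rw [map_mul, aeval_X]; exact E.localRing.mul_mem hp (hx i)
      exact this
    simp only [Set.mem_ofPred_eq, smul_eq_mul, map_mul, AddValuation.map_mul] at *
    exact lt_of_lt_of_le hG (le_add_of_nonneg_left hF)

theorem exists_center (homog : ∀ F ∈ Q, ∀ m, homogeneousComponent m F ∈ Q) (hgp : GP Q ξ) {k s : ℕ} (E : PrimeDivisorOver K k) (G : Fin s → MvPolynomial (Fin (N + 1)) ℂ) :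
    ∃ a, Cone Q a ∧ (∀ f c, RegAt ξ a f c → 0 ≤ E.ord f ∧ (c ≠ 0 → E.ord f = 0)) ∧ (¬ BdG ξ G E → ∃ m, eval a (G m) ≠ 0) := by
  obtain ⟨j, hj⟩ := Finite.exists_min fun i => E.ord (ξ i)
  have hj0 : ξ j ≠ 0 := by
    intro h
    apply hgp.ne
    funext i
    have h1 := hj i
    rw [h, E.ord.map_zero, top_le_iff, AddValuation.top_iff] at h1
    exact h1
  have hjt : E.ord (ξ j) ≠ ⊤ := fun h => hj0 ((AddValuation.top_iff _).1 h)
  obtain ⟨x, hxd⟩ : ∃ x : Fin (N + 1) → K, x = fun i => ξ i / ξ j := ⟨_, rfl⟩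
  have hx : ∀ i, 0 ≤ E.ord (x i) := by
    intro i
    have h1 : E.ord (ξ i) = E.ord (x i) + E.ord (ξ j) := by
      rw [← E.ord.map_mul, hxd]
      congr 1
      field_simp
    have h2 := hj i
    simp only [h1] at h2
    obtain ⟨a, ha⟩ := WithTop.ne_top_iff_exists.1 hjt
    rw [← ha] at h2
    induction h3 : E.ord (x i) with
    | top => exact le_top
    | coe b =>
      rw [h3] at h2
      have h4 : (a : WithTop ℤ) ≤ ((b + a : ℤ) : WithTop ℤ) := by exact_mod_cast h2
      have h5 : a ≤ b + a := WithTop.coe_le_coe.1 h4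
      have h6 : (0 : ℤ) ≤ b := by omega
      exact_mod_cast h6
  have hval : ∀ F : MvPolynomial (Fin (N + 1)) ℂ, 0 ≤ E.ord (aeval x F) := by
    intro F
    have : aeval x F ∈ E.localRing := by
      induction F using MvPolynomial.induction_on with
      | C a => rw [aeval_C]; exact E.localRing.algebraMap_mem a
      | add p q hp hq => rw [map_add]; exact E.localRing.add_mem hp hq
      | mul_X p i hp => rw [map_mul, aeval_X]; exact E.localRing.mul_mem hp (hx i)
    exact this
  have hmem : ∀ F, F ∈ pI E x hx ↔ 0 < E.ord (aeval x F) := fun F => Iff.rfl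
  have hpr : (pI E x hx).IsPrime := by
    refine ⟨?_, ?_⟩
    · rw [Ne, Ideal.eq_top_iff_one, hmem]
      simp
    · intro F G h
      rw [hmem, map_mul, E.ord.map_mul] at h
      rw [hmem, hmem]
      by_contra hc
      push Not at hc
      have h1 : E.ord (aeval x F) = 0 := le_antisymm hc.1 (hval F)
      have h2 : E.ord (aeval x G) = 0 := le_antisymm hc.2 (hval G)
      rw [h1, h2] at h
      simp at h
  have hQ : ∀ F ∈ Q, F ∈ pI E x hx := by
    intro F hF
    have h0 : aeval x F = 0 := by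
      rw [← sum_homogeneousComponent F, map_sum]
      refine Finset.sum_eq_zero fun m _ => ?_
      have h1 := homogeneousComponent_isHomogeneous m F
      rw [hxd, Ce_aeval h1, (hgp.zero m _ h1).2 (homog F hF m), mul_zero]
    rw [hmem, h0]
    simp
  have hXj : X j - 1 ∈ pI E x hx := by
    have h0 : aeval x (X j - 1 : MvPolynomial (Fin (N + 1)) ℂ) = 0 := by
      rw [map_sub, aeval_X, map_one, hxd]
      simp only
      rw [div_self hj0, sub_self]
    rw [hmem, h0]
    simp
  -- a point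
  have hpt : ∀ H : MvPolynomial (Fin (N + 1)) ℂ, H ∉ pI E x hx → ∃ a : Fin (N + 1) → ℂ, (∀ F ∈ pI E x hx, eval a F = 0) ∧ eval a H ≠ 0 := by
    intro H hH
    by_contra hc
    push Not at hc
    apply hH
    haveI := hpr
    rw [← MvPolynomial.IsPrime.vanishingIdeal_zeroLocus (K := ℂ) (pI E x hx), MvPolynomial.mem_vanishingIdeal_iff]
    intro v hv
    rw [MvPolynomial.aeval_eq_eval]
    refine hc v fun F hF => ?_
    have h1 := hv F hF
    rwa [MvPolynomial.aeval_eq_eval] at h1
  have hfin : ∀ a : Fin (N + 1) → ℂ, (∀ F ∈ pI E x hx, eval a F = 0) → Cone Q a ∧ ∀ f c, RegAt ξ a f c → 0 ≤ E.ord f ∧ (c ≠ 0 → E.ord f = 0) := by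
    intro a ha
    have haj : a j = 1 := by
      have h1 := ha _ hXj
      rw [map_sub, eval_X, map_one, sub_eq_zero] at h1
      exact h1
    refine ⟨⟨fun h => ?_, fun F hF => ha F (hQ F hF)⟩, ?_⟩
    · rw [h] at haj
      simp at haj
    · rintro f c ⟨D, A, B, hA, hB, hBa, hAB, hc⟩
      have hunit : ∀ H : MvPolynomial (Fin (N + 1)) ℂ, eval a H ≠ 0 → E.ord (aeval x H) = 0 := by
        intro H hH
        refine le_antisymm ?_ (hval H)
        by_contra h1
        push Not at h1
        exact hH (ha H ((hmem H).2 h1))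
      have h2 : f * aeval x B = aeval x A := by
        rw [hxd, Ce_aeval hA, Ce_aeval hB, ← hAB]
        ring
      have h3 : E.ord f = E.ord (aeval x A) := by
        rw [← h2, E.ord.map_mul, hunit B hBa, add_zero]
      refine ⟨by rw [h3]; exact hval A, fun hc0 => ?_⟩
      rw [h3]
      apply hunit
      rw [hc]
      exact mul_ne_zero hc0 hBa
  by_cases hB : BdG ξ G E
  · obtain ⟨a, ha, -⟩ := hpt 1 (by rw [hmem]; simp)
    exact ⟨a, (hfin a ha).1, (hfin a ha).2, fun h => absurd hB h⟩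
  · have h1 : ∃ m, ¬ 0 < E.ord (aeval x (G m)) := by
      by_contra hc
      push Not at hc
      refine hB ⟨j, hj0, fun i => ?_, fun m => ?_⟩
      · have := hx i
        rwa [hxd] at this
      · have := hc m
        rwa [hxd] at this
    obtain ⟨m, hm⟩ := h1
    obtain ⟨a, ha, hma⟩ := hpt (G m) (by rwa [hmem])
    exact ⟨a, (hfin a ha).1, (hfin a ha).2, fun _ => ⟨m, hma⟩⟩

end Pool.Agent.LG
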