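import Pool.Agent.LG.Ty

/-!
# LG Co: the coefficients of the equation of the boundary, and a change of coordinates of `ℙ¹`

* `exists_coeff`: `form θ y (M p) ^ 3` is a homogeneous polynomial of degree `3 d` in `p = (p 0, p 1)`; its coefficients are homogeneous polynomials of degree `3` in the `θ i y` (with constant coefficients), so of type `3` (`IsType.of_poly`).
* `exists_M`: the form `form θ y₀ x = ∑ θ_i x₀^i x₁^(d-i)` is not `0`, so `form θ y₀ (1, s) = 0` for finitely many `s` only; `M` has the columns `(1, s)`, `(1, t)`, `s ≠ t`, both not zeros, and both not proportional to `q₀`.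
-/

set_option autoImplicit false

open MvPolynomial
open Pool.Agent.PXF (Cn form IsThetaForm)

noncomputable section

namespace Pool.Agent.LG

variable {κ d : ℕ} {Λ : AddSubgroup (Cn (κ + 1))} {θ : Fin (d + 1) → Cn (κ + 1) → ℂ}

/-- `F y (p 0) (p 1)` is a binary form of degree `n` in `p` with coefficients of type `m` -/
private def CoBF (Λ : AddSubgroup (Cn (κ + 1))) (θ : Fin (d + 1) → Cn (κ + 1) → ℂ) (n m : ℕ) (F : Cn (κ + 1) → ℂ → ℂ → ℂ) : Prop :=
  ∃ Φ : ℕ → Cn (κ + 1) → ℂ, (∀ i, IsType Λ θ m (Φ i)) ∧ ∀ y p₀ p₁, F y p₀ p₁ = ∑ i ∈ Finset.range (n + 1), Φ i y * p₁ ^ i * p₀ ^ (n - i)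

private theorem co_mul {n n' m m' : ℕ} {F F' : Cn (κ + 1) → ℂ → ℂ → ℂ} (h : CoBF Λ θ n m F) (h' : CoBF Λ θ n' m' F') :
    CoBF Λ θ (n + n') (m + m') (fun y p₀ p₁ => F y p₀ p₁ * F' y p₀ p₁) := by
  obtain ⟨Φ, hΦ, hF⟩ := h
  obtain ⟨Ψ, hΨ, hF'⟩ := h'
  refine ⟨fun s y => ∑ p ∈ Finset.range (n + 1) ×ˢ Finset.range (n' + 1), (if p.1 + p.2 = s then Φ p.1 y * Ψ p.2 y else 0), ?_, ?_⟩
  · intro s
    refine IsType.sum _ _ fun p _ => ?_
    by_cases hp : p.1 + p.2 = s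
    · simp only [if_pos hp]
      exact (hΦ _).mul (hΨ _)
    · simp only [if_neg hp]
      exact IsType.zero
  · intro y p₀ p₁
    beta_reduce
    rw [hF, hF', Finset.sum_mul_sum, ← Finset.sum_product']
    have h1 : ∀ s ∈ Finset.range (n + n' + 1), (∑ p ∈ Finset.range (n + 1) ×ˢ Finset.range (n' + 1), (if p.1 + p.2 = s then Φ p.1 y * Ψ p.2 y else 0)) * p₁ ^ s * p₀ ^ (n + n' - s) =
        ∑ p ∈ Finset.range (n + 1) ×ˢ Finset.range (n' + 1), (if p.1 + p.2 = s then Φ p.1 y * p₁ ^ p.1 * p₀ ^ (n - p.1) * (Ψ p.2 y * p₁ ^ p.2 * p₀ ^ (n' - p.2)) else 0) := by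
      intro s _
      rw [Finset.sum_mul, Finset.sum_mul]
      refine Finset.sum_congr rfl fun p hp => ?_
      rw [Finset.mem_product, Finset.mem_range, Finset.mem_range] at hp
      by_cases hps : p.1 + p.2 = s
      · rw [if_pos hps, if_pos hps, ← hps]
        have h2 : n + n' - (p.1 + p.2) = (n - p.1) + (n' - p.2) := by omega
        rw [h2, pow_add, pow_add]
        ring
      · rw [if_neg hps, if_neg hps, zero_mul, zero_mul]
    rw [Finset.sum_congr rfl h1, Finset.sum_comm]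
    refine Finset.sum_congr rfl fun p hp => ?_
    rw [Finset.mem_product, Finset.mem_range, Finset.mem_range] at hp
    rw [Finset.sum_ite_eq, if_pos (Finset.mem_range.2 (by omega))]

private theorem co_sum {n m : ℕ} {σ : Type} (s : Finset σ) (F : σ → Cn (κ + 1) → ℂ → ℂ → ℂ) (h : ∀ a ∈ s, CoBF Λ θ n m (F a)) :
    CoBF Λ θ n m (fun y p₀ p₁ => ∑ a ∈ s, F a y p₀ p₁) := by
  classical
  induction s using Finset.induction_on with
  | empty =>
    refine ⟨fun _ _ => 0, fun _ => IsType.zero, fun y p₀ p₁ => ?_⟩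
    simp
  | insert a s ha ih =>
    obtain ⟨Φ, hΦ, hF⟩ := h a (Finset.mem_insert_self _ _)
    obtain ⟨Ψ, hΨ, hG⟩ := ih fun b hb => h b (Finset.mem_insert_of_mem hb)
    have hG' : ∀ y p₀ p₁, ∑ a ∈ s, F a y p₀ p₁ = ∑ i ∈ Finset.range (n + 1), Ψ i y * p₁ ^ i * p₀ ^ (n - i) := hG
    refine ⟨fun i y => Φ i y + Ψ i y, fun i => (hΦ i).add (hΨ i), fun y p₀ p₁ => ?_⟩
    beta_reduce
    rw [Finset.sum_insert ha, hF, hG', ← Finset.sum_add_distrib]
    exact Finset.sum_congr rfl fun i _ => by ring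

private theorem co_const (c : ℂ) : IsType Λ θ 0 (fun _ => c) :=
  ⟨differentiable_const _, fun l _ y i => by rw [pow_zero, pow_zero, mul_one, one_mul]⟩

private theorem co_lin (a b : ℂ) : CoBF Λ θ 1 0 (fun _ p₀ p₁ => a * p₀ + b * p₁) := by
  refine ⟨fun i _ => if i = 0 then a else b, fun i => co_const _, fun y p₀ p₁ => ?_⟩
  simp [Finset.sum_range_succ]

private theorem co_pow (a b : ℂ) (k : ℕ) : CoBF Λ θ k 0 (fun _ p₀ p₁ => (a * p₀ + b * p₁) ^ k) := by
  induction k with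
  | zero =>
    refine ⟨fun _ _ => 1, fun i => co_const _, fun y p₀ p₁ => ?_⟩
    simp
  | succ k ih =>
    have h1 := co_mul ih (co_lin (Λ := Λ) (θ := θ) a b)
    simp only [pow_succ]
    exact h1

theorem exists_coeff (hθ : IsThetaForm Λ θ) (M : Matrix (Fin 2) (Fin 2) ℂ) : ∃ Φ : Fin (3 * d + 1) → Cn (κ + 1) → ℂ, (∀ i, IsType Λ θ 3 (Φ i)) ∧
    ∀ y (p : Cn 2), ∑ i, Φ i y * p 1 ^ (i : ℕ) * p 0 ^ (3 * d - i) = form θ y (M.mulVec p) ^ 3 := by
  have h1 : CoBF Λ θ d 1 (fun y p₀ p₁ => ∑ i : Fin (d + 1), θ i y * (M 0 0 * p₀ + M 0 1 * p₁) ^ (i : ℕ) * (M 1 0 * p₀ + M 1 1 * p₁) ^ (d - (i : ℕ))) := by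
    refine co_sum _ _ fun i _ => ?_
    have h2 : CoBF Λ θ 0 1 (fun y _ _ => θ i y) := ⟨fun _ => θ i, fun _ => IsType.of_theta hθ i, fun y p₀ p₁ => by simp⟩
    have h3 := co_mul (co_mul h2 (co_pow (Λ := Λ) (θ := θ) (M 0 0) (M 0 1) (i : ℕ))) (co_pow (Λ := Λ) (θ := θ) (M 1 0) (M 1 1) (d - (i : ℕ)))
    have h4 : 0 + (i : ℕ) + (d - (i : ℕ)) = d := by
      have := i.isLt
      omega
    rw [h4] at h3
    exact h3
  have h5 := co_mul (co_mul h1 h1) h1
  have h6 : d + d + d = 3 * d := by ring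
  rw [h6] at h5
  obtain ⟨Φ, hΦ, hF⟩ := h5
  refine ⟨fun i => Φ i, fun i => hΦ i, fun y p => ?_⟩
  have h7 := hF y (p 0) (p 1)
  have h8 : form θ y (M.mulVec p) = ∑ i : Fin (d + 1), θ i y * (M 0 0 * p 0 + M 0 1 * p 1) ^ (i : ℕ) * (M 1 0 * p 0 + M 1 1 * p 1) ^ (d - (i : ℕ)) := by
    simp only [form, Matrix.mulVec, dotProduct, Fin.sum_univ_two]
  rw [h8]
  rw [Finset.sum_range] at h7
  rw [← h7]
  ring

/-- the form is homogeneous -/
theorem form_smul (y : Cn (κ + 1)) (c : ℂ) (x : Cn 2) : form θ y (c • x) = c ^ d * form θ y x := by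
  simp only [form, Pi.smul_apply, smul_eq_mul, Finset.mul_sum]
  refine Finset.sum_congr rfl fun i _ => ?_
  have h1 : c ^ d = c ^ (i : ℕ) * c ^ (d - (i : ℕ)) := by
    rw [← pow_add]
    congr 1
    have := i.isLt
    omega
  rw [h1, mul_pow, mul_pow]
  ring

theorem exists_M {y₀ : Cn (κ + 1)} {q₀ : Cn 2} (hq : q₀ ≠ 0) (h : ∃ x, form θ y₀ x ≠ 0) : ∃ M M' : Matrix (Fin 2) (Fin 2) ℂ, M * M' = 1 ∧ M' * M = 1 ∧ form θ y₀ (M.mulVec ![1, 0]) ≠ 0 ∧ form θ y₀ (M.mulVec ![0, 1]) ≠ 0 ∧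
    M'.mulVec q₀ 0 ≠ 0 ∧ M'.mulVec q₀ 1 ≠ 0 := by
  obtain ⟨f, hf⟩ : ∃ f : Polynomial ℂ, f = ∑ i : Fin (d + 1), Polynomial.C (θ i y₀) * Polynomial.X ^ (d - (i : ℕ)) := ⟨_, rfl⟩
  have hfe : ∀ s, f.eval s = form θ y₀ ![1, s] := by
    intro s
    rw [hf, Polynomial.eval_finsetSum]
    simp only [form, Matrix.cons_val_zero, Matrix.cons_val_one, one_pow, mul_one, Polynomial.eval_mul, Polynomial.eval_C, Polynomial.eval_pow, Polynomial.eval_X]
  have hf0 : f ≠ 0 := by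
    intro h0
    have hθ0 : ∀ i, θ i y₀ = 0 := by
      intro i
      have h1 : f.coeff (d - (i : ℕ)) = θ i y₀ := by
        rw [hf, Polynomial.finsetSum_coeff, Finset.sum_eq_single i]
        · rw [Polynomial.coeff_C_mul_X_pow, if_pos rfl]
        · intro j _ hj
          rw [Polynomial.coeff_C_mul_X_pow, if_neg]
          intro hh
          apply hj
          apply Fin.ext
          have := i.isLt
          have := j.isLt
          omega
        · intro hh
          exact absurd (Finset.mem_univ i) hh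
      rw [← h1, h0, Polynomial.coeff_zero]
    obtain ⟨x, hx⟩ := h
    apply hx
    simp [form, hθ0]
  obtain ⟨g, hg⟩ : ∃ g : Polynomial ℂ, g = f * (Polynomial.C (q₀ 0) * Polynomial.X - Polynomial.C (q₀ 1)) := ⟨_, rfl⟩
  have hlin : (Polynomial.C (q₀ 0) * Polynomial.X - Polynomial.C (q₀ 1) : Polynomial ℂ) ≠ 0 := by
    intro h0
    apply hq
    have h1 := congrArg (fun p => Polynomial.coeff p 0) h0
    have h2 := congrArg (fun p => Polynomial.coeff p 1) h0
    simp [Polynomial.coeff_C] at h1 h2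
    funext i
    fin_cases i
    · exact h2
    · exact h1
  have hg0 : g ≠ 0 := by
    rw [hg]
    exact mul_ne_zero hf0 hlin
  have hex : ∀ p : Polynomial ℂ, p ≠ 0 → ∃ s, p.eval s ≠ 0 := by
    intro p hp
    by_contra hcon
    push Not at hcon
    exact hp (Polynomial.funext fun s => by rw [hcon, Polynomial.eval_zero])
  obtain ⟨s, hs⟩ := hex g hg0
  obtain ⟨t, ht⟩ := hex (g * (Polynomial.X - Polynomial.C s)) (mul_ne_zero hg0 (Polynomial.X_sub_C_ne_zero s))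
  rw [Polynomial.eval_mul, Polynomial.eval_sub, Polynomial.eval_X, Polynomial.eval_C] at ht
  have hts : t - s ≠ 0 := right_ne_zero_of_mul ht
  have hgt : g.eval t ≠ 0 := left_ne_zero_of_mul ht
  rw [hg, Polynomial.eval_mul, Polynomial.eval_sub, Polynomial.eval_mul, Polynomial.eval_C, Polynomial.eval_X, Polynomial.eval_C] at hs hgt
  have hs1 := left_ne_zero_of_mul hs
  have hs2 := right_ne_zero_of_mul hs
  have ht1 := left_ne_zero_of_mul hgt
  have ht2 := right_ne_zero_of_mul hgt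
  rw [hfe] at hs1 ht1
  refine ⟨!![1, 1; s, t], !![t / (t - s), -1 / (t - s); -s / (t - s), 1 / (t - s)], ?_, ?_, ?_, ?_, ?_, ?_⟩
  · ext i j
    fin_cases i <;> fin_cases j <;> simp [Matrix.mul_apply, Fin.sum_univ_two] <;> field_simp <;> ring
  · ext i j
    fin_cases i <;> fin_cases j <;> simp [Matrix.mul_apply, Fin.sum_univ_two] <;> field_simp <;> ring
  · have h1 : (!![1, 1; s, t] : Matrix (Fin 2) (Fin 2) ℂ).mulVec ![1, 0] = ![1, s] := by
      ext i
      fin_cases i <;> simp [Matrix.mulVec, dotProduct, Fin.sum_univ_two]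
    rw [h1]
    exact hs1
  · have h1 : (!![1, 1; s, t] : Matrix (Fin 2) (Fin 2) ℂ).mulVec ![0, 1] = ![1, t] := by
      ext i
      fin_cases i <;> simp [Matrix.mulVec, dotProduct, Fin.sum_univ_two]
    rw [h1]
    exact ht1
  · have h1 : (!![t / (t - s), -1 / (t - s); -s / (t - s), 1 / (t - s)] : Matrix (Fin 2) (Fin 2) ℂ).mulVec q₀ 0 = (q₀ 0 * t - q₀ 1) / (t - s) := by
      simp [Matrix.mulVec, dotProduct, Fin.sum_univ_two]
      field_simp
      ring
    rw [h1]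
    exact div_ne_zero ht2 hts
  · have h1 : (!![t / (t - s), -1 / (t - s); -s / (t - s), 1 / (t - s)] : Matrix (Fin 2) (Fin 2) ℂ).mulVec q₀ 1 = -(q₀ 0 * s - q₀ 1) / (t - s) := by
      simp [Matrix.mulVec, dotProduct, Fin.sum_univ_two]
      field_simp
      ring
    rw [h1]
    exact div_ne_zero (neg_ne_zero.2 hs2) hts

end Pool.Agent.LG
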