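import Pool.Agent.LG.Rp

/-!
# LG Va: the rational functions on the variety given by quotients of theta functions

* `nz_of_type`: `RegL` for `g = h` gives a form `B`, `B(a) ≠ 0`, so `B ∉ Q`, with `h ≠ 0` over `B ≠ 0`.
* `NZ.mul`, `NZ.prod`: the product of the forms (`Q` is prime).  `NZ.exists_point`: `exists_cone_point` and `Lft.ex`.
* `exists_val`: `RegL` at `(a, y)` gives `A`, `B`; `f = A(ξ) / B(ξ)`.  For another `(a₁, y₁)` with `h y₁ ≠ 0` `RegL` gives `A₁`, `B₁`; at all points `a'` of the cone with `B B₁ ≠ 0` (`Lft.ex` gives `y'`): `A / B = g(y') / h(y') = A₁ / B₁`, so `A B₁ - A₁ B ∈ Q`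
  (Nullstellensatz, or `eq_of_regAt` for `A(ξ) / B(ξ)`, `A₁(ξ) / B₁(ξ)`), and `f B₁(ξ) = A₁(ξ)`.
* `IsVal.eq_of_eq`: `eq_of_regAt` on the open set where both denominators are not `0`.
* `IsVal.div_eq`: `exists_val` for `Θ / Θc` (there is a point with `Θc ≠ 0`, by `hc`), and `eq_of_regAt`.
-/

set_option autoImplicit false

open MvPolynomial
open Pool.Agent.PXF (Cn form IsThetaForm)

noncomputable section

namespace Pool.Agent.LG

variable {K : Type} [Field K] [Algebra ℂ K] {N κ d : ℕ} {ξ : Fin (N + 1) → K} {Q : Ideal (MvPolynomial (Fin (N + 1)) ℂ)} {Λ : AddSubgroup (Cn (κ + 1))} {θ : Fin (d + 1) → Cn (κ + 1) → ℂ}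
  {L : (Fin (N + 1) → ℂ) → Cn (κ + 1) → Prop} {m m' : ℕ} {f f' : K} {g h g' h' : Cn (κ + 1) → ℂ}

theorem nz_of_type (hreg : RegL Q Λ θ L) (hh : IsType Λ θ m h) {a : Fin (N + 1) → ℂ} {y : Cn (κ + 1)} (ha : Cone Q a) (hy : L a y) (h0 : h y ≠ 0) : NZ Q L h := by
  obtain ⟨D, A, B, -, hB, hBa, h1⟩ := hreg m h h hh hh a y ha hy h0
  exact ⟨D, B, hB, fun hBQ => hBa (ha.2 B hBQ), fun a' y' ha' hy' hne => (h1 a' y' ha' hy' hne).1⟩

theorem NZ.one (hQ : Q.IsPrime) : NZ Q L (fun _ => 1) := by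
  exact ⟨0, 1, isHomogeneous_one _ _, fun h1 => hQ.ne_top ((Ideal.eq_top_iff_one Q).2 h1), fun _ _ _ _ _ => one_ne_zero⟩

theorem NZ.mul (hQ : Q.IsPrime) (h1 : NZ Q L h) (h2 : NZ Q L h') : NZ Q L (fun y => h y * h' y) := by
  obtain ⟨D, B, hB, hBQ, h1⟩ := h1
  obtain ⟨D', B', hB', hBQ', h2⟩ := h2
  refine ⟨D + D', B * B', hB.mul hB', fun hm => ?_, fun a y ha hy hne => ?_⟩
  · rcases hQ.mem_or_mem hm with hm | hm
    · exact hBQ hm
    · exact hBQ' hm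
  · rw [map_mul] at hne
    exact mul_ne_zero (h1 a y ha hy (left_ne_zero_of_mul hne)) (h2 a y ha hy (right_ne_zero_of_mul hne))

theorem NZ.prod (hQ : Q.IsPrime) {σ : Type} (s : Finset σ) (u : σ → Cn (κ + 1) → ℂ) (hu : ∀ i ∈ s, NZ Q L (u i)) : NZ Q L (fun y => ∏ i ∈ s, u i y) := by
  classical
  induction s using Finset.induction_on with
  | empty =>
    simp only [Finset.prod_empty]
    exact NZ.one hQ
  | insert i s hi ih =>
    simp only [Finset.prod_insert hi]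
    exact NZ.mul hQ (hu i (Finset.mem_insert_self i s)) (ih fun j hj => hu j (Finset.mem_insert_of_mem hj))

theorem NZ.mono (h1 : NZ Q L h) (h2 : ∀ y, h y ≠ 0 → h' y ≠ 0) : NZ Q L h' := by
  obtain ⟨D, B, hB, hBQ, h1⟩ := h1
  exact ⟨D, B, hB, hBQ, fun a y ha hy hne => h2 y (h1 a y ha hy hne)⟩

theorem NZ.exists_point (hQ : Q.IsPrime) (hgp : GP Q ξ) (hL : Lft Q Λ L) (h1 : NZ Q L h) : ∃ a y, Cone Q a ∧ L a y ∧ h y ≠ 0 := by
  obtain ⟨D, B, hB, hBQ, h1⟩ := h1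
  obtain ⟨a, ha, hne⟩ := exists_cone_point hQ hgp hB hBQ
  obtain ⟨y, hy⟩ := hL.ex a ha
  exact ⟨a, y, ha, hy, h1 a y ha hy hne⟩

theorem exists_val (hQ : Q.IsPrime) (hgp : GP Q ξ) (hL : Lft Q Λ L) (hreg : RegL Q Λ θ L) (hg : IsType Λ θ m g) (hh : IsType Λ θ m h) (hz : NZ Q L h) : ∃ f, IsVal Q ξ L f g h := by
  obtain ⟨a, y, ha, hy, h0⟩ := hz.exists_point hQ hgp hL
  obtain ⟨D, A, B, hA, hB, hBa, h1⟩ := hreg m g h hg hh a y ha hy h0
  have hB0 : aeval ξ B ≠ 0 := aeval_ne_zero hgp ha hB hBa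
  refine ⟨aeval ξ A / aeval ξ B, fun a₁ y₁ ha₁ hy₁ h₁ => ?_⟩
  obtain ⟨D₁, A₁, B₁, hA₁, hB₁, hBa₁, h2⟩ := hreg m g h hg hh a₁ y₁ ha₁ hy₁ h₁
  have hB0₁ : aeval ξ B₁ ≠ 0 := aeval_ne_zero hgp ha₁ hB₁ hBa₁
  have key : aeval ξ A / aeval ξ B = aeval ξ A₁ / aeval ξ B₁ := by
    refine eq_of_regAt hQ hgp (hB.mul hB₁) (fun hm => ?_) fun a' ha' hne => ?_
    · rcases hQ.mem_or_mem hm with hm | hm
      · exact hBa (ha.2 B hm)
      · exact hBa₁ (ha₁.2 B₁ hm)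
    · rw [map_mul] at hne
      have hne1 := left_ne_zero_of_mul hne
      have hne2 := right_ne_zero_of_mul hne
      obtain ⟨y', hy'⟩ := hL.ex a' ha'
      obtain ⟨h3, h4⟩ := h1 a' y' ha' hy' hne1
      obtain ⟨-, h5⟩ := h2 a' y' ha' hy' hne2
      refine ⟨g y' / h y', ⟨D, A, B, hA, hB, hne1, div_mul_cancel₀ _ hB0, ?_⟩, ⟨D₁, A₁, B₁, hA₁, hB₁, hne2, div_mul_cancel₀ _ hB0₁, ?_⟩⟩
      · field_simp
        linear_combination -h4
      · field_simp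
        linear_combination -h5
  obtain ⟨-, h6⟩ := h2 a₁ y₁ ha₁ hy₁ hBa₁
  refine ⟨D₁, A₁, B₁, hA₁, hB₁, hBa₁, ?_, ?_⟩
  · rw [key, div_mul_cancel₀ _ hB0₁]
  · field_simp
    linear_combination -h6

theorem IsVal.eq_of_eq (hQ : Q.IsPrime) (hgp : GP Q ξ) (hL : Lft Q Λ L) (hz : NZ Q L h) (hz' : NZ Q L h') (hf : IsVal Q ξ L f g h) (hf' : IsVal Q ξ L f' g' h') (he : ∀ y, h y ≠ 0 → h' y ≠ 0 → g y * h' y = g' y * h y) : f = f' := by
  obtain ⟨D, B, hB, hBQ, h1⟩ := hz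
  obtain ⟨D', B', hB', hBQ', h2⟩ := hz'
  refine eq_of_regAt hQ hgp (hB.mul hB') (fun hm => ?_) fun a ha hne => ?_
  · rcases hQ.mem_or_mem hm with hm | hm
    · exact hBQ hm
    · exact hBQ' hm
  · rw [map_mul] at hne
    obtain ⟨y, hy⟩ := hL.ex a ha
    have h3 := h1 a y ha hy (left_ne_zero_of_mul hne)
    have h4 := h2 a y ha hy (right_ne_zero_of_mul hne)
    refine ⟨g y / h y, hf a y ha hy h3, ?_⟩
    have h5 : g y / h y = g' y / h' y := by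
      rw [div_eq_div_iff h3 h4]
      exact he y h3 h4
    rw [h5]
    exact hf' a y ha hy h4

theorem IsVal.mul (hf : IsVal Q ξ L f g h) (hf' : IsVal Q ξ L f' g' h') : IsVal Q ξ L (f * f') (fun y => g y * g' y) (fun y => h y * h' y) := by
  intro a y ha hy hne
  have h1 := (hf a y ha hy (left_ne_zero_of_mul hne)).mul (hf' a y ha hy (right_ne_zero_of_mul hne))
  rwa [div_mul_div_comm] at h1

theorem IsVal.one : IsVal Q ξ L 1 h h := by
  intro a y _ _ hne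
  rw [div_self hne]
  exact RegAt.one ξ a

/-- `IsVal` at the points where the value is not `0`: `f ≠ 0` -/
theorem IsVal.ne_zero (hQ : Q.IsPrime) (hgp : GP Q ξ) (hL : Lft Q Λ L) (hf : IsVal Q ξ L f g h) (hg : NZ Q L g) (hz : NZ Q L h) : f ≠ 0 := by
  obtain ⟨a, y, ha, hy, hne⟩ := (NZ.mul hQ hg hz).exists_point hQ hgp hL
  exact (hf a y ha hy (right_ne_zero_of_mul hne)).ne_zero hgp ha (div_ne_zero (left_ne_zero_of_mul hne) (right_ne_zero_of_mul hne))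

theorem IsVal.div_eq (hQ : Q.IsPrime) (hgp : GP Q ξ) (hL : Lft Q Λ L) (hreg : RegL Q Λ θ L) {Θ Θc Θ₀ : Cn (κ + 1) → ℂ} (h1 : IsType Λ θ m Θ) (h2 : IsType Λ θ m Θc) (hz : NZ Q L Θ₀) (hc : NZ Q L Θc) {x xc : K}
    (hx : IsVal Q ξ L x Θ Θ₀) (hxc : IsVal Q ξ L xc Θc Θ₀) : IsVal Q ξ L (x / xc) Θ Θc := by
  obtain ⟨f, hf⟩ := exists_val hQ hgp hL hreg h1 h2 hc
  have key : f = x / xc := by
    obtain ⟨D, B, hB, hBQ, h3⟩ := NZ.mul hQ hz hc
    refine eq_of_regAt hQ hgp hB hBQ fun a ha hne => ?_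
    obtain ⟨y, hy⟩ := hL.ex a ha
    have h4 := h3 a y ha hy hne
    have h5 : Θ₀ y ≠ 0 := left_ne_zero_of_mul h4
    have h6 : Θc y ≠ 0 := right_ne_zero_of_mul h4
    refine ⟨Θ y / Θc y, hf a y ha hy h6, ?_⟩
    have h7 := RegAt.div hgp ha (hx a y ha hy h5) (hxc a y ha hy h5) (div_ne_zero h6 h5)
    rwa [div_div_div_cancel_right₀ h5] at h7
  rw [← key]
  exact hf

end Pool.Agent.LG
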