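import Pool.Agent.LG.Cv2
import Pool.Agent.LG.Va

/-!
# LG Cu: curves on the variety

`exists_curve` for a `Φ` which contains the `x i = ξ i / ξ j₀` (`ξ j₀ ≠ 0`), the functions `f l` and the nonzero elements `B(x)` for the given forms `B ∉ Q`; `γ t i = ev t (x i)`.
* `γ t` is in the cone: `γ t j₀ = ev t 1 = 1`, and `F(x) = 0` for `F ∈ Q` (homogeneous components and `GP.zero`).
* `B(γ t) = ev t (B(x)) ≠ 0` (the inverse is in `R`).
* values: `RegAt ξ (γ t) f c`, `f ∈ R`: `f B(x) = A(x)`; apply `ev t`.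
-/

set_option autoImplicit false

open MvPolynomial Topology Filter
open Pool.Agent.H23 (dualDer)
open Pool.Agent.PXF (Cn form IsThetaForm)

noncomputable section

namespace Pool.Agent.LG

variable {K : Type} [Field K] [Algebra ℂ K] {N n : ℕ} {ξ : Fin (N + 1) → K} {Q : Ideal (MvPolynomial (Fin (N + 1)) ℂ)}

private theorem cu_aeval_mul {F : MvPolynomial (Fin (N + 1)) ℂ} {D : ℕ} (hF : F.IsHomogeneous D) (c : K) (x : Fin (N + 1) → K) :
    aeval (fun i => c * x i) F = c ^ D * aeval x F := by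
  rw [MvPolynomial.aeval_def, MvPolynomial.aeval_def, eval₂_eq', eval₂_eq', Finset.mul_sum]
  refine Finset.sum_congr rfl fun m hm => ?_
  have hdeg : ∑ i, m i = D := by
    by_contra hne
    apply MvPolynomial.mem_support_iff.1 hm
    apply hF.coeff_eq_zero
    rwa [Finsupp.degree_eq_sum]
  have h1 : ∏ i, (c * x i) ^ m i = c ^ D * ∏ i, x i ^ m i := by
    simp_rw [mul_pow]
    rw [Finset.prod_mul_distrib, Finset.prod_pow_eq_pow_sum, hdeg]
  rw [h1]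
  ring

private theorem cu_div {j₀ : Fin (N + 1)} {F : MvPolynomial (Fin (N + 1)) ℂ} {D : ℕ} (hF : F.IsHomogeneous D) :
    aeval (fun i => ξ i / ξ j₀) F = (ξ j₀)⁻¹ ^ D * aeval ξ F := by
  rw [← cu_aeval_mul hF]
  congr 2
  funext i
  rw [div_eq_mul_inv, mul_comm]

/-- a curve on the variety: the derivation `D₀` is the derivative along `γ`; the finite set `Φ` of functions has values on `γ` -/
theorem exists_curve_on [Algebra.EssFiniteType ℂ K] (homog : ∀ F ∈ Q, ∀ m, homogeneousComponent m F ∈ Q) (hgp : GP Q ξ) {s : Fin n → K} (hs : IsTranscendenceBasis ℂ s) (b : Module.Basis (Fin n) K Ω[K⁄ℂ]) (hb : ∀ i, b i = dd (s i)) (j : Fin n)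
    (Φ : Finset K) {σ : Type} [Finite σ] (B : σ → MvPolynomial (Fin (N + 1)) ℂ) (hB : ∀ i, ∃ D, (B i).IsHomogeneous D) (hBQ : ∀ i, B i ∉ Q) :
    ∃ (R : Subalgebra ℂ K) (ev : ℂ → R →ₐ[ℂ] ℂ) (j₀ : Fin (N + 1)) (γ : ℂ → Fin (N + 1) → ℂ), IsCurve (dualDer b j) R ev ∧ (∀ f ∈ Φ, f ∈ R ∧ f⁻¹ ∈ R) ∧ ξ j₀ ≠ 0 ∧ (∀ i, ξ i / ξ j₀ ∈ R) ∧ (∀ t i (h : ξ i / ξ j₀ ∈ R), γ t i = ev t ⟨ξ i / ξ j₀, h⟩) ∧
      (∀ t, γ t j₀ = 1) ∧ (∀ t, Cone Q (γ t)) ∧ AnalyticAt ℂ γ 0 ∧ (∀ t i, eval (γ t) (B i) ≠ 0) ∧ ∀ t f c (hf : f ∈ R), RegAt ξ (γ t) f c → ev t ⟨f, hf⟩ = c := by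
  classical
  have := Fintype.ofFinite σ
  obtain ⟨j₀, hj₀⟩ : ∃ j, ξ j ≠ 0 := by
    by_contra h
    push Not at h
    exact hgp.ne (funext h)
  have hj0 : ξ j₀ ≠ 0 := by simpa using hj₀
  obtain ⟨R, ev, hC, hΦ⟩ := exists_curve hs b hb j
    (Φ ∪ Finset.univ.image (fun i => ξ i / ξ j₀) ∪ Finset.univ.image (fun i : σ => aeval (fun i => ξ i / ξ j₀) (B i)))
  have hx : ∀ i, ξ i / ξ j₀ ∈ R := fun i => (hΦ _ (by
    rw [Finset.mem_union, Finset.mem_union]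
    exact Or.inl (Or.inr (Finset.mem_image_of_mem _ (Finset.mem_univ i))))).1
  -- the values of polynomials
  have hval : ∀ (t : ℂ) (F : MvPolynomial (Fin (N + 1)) ℂ) (h : aeval (fun i => ξ i / ξ j₀) F ∈ R),
      ev t ⟨aeval (fun i => ξ i / ξ j₀) F, h⟩ = eval (fun i => ev t ⟨ξ i / ξ j₀, hx i⟩) F := by
    intro t F h
    have h1 : (⟨aeval (fun i => ξ i / ξ j₀) F, h⟩ : R) = aeval (fun i => (⟨ξ i / ξ j₀, hx i⟩ : R)) F := by
      apply Subtype.ext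
      have h2 : R.val (aeval (fun i => (⟨ξ i / ξ j₀, hx i⟩ : R)) F) = aeval (fun i => R.val (⟨ξ i / ξ j₀, hx i⟩ : R)) F :=
        MvPolynomial.comp_aeval_apply _ _ _
      exact h2.symm
    rw [h1]
    have h3 : ev t (aeval (fun i => (⟨ξ i / ξ j₀, hx i⟩ : R)) F) = aeval (fun i => ev t (⟨ξ i / ξ j₀, hx i⟩ : R)) F :=
      MvPolynomial.comp_aeval_apply _ _ _
    rw [h3]
    rfl
  have hmem : ∀ F : MvPolynomial (Fin (N + 1)) ℂ, aeval (fun i => ξ i / ξ j₀) F ∈ R := by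
    intro F
    have h1 : R.val (aeval (fun i => (⟨ξ i / ξ j₀, hx i⟩ : R)) F) = aeval (fun i => R.val (⟨ξ i / ξ j₀, hx i⟩ : R)) F :=
      MvPolynomial.comp_aeval_apply _ _ _
    have h2 : aeval (fun i => ξ i / ξ j₀) F = R.val (aeval (fun i => (⟨ξ i / ξ j₀, hx i⟩ : R)) F) := h1.symm
    rw [h2]
    exact (aeval (fun i => (⟨ξ i / ξ j₀, hx i⟩ : R)) F).2
  have hγ1 : ∀ t, ev t ⟨ξ j₀ / ξ j₀, hx j₀⟩ = 1 := by
    intro t
    have h1 : (⟨ξ j₀ / ξ j₀, hx j₀⟩ : R) = 1 := Subtype.ext (div_self hj0)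
    rw [h1, map_one]
  have hvan : ∀ F ∈ Q, aeval (fun i => ξ i / ξ j₀) F = 0 := by
    intro F hF
    rw [← MvPolynomial.sum_homogeneousComponent F, map_sum]
    refine Finset.sum_eq_zero fun m _ => ?_
    rw [cu_div (homogeneousComponent_isHomogeneous m F), (hgp.zero m _ (homogeneousComponent_isHomogeneous m F)).2 (homog F hF m), mul_zero]
  refine ⟨R, ev, j₀, fun t i => ev t ⟨ξ i / ξ j₀, hx i⟩, hC, fun f hf => hΦ f (by
    rw [Finset.mem_union, Finset.mem_union]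
    exact Or.inl (Or.inl hf)), hj0, hx, fun t i h => rfl, hγ1, ?_, ?_, ?_, ?_⟩
  · intro t
    refine ⟨fun h => ?_, fun F hF => ?_⟩
    · have h1 := congrFun h j₀
      simp only [hγ1, Pi.zero_apply] at h1
      exact one_ne_zero h1
    · rw [← hval t F (hmem F)]
      have h1 : (⟨aeval (fun i => ξ i / ξ j₀) F, hmem F⟩ : R) = 0 := Subtype.ext (hvan F hF)
      rw [h1, map_zero]
  · rw [analyticAt_pi_iff]
    intro i
    exact hC.analytic _
  · intro t i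
    have h1 := hΦ (aeval (fun i => ξ i / ξ j₀) (B i)) (by
      rw [Finset.mem_union]
      exact Or.inr (Finset.mem_image_of_mem _ (Finset.mem_univ i)))
    obtain ⟨D, hD⟩ := hB i
    have hne : aeval (fun i => ξ i / ξ j₀) (B i) ≠ 0 := by
      rw [cu_div hD]
      exact mul_ne_zero (pow_ne_zero _ (inv_ne_zero hj0)) fun h => hBQ i ((hgp.zero D _ hD).1 h)
    rw [← hval t (B i) h1.1]
    intro h0
    have h2 : (⟨aeval (fun i => ξ i / ξ j₀) (B i), h1.1⟩ : R) * ⟨(aeval (fun i => ξ i / ξ j₀) (B i))⁻¹, h1.2⟩ = 1 := Subtype.ext (mul_inv_cancel₀ hne)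
    have h3 := congrArg (ev t) h2
    rw [map_mul, h0, zero_mul, map_one] at h3
    exact zero_ne_one h3
  · intro t f c hf hR
    obtain ⟨D, A, B', hA, hB', hB0, hfA, hcA⟩ := hR
    have h1 : f * aeval (fun i => ξ i / ξ j₀) B' = aeval (fun i => ξ i / ξ j₀) A := by
      rw [cu_div hB', cu_div hA, ← hfA]
      ring
    have h2 : (⟨f, hf⟩ : R) * ⟨aeval (fun i => ξ i / ξ j₀) B', hmem B'⟩ = ⟨aeval (fun i => ξ i / ξ j₀) A, hmem A⟩ := Subtype.ext h1
    have h3 := congrArg (ev t) h2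
    rw [map_mul, hval t B' (hmem B'), hval t A (hmem A), hcA] at h3
    exact mul_right_cancel₀ hB0 h3

end Pool.Agent.LG
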