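import Pool.Agent.LG.Defs

/-!
# LG Cv1: a plane model of a function field over a rational function field

`K` is finitely generated over `ℂ`, `s` is a transcendence basis.  `K` is a finite extension of `ℂ(s)` (characteristic `0`), `K = ℂ(s)(y)` (`Field.exists_primitive_element`), and `y` can be taken integral over `ℂ[s]` (multiply with a common denominator of the minimal
polynomial).  `M ∈ ℂ[s][T]` is the monic minimal polynomial over `ℂ(s)`; its coefficients are in `ℂ[s]`, because `ℂ[s]` is integrally closed (`minpoly.isIntegrallyClosed_eq_field_fractions`).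

* `root`, `ker`: the kernel of `ℂ[s][T] → K` is generated by `M` (division by the monic `M`, and `minpoly.dvd`).
* `sep`: `M` and `M'` are relatively prime over `ℂ(s)`; multiply with a common denominator.
* `frac`: every element of `ℂ(s)[y]` is `p(s, y) / q(s)`.
-/

set_option autoImplicit false

open MvPolynomial

noncomputable section

namespace Pool.Agent.LG

section Core

variable {R F K : Type} [CommRing R] [IsDomain R] [Field F] [Algebra R F] [IsFractionRing R F]
  [Field K] [Algebra R K] [Algebra F K] [IsScalarTower R F K]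

/-- a polynomial over the field of fractions has a multiple with coefficients in `R` -/
private theorem clear (p : Polynomial F) :
    ∃ (q : R) (p' : Polynomial R), q ≠ 0 ∧ p'.map (algebraMap R F) = Polynomial.C (algebraMap R F q) * p := by
  obtain ⟨b, hb, h⟩ := IsLocalization.integerNormalization_spec (nonZeroDivisors R) p
  refine ⟨b, _, nonZeroDivisors.ne_zero hb, h.trans ?_⟩
  ext i
  rw [Polynomial.coeff_smul, Polynomial.coeff_C_mul, Algebra.smul_def]

private theorem plane_core [IsIntegrallyClosed R] [CharZero F] [Module.Finite F K] :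
    ∃ (y : K) (M : Polynomial R), M.Monic ∧ Polynomial.aeval y M = 0 ∧
      (∀ p : Polynomial R, Polynomial.aeval y p = 0 → M ∣ p) ∧
      (∃ (a b : Polynomial R) (g : R), g ≠ 0 ∧ M * a + Polynomial.derivative M * b = Polynomial.C g) ∧
      ∀ f : K, ∃ (p : Polynomial R) (q : R), q ≠ 0 ∧ f * algebraMap R K q = Polynomial.aeval y p := by
  have hinjF : Function.Injective (algebraMap R F) := IsFractionRing.injective R F
  have hinj : Function.Injective (algebraMap R K) := by
    rw [IsScalarTower.algebraMap_eq R F K]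
    exact (algebraMap F K).injective.comp hinjF
  have hfs : FaithfulSMul R K := (faithfulSMul_iff_algebraMap_injective R K).2 hinj
  have hts : Module.IsTorsionFree R K := inferInstance
  obtain ⟨α, hα⟩ := Field.exists_primitive_element F K
  have hal : IsAlgebraic R α := by
    have h1 : IsAlgebraic F α := Algebra.IsAlgebraic.isAlgebraic α
    exact (IsFractionRing.isAlgebraic_iff R F K).2 h1
  obtain ⟨r, hr, hint⟩ := hal.exists_integral_multiple
  set y : K := r • α with hy
  have hr' : algebraMap R K r ≠ 0 := fun h => hr (hinj (by rw [h, map_zero]))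
  have htop : IntermediateField.adjoin F {y} = ⊤ := by
    rw [eq_top_iff, ← hα, IntermediateField.adjoin_simple_le_iff]
    have h1 : α = y * (algebraMap F K (algebraMap R F r))⁻¹ := by
      rw [← IsScalarTower.algebraMap_apply, hy, Algebra.smul_def, mul_comm, ← mul_assoc,
        inv_mul_cancel₀ hr', one_mul]
    rw [h1]
    exact mul_mem (IntermediateField.mem_adjoin_simple_self F y)
      (inv_mem ((IntermediateField.adjoin F {y}).algebraMap_mem _))
  have hyF : IsIntegral F y := Algebra.IsIntegral.isIntegral y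
  have hmin : minpoly F y = (minpoly R y).map (algebraMap R F) :=
    minpoly.isIntegrallyClosed_eq_field_fractions' F hint
  refine ⟨y, minpoly R y, minpoly.monic hint, minpoly.aeval R y,
    fun p hp => minpoly.isIntegrallyClosed_dvd hint hp, ?_, ?_⟩
  · have hsep : (minpoly F y).Separable := (minpoly.irreducible hyF).separable
    obtain ⟨a, b, hab⟩ := hsep
    obtain ⟨q₁, a', hq₁, ha'⟩ := clear (R := R) a
    obtain ⟨q₂, b', hq₂, hb'⟩ := clear (R := R) b
    refine ⟨Polynomial.C q₂ * a', Polynomial.C q₁ * b', q₁ * q₂, mul_ne_zero hq₁ hq₂, ?_⟩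
    apply Polynomial.map_injective _ hinjF
    rw [Polynomial.map_add, Polynomial.map_mul, Polynomial.map_mul, Polynomial.map_mul, Polynomial.map_mul,
      ← Polynomial.derivative_map, ← hmin, ha', hb', Polynomial.map_C, Polynomial.map_C, Polynomial.map_C,
      map_mul, Polynomial.C_mul]
    calc minpoly F y * (Polynomial.C (algebraMap R F q₂) * (Polynomial.C (algebraMap R F q₁) * a)) +
          Polynomial.derivative (minpoly F y) *
            (Polynomial.C (algebraMap R F q₁) * (Polynomial.C (algebraMap R F q₂) * b))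
        = Polynomial.C (algebraMap R F q₁) * Polynomial.C (algebraMap R F q₂) *
            (a * minpoly F y + b * Polynomial.derivative (minpoly F y)) := by ring
      _ = Polynomial.C (algebraMap R F q₁) * Polynomial.C (algebraMap R F q₂) := by rw [hab, mul_one]
  · intro f
    have h1 : f ∈ Algebra.adjoin F {y} := by
      rw [(IntermediateField.adjoin_simple_eq_top_iff_of_isAlgebraic hyF.isAlgebraic).1 htop]
      exact Algebra.mem_top
    obtain ⟨p, rfl⟩ := Algebra.adjoin_singleton_eq_range_aeval F y ▸ h1
    obtain ⟨q, p', hq, hp'⟩ := clear (R := R) p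
    refine ⟨p', q, hq, ?_⟩
    have h2 : Polynomial.aeval y p' = Polynomial.aeval y (p'.map (algebraMap R F)) :=
      (Polynomial.aeval_map_algebraMap F y p').symm
    rw [h2, hp', map_mul, Polynomial.aeval_C, ← IsScalarTower.algebraMap_apply, mul_comm]
    rfl

end Core

variable {K : Type} [Field K] [Algebra ℂ K] {n : ℕ}

/-- the value of the polynomial `p(s, y)` -/
def pv (s : Fin n → K) (y : K) (p : Polynomial (MvPolynomial (Fin n) ℂ)) : K := p.eval₂ (aeval s : MvPolynomial (Fin n) ℂ →ₐ[ℂ] K).toRingHom y

/-- `K = ℂ(s)(y)`, and `M(s, y) = 0` is the equation of `y` -/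
structure Plane (s : Fin n → K) (y : K) (M : Polynomial (MvPolynomial (Fin n) ℂ)) : Prop where
  monic : M.Monic
  root : pv s y M = 0
  ker : ∀ p, pv s y p = 0 → M ∣ p
  sep : ∃ (a b : Polynomial (MvPolynomial (Fin n) ℂ)) (g : MvPolynomial (Fin n) ℂ), g ≠ 0 ∧ M * a + Polynomial.derivative M * b = Polynomial.C g
  frac : ∀ f : K, ∃ (p : Polynomial (MvPolynomial (Fin n) ℂ)) (q : MvPolynomial (Fin n) ℂ), q ≠ 0 ∧ f * aeval s q = pv s y p

theorem exists_plane [Algebra.EssFiniteType ℂ K] {s : Fin n → K} (hs : IsTranscendenceBasis ℂ s) : ∃ y M, Plane s y M := by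
  let _ : Algebra (MvPolynomial (Fin n) ℂ) K := (aeval s : MvPolynomial (Fin n) ℂ →ₐ[ℂ] K).toRingHom.toAlgebra
  have hmap : ∀ p, algebraMap (MvPolynomial (Fin n) ℂ) K p = aeval s p := fun p => rfl
  have hinj : Function.Injective (algebraMap (MvPolynomial (Fin n) ℂ) K) := hs.1
  have : FaithfulSMul (MvPolynomial (Fin n) ℂ) K := (faithfulSMul_iff_algebraMap_injective _ _).2 hinj
  have : IsScalarTower ℂ (MvPolynomial (Fin n) ℂ) K := IsScalarTower.of_algebraMap_eq fun c => by
    rw [hmap]
    exact (AlgHom.commutes (aeval s) c).symm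
  let _ : Algebra (FractionRing (MvPolynomial (Fin n) ℂ)) K := FractionRing.liftAlgebra _ K
  have : IsScalarTower (MvPolynomial (Fin n) ℂ) (FractionRing (MvPolynomial (Fin n) ℂ)) K :=
    FractionRing.isScalarTower_liftAlgebra _ K
  have : IsScalarTower ℂ (FractionRing (MvPolynomial (Fin n) ℂ)) K := IsScalarTower.of_algebraMap_eq fun c => by
    rw [IsScalarTower.algebraMap_apply ℂ (MvPolynomial (Fin n) ℂ) (FractionRing (MvPolynomial (Fin n) ℂ)),
      ← IsScalarTower.algebraMap_apply (MvPolynomial (Fin n) ℂ) (FractionRing (MvPolynomial (Fin n) ℂ)) K,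
      ← IsScalarTower.algebraMap_apply ℂ (MvPolynomial (Fin n) ℂ) K]
  have : Algebra.EssFiniteType (FractionRing (MvPolynomial (Fin n) ℂ)) K :=
    Algebra.EssFiniteType.of_comp ℂ (FractionRing (MvPolynomial (Fin n) ℂ)) K
  have : Algebra.IsAlgebraic (MvPolynomial (Fin n) ℂ) K := by
    refine ⟨fun x => ?_⟩
    obtain ⟨p, hp, hpx⟩ := hs.isAlgebraic.isAlgebraic x
    set e : Algebra.adjoin ℂ (Set.range s) →+* MvPolynomial (Fin n) ℂ := (hs.1.aevalEquiv.symm : _ ≃ₐ[ℂ] _).toRingEquiv.toRingHom with he
    have he1 : ∀ a, aeval s (e a) = (a : K) := fun a => by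
      have h2 := hs.1.algebraMap_aevalEquiv (hs.1.aevalEquiv.symm a)
      rw [AlgEquiv.apply_symm_apply] at h2
      exact h2.symm
    refine ⟨p.map e, ?_, ?_⟩
    · rw [Ne, Polynomial.map_eq_zero_iff (RingEquiv.injective _)]
      exact hp
    · rw [← hpx]
      simp only [Polynomial.aeval_def, Polynomial.eval₂_map]
      congr 1
      ext a
      exact he1 a
  have : Algebra.IsAlgebraic (FractionRing (MvPolynomial (Fin n) ℂ)) K :=
    (IsFractionRing.comap_isAlgebraic_iff (A := MvPolynomial (Fin n) ℂ)).1 inferInstance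
  have : Module.Finite (FractionRing (MvPolynomial (Fin n) ℂ)) K :=
    Algebra.finite_of_essFiniteType_of_isAlgebraic
  obtain ⟨y, M, h1, h2, h3, h4, h5⟩ :=
    plane_core (R := MvPolynomial (Fin n) ℂ) (F := FractionRing (MvPolynomial (Fin n) ℂ)) (K := K)
  exact ⟨y, M, h1, h2, h3, h4, h5⟩

end Pool.Agent.LG
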