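import Pool.Agent.H17LG.ModLREG
import Pool.Agent.H17LG.Defs

/-!
# LG Defs: orders of functions and forms, and the data on the function field

`K` is the function field of a variety of dimension `k + 1`.

* `wd η = η₁ ∧ … ∧ ηₙ`, `dd a = da`, `sn x y = (x₁, …, x_k, y)`.
* `IV v`: `v` is an integer valued valuation, trivial on `ℂ` (the value at `0` is junk, all statements are for nonzero elements).
* `FV v o`: in addition `o` is the order of rational top forms along the divisor.
* `Dat`: rational functions `X b` (`b ∈ ι`; the homogeneous coordinates of the map to the torus), differentials `δ i` (the forms `dz_i` of the torus), a function `w` (the map to `ℙ¹`), and the coefficients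
  `X (cf i)` of the polynomial `S.P` (the equation of the boundary), `S.F = S.P (w)`.
* `Chart S E c`: at the divisor `E` the function `X c` has the smallest order, and the `δ i` are regular combinations of the `d (X b / X c)`.  `CH S v c`: the same for an integer valued valuation.
-/

set_option autoImplicit false

open MvPolynomial
open Pool.Agent.H23 (RatForm regularForms PrimeDivisorOver fc dualDer)

noncomputable section

namespace Pool.Agent.LG

variable {K : Type} [Field K] [Algebra ℂ K] {k n : ℕ}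

/-- the differential of a function -/
abbrev dd (a : K) : Ω[K⁄ℂ] := KaehlerDifferential.D ℂ K a

/-- the exterior product of differentials -/
def wd (η : Fin n → Ω[K⁄ℂ]) : RatForm K n := exteriorPower.ιMulti K n η

/-- `x` followed by `y` -/
def sn {α : Type} (x : Fin k → α) (y : α) : Fin (k + 1) → α := Fin.snoc (α := fun _ => α) x y

/-- an integer valued valuation which is trivial on `ℂ` (the value at `0` is not used) -/
structure IV (L : Type) [Field L] [Algebra ℂ L] (v : L → ℤ) : Prop where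
  mul : ∀ {a b : L}, a ≠ 0 → b ≠ 0 → v (a * b) = v a + v b
  add : ∀ {a b : L}, a ≠ 0 → b ≠ 0 → a + b ≠ 0 → min (v a) (v b) ≤ v (a + b)
  const : ∀ c : ℂ, c ≠ 0 → v (algebraMap ℂ L c) = 0

/-- the orders of functions and of top forms along a prime divisor -/
structure FV (n : ℕ) (v : K → ℤ) (o : RatForm K n → ℤ) : Prop extends IV K v where
  smul : ∀ {c : K} {ω : RatForm K n}, c ≠ 0 → ω ≠ 0 → o (c • ω) = v c + o ω
  addf : ∀ {ω ω' : RatForm K n}, ω ≠ 0 → ω' ≠ 0 → ω + ω' ≠ 0 → min (o ω) (o ω') ≤ o (ω + ω')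
  /-- `da₁ ∧ … ∧ daₙ` divided by `a₁ … aₙ` has at most a simple pole -/
  log : ∀ a : Fin n → K, (∀ i, a i ≠ 0) → wd (fun i => dd (a i)) ≠ 0 → ∑ i, v (a i) ≤ o (wd fun i => dd (a i)) + 1
  reg : ∀ a : Fin n → K, (∀ i, a i ≠ 0 → 0 ≤ v (a i)) → wd (fun i => dd (a i)) ≠ 0 → 0 ≤ o (wd fun i => dd (a i))

/-- the data on the function field -/
structure Dat (K : Type) [Field K] [Algebra ℂ K] (ι : Type) (n D : ℕ) where
  X : ι → K
  δ : Fin n → Ω[K⁄ℂ]
  cf : Fin (D + 1) → ι
  w : K

variable {ι : Type} {D : ℕ}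

/-- the equation of the boundary, as a polynomial -/
def Dat.P (S : Dat K ι n D) : Polynomial K := ∑ i : Fin (D + 1), Polynomial.C (S.X (S.cf i)) * Polynomial.X ^ (i : ℕ)

/-- the equation of the boundary -/
def Dat.F (S : Dat K ι n D) : K := ∑ i : Fin (D + 1), S.X (S.cf i) * S.w ^ (i : ℕ)

/-- the equation of the boundary in the chart `c` -/
def Dat.Q (S : Dat K ι n D) (c : ι) : Polynomial K := ∑ i : Fin (D + 1), Polynomial.C (S.X (S.cf i) / S.X c) * Polynomial.X ^ (i : ℕ)

/-- the chart given by `X c` is a chart at the divisor `E` -/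
structure Dat.Chart [Fintype ι] (S : Dat K ι n D) (E : PrimeDivisorOver K k) (c : ι) : Prop where
  ne : S.X c ≠ 0
  le : ∀ b, E.ord (S.X c) ≤ E.ord (S.X b)
  mat : ∃ M : Fin n → ι → K, (∀ i b, 0 ≤ E.ord (M i b)) ∧ ∀ i, S.δ i = ∑ b, M i b • dd (S.X b / S.X c)

/-- the same for an integer valued valuation -/
structure CH [Fintype ι] (S : Dat K ι n D) (v : K → ℤ) (c : ι) : Prop where
  ne : S.X c ≠ 0
  le : ∀ b, S.X b ≠ 0 → v (S.X c) ≤ v (S.X b)
  mat : ∃ M : Fin n → ι → K, (∀ i b, M i b ≠ 0 → 0 ≤ v (M i b)) ∧ ∀ i, S.δ i = ∑ b, M i b • dd (S.X b / S.X c)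

/-- the properties of the data; `B E`: the centre of `E` is in the boundary -/
structure Dat.Good [Fintype ι] (S : Dat K ι n D) (B : PrimeDivisorOver K k → Prop) : Prop where
  chart : ∀ E : PrimeDivisorOver K k, ∃ c, S.Chart E c
  off : ∀ E : PrimeDivisorOver K k, ¬ B E → ∀ c, S.Chart E c → E.ord S.F = E.ord (S.X c) + D • min 0 (E.ord S.w)
  one : ∃ a, S.X a = 1
  w_ne : S.w ≠ 0
  F_ne : S.F ≠ 0
  alg : Algebra.IsAlgebraic (IntermediateField.adjoin ℂ (insert S.w (Set.range S.X))) K
  span : ∀ a, dd (S.X a) ∈ Submodule.span K (Set.range S.δ)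

/-- the estimates: `f₀ ω^m₀` has (with a positive amount of room) at most logarithmic poles, and it is regular where the boundary equation is a unit -/
structure Bd [Fintype ι] (S : Dat K ι n D) (f₀ : K) (m₀ : ℕ) (ω : RatForm K (k + 1)) (N : ℤ) : Prop where
  le : ∀ (v : K → ℤ) (o : RatForm K (k + 1) → ℤ), FV (k + 1) v o → (∃ t, t ≠ 0 ∧ v t = 1) → ∀ c, CH S v c →
    v S.F - v (S.X c) - D * min 0 (v S.w) ≤ N * (v f₀ + m₀ * (o ω + 1))
  nn : ∀ (v : K → ℤ) (o : RatForm K (k + 1) → ℤ), FV (k + 1) v o → (∃ t, t ≠ 0 ∧ v t = 1) → ∀ c, CH S v c →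
    v S.F = v (S.X c) + D * min 0 (v S.w) → 0 ≤ v f₀ + m₀ * o ω

/-- the polynomial of the boundary has at least three roots, none of them `0` or `∞` -/
structure Dat.Three (S : Dat K ι n D) : Prop where
  deg : S.P.natDegree = D
  zero : S.P.coeff 0 ≠ 0
  three : 3 ≤ (S.P.rootSet S.P.SplittingField).ncard

/-- `∏ (1 / (w - e) - 1 / (w - e'))` over the ordered pairs of different roots `e`, `e'` of `S.P` in `K'` -/
def Dat.pr (S : Dat K ι n D) (K' : Type) [Field K'] [Algebra K K'] : K' :=
  open Classical in ∏ p ∈ ((S.P.map (algebraMap K K')).roots.toFinset).offDiag, ((algebraMap K K' S.w - p.1)⁻¹ - (algebraMap K K' S.w - p.2)⁻¹)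

/-- the number of the ordered pairs of different roots -/
def Dat.m0 (S : Dat K ι n D) : ℕ := (S.P.rootSet S.P.SplittingField).ncard * ((S.P.rootSet S.P.SplittingField).ncard - 1)

/-- the element of `K` given by `S.pr` -/
def Dat.IsF0 (S : Dat K ι n D) (f₀ : K) : Prop :=
  ∀ (K' : Type) [Field K'] [Algebra K K'], (S.P.map (algebraMap K K')).Splits → algebraMap K K' f₀ = S.pr K'

/-- the data with `1 / w` for `w` -/
def Dat.rev (S : Dat K ι n D) : Dat K ι n D := ⟨S.X, S.δ, fun i => S.cf i.rev, S.w⁻¹⟩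

end Pool.Agent.LG
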