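import Pool.Agent.LG.GD
import Pool.Agent.LG.G4a

/-!
# LG Ty: theta functions of type `m`

`IsType Λ θ m g`: `g` is entire and `g(y + l) θ_i(y)^m = θ_i(y + l)^m g(y)` for all `l ∈ Λ`, `i`.

* `zero`, `add`, `mul`, `smul`, `pow`, `sum`, `prod`: formal.
* `of_theta`: `θ i (y + l) = e θ i y` with the same `e` for all `i` (`IsThetaForm.quasiPeriodic`).
* `of_poly`: homogeneous polynomials of degree `m` in the `θ i`.
* `wr`: `wr g h i = g ∂_i h - h ∂_i g` has type `2m`: if `θ_i(y) ≠ 0`, put `e = θ_i(· + l) / θ_i` near `y`; `g(· + l) = e^m g`, `h(· + l) = e^m h` near `y`, and `wr (e^m g) (e^m h) = e^(2m) wr g h`.  If `θ_i(y) = 0` then `θ_i(y + l) = 0`, and for `m ≥ 1`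
  both sides are `0`; for `m = 0` the functions `g`, `h` are periodic.
* `wr_add_lattice`: with the common factor `e` at `y` (of `IsThetaForm.quasiPeriodic`) and some `θ_i ≢ 0`; here it is enough to have the following form: if `Θ`, `Θ' b` have type `3` and some `θ_i ≢ 0`, then for `l ∈ Λ` the conditions `Θ y ≠ 0 ∧ det (wr Θ (Θ' j) i y) ≠ 0` at `y` and
  at `y + l` are equivalent (`Θ(y + l) = E(y) Θ(y)` with an entire function `E` without zeros; take `LG.factor` if it is easier, see `Fa1`).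
-/

set_option autoImplicit false

open MvPolynomial Filter Topology
open Pool.Agent.PXF (Cn form IsThetaForm)

noncomputable section

namespace Pool.Agent.LG

variable {κ d : ℕ} {Λ : AddSubgroup (Cn (κ + 1))} {θ : Fin (d + 1) → Cn (κ + 1) → ℂ} {m m' : ℕ} {g h : Cn (κ + 1) → ℂ}

private theorem ty_pd_diff {f : Cn (κ + 1) → ℂ} (hf : Differentiable ℂ f) (i : Fin (κ + 1)) : Differentiable ℂ (pd f i) := by
  intro y
  have h1 : AnalyticAt ℂ (fderiv ℂ f) y := (an_of_diff hf y).fderiv
  exact (h1.differentiableAt.clm_apply (differentiableAt_const _) : _)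

private theorem ty_pd_mul {f f' : Cn (κ + 1) → ℂ} (hf : Differentiable ℂ f) (hf' : Differentiable ℂ f') (i : Fin (κ + 1)) (y : Cn (κ + 1)) :
    pd (fun z => f z * f' z) i y = f y * pd f' i y + f' y * pd f i y := by
  unfold pd
  rw [fderiv_fun_mul (hf y) (hf' y)]
  rfl

private theorem ty_pd_shift {f : Cn (κ + 1) → ℂ} (i : Fin (κ + 1)) (l y : Cn (κ + 1)) :
    pd (fun z => f (z + l)) i y = pd f i (y + l) := by
  unfold pd
  rw [fderiv_comp_add_right]

theorem IsType.zero : IsType Λ θ m (fun _ => 0) :=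
  ⟨differentiable_const _, fun l _ y i => by ring⟩

theorem IsType.add (hg : IsType Λ θ m g) (hh : IsType Λ θ m h) : IsType Λ θ m (fun y => g y + h y) :=
  ⟨hg.1.add hh.1, fun l hl y i => by linear_combination hg.2 l hl y i + hh.2 l hl y i⟩

theorem IsType.sub (hg : IsType Λ θ m g) (hh : IsType Λ θ m h) : IsType Λ θ m (fun y => g y - h y) :=
  ⟨hg.1.sub hh.1, fun l hl y i => by linear_combination hg.2 l hl y i - hh.2 l hl y i⟩

theorem IsType.smul (c : ℂ) (hg : IsType Λ θ m g) : IsType Λ θ m (fun y => c * g y) :=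
  ⟨hg.1.const_mul c, fun l hl y i => by linear_combination c * hg.2 l hl y i⟩

theorem IsType.mul (hg : IsType Λ θ m g) (hh : IsType Λ θ m' h) : IsType Λ θ (m + m') (fun y => g y * h y) := by
  refine ⟨hg.1.mul hh.1, fun l hl y i => ?_⟩
  have h1 := hg.2 l hl y i
  have h2 := hh.2 l hl y i
  calc g (y + l) * h (y + l) * θ i y ^ (m + m') = (g (y + l) * θ i y ^ m) * (h (y + l) * θ i y ^ m') := by ring
    _ = (θ i (y + l) ^ m * g y) * (θ i (y + l) ^ m' * h y) := by rw [h1, h2]
    _ = θ i (y + l) ^ (m + m') * (g y * h y) := by ring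

theorem IsType.pow (hg : IsType Λ θ m g) (r : ℕ) : IsType Λ θ (r * m) (fun y => g y ^ r) := by
  refine ⟨hg.1.pow r, fun l hl y i => ?_⟩
  have h1 := hg.2 l hl y i
  calc g (y + l) ^ r * θ i y ^ (r * m) = (g (y + l) * θ i y ^ m) ^ r := by rw [mul_pow, ← pow_mul, mul_comm r m]
    _ = (θ i (y + l) ^ m * g y) ^ r := by rw [h1]
    _ = θ i (y + l) ^ (r * m) * g y ^ r := by rw [mul_pow, ← pow_mul, mul_comm r m]

theorem IsType.sum {σ : Type} (s : Finset σ) (u : σ → Cn (κ + 1) → ℂ) (hu : ∀ i ∈ s, IsType Λ θ m (u i)) : IsType Λ θ m (fun y => ∑ i ∈ s, u i y) := by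
  refine ⟨Differentiable.fun_sum fun i hi => (hu i hi).1, fun l hl y i => ?_⟩
  show (∑ j ∈ s, u j (y + l)) * θ i y ^ m = θ i (y + l) ^ m * ∑ j ∈ s, u j y
  rw [Finset.sum_mul, Finset.mul_sum]
  exact Finset.sum_congr rfl fun j hj => (hu j hj).2 l hl y i

theorem IsType.prod {σ : Type} (s : Finset σ) (u : σ → Cn (κ + 1) → ℂ) (hu : ∀ i ∈ s, IsType Λ θ m (u i)) : IsType Λ θ (s.card * m) (fun y => ∏ i ∈ s, u i y) := by
  classical
  induction s using Finset.induction_on with
  | empty =>
    refine ⟨by simp, fun l _ y i => by simp⟩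
  | insert a s ha ih =>
    have h1 := (hu a (Finset.mem_insert_self a s)).mul (ih fun i hi => hu i (Finset.mem_insert_of_mem hi))
    rw [Finset.card_insert_of_notMem ha, show (s.card + 1) * m = m + s.card * m by ring]
    have h2 : (fun y => ∏ i ∈ insert a s, u i y) = fun y => u a y * ∏ i ∈ s, u i y := by
      funext y
      rw [Finset.prod_insert ha]
    rw [h2]
    exact h1

theorem IsType.of_theta (hθ : IsThetaForm Λ θ) (i : Fin (d + 1)) : IsType Λ θ 1 (θ i) := by
  refine ⟨hθ.holomorphic i, fun l hl y j => ?_⟩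
  obtain ⟨r, W, -, hW⟩ := hθ.quasiPeriodic
  obtain ⟨e, -, he⟩ := hW l hl y
  rw [he i, he j]
  ring

theorem IsType.of_poly (hθ : IsThetaForm Λ θ) {p : MvPolynomial (Fin (d + 1)) ℂ} (hp : p.IsHomogeneous m) : IsType Λ θ m (fun y => eval (fun i => θ i y) p) := by
  have h1 : (fun y => eval (fun i => θ i y) p) = fun y => ∑ n ∈ p.support, coeff n p * ∏ i, θ i y ^ n i := by
    funext y
    rw [eval_eq']
  rw [h1]
  refine IsType.sum _ _ fun n hn => IsType.smul _ ?_
  have hdeg : ∑ i, n i = m := by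
    have h2 := hp (mem_support_iff.1 hn)
    rw [← h2, Finsupp.weight_apply, Finsupp.sum_fintype _ _ (fun _ => by simp)]
    exact Finset.sum_congr rfl fun i _ => by simp
  have h3 : ∀ s : Finset (Fin (d + 1)), IsType Λ θ (∑ i ∈ s, n i) (fun y => ∏ i ∈ s, θ i y ^ n i) := by
    classical
    intro s
    induction s using Finset.induction_on with
    | empty => exact ⟨by simp, fun l _ y i => by simp⟩
    | insert a s ha ih =>
      have h4 := ((IsType.of_theta hθ a).pow (n a)).mul ih
      rw [Finset.sum_insert ha]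
      have h5 : (fun y => ∏ i ∈ insert a s, θ i y ^ n i) = fun y => θ a y ^ n a * ∏ i ∈ s, θ i y ^ n i := by
        funext y
        rw [Finset.prod_insert ha]
      rw [h5]
      simpa using h4
  have h6 := h3 Finset.univ
  rw [hdeg] at h6
  exact h6

theorem IsType.wr (hθ : IsThetaForm Λ θ) (hg : IsType Λ θ m g) (hh : IsType Λ θ m h) (i : Fin (κ + 1)) : IsType Λ θ (2 * m) (wr g h i) := by
  refine ⟨(hg.1.mul (ty_pd_diff hh.1 i)).sub (hh.1.mul (ty_pd_diff hg.1 i)), fun l hl y i₀ => ?_⟩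
  have hsh : ∀ {f : Cn (κ + 1) → ℂ}, Differentiable ℂ f → Differentiable ℂ fun z => f (z + l) := fun hf =>
    hf.comp (differentiable_id.add_const l)
  have hth := hθ.holomorphic i₀
  -- the derivative of the functional equation
  have key : ∀ {f : Cn (κ + 1) → ℂ}, IsType Λ θ m f →
      f (y + l) * pd (fun z => θ i₀ z ^ m) i y + θ i₀ y ^ m * pd f i (y + l) =
        θ i₀ (y + l) ^ m * pd f i y + f y * pd (fun z => θ i₀ (z + l) ^ m) i y := by
    intro f hf
    have h1 : (fun z => f (z + l) * θ i₀ z ^ m) = fun z => θ i₀ (z + l) ^ m * f z := by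
      funext z
      exact hf.2 l hl z i₀
    have h2 := ty_pd_mul (hsh hf.1) (hth.pow m) i y
    have h3 := ty_pd_mul ((hsh hth).pow m) hf.1 i y
    rw [ty_pd_shift] at h2
    have h4 : pd (fun z => f (z + l) * θ i₀ z ^ m) i y = pd (fun z => θ i₀ (z + l) ^ m * f z) i y := by rw [h1]
    have h5 : f (y + l) * pd (fun z => θ i₀ z ^ m) i y + θ i₀ y ^ m * pd f i (y + l) =
        θ i₀ (y + l) ^ m * pd f i y + f y * pd (fun z => θ i₀ (z + l) ^ m) i y := h2.symm.trans (h4.trans h3)
    exact h5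
  have kg := key hg
  have kh := key hh
  have eg := hg.2 l hl y i₀
  have eh := hh.2 l hl y i₀
  set P := pd (fun z => θ i₀ z ^ m) i y with hP
  set Q := pd (fun z => θ i₀ (z + l) ^ m) i y
  set a := θ i₀ y ^ m with ha
  set b := θ i₀ (y + l) ^ m with hb
  -- the remaining term
  have hrem : b * P * (h y * g (y + l) - g y * h (y + l)) = 0 := by
    rcases Nat.eq_zero_or_pos m with hm | hm
    · have : P = 0 := by
        rw [hP, hm]
        unfold pd
        simp
      rw [this]
      ring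
    · by_cases h0 : θ i₀ y = 0
      · obtain ⟨r, W, -, hW⟩ := hθ.quasiPeriodic
        obtain ⟨e, -, he⟩ := hW l hl y
        have hb0 : b = 0 := by
          rw [hb, he i₀, h0, mul_zero, zero_pow hm.ne']
        rw [hb0]
        ring
      · have ha0 : a ≠ 0 := pow_ne_zero _ h0
        have h6 : a * (h y * g (y + l) - g y * h (y + l)) = 0 := by
          linear_combination h y * eg - g y * eh
        rcases mul_eq_zero.1 h6 with h7 | h7
        · exact absurd h7 ha0
        · rw [h7, mul_zero]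
  show (g (y + l) * pd h i (y + l) - h (y + l) * pd g i (y + l)) * θ i₀ y ^ (2 * m) =
    θ i₀ (y + l) ^ (2 * m) * (g y * pd h i y - h y * pd g i y)
  have h8 : θ i₀ y ^ (2 * m) = a * a := by rw [ha]; ring
  have h9 : θ i₀ (y + l) ^ (2 * m) = b * b := by rw [hb]; ring
  rw [h8, h9]
  linear_combination (a * pd h i (y + l)) * eg - (a * pd g i (y + l)) * eh + (b * g y) * kh - (b * h y) * kg + hrem

/-- determinants of matrices of functions of the same type -/
theorem IsType.det {r : ℕ} (A : Fin r → Fin r → Cn (κ + 1) → ℂ) (hA : ∀ i j, IsType Λ θ m (A i j)) : IsType Λ θ (r * m) (fun y => (Matrix.of fun i j => A i j y).det) := by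
  have h1 : (fun y => (Matrix.of fun i j => A i j y).det) = fun y => ∑ σ : Equiv.Perm (Fin r), ((Equiv.Perm.sign σ : ℤ) : ℂ) * ∏ i, A (σ i) i y := by
    funext y
    rw [Matrix.det_apply']
    rfl
  rw [h1]
  refine IsType.sum _ _ fun σ _ => IsType.smul _ ?_
  have h2 := IsType.prod (Finset.univ : Finset (Fin r)) (fun i => A (σ i) i) (fun i _ => hA (σ i) i)
  rwa [Finset.card_univ, Fintype.card_fin] at h2

/-- minors -/
theorem IsType.adjugate {r : ℕ} (A : Fin (r + 1) → Fin (r + 1) → Cn (κ + 1) → ℂ) (hA : ∀ i j, IsType Λ θ m (A i j)) (i j : Fin (r + 1)) : IsType Λ θ (r * m) (fun y => (Matrix.of fun i j => A i j y).adjugate i j) := by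
  have h1 : (fun y => (Matrix.of fun i j => A i j y).adjugate i j) =
      fun y => (-1) ^ ((j : ℕ) + (i : ℕ)) * (Matrix.of fun i' j' => A (j.succAbove i') (i.succAbove j') y).det := by
    funext y
    rw [Matrix.adjugate_fin_succ_eq_det_submatrix]
    rfl
  rw [h1]
  exact IsType.smul _ (IsType.det (fun i' j' => A (j.succAbove i') (i.succAbove j')) fun i' j' => hA _ _)

end Pool.Agent.LG
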