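import Pool.Agent.LG.Id
import Pool.Agent.LG.Ty

/-!
# LG Dl: the invariant differentials of the torus

`Θ b`, `b ∈ ι`, is a family (`Fam`), `X b` is the pull-back of `Θ b / Θ b₀`.  For a chart `(c, b)` (`Θ c y ≠ 0`, `det A ≠ 0`, `A_(ij) = wr (Θ c) (Θ (b j)) i`) at a point `(a, y)` put `M_(k, j) = ` the pull-back of `Θ_c² adj(A)_(jk) / det A` (both of type `6 n`, `n = κ + 1`; `exists_val`; `RegAt` at `a`).
On `ℂ^n`: `∂_i (Θ_(b j) / Θ_c) = A_(ij) / Θ_c²`, so `∑_j M_(k,j) ∂_i (Θ_(b j) / Θ_c) = ∑_j A_(ij) adj(A)_(jk) / det A = δ_(ik)`.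
* `δ k = ∑_j M_(k,j) d(X_(b j) / X_c)` for one chart (at one point of the cone).  For another chart the sum is the same: `dd_identity` with the terms of both sums (the second ones with the sign `-`; `X_b / X_c` is the pull-back of `Θ_b / Θ_c`: `IsVal.div_eq`).
* `M` as a function on `ι`: `M k b' = ∑_(j, b j = b') M_(k,j)`.
* `span`: `d (X a) = ∑_i (wr (Θ b₀) (Θ a) i / Θ_(b₀)²) δ i`, by `dd_identity`: on `ℂ^n` `∂_m (Θ_a / Θ_(b₀)) - ∑_i (wr …_i / Θ_(b₀)²) ∑_j M_(i,j) ∂_m (Θ_(b j) / Θ_c) = 0`.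
-/

set_option autoImplicit false

open MvPolynomial Topology Filter
open Pool.Agent.PXF (Cn form IsThetaForm)

noncomputable section

namespace Pool.Agent.LG

variable {K : Type} [Field K] [Algebra ℂ K] {N κ d n : ℕ} {ξ : Fin (N + 1) → K} {Q : Ideal (MvPolynomial (Fin (N + 1)) ℂ)} {Λ : AddSubgroup (Cn (κ + 1))} {θ : Fin (d + 1) → Cn (κ + 1) → ℂ}
  {L : (Fin (N + 1) → ℂ) → Cn (κ + 1) → Prop}

/-! ### Charts -/

/-- the Jacobian matrix of a chart, up to a factor -/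
def chA {ι : Type} (Θ : ι → Cn (κ + 1) → ℂ) (c : ι) (b : Fin (κ + 1) → ι) (y : Cn (κ + 1)) : Matrix (Fin (κ + 1)) (Fin (κ + 1)) ℂ :=
  Matrix.of fun i j => wr (Θ c) (Θ (b j)) i y

/-- the numerator of the inverse of the Jacobian matrix -/
def chN {ι : Type} (Θ : ι → Cn (κ + 1) → ℂ) (c : ι) (b : Fin (κ + 1) → ι) (k j : Fin (κ + 1)) (y : Cn (κ + 1)) : ℂ :=
  Θ c y ^ 2 * (chA Θ c b y).adjugate j k

/-- `(c, b)` is a chart at some point, and `M` are the coefficients -/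
structure Cht (Q : Ideal (MvPolynomial (Fin (N + 1)) ℂ)) (ξ : Fin (N + 1) → K) (L : (Fin (N + 1) → ℂ) → Cn (κ + 1) → Prop) {ι : Type} (Θ : ι → Cn (κ + 1) → ℂ) (c : ι) (b : Fin (κ + 1) → ι)
    (M : Fin (κ + 1) → Fin (κ + 1) → K) : Prop where
  nzc : NZ Q L (Θ c)
  nzd : NZ Q L (fun y => (chA Θ c b y).det)
  val : ∀ k j, IsVal Q ξ L (M k j) (chN Θ c b k j) (fun y => (chA Θ c b y).det)

theorem type_det {ι : Type} {Θ : ι → Cn (κ + 1) → ℂ} (hθ : IsThetaForm Λ θ) (hfam : Fam Λ θ Θ) (c : ι) (b : Fin (κ + 1) → ι) :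
    IsType Λ θ ((κ + 1) * (2 * 3)) (fun y => (chA Θ c b y).det) :=
  IsType.det (fun i j => wr (Θ c) (Θ (b j)) i) fun i j => IsType.wr hθ (hfam.type c) (hfam.type (b j)) i

theorem type_num {ι : Type} {Θ : ι → Cn (κ + 1) → ℂ} (hθ : IsThetaForm Λ θ) (hfam : Fam Λ θ Θ) (c : ι) (b : Fin (κ + 1) → ι) (k j : Fin (κ + 1)) :
    IsType Λ θ ((κ + 1) * (2 * 3)) (chN Θ c b k j) := by
  have h := ((hfam.type c).pow 2).mul
    (IsType.adjugate (fun i j => wr (Θ c) (Θ (b j)) i) (fun i j => IsType.wr hθ (hfam.type c) (hfam.type (b j)) i) j k)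
  have e : 2 * 3 + κ * (2 * 3) = (κ + 1) * (2 * 3) := by ring
  rw [e] at h
  exact h

theorem exists_cht (hθ : IsThetaForm Λ θ) (hQ : Q.IsPrime) (hgp : GP Q ξ) (hL : Lft Q Λ L) (hreg : RegL Q Λ θ L)
    {ι : Type} {Θ : ι → Cn (κ + 1) → ℂ} (hfam : Fam Λ θ Θ) {a : Fin (N + 1) → ℂ} {y : Cn (κ + 1)} (ha : Cone Q a) (hy : L a y) {c : ι} {b : Fin (κ + 1) → ι}
    (hc : Θ c y ≠ 0) (hd : (chA Θ c b y).det ≠ 0) : ∃ M : Fin (κ + 1) → Fin (κ + 1) → K, Cht Q ξ L Θ c b M := by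
  have h1 := nz_of_type hreg (hfam.type c) ha hy hc
  have h2 := nz_of_type hreg (type_det hθ hfam c b) ha hy hd
  have h3 : ∀ k j, ∃ f, IsVal Q ξ L f (chN Θ c b k j) (fun y => (chA Θ c b y).det) := fun k j =>
    exists_val hQ hgp hL hreg (type_num hθ hfam c b k j) (type_det hθ hfam c b) h2
  choose M hM using h3
  exact ⟨M, h1, h2, hM⟩

/-- On the torus the matrix of a chart is the inverse of the Jacobian matrix. -/
theorem cht_sum {ι : Type} (Θ : ι → Cn (κ + 1) → ℂ) (c : ι) (b : Fin (κ + 1) → ι) {y : Cn (κ + 1)} (hc : Θ c y ≠ 0) (hd : (chA Θ c b y).det ≠ 0) (i k : Fin (κ + 1)) :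
    ∑ j, chN Θ c b k j y / (chA Θ c b y).det * (wr (Θ c) (Θ (b j)) i y / Θ c y ^ 2) = if i = k then 1 else 0 := by
  have h1 : (chA Θ c b y * (chA Θ c b y).adjugate) i k = (chA Θ c b y).det * (if i = k then 1 else 0) := by
    rw [Matrix.mul_adjugate, Matrix.smul_apply, Matrix.one_apply, smul_eq_mul]
  rw [Matrix.mul_apply] at h1
  have h2 : ∀ j, chN Θ c b k j y / (chA Θ c b y).det * (wr (Θ c) (Θ (b j)) i y / Θ c y ^ 2) =
      chA Θ c b y i j * (chA Θ c b y).adjugate j k / (chA Θ c b y).det := by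
    intro j
    have e : chA Θ c b y i j = wr (Θ c) (Θ (b j)) i y := rfl
    rw [e]
    unfold chN
    field_simp
  rw [Finset.sum_congr rfl fun j _ => h2 j, ← Finset.sum_div, h1, mul_div_cancel_left₀ _ hd]

theorem IsVal.neg {f : K} {g h : Cn (κ + 1) → ℂ} (hf : IsVal Q ξ L f g h) : IsVal Q ξ L (-f) (fun y => -g y) h := by
  intro a y ha hy hne
  have h1 := (hf a y ha hy hne).neg
  rwa [← neg_div] at h1

/-- The differentials of two charts are the same. -/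
theorem cht_eq [Algebra.EssFiniteType ℂ K] {z : Fin n → K} (hz : IsTranscendenceBasis ℂ z) (hQ : Q.IsPrime) (homog : ∀ F ∈ Q, ∀ m, homogeneousComponent m F ∈ Q) (hgp : GP Q ξ) (hL : Lft Q Λ L) (hreg : RegL Q Λ θ L)
    {ι : Type} {Θ : ι → Cn (κ + 1) → ℂ} (hfam : Fam Λ θ Θ) {b₀ : ι} (h0 : NZ Q L (Θ b₀)) (X : ι → K) (hX : ∀ b, IsVal Q ξ L (X b) (Θ b) (Θ b₀))
    {c c' : ι} {b b' : Fin (κ + 1) → ι} {M M' : Fin (κ + 1) → Fin (κ + 1) → K} (h : Cht Q ξ L Θ c b M) (h' : Cht Q ξ L Θ c' b' M') (k : Fin (κ + 1)) :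
    ∑ j, M k j • dd (X (b j) / X c) = ∑ j, M' k j • dd (X (b' j) / X c') := by
  have hdiv : ∀ {e : ι}, NZ Q L (Θ e) → ∀ f, IsVal Q ξ L (X f / X e) (Θ f) (Θ e) := fun {e} he f =>
    IsVal.div_eq hQ hgp hL hreg (hfam.type f) (hfam.type e) h0 he (hX f) (hX e)
  have key := dd_identity hz homog hgp hL (σ := Fin (κ + 1) ⊕ Fin (κ + 1))
    (Sum.elim (fun j => M k j) (fun j => -M' k j))
    (Sum.elim (fun j => X (b j) / X c) (fun j => X (b' j) / X c'))
    (Sum.elim (fun j => chN Θ c b k j) (fun j y => -chN Θ c' b' k j y))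
    (Sum.elim (fun _ y => (chA Θ c b y).det) (fun _ y => (chA Θ c' b' y).det))
    (Sum.elim (fun j => Θ (b j)) (fun j => Θ (b' j)))
    (Sum.elim (fun _ => Θ c) (fun _ => Θ c'))
    (by
      rintro (j | j)
      · exact h.val k j
      · exact (h'.val k j).neg)
    (by
      rintro (j | j)
      · exact hdiv h.nzc (b j)
      · exact hdiv h'.nzc (b' j))
    (by
      rintro (j | j)
      · exact h.nzd
      · exact h'.nzd)
    (by
      rintro (j | j)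
      · exact h.nzc
      · exact h'.nzc)
    (by
      rintro (j | j)
      · exact (hfam.type (b j)).1
      · exact (hfam.type (b' j)).1)
    (by
      rintro (j | j)
      · exact (hfam.type c).1
      · exact (hfam.type c').1)
    (by
      intro y hh hH i
      rw [Fintype.sum_sum_type]
      simp only [Sum.elim_inl, Sum.elim_inr]
      have e1 := cht_sum Θ c b (hH (Sum.inl 0)) (hh (Sum.inl 0)) i k
      have e2 := cht_sum Θ c' b' (hH (Sum.inr 0)) (hh (Sum.inr 0)) i k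
      have e3 : ∀ j, -chN Θ c' b' k j y / (chA Θ c' b' y).det * (wr (Θ c') (Θ (b' j)) i y / Θ c' y ^ 2) =
          -(chN Θ c' b' k j y / (chA Θ c' b' y).det * (wr (Θ c') (Θ (b' j)) i y / Θ c' y ^ 2)) := by
        intro j
        ring
      rw [Finset.sum_congr rfl fun j _ => e3 j, Finset.sum_neg_distrib, e1, e2]
      ring)
  rw [Fintype.sum_sum_type] at key
  simp only [Sum.elim_inl, Sum.elim_inr, neg_smul, Finset.sum_neg_distrib] at key
  exact add_neg_eq_zero.1 key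

/-- The differentials of the functions `X a`. -/
theorem cht_span [Algebra.EssFiniteType ℂ K] {z : Fin n → K} (hz : IsTranscendenceBasis ℂ z) (hθ : IsThetaForm Λ θ) (hQ : Q.IsPrime) (homog : ∀ F ∈ Q, ∀ m, homogeneousComponent m F ∈ Q) (hgp : GP Q ξ) (hL : Lft Q Λ L) (hreg : RegL Q Λ θ L)
    {ι : Type} {Θ : ι → Cn (κ + 1) → ℂ} (hfam : Fam Λ θ Θ) {b₀ : ι} (h0 : NZ Q L (Θ b₀)) (X : ι → K) (hX : ∀ b, IsVal Q ξ L (X b) (Θ b) (Θ b₀))
    {c : ι} {b : Fin (κ + 1) → ι} {M : Fin (κ + 1) → Fin (κ + 1) → K} (h : Cht Q ξ L Θ c b M) (a : ι) :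
    ∃ W : Fin (κ + 1) → K, dd (X a) = ∑ i, W i • ∑ j, M i j • dd (X (b j) / X c) := by
  have hdiv : ∀ {e : ι}, NZ Q L (Θ e) → ∀ f, IsVal Q ξ L (X f / X e) (Θ f) (Θ e) := fun {e} he f =>
    IsVal.div_eq hQ hgp hL hreg (hfam.type f) (hfam.type e) h0 he (hX f) (hX e)
  have h02 : NZ Q L (fun y => Θ b₀ y ^ 2) := (h0.mul hQ h0).mono fun y hy => by rwa [sq]
  have hW : ∀ i, ∃ f, IsVal Q ξ L f (wr (Θ b₀) (Θ a) i) (fun y => Θ b₀ y ^ 2) := fun i =>
    exists_val hQ hgp hL hreg (IsType.wr hθ (hfam.type b₀) (hfam.type a) i) ((hfam.type b₀).pow 2) h02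
  choose W hW using hW
  refine ⟨W, ?_⟩
  have key := dd_identity hz homog hgp hL (σ := Unit ⊕ (Fin (κ + 1) × Fin (κ + 1)))
    (Sum.elim (fun _ => -1) (fun p => W p.1 * M p.1 p.2))
    (Sum.elim (fun _ => X a) (fun p => X (b p.2) / X c))
    (Sum.elim (fun _ _ => -1) (fun p y => wr (Θ b₀) (Θ a) p.1 y * chN Θ c b p.1 p.2 y))
    (Sum.elim (fun _ _ => 1) (fun _ y => Θ b₀ y ^ 2 * (chA Θ c b y).det))
    (Sum.elim (fun _ => Θ a) (fun p => Θ (b p.2)))
    (Sum.elim (fun _ => Θ b₀) (fun _ => Θ c))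
    (by
      rintro (_ | p)
      · exact (IsVal.one (h := fun _ => 1)).neg
      · exact (hW p.1).mul (h.val p.1 p.2))
    (by
      rintro (_ | p)
      · exact hX a
      · exact hdiv h.nzc (b p.2))
    (by
      rintro (_ | p)
      · exact NZ.one hQ
      · exact h02.mul hQ h.nzd)
    (by
      rintro (_ | p)
      · exact h0
      · exact h.nzc)
    (by
      rintro (_ | p)
      · exact (hfam.type a).1
      · exact (hfam.type (b p.2)).1)
    (by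
      rintro (_ | p)
      · exact (hfam.type b₀).1
      · exact (hfam.type c).1)
    (by
      intro y hh hH m
      have y0 : Θ b₀ y ≠ 0 := hH (Sum.inl ())
      have yc : Θ c y ≠ 0 := hH (Sum.inr (0, 0))
      have yd : (chA Θ c b y).det ≠ 0 := right_ne_zero_of_mul (hh (Sum.inr (0, 0)))
      rw [Fintype.sum_sum_type]
      simp only [Sum.elim_inl, Sum.elim_inr, Finset.univ_unique, Finset.sum_singleton]
      rw [Fintype.sum_prod_type]
      have e1 : ∀ i, ∑ j, wr (Θ b₀) (Θ a) i y * chN Θ c b i j y / (Θ b₀ y ^ 2 * (chA Θ c b y).det) * (wr (Θ c) (Θ (b j)) m y / Θ c y ^ 2) =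
          wr (Θ b₀) (Θ a) i y / Θ b₀ y ^ 2 * (if m = i then 1 else 0) := by
        intro i
        rw [← cht_sum Θ c b yc yd m i, Finset.mul_sum]
        refine Finset.sum_congr rfl fun j _ => ?_
        field_simp
      rw [Finset.sum_congr rfl fun i _ => e1 i]
      simp only [mul_ite, mul_one, mul_zero, Finset.sum_ite_eq, Finset.mem_univ, if_true]
      ring)
  rw [Fintype.sum_sum_type] at key
  simp only [Sum.elim_inl, Sum.elim_inr, Finset.univ_unique, Finset.sum_singleton, neg_smul, one_smul] at key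
  rw [Fintype.sum_prod_type] at key
  rw [neg_add_eq_zero] at key
  rw [key]
  refine Finset.sum_congr rfl fun i _ => ?_
  rw [Finset.smul_sum]
  exact Finset.sum_congr rfl fun j _ => mul_smul _ _ _

theorem exists_delta [Algebra.EssFiniteType ℂ K] {z : Fin n → K} (hz : IsTranscendenceBasis ℂ z) (hθ : IsThetaForm Λ θ) (hQ : Q.IsPrime) (homog : ∀ F ∈ Q, ∀ m, homogeneousComponent m F ∈ Q) (hgp : GP Q ξ) (hL : Lft Q Λ L) (hreg : RegL Q Λ θ L)
    {ι : Type} [Fintype ι] {Θ : ι → Cn (κ + 1) → ℂ} (hfam : Fam Λ θ Θ) {b₀ : ι} (h0 : NZ Q L (Θ b₀)) (X : ι → K) (hX : ∀ b, IsVal Q ξ L (X b) (Θ b) (Θ b₀)) :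
    ∃ δ : Fin (κ + 1) → Ω[K⁄ℂ],
      (∀ a y, Cone Q a → L a y → ∀ (c : ι) (b : Fin (κ + 1) → ι), Θ c y ≠ 0 → (Matrix.of fun i j => wr (Θ c) (Θ (b j)) i y).det ≠ 0 → ∃ M : Fin (κ + 1) → ι → K, (∀ i b, ∃ v, RegAt ξ a (M i b) v) ∧ ∀ i, δ i = ∑ b, M i b • dd (X b / X c)) ∧
      ∀ a, dd (X a) ∈ Submodule.span K (Set.range δ) := by
  classical
  obtain ⟨a₀, y₀, ha₀, hy₀, -⟩ := h0.exists_point hQ hgp hL
  obtain ⟨c₀, b₁, hc₀, hd₀⟩ := hfam.chart y₀
  obtain ⟨M₀, hM₀⟩ := exists_cht hθ hQ hgp hL hreg hfam ha₀ hy₀ hc₀ hd₀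
  refine ⟨fun k => ∑ j, M₀ k j • dd (X (b₁ j) / X c₀), ?_, ?_⟩
  · intro a y ha hy c b hc hd
    obtain ⟨M, hM⟩ := exists_cht hθ hQ hgp hL hreg hfam ha hy hc hd
    refine ⟨fun k b' => ∑ j, if b j = b' then M k j else 0, fun k b' => ?_, fun k => ?_⟩
    · refine ⟨∑ j, if b j = b' then chN Θ c b k j y / (chA Θ c b y).det else 0,
        RegAt.sum _ _ _ fun j _ => ?_⟩
      split_ifs
      · exact hM.val k j a y ha hy hd
      · exact RegAt.zero ξ a
    · show ∑ j, M₀ k j • dd (X (b₁ j) / X c₀) = _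
      rw [cht_eq hz hQ homog hgp hL hreg hfam h0 X hX hM₀ hM k]
      simp only [Finset.sum_smul]
      rw [Finset.sum_comm]
      refine Finset.sum_congr rfl fun j _ => ?_
      simp only [ite_smul, zero_smul, Finset.sum_ite_eq, Finset.mem_univ, if_true]
  · intro a
    obtain ⟨W, hW⟩ := cht_span hz hθ hQ homog hgp hL hreg hfam h0 X hX hM₀ a
    rw [hW]
    exact Submodule.sum_mem _ fun i _ => Submodule.smul_mem _ _ (Submodule.subset_span ⟨i, rfl⟩)

end Pool.Agent.LG
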