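import Pool.Agent.LG.Defs

/-!
# LG Ex: extension of a discrete valuation to a finite extension

`O = {a | a = 0 ∨ 0 ≤ v a}` is a discrete valuation ring with fraction field `K` (`t` is a uniformizer: every `a ≠ 0` is `t ^ (v a)` times a unit of `O`).  The integral closure `B` of `O` in `K'` is a Dedekind domain
(`integralClosure.isDedekindDomain`; `K'/K` is separable, characteristic 0), `P` a maximal ideal of `B` over the maximal ideal of `O` (`Ideal.exists_ideal_over_maximal_of_isIntegral`); `ν` = minus the logarithm of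
`P.valuation K'` (`IsDedekindDomain.HeightOneSpectrum.valuation`), `e = ν t`; units of `O` have `ν = 0`.  (Or any other way: a valuation subring of `K'` which dominates `O`, `LocalSubring.exists_le_valuationSubring`.)
-/

set_option autoImplicit false

open MvPolynomial
open Pool.Agent.H23 (RatForm regularForms PrimeDivisorOver fc dualDer)

noncomputable section

namespace Pool.Agent.LG

variable {K : Type} [Field K] [Algebra ℂ K] {k n D : ℕ} {ι : Type}

private theorem v_one {v : K → ℤ} (hv : IV K v) : v 1 = 0 := by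
  simpa using hv.const 1 one_ne_zero

private theorem v_neg_one {v : K → ℤ} (hv : IV K v) : v (-1) = 0 := by
  have h := hv.const (-1) (by simp)
  simpa using h

private theorem v_neg {v : K → ℤ} (hv : IV K v) {a : K} (ha : a ≠ 0) : v (-a) = v a := by
  have h := hv.mul (a := (-1 : K)) (b := a) (by simp) ha
  rw [v_neg_one hv, zero_add] at h
  rwa [neg_one_mul] at h

private theorem v_inv {v : K → ℤ} (hv : IV K v) {a : K} (ha : a ≠ 0) : v a⁻¹ = - v a := by
  have h := hv.mul (a := a) (b := a⁻¹) ha (inv_ne_zero ha)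
  rw [mul_inv_cancel₀ ha, v_one hv] at h
  linarith

private theorem v_pow {v : K → ℤ} (hv : IV K v) {a : K} (ha : a ≠ 0) (m : ℕ) : v (a ^ m) = m * v a := by
  induction m with
  | zero => simp [v_one hv]
  | succ m ih =>
    rw [pow_succ, hv.mul (pow_ne_zero m ha) ha, ih]
    push_cast
    ring

private theorem v_zpow {v : K → ℤ} (hv : IV K v) {a : K} (ha : a ≠ 0) (m : ℤ) : v (a ^ m) = m * v a := by
  cases m with
  | ofNat m => simpa using v_pow hv ha m
  | negSucc m =>
    rw [zpow_negSucc, v_inv hv (pow_ne_zero _ ha), v_pow hv ha]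
    push_cast
    rw [Int.negSucc_eq]
    ring

/-- the valuation ring of `v` -/
private def vr {v : K → ℤ} (hv : IV K v) : ValuationSubring K where
  carrier := {a | a = 0 ∨ 0 ≤ v a}
  mul_mem' := by
    intro a b ha hb
    by_cases h0 : a = 0
    · left; simp [h0]
    by_cases h1 : b = 0
    · left; simp [h1]
    right
    rw [hv.mul h0 h1]
    rcases ha with ha | ha
    · exact absurd ha h0
    rcases hb with hb | hb
    · exact absurd hb h1
    exact add_nonneg ha hb
  one_mem' := by
    right
    rw [v_one hv]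
  add_mem' := by
    intro a b ha hb
    by_cases h0 : a = 0
    · simpa [h0] using hb
    by_cases h1 : b = 0
    · simpa [h1] using ha
    by_cases h2 : a + b = 0
    · left; exact h2
    right
    rcases ha with ha | ha
    · exact absurd ha h0
    rcases hb with hb | hb
    · exact absurd hb h1
    exact le_trans (le_min ha hb) (hv.add h0 h1 h2)
  zero_mem' := by left; rfl
  neg_mem' := by
    intro a ha
    rcases ha with ha | ha
    · left; simp [ha]
    · by_cases h0 : a = 0
      · left; simp [h0]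
      right
      rwa [v_neg hv h0]
  mem_or_inv_mem' := by
    intro a
    by_cases h0 : a = 0
    · left; left; exact h0
    by_cases h : 0 ≤ v a
    · left; right; exact h
    · right; right
      rw [v_inv hv h0]
      linarith

private theorem mem_vr {v : K → ℤ} (hv : IV K v) {a : K} (ha : a ≠ 0) : a ∈ vr hv ↔ 0 ≤ v a := by
  change (a = 0 ∨ 0 ≤ v a) ↔ _
  simp [ha]

private theorem isUnit_vr {v : K → ℤ} (hv : IV K v) (x : vr hv) (hx : (x : K) ≠ 0) : IsUnit x ↔ v x = 0 := by
  constructor
  · intro h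
    obtain ⟨u, rfl⟩ := h
    have h1 : 0 ≤ v ((u : vr hv) : K) := (mem_vr hv hx).1 (u : vr hv).2
    have e : ((u : vr hv) : K) * (((u⁻¹ : (vr hv)ˣ) : vr hv) : K) = 1 := by
      have h := congrArg (Subtype.val) (u.mul_inv)
      exact h
    have h2' : (((u⁻¹ : (vr hv)ˣ) : vr hv) : K) ≠ 0 := by
      intro h
      rw [h, mul_zero] at e
      exact zero_ne_one e
    have h2 : 0 ≤ v (((u⁻¹ : (vr hv)ˣ) : vr hv) : K) := (mem_vr hv h2').1 ((u⁻¹ : (vr hv)ˣ) : vr hv).2
    have h3 := hv.mul hx h2'
    rw [e, v_one hv] at h3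
    linarith
  · intro h
    have hi : (x : K)⁻¹ ∈ vr hv := (mem_vr hv (inv_ne_zero hx)).2 (by rw [v_inv hv hx, h, neg_zero])
    refine IsUnit.of_mul_eq_one ⟨(x : K)⁻¹, hi⟩ ?_
    apply Subtype.ext
    change (x : K) * (x : K)⁻¹ = 1
    exact mul_inv_cancel₀ hx

private theorem dvr_vr {v : K → ℤ} (hv : IV K v) {t : K} (ht : t ≠ 0) (h1 : v t = 1) : IsDiscreteValuationRing (vr hv) := by
  apply IsDiscreteValuationRing.ofHasUnitMulPowIrreducibleFactorization
  have htm : t ∈ vr hv := (mem_vr hv ht).2 (by rw [h1]; norm_num)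
  refine ⟨⟨t, htm⟩, ⟨?_, ?_⟩, ?_⟩
  · rw [isUnit_vr hv _ ht]
    change ¬ v t = 0
    rw [h1]; norm_num
  · intro a b hab
    have hab' : t = (a : K) * (b : K) := congrArg Subtype.val hab
    have ha : (a : K) ≠ 0 := by
      intro h; apply ht; rw [hab', h, zero_mul]
    have hb : (b : K) ≠ 0 := by
      intro h; apply ht; rw [hab', h, mul_zero]
    have h2 := hv.mul ha hb
    rw [← hab', h1] at h2
    have h3 := (mem_vr hv ha).1 a.2
    have h4 := (mem_vr hv hb).1 b.2
    rw [isUnit_vr hv a ha, isUnit_vr hv b hb]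
    omega
  · intro x hx
    have hx' : (x : K) ≠ 0 := fun h => hx (Subtype.ext h)
    have h3 := (mem_vr hv hx').1 x.2
    obtain ⟨m, hm⟩ := Int.eq_ofNat_of_zero_le h3
    refine ⟨m, ?_⟩
    have hu0 : (x : K) * (t ^ m)⁻¹ ≠ 0 := mul_ne_zero hx' (inv_ne_zero (pow_ne_zero m ht))
    have hv0 : v ((x : K) * (t ^ m)⁻¹) = 0 := by
      rw [hv.mul hx' (inv_ne_zero (pow_ne_zero m ht)), v_inv hv (pow_ne_zero m ht), v_pow hv ht, h1, hm]
      simp
    have hum : (x : K) * (t ^ m)⁻¹ ∈ vr hv := (mem_vr hv hu0).2 (by rw [hv0])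
    have hunit : IsUnit (⟨_, hum⟩ : vr hv) := (isUnit_vr hv ⟨_, hum⟩ hu0).2 hv0
    obtain ⟨u, hu⟩ := hunit
    refine ⟨u, ?_⟩
    apply Subtype.ext
    rw [hu]
    change t ^ m * ((x : K) * (t ^ m)⁻¹) = x
    field_simp

theorem exists_ext {K' : Type} [Field K'] [Algebra K K'] [FiniteDimensional K K'] [Algebra ℂ K'] [IsScalarTower ℂ K K'] {v : K → ℤ} (hv : IV K v) (ht : ∃ t, t ≠ 0 ∧ v t = 1) :
    ∃ (ν : K' → ℤ) (e : ℤ), 1 ≤ e ∧ IV K' ν ∧ ∀ a : K, a ≠ 0 → ν (algebraMap K K' a) = e * v a := by
  obtain ⟨t, ht0, ht1⟩ := ht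
  have : CharZero K := charZero_of_injective_algebraMap (algebraMap ℂ K).injective
  have hd : IsDiscreteValuationRing (vr hv) := dvr_vr hv ht0 ht1
  have : IsDedekindDomain (integralClosure (vr hv) K') := integralClosure.isDedekindDomain (vr hv) K K'
  have : IsFractionRing (integralClosure (vr hv) K') K' := IsIntegralClosure.isFractionRing_of_finite_extension (vr hv) K K' (integralClosure (vr hv) K')
  have hinj : Function.Injective (algebraMap (vr hv) (integralClosure (vr hv) K')) := by
    have h1 : Function.Injective (algebraMap (vr hv) K') := by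
      rw [IsScalarTower.algebraMap_eq (vr hv) K K']
      exact (algebraMap K K').injective.comp (IsFractionRing.injective (vr hv) K)
    intro a b hab
    apply h1
    rw [IsScalarTower.algebraMap_apply (vr hv) (integralClosure (vr hv) K') K', hab, ← IsScalarTower.algebraMap_apply (vr hv) (integralClosure (vr hv) K') K']
  obtain ⟨Q, hQm, hQ⟩ := Ideal.exists_ideal_over_maximal_of_isIntegral (S := integralClosure (vr hv) K') (IsLocalRing.maximalIdeal (vr hv)) (by
    rw [(RingHom.injective_iff_ker_eq_bot _).1 hinj]; exact bot_le)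
  have htm : t ∈ vr hv := (mem_vr hv ht0).2 (by rw [ht1]; norm_num)
  have htQ : algebraMap (vr hv) (integralClosure (vr hv) K') ⟨t, htm⟩ ∈ Q := by
    rw [← Ideal.mem_comap, hQ, IsLocalRing.mem_maximalIdeal, mem_nonunits_iff, isUnit_vr hv _ ht0]
    change ¬ v t = 0
    rw [ht1]; norm_num
  have hQ0 : Q ≠ ⊥ := by
    intro h
    rw [h, Ideal.mem_bot] at htQ
    have := hinj (htQ.trans (map_zero _).symm)
    exact ht0 (congrArg Subtype.val this)
  let P : IsDedekindDomain.HeightOneSpectrum (integralClosure (vr hv) K') := ⟨Q, hQm.isPrime, hQ0⟩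
  have key : ∀ a : vr hv, algebraMap (integralClosure (vr hv) K') K' (algebraMap (vr hv) (integralClosure (vr hv) K') a) = algebraMap K K' (a : K) := by
    intro a
    rw [← IsScalarTower.algebraMap_apply (vr hv) (integralClosure (vr hv) K') K', IsScalarTower.algebraMap_apply (vr hv) K K']
    rfl
  have hle : ∀ a : vr hv, P.valuation K' (algebraMap K K' (a : K)) ≤ 1 := by
    intro a
    rw [← key a]
    exact P.valuation_le_one _
  have hun : ∀ a : K, a ≠ 0 → v a = 0 → P.valuation K' (algebraMap K K' a) = 1 := by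
    intro a ha h0
    have h1 : a ∈ vr hv := (mem_vr hv ha).2 (by rw [h0])
    have h2 : a⁻¹ ∈ vr hv := (mem_vr hv (inv_ne_zero ha)).2 (by rw [v_inv hv ha, h0, neg_zero])
    have h3 := hle ⟨a, h1⟩
    have h4 := hle ⟨a⁻¹, h2⟩
    simp only [map_inv₀] at h3 h4
    apply le_antisymm h3
    have h5 : P.valuation K' (algebraMap K K' a) ≠ 0 := by
      rw [Valuation.ne_zero_iff]
      simpa using ha
    exact (inv_le_one₀ (zero_lt_iff.2 h5)).1 h4
  have hlt : P.valuation K' (algebraMap K K' t) < 1 := by
    rw [← key ⟨t, htm⟩]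
    exact (P.valuation_lt_one_iff_mem _).2 htQ
  have hne : ∀ x : K', x ≠ 0 → P.valuation K' x ≠ 0 := fun x hx => (Valuation.ne_zero_iff _).2 hx
  have htK' : algebraMap K K' t ≠ 0 := by simpa using ht0
  refine ⟨fun x => - WithZero.log (P.valuation K' x), - WithZero.log (P.valuation K' (algebraMap K K' t)), ?_, ⟨?_, ?_, ?_⟩, ?_⟩
  · have h := (WithZero.log_lt_log (hne _ htK') one_ne_zero).2 hlt
    rw [WithZero.log_one] at h
    omega
  · intro a b ha hb
    rw [map_mul, WithZero.log_mul (hne a ha) (hne b hb)]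
    ring
  · intro a b ha hb hab
    have h := (P.valuation K').map_add a b
    rcases le_max_iff.1 h with h | h
    · have := (WithZero.log_le_log (hne _ hab) (hne _ ha)).2 h
      exact min_le_iff.2 (Or.inl (by simpa using this))
    · have := (WithZero.log_le_log (hne _ hab) (hne _ hb)).2 h
      exact min_le_iff.2 (Or.inr (by simpa using this))
  · intro c hc
    rw [IsScalarTower.algebraMap_apply ℂ K K', hun _ (by simpa using hc) (hv.const c hc), WithZero.log_one, neg_zero]
  · intro a ha
    change - WithZero.log (P.valuation K' (algebraMap K K' a)) = _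
    have h1 : a * (t ^ (v a))⁻¹ ≠ 0 := mul_ne_zero ha (inv_ne_zero (zpow_ne_zero _ ht0))
    have h2 : v (a * (t ^ (v a))⁻¹) = 0 := by
      rw [hv.mul ha (inv_ne_zero (zpow_ne_zero _ ht0)), v_inv hv (zpow_ne_zero _ ht0), v_zpow hv ht0, ht1]
      ring
    have h3 := hun _ h1 h2
    have h4 : a = a * (t ^ (v a))⁻¹ * t ^ (v a) := by
      rw [mul_assoc, inv_mul_cancel₀ (zpow_ne_zero _ ht0), mul_one]
    have h5 : P.valuation K' (algebraMap K K' a) = (P.valuation K' (algebraMap K K' t)) ^ (v a) := by
      conv_lhs => rw [h4]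
      rw [map_mul (algebraMap K K'), map_mul (P.valuation K'), h3, one_mul, map_zpow₀, map_zpow₀]
    rw [h5, WithZero.log_zpow]
    simp only [smul_eq_mul]
    ring

end Pool.Agent.LG
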