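import Pool.Agent.LG.G4

/-!
# LG Fa: the family of theta functions with additional members
-/

set_option autoImplicit false

open MvPolynomial Filter Topology
open Pool.Agent.PXF (Cn form IsThetaForm)

noncomputable section

namespace Pool.Agent.LG

variable {κ d : ℕ} {Λ : AddSubgroup (Cn (κ + 1))} {θ : Fin (d + 1) → Cn (κ + 1) → ℂ}

/-- a finite family of theta functions of type 3 with local coordinates at every point, with given additional members -/
theorem exists_fam_extra (hθ : IsThetaForm Λ θ) (h : ∃ i y, θ i y ≠ 0) (hΛ : Submodule.span ℝ (Λ : Set (Cn (κ + 1))) = ⊤) {e : ℕ} (extra : Fin e → Cn (κ + 1) → ℂ) (hex : ∀ i, IsType Λ θ 3 (extra i)) :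
    ∃ (n : ℕ) (Θ : Fin n → Cn (κ + 1) → ℂ) (cf : Fin e → Fin n), Fam Λ θ Θ ∧ ∀ i, Θ (cf i) = extra i := by
  obtain ⟨r, Θ, hΘ⟩ := exists_fam hΛ hθ h
  refine ⟨r + e, Fin.append Θ extra, fun i => Fin.natAdd r i, ⟨fun a => ?_, fun y => ?_⟩, fun i => Fin.append_right Θ extra i⟩
  · induction a using Fin.addCases with
    | left i => rw [Fin.append_left]; exact hΘ.type i
    | right i => rw [Fin.append_right]; exact hex i
  · obtain ⟨c, b, hc, hb⟩ := hΘ.chart y
    refine ⟨Fin.castAdd e c, fun j => Fin.castAdd e (b j), ?_, ?_⟩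
    · rw [Fin.append_left]; exact hc
    · have h1 : (Matrix.of fun i j => wr (Fin.append Θ extra (Fin.castAdd e c)) (Fin.append Θ extra (Fin.castAdd e (b j))) i y) = Matrix.of fun i j => wr (Θ c) (Θ (b j)) i y := by
        ext i j
        simp only [Matrix.of_apply, Fin.append_left]
      rw [h1]; exact hb

end Pool.Agent.LG
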