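import Pool.Agent.LG.Ty

/-!
# LG Fa1: the factor of automorphy

`|θ_i(y + l)| = |θ_i(y)| exp (∑ |W_j(y + l)|² - ∑ |W_j y|²)`, and `∑ |W_j(y + l)|² - ∑ |W_j y|² = ∑ |W_j l|² + 2 Re ∑ conj(W_j l) W_j y`.
So `f(y) = θ_i(y + l) exp (- 2 ∑ conj(W_j l) W_j y - ∑ |W_j l|²)` is entire and `|f| = |θ_i|`: near a point with `θ_i ≠ 0` the quotient is holomorphic of modulus `1`, so constant, and `f = c θ_i` everywhere (identity theorem on complex lines).
The constant is the same for all `i` with `θ_i ≢ 0`: `θ_i(y + l) = e θ_i(y)`, `θ_j(y + l) = e θ_j(y)` at a point with `θ_i θ_j ≠ 0`.  For `θ_i ≡ 0` the statement is trivial.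
-/

set_option autoImplicit false

open MvPolynomial Filter Topology
open Pool.Agent.PXF (Cn form IsThetaForm)

noncomputable section

namespace Pool.Agent.LG

variable {κ d : ℕ} {Λ : AddSubgroup (Cn (κ + 1))} {θ : Fin (d + 1) → Cn (κ + 1) → ℂ}

/-- the restriction of an entire function to a complex line -/
private theorem line_diff {u : Cn (κ + 1) → ℂ} (hu : Differentiable ℂ u) (a b : Cn (κ + 1)) : Differentiable ℂ fun z : ℂ => u (a + z • (b - a)) := by
  have h : Differentiable ℂ fun z : ℂ => a + z • (b - a) := (differentiable_const a).add (differentiable_id.smul_const (b - a))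
  exact hu.comp h

/-- an entire function on `ℂ` which vanishes near a point vanishes -/
private theorem eq_zero_of_eventually {F : ℂ → ℂ} (hF : Differentiable ℂ F) {a : ℂ} (h : ∀ᶠ z in 𝓝 a, F z = 0) (z : ℂ) : F z = 0 := by
  have h1 : AnalyticOnNhd ℂ F Set.univ := fun w _ => hF.analyticAt w
  have h2 : AnalyticOnNhd ℂ (fun _ : ℂ => (0 : ℂ)) Set.univ := fun w _ => analyticAt_const
  have h3 := h1.eq_of_eventuallyEq h2 (z₀ := a) h
  exact congrFun h3 z

/-- and the same near every point -/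
theorem frequently_ne (u : Cn (κ + 1) → ℂ) (hu : Differentiable ℂ u) (h : ∃ y, u y ≠ 0) (y₀ : Cn (κ + 1)) : ∃ᶠ y in 𝓝 y₀, u y ≠ 0 := by
  obtain ⟨y, hy⟩ := h
  intro hc
  apply hy
  have hc' : ∀ᶠ x in 𝓝 y₀, u x = 0 := by
    filter_upwards [hc] with x hx
    by_contra h0
    exact hx h0
  have hcont : ContinuousAt (fun z : ℂ => y₀ + z • (y - y₀)) 0 := by
    apply Continuous.continuousAt
    exact continuous_const.add (continuous_id.smul continuous_const)
  have h1 : ∀ᶠ z in 𝓝 (0 : ℂ), u (y₀ + z • (y - y₀)) = 0 := by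
    have := hcont.eventually (p := fun x => u x = 0) (by simpa using hc')
    exact this
  have h2 := eq_zero_of_eventually (line_diff hu y₀ y) h1 1
  simpa using h2

/-- the points where an entire function `≢ 0` does not vanish are dense -/
private theorem dense_ne {u : Cn (κ + 1) → ℂ} (hu : Differentiable ℂ u) (h : ∃ y, u y ≠ 0) : Dense {y | u y ≠ 0} := by
  intro y
  rw [mem_closure_iff_frequently]
  exact frequently_ne u hu h y

private theorem isOpen_ne {u : Cn (κ + 1) → ℂ} (hu : Differentiable ℂ u) : IsOpen {y | u y ≠ 0} :=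
  isOpen_ne_fun hu.continuous continuous_const

/-- the product of two entire functions which are not identically `0` is not identically `0` -/
theorem exists_ne_of_prod {σ : Type} (s : Finset σ) (u : σ → Cn (κ + 1) → ℂ) (hu : ∀ i ∈ s, Differentiable ℂ (u i)) (h : ∀ i ∈ s, ∃ y, u i y ≠ 0) : ∃ y, ∀ i ∈ s, u i y ≠ 0 := by
  classical
  have key : IsOpen {y | ∀ i ∈ s, u i y ≠ 0} ∧ Dense {y | ∀ i ∈ s, u i y ≠ 0} := by
    induction s using Finset.induction_on with
    | empty => simp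
    | insert a s ha ih =>
      have h1 := ih (fun i hi => hu i (Finset.mem_insert_of_mem hi)) (fun i hi => h i (Finset.mem_insert_of_mem hi))
      have h2 := isOpen_ne (hu a (Finset.mem_insert_self a s))
      have h3 := dense_ne (hu a (Finset.mem_insert_self a s)) (h a (Finset.mem_insert_self a s))
      have h4 : {y | ∀ i ∈ insert a s, u i y ≠ 0} = {y | u a y ≠ 0} ∩ {y | ∀ i ∈ s, u i y ≠ 0} := by
        ext y
        simp
      rw [h4]
      exact ⟨h2.inter h1.1, h3.inter_of_isOpen_left h1.2 h2⟩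
  obtain ⟨y, hy⟩ := key.2.nonempty
  exact ⟨y, hy⟩

/-- an entire function which vanishes where another one (`≢ 0`) does not vanish, vanishes -/
private theorem eq_zero_of_mul {u v : Cn (κ + 1) → ℂ} (hu : Differentiable ℂ u) (hv : Differentiable ℂ v) (h : ∃ y, v y ≠ 0) (huv : ∀ y, v y ≠ 0 → u y = 0) (y : Cn (κ + 1)) : u y = 0 := by
  by_contra hy
  obtain ⟨x, hx⟩ := exists_ne_of_prod (Finset.univ : Finset Bool) (fun b => if b then u else v)
    (by intro i _; cases i <;> simpa using (by assumption))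
    (by
      intro i _
      cases i
      · simpa using h
      · exact ⟨y, by simpa using hy⟩)
  have h1 := hx true (Finset.mem_univ _)
  have h2 := hx false (Finset.mem_univ _)
  simp only [if_true] at h1
  simp only [Bool.false_eq_true, if_false] at h2
  exact h1 (huv x h2)

/-- two entire functions with the same modulus -/
private theorem eq_const_mul {f g : Cn (κ + 1) → ℂ} (hf : Differentiable ℂ f) (hg : Differentiable ℂ g) (hfg : ∀ y, ‖f y‖ = ‖g y‖) (h : ∃ y, g y ≠ 0) : ∃ c : ℂ, c ≠ 0 ∧ ∀ y, f y = c * g y := by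
  obtain ⟨y₁, h₁⟩ := h
  refine ⟨f y₁ / g y₁, ?_, fun y => ?_⟩
  · have : f y₁ ≠ 0 := by
      rw [← norm_ne_zero_iff, hfg y₁, norm_ne_zero_iff]
      exact h₁
    exact div_ne_zero this h₁
  · have hF := line_diff hf y₁ y
    have hG := line_diff hg y₁ y
    have hG0 : (fun z : ℂ => g (y₁ + z • (y - y₁))) 0 ≠ 0 := by simpa using h₁
    have hne : ∀ᶠ z in 𝓝 (0 : ℂ), g (y₁ + z • (y - y₁)) ≠ 0 := hG.continuous.continuousAt.eventually_ne hG0
    have hd : ∀ᶠ z in 𝓝 (0 : ℂ), DifferentiableAt ℂ (fun z : ℂ => f (y₁ + z • (y - y₁)) / g (y₁ + z • (y - y₁))) z := by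
      filter_upwards [hne] with z hz
      exact (hF z).div (hG z) hz
    have hmax : IsLocalMax (norm ∘ fun z : ℂ => f (y₁ + z • (y - y₁)) / g (y₁ + z • (y - y₁))) 0 := by
      have hone : ∀ z : ℂ, g (y₁ + z • (y - y₁)) ≠ 0 → ‖f (y₁ + z • (y - y₁)) / g (y₁ + z • (y - y₁))‖ = 1 := by
        intro z hz
        rw [norm_div, hfg, div_self (norm_ne_zero_iff.mpr hz)]
      filter_upwards [hne] with z hz
      simp only [Function.comp]
      rw [hone z hz, hone 0 hG0]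
    have hev := Complex.eventually_eq_of_isLocalMax_norm hd hmax
    have hz : ∀ᶠ z in 𝓝 (0 : ℂ), f (y₁ + z • (y - y₁)) - f y₁ / g y₁ * g (y₁ + z • (y - y₁)) = 0 := by
      filter_upwards [hev, hne] with z hz hz'
      rw [div_eq_iff hz'] at hz
      rw [hz]
      simp
    have := eq_zero_of_eventually (hF.sub (hG.const_mul (f y₁ / g y₁))) hz 1
    have h1 : y₁ + (1 : ℂ) • (y - y₁) = y := by rw [one_smul, add_sub_cancel]
    have h2 : f (y₁ + (1 : ℂ) • (y - y₁)) - f y₁ / g y₁ * g (y₁ + (1 : ℂ) • (y - y₁)) = 0 := this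
    rw [h1] at h2
    exact sub_eq_zero.mp h2

/-- the factor of automorphy is `c exp (2 ∑ conj(W_j l) W_j y)` -/
structure Factor {r : ℕ} (Λ : AddSubgroup (Cn (κ + 1))) (θ : Fin (d + 1) → Cn (κ + 1) → ℂ) (W : Fin r → Cn (κ + 1) →L[ℂ] ℂ) : Prop where
  pos : ∀ y, (∀ j, W j y = 0) → y = 0
  eq : ∀ l ∈ Λ, ∃ c : ℂ, c ≠ 0 ∧ ∀ y i, θ i (y + l) = c * Complex.exp (2 * ∑ j, (starRingEnd ℂ) (W j l) * W j y) * θ i y

/-- the exponential is entire -/
private theorem exp_diff {r : ℕ} (W : Fin r → Cn (κ + 1) →L[ℂ] ℂ) (l : Cn (κ + 1)) : Differentiable ℂ fun y => Complex.exp (2 * ∑ j, (starRingEnd ℂ) (W j l) * W j y) := by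
  refine Differentiable.cexp ((Differentiable.fun_sum fun j _ => ?_).const_mul 2)
  exact (W j).differentiable.const_mul _

private theorem shift_diff {u : Cn (κ + 1) → ℂ} (hu : Differentiable ℂ u) (l : Cn (κ + 1)) : Differentiable ℂ fun y => u (y + l) :=
  hu.comp (differentiable_id.add (differentiable_const l))

private theorem norm_sq_add (a b : ℂ) : ‖a + b‖ ^ 2 = ‖a‖ ^ 2 + ‖b‖ ^ 2 + 2 * ((starRingEnd ℂ) b * a).re := by
  rw [← Complex.normSq_eq_norm_sq, ← Complex.normSq_eq_norm_sq, ← Complex.normSq_eq_norm_sq, Complex.normSq_add]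
  rw [mul_comm ((starRingEnd ℂ) b) a]

theorem exists_factor (hθ : IsThetaForm Λ θ) (h : ∃ i y, θ i y ≠ 0) : ∃ (r : ℕ) (W : Fin r → Cn (κ + 1) →L[ℂ] ℂ), Factor Λ θ W := by
  obtain ⟨r, W, hpos, hq⟩ := hθ.quasiPeriodic
  obtain ⟨i₀, hi₀⟩ := h
  refine ⟨r, W, hpos, fun l hl => ?_⟩
  have hE := exp_diff W l
  -- the function `f`
  have hf : Differentiable ℂ fun y => θ i₀ (y + l) * (Complex.exp (2 * ∑ j, (starRingEnd ℂ) (W j l) * W j y))⁻¹ * ((Real.exp (∑ j, ‖W j l‖ ^ 2))⁻¹ : ℝ) := by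
    refine Differentiable.mul_const (Differentiable.mul (shift_diff (hθ.holomorphic i₀) l) (hE.fun_inv fun y => Complex.exp_ne_zero _)) _
  have hnorm : ∀ y, ‖θ i₀ (y + l) * (Complex.exp (2 * ∑ j, (starRingEnd ℂ) (W j l) * W j y))⁻¹ * ((Real.exp (∑ j, ‖W j l‖ ^ 2))⁻¹ : ℝ)‖ = ‖θ i₀ y‖ := by
    intro y
    obtain ⟨e, he, hθe⟩ := hq l hl y
    rw [hθe i₀, norm_mul, norm_mul, norm_mul, he, norm_inv, Complex.norm_exp, Complex.norm_real, Real.norm_eq_abs, abs_of_pos (inv_pos.mpr (Real.exp_pos _))]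
    have h1 : ∑ j, ‖W j (y + l)‖ ^ 2 - ∑ j, ‖W j y‖ ^ 2 = ∑ j, ‖W j l‖ ^ 2 + (2 * ∑ j, (starRingEnd ℂ) (W j l) * W j y).re := by
      rw [Complex.mul_re, Complex.re_sum]
      simp only [Complex.re_ofNat, Complex.im_ofNat, zero_mul, sub_zero]
      rw [Finset.mul_sum, ← Finset.sum_sub_distrib, ← Finset.sum_add_distrib]
      refine Finset.sum_congr rfl fun j _ => ?_
      rw [map_add, norm_sq_add]
      ring
    rw [h1, Real.exp_add]
    have h2 := (Real.exp_pos (∑ j, ‖W j l‖ ^ 2)).ne'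
    have h3 := (Real.exp_pos (2 * ∑ j, (starRingEnd ℂ) (W j l) * W j y).re).ne'
    field_simp
  obtain ⟨c, hc, hcf⟩ := eq_const_mul hf (hθ.holomorphic i₀) hnorm hi₀
  have hR : ((Real.exp (∑ j, ‖W j l‖ ^ 2) : ℝ) : ℂ) ≠ 0 := by
    exact_mod_cast (Real.exp_pos _).ne'
  have key : ∀ y, θ i₀ (y + l) = c * (Real.exp (∑ j, ‖W j l‖ ^ 2) : ℝ) * Complex.exp (2 * ∑ j, (starRingEnd ℂ) (W j l) * W j y) * θ i₀ y := by
    intro y
    have h1 := hcf y
    have h2 := Complex.exp_ne_zero (2 * ∑ j, (starRingEnd ℂ) (W j l) * W j y)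
    rw [Complex.ofReal_inv, mul_assoc, ← mul_inv, ← div_eq_mul_inv, div_eq_iff (mul_ne_zero h2 hR)] at h1
    rw [h1]
    ring
  refine ⟨c * (Real.exp (∑ j, ‖W j l‖ ^ 2) : ℝ), mul_ne_zero hc hR, fun y i => ?_⟩
  have hu : Differentiable ℂ fun y => θ i (y + l) - c * (Real.exp (∑ j, ‖W j l‖ ^ 2) : ℝ) * Complex.exp (2 * ∑ j, (starRingEnd ℂ) (W j l) * W j y) * θ i y :=
    (shift_diff (hθ.holomorphic i) l).sub ((hE.const_mul _).mul (hθ.holomorphic i))
  refine sub_eq_zero.mp (eq_zero_of_mul hu (hθ.holomorphic i₀) hi₀ (fun x hx => ?_) y)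
  obtain ⟨e, -, hθe⟩ := hq l hl x
  have h1 := key x
  rw [hθe i₀] at h1
  have h2 := mul_right_cancel₀ hx h1
  show θ i (x + l) - _ = 0
  rw [hθe i, ← h2, sub_self]

/-- a function of type `m` has the factor `(c exp (…))^m` -/
theorem Factor.type {r : ℕ} {W : Fin r → Cn (κ + 1) →L[ℂ] ℂ} (hW : Factor Λ θ W) (hθ : IsThetaForm Λ θ) (h : ∃ i y, θ i y ≠ 0) {l : Cn (κ + 1)} (hl : l ∈ Λ) : ∃ E : Cn (κ + 1) → ℂ, (∀ y, E y ≠ 0) ∧ (∀ y i, θ i (y + l) = E y * θ i y) ∧
    ∀ (m : ℕ) (g : Cn (κ + 1) → ℂ), IsType Λ θ m g → ∀ y, g (y + l) = E y ^ m * g y := by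
  obtain ⟨c, hc, hE⟩ := hW.eq l hl
  refine ⟨fun y => c * Complex.exp (2 * ∑ j, (starRingEnd ℂ) (W j l) * W j y), fun y => mul_ne_zero hc (Complex.exp_ne_zero _), hE, ?_⟩
  intro m g hg y
  obtain ⟨i, hi⟩ := h
  have hu : Differentiable ℂ fun y => g (y + l) - (c * Complex.exp (2 * ∑ j, (starRingEnd ℂ) (W j l) * W j y)) ^ m * g y :=
    (shift_diff hg.1 l).sub ((((exp_diff W l).const_mul c).pow m).mul hg.1)
  refine sub_eq_zero.mp (eq_zero_of_mul hu (hθ.holomorphic i) hi (fun x hx => ?_) y)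
  have h1 := hg.2 l hl x i
  rw [hE x i, mul_pow] at h1
  have h2 : (θ i x) ^ m ≠ 0 := pow_ne_zero m hx
  show g (x + l) - _ = 0
  rw [sub_eq_zero]
  apply mul_right_cancel₀ h2
  rw [h1]
  ring

end Pool.Agent.LG
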