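import Pool.Agent.LG.G4b

/-!
# LG G4: the family of theta functions

`gf θ p y = θ (y + p.1) θ (y + p.2) θ (y - p.1 - p.2)` is of type 3 (`gf_type`); the gradients of the quotients span (`gf_span`), by the theorem of the cube along lines (`line_exp`), the growth of theta functions and the
recurrence of lines; finitely many suffice by compactness (`exists_fam`).
-/

set_option autoImplicit false

open Topology Filter MvPolynomial
open Pool.Agent.PXF (Cn form IsThetaForm ThreePoints)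

noncomputable section

namespace Pool.Agent.LG

variable {n κ d : ℕ}

/-- the weighted norm -/
def rh {r : ℕ} (W : Fin r → Cn n →L[ℂ] ℂ) (θ : Cn n → ℂ) (y : Cn n) : ℝ := ‖θ y‖ * Real.exp (-∑ j, ‖W j y‖ ^ 2)

theorem rh_cont {r : ℕ} (W : Fin r → Cn n →L[ℂ] ℂ) {θ : Cn n → ℂ} (hθ : Differentiable ℂ θ) : Continuous (rh W θ) := by
  unfold rh
  have h1 := hθ.continuous
  have h2 : ∀ j, Continuous (W j) := fun j => (W j).continuous
  fun_prop

/-- a theta function of a positive line bundle is not the exponential of a quadratic polynomial on a line -/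
theorem line_false {Λ : AddSubgroup (Cn n)} (hspan : Submodule.span ℝ (Λ : Set (Cn n)) = ⊤) {r : ℕ} {W : Fin r → Cn n →L[ℂ] ℂ} (hW : ∀ y, (∀ j, W j y = 0) → y = 0) {θ : Cn n → ℂ} (hθ : Differentiable ℂ θ)
    (hper : ∀ l ∈ Λ, ∀ y, rh W θ (y + l) = rh W θ y) {v s₀ : Cn n} (hv : v ≠ 0) (h0 : θ s₀ ≠ 0) {α β : ℂ} (h : ∀ z : ℂ, θ (s₀ + z • v) = θ s₀ * Complex.exp (β * z + α * z ^ 2)) : False := by
  set ω : ℝ := ∑ j, ‖W j v‖ ^ 2 with hω
  have hω0 : 0 < ω := by
    refine lt_of_le_of_ne (Finset.sum_nonneg fun j _ => sq_nonneg _) fun h1 => hv (hW v fun j => ?_)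
    have h2 := (Finset.sum_eq_zero_iff_of_nonneg (fun j _ => sq_nonneg ‖W j v‖)).1 h1.symm j (Finset.mem_univ j)
    exact norm_eq_zero.1 (pow_eq_zero_iff (two_ne_zero) |>.1 h2)
  obtain ⟨ζ, hζ, hζα⟩ : ∃ ζ : ℂ, ‖ζ‖ = 1 ∧ (α * ζ ^ 2).re ≤ 0 := by
    rcases le_total α.re 0 with h1 | h1
    · exact ⟨1, by simp, by simpa using h1⟩
    · exact ⟨Complex.I, by simp, by simpa using h1⟩
  set b : ℂ := ex W (ζ • v) s₀ with hb
  set C : ℝ := ‖β‖ + ‖b‖ with hC
  have hC0 : 0 ≤ C := by positivity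
  -- the decay
  have hdec : ∀ t : ℝ, (C + 1) / ω + 1 ≤ t → rh W θ (s₀ + (t : ℂ) • ζ • v) ≤ rh W θ s₀ * Real.exp (-1) := by
    intro t ht
    have ht1 : 1 ≤ t := le_trans (by rw [le_add_iff_nonneg_left]; positivity) ht
    have htω : C + 1 ≤ ω * t := by
      have h1 : (C + 1) / ω ≤ t := by linarith
      rw [div_le_iff₀ hω0] at h1
      linarith
    have h1 : rh W θ (s₀ + (t : ℂ) • ζ • v) = rh W θ s₀ * Real.exp ((β * (t * ζ) + α * (t * ζ) ^ 2).re - ((ex W ((t : ℂ) • ζ • v) s₀).re + ∑ j, ‖W j ((t : ℂ) • ζ • v)‖ ^ 2)) := by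
      unfold rh
      rw [show (t : ℂ) • ζ • v = ((t : ℂ) * ζ) • v by rw [smul_smul], h, norm_mul, Complex.norm_exp, sum_sq_add W (((t : ℂ) * ζ) • v) s₀, mul_assoc, mul_assoc, ← Real.exp_add, ← Real.exp_add]
      congr 2
      ring
    rw [h1]
    refine mul_le_mul_of_nonneg_left (Real.exp_le_exp.2 ?_) (mul_nonneg (norm_nonneg _) (Real.exp_pos _).le)
    have h2 : ex W ((t : ℂ) • ζ • v) s₀ = (t : ℂ) * b := by
      rw [hb]
      unfold ex
      rw [Finset.mul_sum]
      refine Finset.sum_congr rfl fun j _ => ?_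
      rw [map_smul, smul_eq_mul, map_mul, Complex.conj_ofReal]
      ring
    have h3 : ∑ j, ‖W j ((t : ℂ) • ζ • v)‖ ^ 2 = t ^ 2 * ω := by
      rw [hω, Finset.mul_sum]
      refine Finset.sum_congr rfl fun j _ => ?_
      rw [map_smul, map_smul, smul_eq_mul, smul_eq_mul, norm_mul, norm_mul, hζ, one_mul, Complex.norm_real, mul_pow, Real.norm_eq_abs, sq_abs]
    have h4 : (β * (t * ζ) + α * (t * ζ) ^ 2).re ≤ t * ‖β‖ := by
      have e1 : (α * ((t : ℂ) * ζ) ^ 2).re = t ^ 2 * (α * ζ ^ 2).re := by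
        rw [show α * ((t : ℂ) * ζ) ^ 2 = ((t ^ 2 : ℝ) : ℂ) * (α * ζ ^ 2) by push_cast; ring, Complex.re_ofReal_mul]
      have e2 : (β * ((t : ℂ) * ζ)).re ≤ t * ‖β‖ := by
        refine (Complex.re_le_norm _).trans ?_
        rw [norm_mul, norm_mul, hζ, mul_one, Complex.norm_real, Real.norm_of_nonneg (by linarith : (0 : ℝ) ≤ t)]
        linarith
      rw [Complex.add_re, e1]
      have e3 : t ^ 2 * (α * ζ ^ 2).re ≤ 0 := mul_nonpos_of_nonneg_of_nonpos (sq_nonneg t) hζα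
      linarith
    have h5 : -((t : ℂ) * b).re ≤ t * ‖b‖ := by
      rw [Complex.re_ofReal_mul]
      have e1 := Complex.abs_re_le_norm b
      have e2 := neg_le_of_abs_le e1
      nlinarith
    rw [h2, h3]
    nlinarith
  -- the recurrence
  have hc := (rh_cont W hθ).continuousAt (x := s₀)
  have hpos : 0 < rh W θ s₀ := mul_pos (norm_pos_iff.2 h0) (Real.exp_pos _)
  have hlt : rh W θ s₀ * Real.exp (-1) < rh W θ s₀ := by
    have : Real.exp (-1) < 1 := by rw [Real.exp_lt_one_iff]; norm_num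
    nlinarith
  obtain ⟨ε, hε, hball⟩ := Metric.eventually_nhds_iff_ball.1 (hc.eventually_const_lt hlt)
  obtain ⟨t, ht, l, hl, hlt'⟩ := recur hspan (ζ • v) hε ((C + 1) / ω + 1)
  have h1 := hdec t ht
  have h2 : rh W θ (s₀ + (t : ℂ) • ζ • v) = rh W θ (s₀ + ((t : ℂ) • ζ • v - l)) := by
    rw [← hper l hl (s₀ + ((t : ℂ) • ζ • v - l))]
    congr 1
    module
  have h3 := hball (s₀ + ((t : ℂ) • ζ • v - l)) (by rw [Metric.mem_ball, dist_eq_norm, add_sub_cancel_left]; exact hlt')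
  linarith

/-- the product of three translates -/
def gf (θ : Cn n → ℂ) (p : Cn n × Cn n) (y : Cn n) : ℂ := θ (y + p.1) * θ (y + p.2) * θ (y - p.1 - p.2)

theorem gf_diff {θ : Cn n → ℂ} (hθ : Differentiable ℂ θ) (p : Cn n × Cn n) : Differentiable ℂ (gf θ p) := by
  have h1 : Differentiable ℂ fun y : Cn n => θ (y + p.1) := hθ.comp (by fun_prop)
  have h2 : Differentiable ℂ fun y : Cn n => θ (y + p.2) := hθ.comp (by fun_prop)
  have h3 : Differentiable ℂ fun y : Cn n => θ (y - p.1 - p.2) := hθ.comp (by fun_prop)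
  exact (h1.mul h2).mul h3

/-- the derivative of the product of three translates -/
theorem gf_fderiv {θ : Cn n → ℂ} (hθ : Differentiable ℂ θ) (p : Cn n × Cn n) (y v : Cn n) : fderiv ℂ (gf θ p) y v =
    fderiv ℂ θ (y + p.1) v * θ (y + p.2) * θ (y - p.1 - p.2) + θ (y + p.1) * fderiv ℂ θ (y + p.2) v * θ (y - p.1 - p.2) + θ (y + p.1) * θ (y + p.2) * fderiv ℂ θ (y - p.1 - p.2) v := by
  have h1 : ∀ a : Cn n, HasFDerivAt (fun y : Cn n => θ (y + a)) (fderiv ℂ θ (y + a)) y := fun a => (hasFDerivAt_comp_add_right a).2 (hθ (y + a)).hasFDerivAt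
  have h3 : HasFDerivAt (fun y : Cn n => θ (y - p.1 - p.2)) (fderiv ℂ θ (y - p.1 - p.2)) y := by
    have h4 := h1 (-p.1 - p.2)
    simp only [show ∀ y : Cn n, y + (-p.1 - p.2) = y - p.1 - p.2 from fun y => by abel] at h4
    exact h4
  have h5 := (((h1 p.1).mul (h1 p.2)).mul h3).fderiv
  have h6 : gf θ p = (fun y => θ (y + p.1) * θ (y + p.2)) * fun y => θ (y - p.1 - p.2) := rfl
  rw [h6]
  erw [h5]
  simp only [Pi.mul_apply, add_apply, smul_apply, smul_eq_mul]
  ring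

/-- the multiplier -/
def mu {r : ℕ} (W : Fin r → Cn n →L[ℂ] ℂ) (c : ℂ) (l y : Cn n) : ℂ := (c * Complex.exp (ex W l y)) ^ 3

theorem gf_mul {r : ℕ} {W : Fin r → Cn n →L[ℂ] ℂ} {c : ℂ} {l : Cn n} {θ : Cn n → ℂ} (h : ∀ y, θ (y + l) = c * Complex.exp (ex W l y) * θ y) (p : Cn n × Cn n) (y : Cn n) : gf θ p (y + l) = mu W c l y * gf θ p y := by
  unfold gf mu
  rw [show y + l + p.1 = y + p.1 + l by abel, show y + l + p.2 = y + p.2 + l by abel, show y + l - p.1 - p.2 = y - p.1 - p.2 + l by abel, h, h, h]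
  have h1 : Complex.exp (ex W l (y + p.1)) * Complex.exp (ex W l (y + p.2)) * Complex.exp (ex W l (y - p.1 - p.2)) = Complex.exp (ex W l y) ^ 3 := by
    rw [← Complex.exp_add, ← Complex.exp_add, ← Complex.exp_nat_mul]
    congr 1
    rw [ex_add, ex_add, ex_sub, ex_sub]
    push_cast
    ring
  rw [mul_pow, ← h1]
  ring

theorem gf_type {Λ : AddSubgroup (Cn (κ + 1))} {θ : Fin (d + 1) → Cn (κ + 1) → ℂ} (hd : ∀ i, Differentiable ℂ (θ i)) {r : ℕ} {W : Fin r → Cn (κ + 1) →L[ℂ] ℂ}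
    (h : ∀ l ∈ Λ, ∃ c : ℂ, ‖c‖ = Real.exp (∑ j, ‖W j l‖ ^ 2) ∧ ∀ y i, θ i (y + l) = c * Complex.exp (ex W l y) * θ i y) (i₀ : Fin (d + 1)) (p : Cn (κ + 1) × Cn (κ + 1)) : IsType Λ θ 3 (gf (θ i₀) p) := by
  refine ⟨gf_diff (hd i₀) p, fun l hl y i => ?_⟩
  obtain ⟨c, -, hc⟩ := h l hl
  rw [gf_mul (fun y => hc y i₀) p y, hc y i]
  unfold mu
  ring

/-- the gradients of the quotients span -/
theorem gf_span {Λ : AddSubgroup (Cn (κ + 1))} (hspan : Submodule.span ℝ (Λ : Set (Cn (κ + 1))) = ⊤) {r : ℕ} {W : Fin r → Cn (κ + 1) →L[ℂ] ℂ} (hW : ∀ y, (∀ j, W j y = 0) → y = 0) {θ : Cn (κ + 1) → ℂ}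
    (hθ : Differentiable ℂ θ) (hper : ∀ l ∈ Λ, ∀ y, rh W θ (y + l) = rh W θ y) {s₀ : Cn (κ + 1)} (h0 : θ s₀ ≠ 0) (y : Cn (κ + 1)) {c : Cn (κ + 1) × Cn (κ + 1)} (hc : gf θ c y ≠ 0) :
    Submodule.span ℂ (Set.range fun p => (fun i => wr (gf θ c) (gf θ p) i y : Cn (κ + 1))) = ⊤ := by
  by_contra hne
  obtain ⟨f, hf0, hf⟩ := Submodule.exists_le_ker_of_lt_top _ (lt_top_iff_ne_top.2 hne)
  set v : Cn (κ + 1) := fun i => f (Pi.single i 1) with hv
  have hfv : ∀ x : Cn (κ + 1), f x = ∑ i, x i * v i := by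
    intro x
    conv_lhs => rw [← Finset.univ_sum_single x]
    rw [map_sum]
    refine Finset.sum_congr rfl fun i _ => ?_
    rw [show (Pi.single i (x i) : Cn (κ + 1)) = x i • Pi.single i 1 by rw [← Pi.single_smul, smul_eq_mul, mul_one], map_smul, smul_eq_mul]
  have hv0 : v ≠ 0 := by
    intro h1
    refine hf0 (LinearMap.ext fun x => ?_)
    rw [hfv x, h1]
    simp
  have hder : ∀ g : Cn (κ + 1) → ℂ, fderiv ℂ g y v = ∑ i, pd g i y * v i := by
    intro g
    have h1 : v = ∑ i, v i • (Pi.single i 1 : Cn (κ + 1)) := by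
      conv_lhs => rw [← Finset.univ_sum_single v]
      refine Finset.sum_congr rfl fun i _ => ?_
      rw [← Pi.single_smul, smul_eq_mul, mul_one]
    conv_lhs => rw [h1]
    rw [map_sum]
    refine Finset.sum_congr rfl fun i _ => ?_
    rw [map_smul, smul_eq_mul, mul_comm]
    rfl
  set k : ℂ := fderiv ℂ (gf θ c) y v / gf θ c y with hk
  have hall : ∀ p, fderiv ℂ (gf θ p) y v = k * gf θ p y := by
    intro p
    have h1 : f (fun i => wr (gf θ c) (gf θ p) i y) = 0 := hf (Submodule.subset_span ⟨p, rfl⟩)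
    rw [hfv] at h1
    have h2 : gf θ c y * fderiv ℂ (gf θ p) y v - gf θ p y * fderiv ℂ (gf θ c) y v = 0 := by
      rw [hder, hder, Finset.mul_sum, Finset.mul_sum, ← Finset.sum_sub_distrib, ← h1]
      refine Finset.sum_congr rfl fun i _ => ?_
      unfold wr
      ring
    rw [hk, div_mul_eq_mul_div, eq_div_iff hc]
    linear_combination h2
  have hC : Cub θ v y k := by
    intro s t
    have h1 := hall (s - y, t - y)
    rw [gf_fderiv hθ] at h1
    unfold gf at h1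
    simp only [add_sub_cancel] at h1
    rw [show y - (s - y) - (t - y) = 3 • y - s - t by module] at h1
    exact h1
  obtain ⟨α, β, h1⟩ := line_exp hθ hC h0
  exact line_false hspan hW hθ hper hv0 h0 h1

/-- a spanning family contains a basis -/
theorem exists_basis_det {m : ℕ} {ι : Type} {V : ι → Cn m} (h : Submodule.span ℂ (Set.range V) = ⊤) : ∃ b : Fin m → ι, (Matrix.of fun i j => V (b j) i).det ≠ 0 := by
  obtain ⟨s, hs, hspan, hli⟩ := exists_linearIndependent ℂ (Set.range V)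
  have h1 : Submodule.span ℂ s = ⊤ := by rw [hspan, h]
  have hb : ∃ b : Module.Basis s ℂ (Cn m), ∀ x, b x = x := by
    refine ⟨Module.Basis.mk hli (by rw [Subtype.range_coe_subtype, Set.setOf_mem_eq, h1]), fun x => by simp⟩
  obtain ⟨b, hb⟩ := hb
  haveI : Fintype s := Module.Basis.fintypeIndexOfRankLtAleph0 b (by
    rw [rank_fin_fun]
    exact Cardinal.natCast_lt_aleph0)
  have hcard : Fintype.card s = m := by
    rw [← Module.finrank_eq_card_basis b, Module.finrank_fin_fun]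
  let e : Fin m ≃ s := (Fin.castOrderIso hcard.symm).toEquiv.trans (Fintype.equivFin s).symm
  choose g hg using fun x : s => hs x.2
  refine ⟨fun j => g (e j), ?_⟩
  have h2 : LinearIndependent ℂ fun j : Fin m => V (g (e j)) := by
    have h3 : (fun j : Fin m => V (g (e j))) = (fun x : s => (x : Cn m)) ∘ e := by
      funext j
      exact hg (e j)
    rw [h3]
    exact hli.comp _ e.injective
  have h4 : (Matrix.of fun i j => V (g (e j)) i) = (Matrix.of fun j i => V (g (e j)) i).transpose := rfl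
  rw [h4, Matrix.det_transpose]
  have h5 : LinearIndependent ℂ (Matrix.of fun j i => V (g (e j)) i).row := h2
  have h6 := Matrix.linearIndependent_rows_iff_isUnit.1 h5
  exact ((Matrix.isUnit_iff_isUnit_det _).1 h6).ne_zero

/-- `wr` under a translation by a lattice vector -/
theorem wr_mul {g h E : Cn (κ + 1) → ℂ} (hg : Differentiable ℂ g) (hh : Differentiable ℂ h) (hE : Differentiable ℂ E) {l : Cn (κ + 1)} (e1 : ∀ y, g (y + l) = E y * g y) (e2 : ∀ y, h (y + l) = E y * h y)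
    (i : Fin (κ + 1)) (y : Cn (κ + 1)) : wr g h i (y + l) = E y ^ 2 * wr g h i y := by
  have key : ∀ {f : Cn (κ + 1) → ℂ}, Differentiable ℂ f → (∀ y, f (y + l) = E y * f y) → pd f i (y + l) = E y * pd f i y + pd E i y * f y := by
    intro f hf e
    have h1 : HasFDerivAt (fun y => f (y + l)) (fderiv ℂ f (y + l)) y := (hasFDerivAt_comp_add_right l).2 (hf (y + l)).hasFDerivAt
    have h2 : HasFDerivAt (fun y => f (y + l)) (E y • fderiv ℂ f y + f y • fderiv ℂ E y) y := by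
      rw [show (fun y => f (y + l)) = fun y => E y * f y from funext e]
      exact (hE y).hasFDerivAt.mul (hf y).hasFDerivAt
    unfold pd
    rw [h1.unique h2]
    simp only [add_apply, smul_apply, smul_eq_mul]
    ring
  unfold wr
  rw [key hg e1, key hh e2, e1, e2]
  ring

theorem pd_cont {g : Cn (κ + 1) → ℂ} (hg : Differentiable ℂ g) (i : Fin (κ + 1)) : Continuous (pd g i) := by
  rw [continuous_iff_continuousAt]
  intro y
  have h1 : ContinuousAt (fderiv ℂ g) y := (an_of_diff hg y).fderiv.continuousAt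
  exact h1.clm_apply continuousAt_const

theorem wr_cont {g h : Cn (κ + 1) → ℂ} (hg : Differentiable ℂ g) (hh : Differentiable ℂ h) (i : Fin (κ + 1)) : Continuous (wr g h i) := by
  unfold wr
  exact (hg.continuous.mul (pd_cont hh i)).sub (hh.continuous.mul (pd_cont hg i))

/-- **the family** -/
theorem exists_fam {Λ : AddSubgroup (Cn (κ + 1))} (hspan : Submodule.span ℝ (Λ : Set (Cn (κ + 1))) = ⊤) {θ : Fin (d + 1) → Cn (κ + 1) → ℂ} (h : IsThetaForm Λ θ) (hne : ∃ i y, θ i y ≠ 0) :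
    ∃ (r : ℕ) (Θ : Fin r → Cn (κ + 1) → ℂ), Fam Λ θ Θ := by
  classical
  obtain ⟨r, W, hW, haut⟩ := automorphy h hne
  obtain ⟨i₀, s₀, h0⟩ := hne
  have hθ := h.holomorphic i₀
  have hper : ∀ l ∈ Λ, ∀ y, rh W (θ i₀) (y + l) = rh W (θ i₀) y := by
    intro l hl y
    obtain ⟨c, hc, hc'⟩ := haut l hl
    unfold rh
    rw [hc' y i₀, norm_mul, norm_mul, hc, Complex.norm_exp, sum_sq_add W l y, mul_assoc, mul_comm ‖θ i₀ y‖, ← mul_assoc, ← Real.exp_add, ← Real.exp_add, mul_comm]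
    congr 2
    ring
  -- a chart at every point
  have hch : ∀ y, ∃ (c : Cn (κ + 1) × Cn (κ + 1)) (b : Fin (κ + 1) → Cn (κ + 1) × Cn (κ + 1)), gf (θ i₀) c y ≠ 0 ∧ (Matrix.of fun i j => wr (gf (θ i₀) c) (gf (θ i₀) (b j)) i y).det ≠ 0 := by
    intro y
    obtain ⟨t, ht, hr⟩ := exists_t hθ h0 y s₀
    have hc : gf (θ i₀) (s₀ - y, t - y) y ≠ 0 := by
      unfold gf
      simp only [add_sub_cancel]
      rw [show y - (s₀ - y) - (t - y) = 3 • y - s₀ - t by module]
      exact mul_ne_zero (mul_ne_zero h0 ht) hr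
    obtain ⟨b, hb⟩ := exists_basis_det (gf_span hspan hW hθ hper h0 y hc)
    exact ⟨_, b, hc, hb⟩
  choose c b hc hb using hch
  set O : Cn (κ + 1) → Set (Cn (κ + 1)) := fun x => {y | gf (θ i₀) (c x) y ≠ 0 ∧ (Matrix.of fun i j => wr (gf (θ i₀) (c x)) (gf (θ i₀) (b x j)) i y).det ≠ 0} with hO
  have hOn : ∀ x, O x ∈ 𝓝 x := by
    intro x
    have h1 : ContinuousAt (gf (θ i₀) (c x)) x := (gf_diff hθ _).continuous.continuousAt
    have h2 : ContinuousAt (fun y => (Matrix.of fun i j => wr (gf (θ i₀) (c x)) (gf (θ i₀) (b x j)) i y).det) x := by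
      refine Continuous.continuousAt (Continuous.matrix_det ?_)
      exact continuous_matrix fun i j => wr_cont (gf_diff hθ _) (gf_diff hθ _) i
    exact (h1.eventually_ne (hc x)).and (h2.eventually_ne (hb x))
  obtain ⟨C, hC, hcoc⟩ := g4_cocompact hspan
  obtain ⟨T, -, hT⟩ := (isCompact_closedBall (0 : Cn (κ + 1)) C).elim_nhds_subcover O fun x _ => hOn x
  -- the family
  let I := {x // x ∈ T} × Option (Fin (κ + 1))
  let P : I → Cn (κ + 1) × Cn (κ + 1) := fun i => match i.2 with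
    | none => c i.1
    | some j => b i.1 j
  let e := Fintype.equivFin I
  refine ⟨Fintype.card I, fun a => gf (θ i₀) (P (e.symm a)), fun a => gf_type h.holomorphic haut i₀ _, fun y => ?_⟩
  obtain ⟨l, hl, hly⟩ := hcoc y
  obtain ⟨x, hx, hxy⟩ : ∃ x ∈ T, y - l ∈ O x := by
    have h1 := hT (show y - l ∈ Metric.closedBall (0 : Cn (κ + 1)) C by rw [mem_closedBall_zero_iff]; exact hly)
    simpa using h1
  obtain ⟨cl, -, hcl⟩ := haut l hl
  have hmul : ∀ p z, gf (θ i₀) p (z + l) = mu W cl l z * gf (θ i₀) p z := fun p z => gf_mul (fun y => hcl y i₀) p z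
  have hmd : Differentiable ℂ (mu W cl l) := by
    unfold mu
    exact (((ex_diff W l).cexp).const_mul _).pow 3
  have hm0 : mu W cl l (y - l) ≠ 0 := by
    intro h1
    have h2 : ∀ p, gf (θ i₀) p y = 0 := fun p => by
      have h3 := hmul p (y - l)
      rw [sub_add_cancel, h1, zero_mul] at h3
      exact h3
    exact hc y (h2 _)
  refine ⟨e (⟨x, hx⟩, none), fun j => e (⟨x, hx⟩, some j), ?_, ?_⟩
  · have h1 : gf (θ i₀) (c x) y = mu W cl l (y - l) * gf (θ i₀) (c x) (y - l) := by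
      rw [← hmul, sub_add_cancel]
    simp only [Equiv.symm_apply_apply]
    show gf (θ i₀) (c x) y ≠ 0
    rw [h1]
    exact mul_ne_zero hm0 hxy.1
  · simp only [Equiv.symm_apply_apply]
    show (Matrix.of fun i j => wr (gf (θ i₀) (c x)) (gf (θ i₀) (b x j)) i y).det ≠ 0
    have h1 : (Matrix.of fun i j => wr (gf (θ i₀) (c x)) (gf (θ i₀) (b x j)) i y) = (mu W cl l (y - l) ^ 2) • (Matrix.of fun i j => wr (gf (θ i₀) (c x)) (gf (θ i₀) (b x j)) i (y - l)) := by
      ext i j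
      simp only [Matrix.of_apply, Matrix.smul_apply, smul_eq_mul]
      rw [← wr_mul (gf_diff hθ _) (gf_diff hθ _) hmd (hmul _) (hmul _) i (y - l), sub_add_cancel]
    rw [h1, Matrix.det_smul]
    exact mul_ne_zero (pow_ne_zero _ (pow_ne_zero _ hm0)) hxy.2

end Pool.Agent.LG
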