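import Pool.Agent.LG.G4a

/-!
# LG G4b: theta functions: no logarithmic derivative is affine in the sense of the theorem of the cube

`line_false`: for a vector `v ≠ 0` there is no constant `k` with `D s / θ s + D t / θ t + D r / θ r = k` for all `s + t + r = 3 y`, `D = ∂_v θ`.
-/

set_option autoImplicit false

open Topology Filter MvPolynomial
open Pool.Agent.PXF (Cn form IsThetaForm ThreePoints)

noncomputable section

namespace Pool.Agent.LG

variable {n κ d : ℕ}

/-- the derivative along a line -/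
theorem hasDeriv_line {θ : Cn n → ℂ} (hθ : Differentiable ℂ θ) (a v : Cn n) (z : ℂ) : HasDerivAt (fun z : ℂ => θ (a + z • v)) (fderiv ℂ θ (a + z • v) v) z := by
  have h1 : HasDerivAt (fun z : ℂ => a + z • v) v z := by
    simpa using ((hasDerivAt_id z).smul_const v).const_add a
  exact ((hθ (a + z • v)).hasFDerivAt).comp_hasDerivAt z h1

theorem one_mul_ne {f g : ℂ → ℂ} (hf : Differentiable ℂ f) (hg : Differentiable ℂ g) {p q : ℂ} (hp : f p ≠ 0) (hq : g q ≠ 0) : ∃ z, f z ≠ 0 ∧ g z ≠ 0 := by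
  by_contra! H
  have h1 : ∀ᶠ y in 𝓝 p, f y ≠ 0 := (hf.continuous.continuousAt (x := p)).eventually_ne hp
  have h2 : AnalyticOnNhd ℂ g Set.univ := fun y _ => hg.analyticAt y
  exact hq (h2.eqOn_zero_of_preconnected_of_eventuallyEq_zero isPreconnected_univ (Set.mem_univ p) (h1.mono fun y hy => H y hy) (Set.mem_univ q))

/-- a solution of `h' = A h`, `A` analytic, with a zero is zero -/
theorem ode_zero {h A : ℂ → ℂ} (hh : Differentiable ℂ h) {z₁ : ℂ} (hA : AnalyticAt ℂ A z₁) (hd : ∀ᶠ z in 𝓝 z₁, deriv h z = A z * h z) (h0 : h z₁ = 0) : ∀ z, h z = 0 := by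
  have h1 : analyticOrderAt (deriv h) z₁ + 1 = analyticOrderAt h z₁ := by
    have := (hh.analyticAt z₁).analyticOrderAt_deriv_add_one
    rw [this]
    congr 1
    funext z
    simp [h0]
  have h2 : analyticOrderAt (deriv h) z₁ = analyticOrderAt A z₁ + analyticOrderAt h z₁ := by
    rw [analyticOrderAt_congr (show deriv h =ᶠ[𝓝 z₁] A * h from hd), analyticOrderAt_mul hA (hh.analyticAt z₁)]
  have h3 : analyticOrderAt h z₁ = ⊤ := by
    by_contra hne
    lift analyticOrderAt h z₁ to ℕ using hne with m hm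
    rw [h2] at h1
    cases hA' : analyticOrderAt A z₁ with
    | top => rw [hA'] at h1; simp at h1
    | coe a =>
      rw [hA'] at h1
      have : a + m + 1 = m := by exact_mod_cast h1
      omega
  have h4 := analyticOrderAt_eq_top.1 h3
  have h5 : AnalyticOnNhd ℂ h Set.univ := fun y _ => hh.analyticAt y
  have h6 := h5.eqOn_zero_of_preconnected_of_eventuallyEq_zero isPreconnected_univ (Set.mem_univ z₁) h4
  exact fun z => h6 (Set.mem_univ z)

/-- the identity of the theorem of the cube, along lines -/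
def Cub (θ : Cn n → ℂ) (v : Cn n) (y : Cn n) (k : ℂ) : Prop :=
  ∀ s t, fderiv ℂ θ s v * θ t * θ (3 • y - s - t) + θ s * fderiv ℂ θ t v * θ (3 • y - s - t) + θ s * θ t * fderiv ℂ θ (3 • y - s - t) v = k * (θ s * θ t * θ (3 • y - s - t))

variable {θ : Cn n → ℂ} {v y : Cn n} {k : ℂ}

theorem diff_line (hθ : Differentiable ℂ θ) (a v : Cn n) : Differentiable ℂ fun z : ℂ => θ (a + z • v) := fun z => (hasDeriv_line hθ a v z).differentiableAt

/-- a point for the second variable -/
theorem exists_t (hθ : Differentiable ℂ θ) {s₀ : Cn n} (h0 : θ s₀ ≠ 0) (y s : Cn n) : ∃ t, θ t ≠ 0 ∧ θ (3 • y - s - t) ≠ 0 := by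
  have h1 : Differentiable ℂ fun t : Cn n => θ (3 • y - s - t) := hθ.comp (by fun_prop)
  refine entire_mul hθ h1 h0 (q := 3 • y - s - s₀) ?_
  simpa using h0

/-- `θ` has no zeros on a line in the direction `v` through a point where it is not zero -/
theorem line_ne (hθ : Differentiable ℂ θ) (hC : Cub θ v y k) {s₀ : Cn n} (h0 : θ s₀ ≠ 0) (z : ℂ) : θ (s₀ + z • v) ≠ 0 := by
  intro hz
  obtain ⟨t₀, ht, hr⟩ := exists_t hθ h0 y (s₀ + z • v)
  set r₀ := 3 • y - (s₀ + z • v) - t₀ with hr₀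
  -- `s = s₀ + z' v`, `t = t₀`, `r = r₀ - (z' - z) v`
  have hrd : Differentiable ℂ fun z' : ℂ => θ (r₀ + (-(z' - z)) • v) := (diff_line hθ r₀ v).comp (by fun_prop)
  have hrd' : Differentiable ℂ fun z' : ℂ => fderiv ℂ θ (r₀ + (-(z' - z)) • v) v := by
    have h1 : Differentiable ℂ fun z' : ℂ => fderiv ℂ θ (r₀ + z' • v) v := by
      have h2 : (fun z' : ℂ => fderiv ℂ θ (r₀ + z' • v) v) = deriv fun z : ℂ => θ (r₀ + z • v) := by
        funext z'
        exact (hasDeriv_line hθ r₀ v z').deriv.symm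
      rw [h2]
      exact fun w => ((diff_line hθ r₀ v).analyticAt w).deriv.differentiableAt
    exact h1.comp (f := fun z' : ℂ => -(z' - z)) (by fun_prop)
  set A : ℂ → ℂ := fun z' => (k * (θ t₀ * θ (r₀ + (-(z' - z)) • v)) - fderiv ℂ θ t₀ v * θ (r₀ + (-(z' - z)) • v) - θ t₀ * fderiv ℂ θ (r₀ + (-(z' - z)) • v) v) / (θ t₀ * θ (r₀ + (-(z' - z)) • v)) with hA
  have hrz : θ (r₀ + (-(z - z)) • v) ≠ 0 := by simpa using hr
  have hAan : AnalyticAt ℂ A z := by
    refine AnalyticAt.div ?_ ?_ (mul_ne_zero ht hrz)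
    · exact (((hrd.const_mul (θ t₀)).const_mul k).sub (hrd.const_mul (fderiv ℂ θ t₀ v)) |>.sub (hrd'.const_mul (θ t₀))).analyticAt z
    · exact (hrd.const_mul (θ t₀)).analyticAt z
  have hev : ∀ᶠ z' in 𝓝 z, deriv (fun z' : ℂ => θ (s₀ + z' • v)) z' = A z' * θ (s₀ + z' • v) := by
    filter_upwards [(hrd.continuous.continuousAt (x := z)).eventually_ne hrz] with z' hz'
    rw [(hasDeriv_line hθ s₀ v z').deriv]
    have h1 := hC (s₀ + z' • v) t₀
    have h2 : 3 • y - (s₀ + z' • v) - t₀ = r₀ + (-(z' - z)) • v := by rw [hr₀]; module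
    rw [h2] at h1
    rw [hA]
    simp only
    rw [div_mul_eq_mul_div, eq_div_iff (mul_ne_zero ht hz')]
    linear_combination h1
  have h2 := ode_zero (diff_line hθ s₀ v) hAan hev hz 0
  exact h0 (by simpa using h2)

/-- the logarithmic derivative -/
def lq (θ : Cn n → ℂ) (v a : Cn n) (z : ℂ) : ℂ := fderiv ℂ θ (a + z • v) v / θ (a + z • v)

theorem lq_diff (hθ : Differentiable ℂ θ) {a : Cn n} (h : ∀ z : ℂ, θ (a + z • v) ≠ 0) : Differentiable ℂ (lq θ v a) := by
  have h2 : (fun z' : ℂ => fderiv ℂ θ (a + z' • v) v) = deriv fun z : ℂ => θ (a + z • v) := by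
    funext z'
    exact (hasDeriv_line hθ a v z').deriv.symm
  have h1 : Differentiable ℂ fun z' : ℂ => fderiv ℂ θ (a + z' • v) v := by
    rw [h2]
    exact fun w => ((diff_line hθ a v).analyticAt w).deriv.differentiableAt
  exact h1.div (diff_line hθ a v) h

/-- `θ` is the exponential of a quadratic polynomial on the lines in the direction `v` -/
theorem line_exp (hθ : Differentiable ℂ θ) (hC : Cub θ v y k) {s₀ : Cn n} (h0 : θ s₀ ≠ 0) : ∃ α β : ℂ, ∀ z : ℂ, θ (s₀ + z • v) = θ s₀ * Complex.exp (β * z + α * z ^ 2) := by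
  obtain ⟨t₀, ht, hr⟩ := exists_t hθ h0 y s₀
  set r₀ := 3 • y - s₀ - t₀ with hr₀
  have hs' := line_ne hθ hC h0
  have ht' := line_ne hθ hC ht
  have hr' := line_ne hθ hC hr
  have key : ∀ z z' : ℂ, lq θ v s₀ z + lq θ v t₀ z' + lq θ v r₀ (-z - z') = k := by
    intro z z'
    have h1 := hC (s₀ + z • v) (t₀ + z' • v)
    have h2 : 3 • y - (s₀ + z • v) - (t₀ + z' • v) = r₀ + (-z - z') • v := by rw [hr₀]; module
    rw [h2] at h1
    have e1 := hs' z
    have e2 := ht' z'
    have e3 := hr' (-z - z')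
    unfold lq
    field_simp
    linear_combination h1
  set P := lq θ v s₀ with hP
  set Q := lq θ v t₀ with hQ
  have hadd : ∀ z z' : ℂ, P (z + z') = P z + Q z' - Q 0 := by
    intro z z'
    have h1 := key z z'
    have h2 := key (z + z') 0
    rw [show -(z + z') - 0 = -z - z' by ring] at h2
    linear_combination h2 - h1
  have hPd : Differentiable ℂ P := lq_diff hθ hs'
  have hder : ∀ z : ℂ, deriv P z = deriv P 0 := by
    intro z
    have h1 : (fun w : ℂ => P (w + z)) = fun w => P w + (Q z - Q 0) := by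
      funext w
      rw [hadd w z]
      ring
    have h2 : deriv (fun w : ℂ => P (w + z)) 0 = deriv P z := by
      rw [deriv_comp_add_const, zero_add]
    rw [← h2, h1, deriv_add_const]
  have hPlin : ∀ z : ℂ, P z = P 0 + deriv P 0 * z := by
    intro z
    have h1 : Differentiable ℂ fun z => P z - deriv P 0 * z := hPd.sub (differentiable_id.const_mul _)
    have h2 : ∀ z, deriv (fun z => P z - deriv P 0 * z) z = 0 := by
      intro z
      have h3 : HasDerivAt (fun z => P z - deriv P 0 * z) (deriv P z - deriv P 0 * 1) z := (hPd z).hasDerivAt.sub ((hasDerivAt_id z).const_mul _)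
      rw [h3.deriv, hder z, mul_one, sub_self]
    have h4 := is_const_of_deriv_eq_zero h1 h2 z 0
    simp only [mul_zero, sub_zero] at h4
    linear_combination h4
  refine ⟨deriv P 0 / 2, P 0, fun z => ?_⟩
  set β := P 0
  set γ := deriv P 0
  have h1 : ∀ z : ℂ, HasDerivAt (fun z : ℂ => θ (s₀ + z • v) * Complex.exp (-(β * z + γ / 2 * z ^ 2)))
      (fderiv ℂ θ (s₀ + z • v) v * Complex.exp (-(β * z + γ / 2 * z ^ 2)) + θ (s₀ + z • v) * (Complex.exp (-(β * z + γ / 2 * z ^ 2)) * (-(β * 1 + γ / 2 * (2 * z ^ 1 * 1))))) z := by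
    intro z
    refine (hasDeriv_line hθ s₀ v z).mul ?_
    have h2 : HasDerivAt (fun z : ℂ => -(β * z + γ / 2 * z ^ 2)) (-(β * 1 + γ / 2 * (2 * z ^ 1 * 1))) z := by
      refine (((hasDerivAt_id z).const_mul β).add ?_).neg
      have h3 := ((hasDerivAt_id z).pow 2).const_mul (γ / 2)
      simpa using h3
    exact h2.cexp
  have h2 : ∀ z : ℂ, deriv (fun z : ℂ => θ (s₀ + z • v) * Complex.exp (-(β * z + γ / 2 * z ^ 2))) z = 0 := by
    intro z
    rw [(h1 z).deriv]
    have h3 : fderiv ℂ θ (s₀ + z • v) v = (β + γ * z) * θ (s₀ + z • v) := by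
      have h4 : P z = fderiv ℂ θ (s₀ + z • v) v / θ (s₀ + z • v) := rfl
      rw [hPlin z] at h4
      rw [h4, div_mul_cancel₀ _ (hs' z)]
    rw [h3]
    ring
  have h3 := is_const_of_deriv_eq_zero (fun z => (h1 z).differentiableAt) h2 z 0
  simp only [zero_smul, add_zero, mul_zero, ne_eq, OfNat.ofNat_ne_zero, not_false_eq_true, zero_pow, neg_zero, Complex.exp_zero, mul_one] at h3
  rw [← h3, mul_assoc, ← Complex.exp_add, neg_add_cancel, Complex.exp_zero, mul_one]

end Pool.Agent.LG
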