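import Pool.Agent.LG.Defs
import Pool.Agent.H7.Bir.Open
import Pool.Agent.PX.F.FDefs

/-!
# LG GD: the geometric definitions

`Q` is a homogeneous prime ideal, `ξ` its generic point in the function field `K` (`GP`), `Cone Q a`: `a` is a nonzero vector of the cone over the variety `Z` of `Q`.

* `RegAt ξ a f c`: `f ∈ K` is regular at the point `a` of `Z`, with the value `c`.
* `L a y`: `y ∈ ℂ^n` is over the image of the point `a` in the torus `ℂ^n / Λ` (`Lft`: the properties of a holomorphic map).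
* `V a q`: `q ∈ ℂ²` are homogeneous coordinates of the image of `a` in `ℙ¹` (`VMap`: the properties of a regular map).
* `IsType Λ θ m g`: `g` is a theta function of the type of the products of `m` of the functions `θ i`.  `wr g h i = g ∂_i h - h ∂_i g`.
* `RegL`: the map to the torus is regular.  `NZ Q L h`: `{h ≠ 0}` contains a nonempty Zariski open subset of `Z`.
* `IsVal Q ξ L f g h`: the rational function `f` on `Z` is the pull-back of `g / h`.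
* `Fam Λ θ Θ`: the `Θ a` are theta functions of type 3, and near every point of the torus some of their quotients are local coordinates.
* `Geo`: all hypotheses about `Z`.
-/

set_option autoImplicit false

open Topology Filter MvPolynomial
open Pool.Agent.H23 (RatForm regularForms PrimeDivisorOver fc dualDer)
open Pool.Agent.PXF (Cn form IsThetaForm ThreePoints)

noncomputable section

namespace Pool.Agent.LG

variable {K : Type} [Field K] [Algebra ℂ K] {N κ d : ℕ}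

/-- nonzero vectors of the cone -/
def Cone (Q : Ideal (MvPolynomial (Fin (N + 1)) ℂ)) (a : Fin (N + 1) → ℂ) : Prop := a ≠ 0 ∧ ∀ F ∈ Q, eval a F = 0

/-- the generic point -/
structure GP (Q : Ideal (MvPolynomial (Fin (N + 1)) ℂ)) (ξ : Fin (N + 1) → K) : Prop where
  ne : ξ ≠ 0
  zero : ∀ (D : ℕ) (F : MvPolynomial (Fin (N + 1)) ℂ), F.IsHomogeneous D → (aeval ξ F = 0 ↔ F ∈ Q)
  gen : IntermediateField.adjoin ℂ {y | ∃ i j, y = ξ i / ξ j} = ⊤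

/-- `f` is regular at the point `a`, with the value `c` -/
def RegAt (ξ : Fin (N + 1) → K) (a : Fin (N + 1) → ℂ) (f : K) (c : ℂ) : Prop :=
  ∃ (D : ℕ) (A B : MvPolynomial (Fin (N + 1)) ℂ), A.IsHomogeneous D ∧ B.IsHomogeneous D ∧ eval a B ≠ 0 ∧ f * aeval ξ B = aeval ξ A ∧ eval a A = c * eval a B

/-- the centre of `E` is in the common zero set of the `G m` -/
def BdG {k s : ℕ} (ξ : Fin (N + 1) → K) (G : Fin s → MvPolynomial (Fin (N + 1)) ℂ) (E : PrimeDivisorOver K k) : Prop :=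
  ∃ j, ξ j ≠ 0 ∧ (∀ i, 0 ≤ E.ord (ξ i / ξ j)) ∧ ∀ m, 0 < E.ord (aeval (fun i => ξ i / ξ j) (G m))

/-- `g` is a theta function of the type of a product of `m` of the functions `θ i` -/
def IsType (Λ : AddSubgroup (Cn (κ + 1))) (θ : Fin (d + 1) → Cn (κ + 1) → ℂ) (m : ℕ) (g : Cn (κ + 1) → ℂ) : Prop :=
  Differentiable ℂ g ∧ ∀ l ∈ Λ, ∀ y i, g (y + l) * θ i y ^ m = θ i (y + l) ^ m * g y

/-- `∂_i g` -/
def pd (g : Cn (κ + 1) → ℂ) (i : Fin (κ + 1)) (y : Cn (κ + 1)) : ℂ := fderiv ℂ g y (Pi.single i 1)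

/-- `g ∂_i h - h ∂_i g` -/
def wr (g h : Cn (κ + 1) → ℂ) (i : Fin (κ + 1)) (y : Cn (κ + 1)) : ℂ := g y * pd h i y - h y * pd g i y

/-- the lifts of the points of the torus -/
structure Lft (Q : Ideal (MvPolynomial (Fin (N + 1)) ℂ)) (Λ : AddSubgroup (Cn (κ + 1))) (L : (Fin (N + 1) → ℂ) → Cn (κ + 1) → Prop) : Prop where
  ex : ∀ a, Cone Q a → ∃ y, L a y
  add : ∀ a y, L a y → ∀ y', L a y' ↔ y' - y ∈ Λ
  curve : ∀ γ : ℂ → Fin (N + 1) → ℂ, AnalyticAt ℂ γ 0 → (∀ᶠ t in 𝓝 (0 : ℂ), Cone Q (γ t)) → ∀ y₀, L (γ 0) y₀ →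
    ∃ y : ℂ → Cn (κ + 1), AnalyticAt ℂ y 0 ∧ y 0 = y₀ ∧ ∀ᶠ t in 𝓝 (0 : ℂ), L (γ t) (y t)

/-- the map to the torus is regular -/
def RegL (Q : Ideal (MvPolynomial (Fin (N + 1)) ℂ)) (Λ : AddSubgroup (Cn (κ + 1))) (θ : Fin (d + 1) → Cn (κ + 1) → ℂ) (L : (Fin (N + 1) → ℂ) → Cn (κ + 1) → Prop) : Prop :=
  ∀ (m : ℕ) (g h : Cn (κ + 1) → ℂ), IsType Λ θ m g → IsType Λ θ m h → ∀ a y, Cone Q a → L a y → h y ≠ 0 →
    ∃ (D : ℕ) (A B : MvPolynomial (Fin (N + 1)) ℂ), A.IsHomogeneous D ∧ B.IsHomogeneous D ∧ eval a B ≠ 0 ∧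
      ∀ a' y', Cone Q a' → L a' y' → eval a' B ≠ 0 → h y' ≠ 0 ∧ g y' * eval a' B = h y' * eval a' A

/-- `{h ≠ 0}` contains a nonempty Zariski open set -/
def NZ (Q : Ideal (MvPolynomial (Fin (N + 1)) ℂ)) (L : (Fin (N + 1) → ℂ) → Cn (κ + 1) → Prop) (h : Cn (κ + 1) → ℂ) : Prop :=
  ∃ (D : ℕ) (B : MvPolynomial (Fin (N + 1)) ℂ), B.IsHomogeneous D ∧ B ∉ Q ∧ ∀ a y, Cone Q a → L a y → eval a B ≠ 0 → h y ≠ 0

/-- `f` is the pull-back of `g / h` -/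
def IsVal (Q : Ideal (MvPolynomial (Fin (N + 1)) ℂ)) (ξ : Fin (N + 1) → K) (L : (Fin (N + 1) → ℂ) → Cn (κ + 1) → Prop) (f : K) (g h : Cn (κ + 1) → ℂ) : Prop :=
  ∀ a y, Cone Q a → L a y → h y ≠ 0 → RegAt ξ a f (g y / h y)

/-- the map to `ℙ¹` is regular -/
def VMap (Q : Ideal (MvPolynomial (Fin (N + 1)) ℂ)) (V : (Fin (N + 1) → ℂ) → Cn 2 → Prop) : Prop :=
  ∀ a, Cone Q a → ∃ (D : ℕ) (γ : Fin 2 → MvPolynomial (Fin (N + 1)) ℂ), (∀ i, (γ i).IsHomogeneous D) ∧ (∃ i, eval a (γ i) ≠ 0) ∧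
    ∀ a', Cone Q a' → (∃ i, eval a' (γ i) ≠ 0) → ∀ q : Cn 2, V a' q ↔ ∃ c : ℂ, c ≠ 0 ∧ q = fun i => c * eval a' (γ i)

/-- a family of theta functions of type 3 with local coordinates among their quotients at every point -/
structure Fam {ι : Type} (Λ : AddSubgroup (Cn (κ + 1))) (θ : Fin (d + 1) → Cn (κ + 1) → ℂ) (Θ : ι → Cn (κ + 1) → ℂ) : Prop where
  type : ∀ a, IsType Λ θ 3 (Θ a)
  chart : ∀ y, ∃ (c : ι) (b : Fin (κ + 1) → ι), Θ c y ≠ 0 ∧ (Matrix.of fun i j => wr (Θ c) (Θ (b j)) i y).det ≠ 0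

/-- the hypotheses about the variety `Z` -/
structure Geo {s : ℕ} (Q : Ideal (MvPolynomial (Fin (N + 1)) ℂ)) (ξ : Fin (N + 1) → K) (Λ : AddSubgroup (Cn (κ + 1))) (θ : Fin (d + 1) → Cn (κ + 1) → ℂ) (L : (Fin (N + 1) → ℂ) → Cn (κ + 1) → Prop)
    (V : (Fin (N + 1) → ℂ) → Cn 2 → Prop) (G : Fin s → MvPolynomial (Fin (N + 1)) ℂ) : Prop where
  prime : Q.IsPrime
  homog : ∀ F ∈ Q, ∀ m, homogeneousComponent m F ∈ Q
  gp : GP Q ξ
  lft : Lft Q Λ L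
  reg : RegL Q Λ θ L
  vmap : VMap Q V
  homG : ∀ m, ∃ D, (G m).IsHomogeneous D
  /-- the variety is in the complement of `E` -/
  off : ∀ a y q, Cone Q a → (∃ m, eval a (G m) ≠ 0) → L a y → V a q → form θ y q ≠ 0
  /-- finite fibres -/
  fin : ∀ (γ : ℂ → Fin (N + 1) → ℂ) (y : Cn (κ + 1)) (q : Cn 2), AnalyticAt ℂ γ 0 → (∀ᶠ t in 𝓝 (0 : ℂ), Cone Q (γ t)) → (∀ᶠ t in 𝓝 (0 : ℂ), L (γ t) y) → (∀ᶠ t in 𝓝 (0 : ℂ), V (γ t) q) →
    ∀ᶠ t in 𝓝 (0 : ℂ), ∃ c : ℂ, γ t = c • γ 0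
  /-- not over the special points -/
  three : ∃ a y, Cone Q a ∧ (∃ m, eval a (G m) ≠ 0) ∧ L a y ∧ ThreePoints θ y

end Pool.Agent.LG
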