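import Pool.Agent.LG.Se
import Pool.Agent.LG.Ce

/-!
# LG Gd1: charts at the divisors, and the equation of the boundary at the divisors in `U`

* `exists_chart`: `exists_center`: a point `a` of the centre of `E`; `Lft.ex`: `y`; `Fam.chart y`: `c`, `b`.  `X b' / X c` is the pull-back of `Θ b' / Θ c` (`IsVal.div_eq`, `nz_of_type`), so regular at `a` and `0 ≤ E.ord (X b' / X c)`; `X c ≠ 0` (`IsVal.ne_zero`); `Sel.chart` gives `M`.
* `off`: first for the `c` of `exists_chart`, then for every chart, because `E.ord (X c)` is the smallest order for both (`Dat.Chart.le`).  `V a q` (`VMap.ex`), `p = M' q`, so `V a (M p)`, and `form θ y (M p) ≠ 0` by `Geo.off`.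
  If `p 0 ≠ 0`: `w` has the value `p 1 / p 0` at `a` (`Sel.isV`), `F / X c = ∑ (X (cf i) / X c) w^i` has the value `∑ Θ (cf i) y / Θ c y (p 1 / p 0)^i = form θ y (M p)^3 / (p 0 ^ (3 d) Θ c y) ≠ 0` (`Sel.coeff`), so `E.ord (F / X c) = 0`, and `0 ≤ E.ord w`.
  If `p 1 ≠ 0`: the same for `F / (X c w^(3d)) = ∑ (X (cf i) / X c) (w⁻¹)^(3d - i)`, `0 ≤ E.ord w⁻¹`.
-/

set_option autoImplicit false

open MvPolynomial Topology Filter
open Pool.Agent.H23 (PrimeDivisorOver)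
open Pool.Agent.PXF (Cn form IsThetaForm ThreePoints)

noncomputable section

namespace Pool.Agent.LG

variable {K : Type} [Field K] [Algebra ℂ K] {N κ d s n : ℕ} {Q : Ideal (MvPolynomial (Fin (N + 1)) ℂ)} {ξ : Fin (N + 1) → K} {Λ : AddSubgroup (Cn (κ + 1))} {θ : Fin (d + 1) → Cn (κ + 1) → ℂ}
  {L : (Fin (N + 1) → ℂ) → Cn (κ + 1) → Prop} {V : (Fin (N + 1) → ℂ) → Cn 2 → Prop} {G : Fin s → MvPolynomial (Fin (N + 1)) ℂ} {Θ : Fin n → Cn (κ + 1) → ℂ} {M M' : Matrix (Fin 2) (Fin 2) ℂ} {a₀ : Fin (N + 1) → ℂ} {y₀ : Cn (κ + 1)} {b₀ : Fin n}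
  {S : Dat K (Fin n) (κ + 1) (3 * d)}

/-- the quotients of the `X b` by `X c` -/
private theorem ratio (h : Geo Q ξ Λ θ L V G) (hs : Sel Q ξ Λ θ L V G Θ M M' a₀ y₀ b₀ S) {a : Fin (N + 1) → ℂ} {y : Cn (κ + 1)} (ha : Cone Q a) (hy : L a y) {c : Fin n} (hc : Θ c y ≠ 0) (b : Fin n) :
    RegAt ξ a (S.X b / S.X c) (Θ b y / Θ c y) :=
  IsVal.div_eq h.prime h.gp h.lft h.reg (hs.fam.type b) (hs.fam.type c) hs.nz (nz_of_type h.reg (hs.fam.type c) ha hy hc) (hs.val b) (hs.val c) a y ha hy hc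

private theorem X_ne (h : Geo Q ξ Λ θ L V G) (hs : Sel Q ξ Λ θ L V G Θ M M' a₀ y₀ b₀ S) {a : Fin (N + 1) → ℂ} {y : Cn (κ + 1)} (ha : Cone Q a) (hy : L a y) {c : Fin n} (hc : Θ c y ≠ 0) :
    S.X c ≠ 0 :=
  (hs.val c).ne_zero h.prime h.gp h.lft (nz_of_type h.reg (hs.fam.type c) ha hy hc) hs.nz

theorem exists_chart (h : Geo Q ξ Λ θ L V G) (hs : Sel Q ξ Λ θ L V G Θ M M' a₀ y₀ b₀ S) {k : ℕ} (E : PrimeDivisorOver K k) :
    ∃ a y c, Cone Q a ∧ L a y ∧ Θ c y ≠ 0 ∧ (∀ f v, RegAt ξ a f v → 0 ≤ E.ord f ∧ (v ≠ 0 → E.ord f = 0)) ∧ (¬ BdG ξ G E → ∃ m, eval a (G m) ≠ 0) ∧ S.Chart E c := by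
  obtain ⟨a, ha, hreg, hG⟩ := exists_center h.homog h.gp E G
  obtain ⟨y, hy⟩ := h.lft.ex a ha
  obtain ⟨c, b, hc, hdet⟩ := hs.fam.chart y
  have hX := X_ne h hs ha hy hc
  refine ⟨a, y, c, ha, hy, hc, hreg, hG, hX, fun b' => ?_, ?_⟩
  · have h1 := (hreg _ _ (ratio h hs ha hy hc b')).1
    have h2 : S.X b' = S.X b' / S.X c * S.X c := by field_simp
    rw [h2, E.ord.map_mul]
    exact le_add_of_nonneg_left h1
  · obtain ⟨P, hP1, hP2⟩ := hs.chart a y ha hy c b hc hdet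
    exact ⟨P, fun i b => (hreg _ _ (hP1 i b).choose_spec).1, hP2⟩

theorem ord_off (h : Geo Q ξ Λ θ L V G) (hs : Sel Q ξ Λ θ L V G Θ M M' a₀ y₀ b₀ S) {k : ℕ} (E : PrimeDivisorOver K k) (hE : ¬ BdG ξ G E) (c : Fin n) (hc : S.Chart E c) : E.ord S.F = E.ord (S.X c) + (3 * d) • min 0 (E.ord S.w) := by
  obtain ⟨a, y, c₀, ha, hy, hc₀, hreg, hG, hch⟩ := exists_chart h hs E
  have e : E.ord (S.X c) = E.ord (S.X c₀) := le_antisymm (hc.le c₀) (hch.le c)
  rw [e]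
  have hX := X_ne h hs ha hy hc₀
  obtain ⟨m, hm⟩ := hG hE
  obtain ⟨q, hq0, hq⟩ := h.vmap.ex ha
  obtain ⟨p, hp⟩ : ∃ p, p = M'.mulVec q := ⟨_, rfl⟩
  have hMp : M.mulVec p = q := by
    rw [hp, Matrix.mulVec_mulVec, hs.left, Matrix.one_mulVec]
  have hp0 : p 0 ≠ 0 ∨ p 1 ≠ 0 := by
    by_contra hcon
    push Not at hcon
    apply hq0
    rw [← hMp]
    have : p = 0 := by
      funext i
      fin_cases i
      · exact hcon.1
      · exact hcon.2
    rw [this, Matrix.mulVec_zero]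
  have hform : form θ y q ≠ 0 := h.off a y q ha ⟨m, hm⟩ hy hq
  have hco := hs.coeff y p
  rw [hMp] at hco
  have hV := hs.isV a p ha (show V a (M.mulVec p) by rw [hMp]; exact hq)
  rcases hp0 with hp0 | hp1
  · have hw := hV.1 hp0
    have hw0 := (hreg _ _ hw).1
    rw [min_eq_left hw0, smul_zero, add_zero]
    have hr := RegAt.sum (Finset.univ : Finset (Fin (3 * d + 1))) (fun i => S.X (S.cf i) / S.X c₀ * S.w ^ (i : ℕ)) (fun i => Θ (S.cf i) y / Θ c₀ y * (p 1 / p 0) ^ (i : ℕ))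
      fun i _ => (ratio h hs ha hy hc₀ (S.cf i)).mul (hw.pow i)
    have hval : ∑ i : Fin (3 * d + 1), Θ (S.cf i) y / Θ c₀ y * (p 1 / p 0) ^ (i : ℕ) = form θ y q ^ 3 / (Θ c₀ y * p 0 ^ (3 * d)) := by
      rw [← hco, Finset.sum_div]
      refine Finset.sum_congr rfl fun i _ => ?_
      have hi : (i : ℕ) ≤ 3 * d := by omega
      have h3 : p 0 ^ (3 * d) = p 0 ^ (i : ℕ) * p 0 ^ (3 * d - i) := by
        rw [← pow_add]
        congr 1
        omega
      rw [h3, div_pow]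
      field_simp
    have h4 := (hreg _ _ hr).2 (by rw [hval]; exact div_ne_zero (pow_ne_zero _ hform) (mul_ne_zero hc₀ (pow_ne_zero _ hp0)))
    have h5 : S.F = (∑ i : Fin (3 * d + 1), S.X (S.cf i) / S.X c₀ * S.w ^ (i : ℕ)) * S.X c₀ := by
      rw [Dat.F, Finset.sum_mul]
      refine Finset.sum_congr rfl fun i _ => ?_
      field_simp
    rw [h5, E.ord.map_mul, h4, zero_add]
  · have hw := hV.2 hp1
    have hw0 := (hreg _ _ hw).1
    have hw1 : E.ord S.w ≤ 0 := by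
      have h1 : E.ord S.w + E.ord S.w⁻¹ = 0 := by
        rw [← E.ord.map_mul, mul_inv_cancel₀ hs.w_ne, E.ord.map_one]
      calc E.ord S.w ≤ E.ord S.w + E.ord S.w⁻¹ := le_add_of_nonneg_right hw0
        _ = 0 := h1
    rw [min_eq_right hw1]
    have hr := RegAt.sum (Finset.univ : Finset (Fin (3 * d + 1))) (fun i => S.X (S.cf i) / S.X c₀ * S.w⁻¹ ^ (3 * d - i)) (fun i => Θ (S.cf i) y / Θ c₀ y * (p 0 / p 1) ^ (3 * d - i))
      fun i _ => (ratio h hs ha hy hc₀ (S.cf i)).mul (hw.pow _)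
    have hval : ∑ i : Fin (3 * d + 1), Θ (S.cf i) y / Θ c₀ y * (p 0 / p 1) ^ (3 * d - i) = form θ y q ^ 3 / (Θ c₀ y * p 1 ^ (3 * d)) := by
      rw [← hco, Finset.sum_div]
      refine Finset.sum_congr rfl fun i _ => ?_
      have hi : (i : ℕ) ≤ 3 * d := by omega
      have h3 : p 1 ^ (3 * d) = p 1 ^ (i : ℕ) * p 1 ^ (3 * d - i) := by
        rw [← pow_add]
        congr 1
        omega
      rw [h3, div_pow]
      field_simp
    have h4 := (hreg _ _ hr).2 (by rw [hval]; exact div_ne_zero (pow_ne_zero _ hform) (mul_ne_zero hc₀ (pow_ne_zero _ hp1)))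
    have h5 : S.F = (∑ i : Fin (3 * d + 1), S.X (S.cf i) / S.X c₀ * S.w⁻¹ ^ (3 * d - i)) * (S.X c₀ * S.w ^ (3 * d)) := by
      rw [Dat.F, Finset.sum_mul]
      refine Finset.sum_congr rfl fun i _ => ?_
      have hi : (i : ℕ) ≤ 3 * d := by omega
      have hw' := hs.w_ne
      have h3 : S.w ^ (3 * d) = S.w ^ (i : ℕ) * S.w ^ (3 * d - i) := by
        rw [← pow_add]
        congr 1
        omega
      rw [h3, inv_pow]
      field_simp
    rw [h5, E.ord.map_mul, h4, zero_add, E.ord.map_mul, E.ord.map_pow]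

end Pool.Agent.LG
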