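import Pool.Agent.LG.Rg

/-!
# LG Sp: specialisation of a polynomial and the number of its roots

`A = {f ∈ K | ∃ c, RegAt ξ a f c}` is a subring of `K`, and the value is a ring homomorphism `ev : A → ℂ` (`RegAt.unique`).  `p = ∑ u_i T^i ∈ A[T]`, its leading coefficient `u_D` is a unit of `A` (`RegAt.inv`).
Let `Ω` be the splitting field of `P = x p`, `B` the integral closure of `A` in `Ω`; it contains the roots `e_i` of `p` (`u_D` is a unit).  There is a prime ideal of `B` over `ker ev` (`Ideal.exists_ideal_over_prime_of_isIntegral`), and `B / 𝔫` is integral over `A / ker ev = ℂ`, so it is `ℂ`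
(`IsAlgClosed.algebraMap_bijective_of_isIntegral`): `ev` extends to `ev' : B → ℂ`.  `p = u_D ∏ (T - e_i)` in `B[T]`, so `∑ c_i T^i = c_D ∏ (T - ev' e_i)`: every root of `∑ c_i T^i` is `ev'` of a root of `p`, so `p` has at least three different roots.
-/

set_option autoImplicit false

open MvPolynomial

noncomputable section

namespace Pool.Agent.LG

variable {K : Type} [Field K] [Algebra ℂ K] {N : ℕ} {ξ : Fin (N + 1) → K} {Q : Ideal (MvPolynomial (Fin (N + 1)) ℂ)}

/-- extension of a homomorphism to an algebraically closed field from a ring to an integral extension -/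
theorem exists_extend {A B : Type} [CommRing A] [CommRing B] [Algebra A B] [Algebra.IsIntegral A B] [FaithfulSMul A B] (ev : A →+* ℂ) (hev : Function.Surjective ev) : ∃ ev' : B →+* ℂ, ∀ a, ev' (algebraMap A B a) = ev a := by
  have hmax : (RingHom.ker ev).IsMaximal := RingHom.ker_isMaximal_of_surjective ev hev
  have hinj : Function.Injective (algebraMap A B) := FaithfulSMul.algebraMap_injective A B
  obtain ⟨n, hn, hnc⟩ := Ideal.exists_ideal_over_maximal_of_isIntegral (S := B) (RingHom.ker ev)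
    (by
      intro x hx
      rw [RingHom.mem_ker] at hx
      have h0 : x = 0 := hinj (hx.trans (map_zero _).symm)
      rw [h0]
      exact zero_mem _)
  have hle : RingHom.ker ev ≤ n.comap (algebraMap A B) := hnc.ge
  let f : A ⧸ RingHom.ker ev →+* B ⧸ n := Ideal.quotientMap n (algebraMap A B) hle
  let e : A ⧸ RingHom.ker ev ≃+* ℂ := RingHom.quotientKerEquivOfSurjective hev
  have hf : f.IsIntegral := by
    have h1 : (algebraMap A B).IsIntegral := algebraMap_isIntegral_iff.2 inferInstance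
    intro x
    obtain ⟨b, rfl⟩ := Ideal.Quotient.mk_surjective x
    obtain ⟨p, hp, hpb⟩ := h1 b
    refine ⟨p.map (Ideal.Quotient.mk _), hp.map _, ?_⟩
    rw [Polynomial.eval₂_map]
    have h2 : f.comp (Ideal.Quotient.mk (RingHom.ker ev)) =
        (Ideal.Quotient.mk n).comp (algebraMap A B) := by
      ext a
      rfl
    rw [h2, ← Polynomial.hom_eval₂, hpb, map_zero]
  let φ : ℂ →+* B ⧸ n := f.comp (e.symm : ℂ →+* A ⧸ RingHom.ker ev)
  have hφ : φ.IsIntegral := RingHom.IsIntegral.trans _ _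
    (RingHom.isIntegral_of_surjective _ e.symm.surjective) hf
  let _ : Field (B ⧸ n) := Ideal.Quotient.field n
  let _ : Algebra ℂ (B ⧸ n) := φ.toAlgebra
  have hint : Algebra.IsIntegral ℂ (B ⧸ n) := ⟨hφ⟩
  have hbij : Function.Bijective φ := IsAlgClosed.algebraMap_bijective_of_isIntegral
    (k := ℂ) (K := B ⧸ n)
  let ψ : ℂ ≃+* B ⧸ n := RingEquiv.ofBijective φ hbij
  refine ⟨(ψ.symm : B ⧸ n →+* ℂ).comp (Ideal.Quotient.mk n), fun a => ?_⟩
  show ψ.symm (Ideal.Quotient.mk n (algebraMap A B a)) = ev a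
  rw [RingEquiv.symm_apply_eq]
  show _ = f (e.symm (ev a))
  have h3 : e.symm (ev a) = Ideal.Quotient.mk _ a := by
    rw [RingEquiv.symm_apply_eq]
    rfl
  rw [h3]
  rfl

/-- the subring of the elements which are regular at the point -/
private def regRing (ξ : Fin (N + 1) → K) (a : Fin (N + 1) → ℂ) : Subring K where
  carrier := {f | ∃ c, RegAt ξ a f c}
  mul_mem' := by
    rintro f g ⟨c, hc⟩ ⟨e, he⟩
    exact ⟨_, hc.mul he⟩
  one_mem' := ⟨1, RegAt.one ξ a⟩
  add_mem' := by
    rintro f g ⟨c, hc⟩ ⟨e, he⟩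
    exact ⟨_, hc.add he⟩
  zero_mem' := ⟨0, RegAt.zero ξ a⟩
  neg_mem' := by
    rintro f ⟨c, hc⟩
    exact ⟨_, hc.neg⟩

private theorem exists_ev (hgp : GP Q ξ) {a : Fin (N + 1) → ℂ} (ha : Cone Q a) :
    ∃ ev : regRing ξ a →+* ℂ, ∀ (f : K) (c : ℂ) (h : RegAt ξ a f c), ev ⟨f, c, h⟩ = c := by
  classical
  have h1 : ∀ f : regRing ξ a, ∃ c, RegAt ξ a f.1 c := fun f => f.2
  choose v hv using h1
  have hu : ∀ (f : regRing ξ a) (c : ℂ), RegAt ξ a f.1 c → v f = c := fun f c h =>
    RegAt.unique hgp ha (hv f) h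
  refine ⟨⟨⟨⟨v, hu 1 1 (RegAt.one ξ a)⟩, fun f g => hu _ _ ((hv f).mul (hv g))⟩,
    hu 0 0 (RegAt.zero ξ a), fun f g => hu _ _ ((hv f).add (hv g))⟩, fun f c h => hu _ c h⟩

/-- a root of the special polynomial is the value of a root of the polynomial -/
theorem root_of_special (hgp : GP Q ξ) {a : Fin (N + 1) → ℂ} (ha : Cone Q a) {D : ℕ}
    (u : Fin (D + 1) → K) (c : Fin (D + 1) → ℂ) (h : ∀ i, RegAt ξ a (u i) (c i))
    (hl : c (Fin.last D) ≠ 0) {x : K} (hx : x ≠ 0) (P : Polynomial K)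
    (hP : P = ∑ i : Fin (D + 1), Polynomial.C (x * u i) * Polynomial.X ^ (i : ℕ))
    (Ω : Type) [Field Ω] [Algebra K Ω] (hspl : (P.map (algebraMap K Ω)).Splits) :
    ∃ v : Ω → ℂ, ∀ t : ℂ, ∑ i, c i * t ^ (i : ℕ) = 0 → ∃ e ∈ P.rootSet Ω, v e = t := by
  classical
  obtain ⟨ev, hev⟩ := exists_ev hgp ha
  have hsur : Function.Surjective ev := fun z => ⟨⟨_, z, RegAt.const ξ a z⟩, hev _ z (RegAt.const ξ a z)⟩
  let A := regRing ξ a
  let B := integralClosure A Ω
  have hAB : Function.Injective (algebraMap A B) := by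
    intro y z hyz
    have h1 : algebraMap K Ω y.1 = algebraMap K Ω z.1 := congrArg (fun b : B => (b : Ω)) hyz
    exact Subtype.ext ((algebraMap K Ω).injective h1)
  have hfs : FaithfulSMul A B := (faithfulSMul_iff_algebraMap_injective A B).2 hAB
  obtain ⟨ev', hev'⟩ := exists_extend (A := A) (B := B) ev hsur
  -- the polynomial
  have huD : u (Fin.last D) ≠ 0 := RegAt.ne_zero hgp ha (h _) hl
  have hcoef : P.coeff D = x * u (Fin.last D) := by
    rw [hP, Polynomial.finset_sum_coeff]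
    rw [Finset.sum_eq_single (Fin.last D)]
    · rw [Polynomial.coeff_C_mul, Polynomial.coeff_X_pow, if_pos (Fin.val_last D).symm, mul_one]
    · intro i _ hi
      rw [Polynomial.coeff_C_mul, Polynomial.coeff_X_pow, if_neg, mul_zero]
      intro h1
      exact hi (Fin.ext (h1.symm.trans (Fin.val_last D).symm))
    · intro h1
      exact absurd (Finset.mem_univ _) h1
  have hlead0 : x * u (Fin.last D) ≠ 0 := mul_ne_zero hx huD
  have hdeg : P.natDegree = D := by
    refine le_antisymm ?_ (Polynomial.le_natDegree_of_ne_zero (hcoef ▸ hlead0))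
    rw [hP]
    refine Polynomial.natDegree_sum_le_of_forall_le _ _ fun i _ => ?_
    refine (Polynomial.natDegree_C_mul_X_pow_le _ _).trans ?_
    exact Nat.lt_succ_iff.1 i.2
  have hlead : P.leadingCoeff = x * u (Fin.last D) := by
    rw [Polynomial.leadingCoeff, hdeg, hcoef]
  have hP0 : P ≠ 0 := by
    intro h0
    rw [h0, Polynomial.coeff_zero] at hcoef
    exact hlead0 hcoef.symm
  have hPm0 : P.map (algebraMap K Ω) ≠ 0 := (Polynomial.map_ne_zero_iff (algebraMap K Ω).injective).2 hP0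
  -- the roots are integral
  let pA : Polynomial A := ∑ i : Fin (D + 1), Polynomial.C (⟨u i, c i, h i⟩ : A) * Polynomial.X ^ (i : ℕ)
  let w : A := ⟨(u (Fin.last D))⁻¹, _, RegAt.inv hgp ha (h _) hl⟩
  have hroot : ∀ e ∈ (P.map (algebraMap K Ω)).roots,
      ∑ i, algebraMap K Ω (u i) * e ^ (i : ℕ) = 0 := by
    intro e he
    have h1 := (Polynomial.mem_roots hPm0).1 he
    rw [Polynomial.IsRoot.def, Polynomial.eval_map, hP, Polynomial.eval₂_finset_sum] at h1
    have h2 : algebraMap K Ω x * ∑ i, algebraMap K Ω (u i) * e ^ (i : ℕ) = 0 := by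
      rw [← h1, Finset.mul_sum]
      refine Finset.sum_congr rfl fun i _ => ?_
      rw [Polynomial.eval₂_mul, Polynomial.eval₂_C, Polynomial.eval₂_X_pow, map_mul, mul_assoc]
    exact (mul_eq_zero.1 h2).resolve_left fun h3 => hx ((map_eq_zero _).1 h3)
  have hint : ∀ e ∈ (P.map (algebraMap K Ω)).roots, IsIntegral A e := by
    intro e he
    refine ⟨Polynomial.X ^ D + ∑ i : Fin D, Polynomial.C (w * ⟨u i.castSucc, _, h _⟩ : A) *
      Polynomial.X ^ (i : ℕ), ?_, ?_⟩
    · refine Polynomial.monic_X_pow_add ?_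
      refine (Polynomial.degree_sum_le _ _).trans_lt ?_
      refine (Finset.sup_lt_iff (WithBot.bot_lt_coe D)).2 fun i _ => ?_
      exact (Polynomial.degree_C_mul_X_pow_le _ _).trans_lt (WithBot.coe_lt_coe.2 i.2)
    · have h1 := hroot e he
      rw [Fin.sum_univ_castSucc] at h1
      rw [Polynomial.eval₂_add, Polynomial.eval₂_X_pow, Polynomial.eval₂_finset_sum]
      have h2 : ∀ y : A, algebraMap A Ω y = algebraMap K Ω y.1 := fun _ => rfl
      have h3 : algebraMap K Ω (u (Fin.last D)) ≠ 0 := fun h4 => huD ((map_eq_zero _).1 h4)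
      have h4 : algebraMap K Ω (u (Fin.last D)) * (e ^ D + ∑ i : Fin D, Polynomial.eval₂
          (algebraMap A Ω) e (Polynomial.C (w * ⟨u i.castSucc, _, h _⟩ : A) *
          Polynomial.X ^ (i : ℕ))) = 0 := by
        rw [← h1, mul_add, Finset.mul_sum, add_comm]
        congr 1
        · refine Finset.sum_congr rfl fun i _ => ?_
          rw [Polynomial.eval₂_mul, Polynomial.eval₂_C, Polynomial.eval₂_X_pow, h2]
          show _ * (algebraMap K Ω ((u (Fin.last D))⁻¹ * u i.castSucc) * _) = _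
          rw [map_mul, map_inv₀, ← mul_assoc, ← mul_assoc, mul_inv_cancel₀ h3, one_mul]
          rfl
      exact (mul_eq_zero.1 h4).resolve_left h3
  -- the extension to the splitting field
  refine ⟨fun e => if he : e ∈ B then ev' ⟨e, he⟩ else 0, fun t ht => ?_⟩
  let s : Multiset Ω := (P.map (algebraMap K Ω)).roots
  obtain ⟨s', hs'⟩ : ∃ s' : Multiset B, s'.map (fun e : B => (e : Ω)) = s := by
    refine ⟨s.attach.map fun e => ⟨e.1, hint e.1 e.2⟩, ?_⟩
    rw [Multiset.map_map]
    exact Multiset.attach_map_val s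
  let τ : A := ⟨_, t, RegAt.const ξ a t⟩
  let uA : Fin (D + 1) → A := fun i => ⟨u i, c i, h i⟩
  have hprod : algebraMap A B (uA (Fin.last D)) * (s'.map fun e => algebraMap A B τ - e).prod =
      algebraMap A B (∑ i, uA i * τ ^ (i : ℕ)) := by
    apply Subtype.ext
    have h0 : Polynomial.eval₂ (algebraMap K Ω) (algebraMap K Ω τ.1) P =
        ∑ i : Fin (D + 1), Polynomial.eval₂ (algebraMap K Ω) (algebraMap K Ω τ.1)
          (Polynomial.C (x * u i) * Polynomial.X ^ (i : ℕ)) := by
      rw [hP, Polynomial.eval₂_finset_sum]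
    have h2 := hspl.eq_prod_roots
    have h3 := congrArg (Polynomial.eval (algebraMap K Ω τ.1)) h2
    rw [Polynomial.eval_mul, Polynomial.eval_C, Polynomial.eval_multiset_prod,
      Polynomial.leadingCoeff_map, hlead, Multiset.map_map, Polynomial.eval_map, h0] at h3
    let vB : B →+* Ω := B.val.toRingHom
    have h6 : vB ((s'.map fun e => algebraMap A B τ - e).prod) =
        (s.map fun y => algebraMap K Ω τ.1 - y).prod := by
      rw [map_multiset_prod, ← hs', Multiset.map_map, Multiset.map_map]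
      refine congrArg Multiset.prod (Multiset.map_congr rfl fun e _ => ?_)
      show vB (algebraMap A B τ - e) = _
      rw [map_sub]
      rfl
    have h7 : vB (algebraMap A B (∑ i, uA i * τ ^ (i : ℕ))) =
        ∑ i, algebraMap K Ω (u i) * algebraMap K Ω τ.1 ^ (i : ℕ) := by
      rw [map_sum, map_sum]
      refine Finset.sum_congr rfl fun i _ => ?_
      rw [map_mul, map_mul, map_pow, map_pow]
      rfl
    have h8 : vB (algebraMap A B (uA (Fin.last D))) = algebraMap K Ω (u (Fin.last D)) := rfl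
    have h4 : algebraMap K Ω x * ((algebraMap A B (uA (Fin.last D)) *
        (s'.map fun e => algebraMap A B τ - e).prod : B) : Ω) =
        algebraMap K Ω x * ((algebraMap A B (∑ i, uA i * τ ^ (i : ℕ)) : B) : Ω) := by
      have hcoe : ∀ b : B, (b : Ω) = vB b := fun _ => rfl
      rw [hcoe, hcoe, map_mul, h6, h7, h8, ← mul_assoc, ← map_mul, Finset.mul_sum]
      have h9 : (s.map (Polynomial.eval (algebraMap K Ω τ.1) ∘ fun y => Polynomial.X -
          Polynomial.C y)) = s.map fun y => algebraMap K Ω τ.1 - y := by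
        refine Multiset.map_congr rfl fun y _ => ?_
        show Polynomial.eval _ (Polynomial.X - Polynomial.C y) = _
        rw [Polynomial.eval_sub, Polynomial.eval_X, Polynomial.eval_C]
      rw [← h9, ← h3]
      refine Finset.sum_congr rfl fun i _ => ?_
      rw [Polynomial.eval₂_mul, Polynomial.eval₂_C, Polynomial.eval₂_X_pow, map_mul, mul_assoc]
    exact mul_left_cancel₀ (fun h5 => hx ((map_eq_zero _).1 h5)) h4
  have h5 := congrArg ev' hprod
  rw [map_mul, hev', hev', map_multiset_prod, Multiset.map_map, map_sum] at h5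
  have h6 : ∑ i, ev (uA i * τ ^ (i : ℕ)) = 0 := by
    rw [← ht]
    refine Finset.sum_congr rfl fun i _ => ?_
    rw [map_mul, map_pow]
    congr 1
    · exact hev _ _ (h i)
    · congr 1
      exact hev _ _ (RegAt.const ξ a t)
  have h7 : ev (uA (Fin.last D)) = c (Fin.last D) := hev _ _ (h _)
  rw [h6, h7] at h5
  have h8 := (mul_eq_zero.1 h5).resolve_left hl
  obtain ⟨e, he, he0⟩ := Multiset.mem_map.1 (Multiset.prod_eq_zero_iff.1 h8)
  have h9 : ev' e = t := by
    have h10 : ev' (algebraMap A B τ - e) = 0 := he0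
    rw [map_sub, hev', sub_eq_zero] at h10
    rw [← h10]
    exact hev _ _ (RegAt.const ξ a t)
  refine ⟨e.1, ?_, ?_⟩
  · have h11 : (e : Ω) ∈ s := by
      rw [← hs']
      exact Multiset.mem_map_of_mem (fun e : B => (e : Ω)) he
    have h12 := (Polynomial.mem_roots hPm0).1 h11
    rw [Polynomial.mem_rootSet]
    refine ⟨hP0, ?_⟩
    rw [Polynomial.IsRoot.def, Polynomial.eval_map] at h12
    exact h12
  · show (if he : (e : Ω) ∈ B then ev' ⟨e, he⟩ else 0) = t
    rw [dif_pos e.2]
    exact h9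

theorem three_of_special (hgp : GP Q ξ) {a : Fin (N + 1) → ℂ} (ha : Cone Q a) {D : ℕ} (u : Fin (D + 1) → K) (c : Fin (D + 1) → ℂ) (h : ∀ i, RegAt ξ a (u i) (c i)) (hl : c (Fin.last D) ≠ 0) {t₁ t₂ t₃ : ℂ} (h12 : t₁ ≠ t₂) (h13 : t₁ ≠ t₃) (h23 : t₂ ≠ t₃)
    (r₁ : ∑ i, c i * t₁ ^ (i : ℕ) = 0) (r₂ : ∑ i, c i * t₂ ^ (i : ℕ) = 0) (r₃ : ∑ i, c i * t₃ ^ (i : ℕ) = 0) {x : K} (hx : x ≠ 0) (P : Polynomial K) (hP : P = ∑ i : Fin (D + 1), Polynomial.C (x * u i) * Polynomial.X ^ (i : ℕ)) :
    3 ≤ (P.rootSet P.SplittingField).ncard := by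
  classical
  obtain ⟨v, hv⟩ := root_of_special hgp ha u c h hl hx P hP P.SplittingField
    (Polynomial.SplittingField.splits P)
  obtain ⟨e₁, m₁, rfl⟩ := hv t₁ r₁
  obtain ⟨e₂, m₂, rfl⟩ := hv t₂ r₂
  obtain ⟨e₃, m₃, rfl⟩ := hv t₃ r₃
  have hsub : ({e₁, e₂, e₃} : Set P.SplittingField) ⊆ P.rootSet P.SplittingField := by
    rintro e (rfl | rfl | rfl)
    · exact m₁
    · exact m₂
    · exact m₃
  have hcard : ({e₁, e₂, e₃} : Set P.SplittingField).ncard = 3 := by
    refine Set.ncard_eq_three.2 ⟨e₁, e₂, e₃, ?_, ?_, ?_, rfl⟩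
    · exact fun h => h12 (congrArg v h)
    · exact fun h => h13 (congrArg v h)
    · exact fun h => h23 (congrArg v h)
  rw [← hcard]
  exact Set.ncard_le_ncard hsub (Polynomial.rootSet_finite P P.SplittingField)

end Pool.Agent.LG
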