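import Pool.Agent.LG.Se
import Pool.Agent.LG.Sp

/-!
# LG Gd2: the equation of the boundary has three roots

* `one`: `X b₀ = 1` (`IsVal.one`, `IsVal.eq_of_eq`).
* `d_pos`: `form θ y₀` is not `0` (`e0`) and has a zero `x₁ ≠ 0` (`ThreePoints`: the three vectors are not proportional, so not `0`); for `d = 0` it is constant.
* `F_ne`: at `(a₀, y₀)`: `V a₀ q` (`VMap.ex`), `p = M' q`, `form θ y₀ (M p) ≠ 0` (`Geo.off`, `inU`).  As in `Gd1`: if `p 0 ≠ 0` the function `F = ∑ X (cf i) w^i` has at `a₀` the value `form θ y₀ (M p)^3 / (p 0 ^ (3 d) Θ b₀ y₀) ≠ 0`; if `p 1 ≠ 0` the same for `F / w^(3d)`.  `RegAt.ne_zero`.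
* `three`: the coefficients `X (cf i)` of `P` have at `a₀` the values `Θ (cf i) y₀ / Θ b₀ y₀`.  `coeff` for `p = (0, 1)` and `(1, 0)`: `Θ (cf (3d)) y₀ = form θ y₀ (M e₁)^3 ≠ 0`, `Θ (cf 0) y₀ = form θ y₀ (M e₀)^3 ≠ 0`: so `deg` and `zero`.  For a zero `x` of `form θ y₀`, `x ≠ 0`, `p = M' x` has `p 0 ≠ 0`
  (otherwise `x = p 1 M e₁`), and `t = p 1 / p 0` is a root of `∑ (Θ (cf i) y₀ / Θ b₀ y₀) T^i`; vectors which are not proportional give different `t`.  `three_of_special` with `x = 1`.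
-/

set_option autoImplicit false

open MvPolynomial Topology Filter
open Pool.Agent.PXF (Cn form IsThetaForm ThreePoints)

noncomputable section

namespace Pool.Agent.LG

variable {K : Type} [Field K] [Algebra ℂ K] {N κ d s n : ℕ} {Q : Ideal (MvPolynomial (Fin (N + 1)) ℂ)} {ξ : Fin (N + 1) → K} {Λ : AddSubgroup (Cn (κ + 1))} {θ : Fin (d + 1) → Cn (κ + 1) → ℂ}
  {L : (Fin (N + 1) → ℂ) → Cn (κ + 1) → Prop} {V : (Fin (N + 1) → ℂ) → Cn 2 → Prop} {G : Fin s → MvPolynomial (Fin (N + 1)) ℂ} {Θ : Fin n → Cn (κ + 1) → ℂ} {M M' : Matrix (Fin 2) (Fin 2) ℂ} {a₀ : Fin (N + 1) → ℂ} {y₀ : Cn (κ + 1)} {b₀ : Fin n}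
  {S : Dat K (Fin n) (κ + 1) (3 * d)}

theorem X_base (h : Geo Q ξ Λ θ L V G) (hs : Sel Q ξ Λ θ L V G Θ M M' a₀ y₀ b₀ S) : S.X b₀ = 1 :=
  IsVal.eq_of_eq h.prime h.gp h.lft hs.nz hs.nz (hs.val b₀) IsVal.one fun _ _ _ => rfl

theorem d_pos (hs : Sel Q ξ Λ θ L V G Θ M M' a₀ y₀ b₀ S) : 1 ≤ d := by
  rcases Nat.eq_zero_or_pos d with hd | hd
  · exfalso
    subst hd
    obtain ⟨x₁, -, -, h1, -⟩ := hs.three
    apply hs.e0
    simp only [form, Nat.reduceAdd, Finset.univ_unique, Fin.default_eq_zero, Finset.sum_singleton, Fin.val_zero, pow_zero, mul_one] at h1 ⊢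
    simpa using h1
  · exact hd

private theorem gd2_sum {D : ℕ} (c : Fin (D + 1) → ℂ) (e x y : ℂ) (hy : y ≠ 0) :
    ∑ i, c i / e * (x / y) ^ (i : ℕ) = (∑ i, c i * x ^ (i : ℕ) * y ^ (D - (i : ℕ))) / (e * y ^ D) := by
  rw [Finset.sum_div]
  refine Finset.sum_congr rfl fun i _ => ?_
  have h1 : y ^ D = y ^ (i : ℕ) * y ^ (D - (i : ℕ)) := by
    rw [← pow_add]
    congr 1
    have := i.isLt
    omega
  rw [h1, div_pow]
  have h2 : y ^ (i : ℕ) ≠ 0 := pow_ne_zero _ hy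
  have h3 : y ^ (D - (i : ℕ)) ≠ 0 := pow_ne_zero _ hy
  by_cases he : e = 0
  · simp [he]
  · field_simp

private theorem gd2_sum' {D : ℕ} (c : Fin (D + 1) → ℂ) (e x y : ℂ) (hx : x ≠ 0) :
    ∑ i, c i / e * (y / x) ^ (D - (i : ℕ)) = (∑ i, c i * x ^ (i : ℕ) * y ^ (D - (i : ℕ))) / (e * x ^ D) := by
  rw [Finset.sum_div]
  refine Finset.sum_congr rfl fun i _ => ?_
  have h1 : x ^ D = x ^ (i : ℕ) * x ^ (D - (i : ℕ)) := by
    rw [← pow_add]
    congr 1
    have := i.isLt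
    omega
  rw [h1, div_pow]
  have h2 : x ^ (i : ℕ) ≠ 0 := pow_ne_zero _ hx
  have h3 : x ^ (D - (i : ℕ)) ≠ 0 := pow_ne_zero _ hx
  by_cases he : e = 0
  · simp [he]
  · field_simp

private theorem gd2_reg (hs : Sel Q ξ Λ θ L V G Θ M M' a₀ y₀ b₀ S) (b : Fin n) :
    RegAt ξ a₀ (S.X b) (Θ b y₀ / Θ b₀ y₀) := hs.val b a₀ y₀ hs.cone hs.lift hs.base

theorem F_ne (h : Geo Q ξ Λ θ L V G) (hs : Sel Q ξ Λ θ L V G Θ M M' a₀ y₀ b₀ S) : S.F ≠ 0 := by
  obtain ⟨q, hq, hV⟩ := h.vmap.ex hs.cone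
  obtain ⟨p, hp⟩ : ∃ p, p = M'.mulVec q := ⟨_, rfl⟩
  have hMp : M.mulVec p = q := by
    rw [hp, Matrix.mulVec_mulVec, hs.left, Matrix.one_mulVec]
  have hVp : V a₀ (M.mulVec p) := by
    rw [hMp]
    exact hV
  have hform : form θ y₀ (M.mulVec p) ≠ 0 := h.off a₀ y₀ _ hs.cone hs.inU hs.lift hVp
  have hco := hs.coeff y₀ p
  obtain ⟨hw1, hw2⟩ := hs.isV a₀ p hs.cone hVp
  by_cases h0 : p 0 = 0
  · have h1 : p 1 ≠ 0 := by
      intro h1
      apply hq
      rw [← hMp]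
      have : p = 0 := by
        funext i
        fin_cases i
        · exact h0
        · exact h1
      rw [this, Matrix.mulVec_zero]
    have hr : RegAt ξ a₀ (∑ i : Fin (3 * d + 1), S.X (S.cf i) * (S.w⁻¹) ^ (3 * d - (i : ℕ)))
        (∑ i : Fin (3 * d + 1), Θ (S.cf i) y₀ / Θ b₀ y₀ * (p 0 / p 1) ^ (3 * d - (i : ℕ))) :=
      RegAt.sum _ _ _ fun i _ => (gd2_reg hs _).mul ((hw2 h1).pow _)
    rw [gd2_sum' _ _ _ _ h1, hco] at hr
    have hne := RegAt.ne_zero h.gp hs.cone hr (div_ne_zero (pow_ne_zero _ hform) (mul_ne_zero hs.base (pow_ne_zero _ h1)))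
    intro hF
    apply hne
    have h2 : ∑ i : Fin (3 * d + 1), S.X (S.cf i) * (S.w⁻¹) ^ (3 * d - (i : ℕ)) = S.F * (S.w⁻¹) ^ (3 * d) := by
      rw [Dat.F, Finset.sum_mul]
      refine Finset.sum_congr rfl fun i _ => ?_
      have h3 : (S.w⁻¹) ^ (3 * d) = (S.w⁻¹) ^ (i : ℕ) * (S.w⁻¹) ^ (3 * d - (i : ℕ)) := by
        rw [← pow_add]
        congr 1
        have := i.isLt
        omega
      rw [h3, inv_pow S.w (i : ℕ)]
      have h4 : S.w ^ (i : ℕ) ≠ 0 := pow_ne_zero _ hs.w_ne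
      rw [mul_assoc, ← mul_assoc (S.w ^ (i : ℕ)), mul_inv_cancel₀ h4, one_mul]
    rw [h2, hF, zero_mul]
  · have hr : RegAt ξ a₀ (∑ i : Fin (3 * d + 1), S.X (S.cf i) * S.w ^ (i : ℕ))
        (∑ i : Fin (3 * d + 1), Θ (S.cf i) y₀ / Θ b₀ y₀ * (p 1 / p 0) ^ (i : ℕ)) :=
      RegAt.sum _ _ _ fun i _ => (gd2_reg hs _).mul ((hw1 h0).pow _)
    rw [gd2_sum _ _ _ _ h0, hco] at hr
    exact RegAt.ne_zero h.gp hs.cone hr (div_ne_zero (pow_ne_zero _ hform) (mul_ne_zero hs.base (pow_ne_zero _ h0)))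

private theorem gd2_last (hs : Sel Q ξ Λ θ L V G Θ M M' a₀ y₀ b₀ S) :
    Θ (S.cf (Fin.last (3 * d))) y₀ ≠ 0 := by
  have h1 := hs.coeff y₀ ![0, 1]
  rw [Finset.sum_eq_single (Fin.last (3 * d))] at h1
  · simp only [Matrix.cons_val_one, Matrix.cons_val_zero, one_pow, mul_one, Fin.val_last, Nat.sub_self, pow_zero] at h1
    rw [h1]
    exact pow_ne_zero _ hs.e1
  · intro i _ hi
    have h2 : 3 * d - (i : ℕ) ≠ 0 := by
      intro h3
      apply hi
      apply Fin.ext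
      have := i.isLt
      rw [Fin.val_last]
      omega
    simp [h2]
  · intro hh
    exact absurd (Finset.mem_univ _) hh

private theorem gd2_zero (hs : Sel Q ξ Λ θ L V G Θ M M' a₀ y₀ b₀ S) :
    Θ (S.cf 0) y₀ ≠ 0 := by
  have h1 := hs.coeff y₀ ![1, 0]
  rw [Finset.sum_eq_single (0 : Fin (3 * d + 1))] at h1
  · simp only [Matrix.cons_val_zero, one_pow, mul_one, Fin.val_zero, pow_zero] at h1
    rw [h1]
    exact pow_ne_zero _ hs.e0
  · intro i _ hi
    have h2 : (i : ℕ) ≠ 0 := by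
      intro h3
      exact hi (Fin.ext h3)
    simp [h2]
  · intro hh
    exact absurd (Finset.mem_univ _) hh

private theorem gd2_coeff (S : Dat K (Fin n) (κ + 1) (3 * d)) (i : Fin (3 * d + 1)) : S.P.coeff (i : ℕ) = S.X (S.cf i) := by
  simp only [Dat.P, Polynomial.finsetSum_coeff, Polynomial.coeff_C_mul_X_pow]
  rw [Finset.sum_eq_single i]
  · simp
  · intro j _ hj
    rw [if_neg]
    intro h
    exact hj (Fin.ext h.symm)
  · intro h
    exact absurd (Finset.mem_univ i) h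

theorem sel_three (h : Geo Q ξ Λ θ L V G) (hs : Sel Q ξ Λ θ L V G Θ M M' a₀ y₀ b₀ S) : S.Three := by
  have hd := d_pos hs
  have hlast : S.X (S.cf (Fin.last (3 * d))) ≠ 0 :=
    RegAt.ne_zero h.gp hs.cone (gd2_reg hs _) (div_ne_zero (gd2_last hs) hs.base)
  have hzero : S.X (S.cf 0) ≠ 0 :=
    RegAt.ne_zero h.gp hs.cone (gd2_reg hs _) (div_ne_zero (gd2_zero hs) hs.base)
  have key : ∀ x : Cn 2, x ≠ 0 → form θ y₀ x = 0 → M'.mulVec x 0 ≠ 0 ∧
      ∑ i, Θ (S.cf i) y₀ / Θ b₀ y₀ * (M'.mulVec x 1 / M'.mulVec x 0) ^ (i : ℕ) = 0 := by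
    intro x hx hfx
    have hMx : M.mulVec (M'.mulVec x) = x := by
      rw [Matrix.mulVec_mulVec, hs.left, Matrix.one_mulVec]
    have hco := hs.coeff y₀ (M'.mulVec x)
    rw [hMx, hfx, zero_pow (by norm_num)] at hco
    have h0 : M'.mulVec x 0 ≠ 0 := by
      intro h0
      have h1 : M'.mulVec x 1 ≠ 0 := by
        intro h1
        apply hx
        rw [← hMx]
        have : M'.mulVec x = 0 := by
          funext i
          fin_cases i
          · exact h0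
          · exact h1
        rw [this, Matrix.mulVec_zero]
      rw [Finset.sum_eq_single (Fin.last (3 * d))] at hco
      · rw [h0, Fin.val_last, Nat.sub_self, pow_zero, mul_one] at hco
        exact mul_ne_zero (gd2_last hs) (pow_ne_zero _ h1) hco
      · intro i _ hi
        have h2 : 3 * d - (i : ℕ) ≠ 0 := by
          intro h3
          apply hi
          apply Fin.ext
          have := i.isLt
          rw [Fin.val_last]
          omega
        rw [h0, zero_pow h2, mul_zero]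
      · intro hh
        exact absurd (Finset.mem_univ _) hh
    refine ⟨h0, ?_⟩
    rw [gd2_sum _ _ _ _ h0, hco, zero_div]
  have hdet : ∀ x x' : Cn 2, M'.mulVec x 0 ≠ 0 → M'.mulVec x' 0 ≠ 0 → x 0 * x' 1 ≠ x 1 * x' 0 →
      M'.mulVec x 1 / M'.mulVec x 0 ≠ M'.mulVec x' 1 / M'.mulVec x' 0 := by
    intro x x' h0 h0' hne heq
    rw [div_eq_div_iff h0 h0'] at heq
    apply hne
    have hMx : M.mulVec (M'.mulVec x) = x := by
      rw [Matrix.mulVec_mulVec, hs.left, Matrix.one_mulVec]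
    have hMx' : M.mulVec (M'.mulVec x') = x' := by
      rw [Matrix.mulVec_mulVec, hs.left, Matrix.one_mulVec]
    generalize M'.mulVec x = p at *
    generalize M'.mulVec x' = p' at *
    rw [← hMx, ← hMx']
    simp only [Matrix.mulVec, dotProduct, Fin.sum_univ_two]
    linear_combination (M 0 1 * M 1 0 - M 0 0 * M 1 1) * heq
  obtain ⟨x₁, x₂, x₃, f1, f2, f3, h12, h13, h23⟩ := hs.three
  have hx1 : x₁ ≠ 0 := by
    rintro rfl
    simp at h12
  have hx2 : x₂ ≠ 0 := by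
    rintro rfl
    simp at h12
  have hx3 : x₃ ≠ 0 := by
    rintro rfl
    simp at h13
  obtain ⟨k1, r1⟩ := key x₁ hx1 f1
  obtain ⟨k2, r2⟩ := key x₂ hx2 f2
  obtain ⟨k3, r3⟩ := key x₃ hx3 f3
  refine ⟨?_, ?_, ?_⟩
  · apply le_antisymm
    · rw [Polynomial.natDegree_le_iff_coeff_eq_zero]
      intro m hm
      simp only [Dat.P, Polynomial.finsetSum_coeff, Polynomial.coeff_C_mul_X_pow]
      refine Finset.sum_eq_zero fun j _ => ?_
      rw [if_neg]
      intro hh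
      have := j.isLt
      omega
    · apply Polynomial.le_natDegree_of_ne_zero
      have := gd2_coeff S (Fin.last (3 * d))
      rw [Fin.val_last] at this
      rw [this]
      exact hlast
  · have := gd2_coeff S 0
    rw [Fin.val_zero] at this
    rw [this]
    exact hzero
  · refine three_of_special h.gp hs.cone (fun i => S.X (S.cf i)) (fun i => Θ (S.cf i) y₀ / Θ b₀ y₀) (fun i => gd2_reg hs _) (div_ne_zero (gd2_last hs) hs.base)
      (hdet x₁ x₂ k1 k2 h12) (hdet x₁ x₃ k1 k3 h13) (hdet x₂ x₃ k2 k3 h23) r1 r2 r3 (one_ne_zero : (1 : K) ≠ 0) S.P ?_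
    simp only [one_mul, Dat.P]

end Pool.Agent.LG
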