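import Pool.Agent.LG.Defs

/-!
# LG Nw: the distance of `w` to the roots

Let `c_i = (hasseDeriv i q) (w)`, `T = r - w`.  `q (r) = ∑_{i ≤ D} c_i T^i = 0` (`Polynomial.taylor`, `Polynomial.taylor_coeff`, `Polynomial.sum_taylor_eq` or `Polynomial.taylor_eval`), so `c_0 = - ∑_{1 ≤ i ≤ D} c_i T^i`.  If `μ ν(T) > e (μ A - G)`, then for
`i ≥ 1`: `μ ν (c_i T^i) = μ e v (c_i) + i μ ν (T) > μ e v (c_i) + i e (μ A - G) ≥ μ e v (c_0)` (sum of `hB`), so the sum has order `> ν (c_0)`: contradiction.
-/

set_option autoImplicit false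

open MvPolynomial
open Pool.Agent.H23 (RatForm regularForms PrimeDivisorOver fc dualDer)

noncomputable section

namespace Pool.Agent.LG

variable {K : Type} [Field K] [Algebra ℂ K] {k n D : ℕ} {ι : Type}

/-- the order of `-a` is the order of `a` -/
private theorem iv_neg {L : Type} [Field L] [Algebra ℂ L] {ν : L → ℤ} (hν : IV L ν) {a : L} (ha : a ≠ 0) : ν (-a) = ν a := by
  have h1 : ν (algebraMap ℂ L (-1)) = 0 := hν.const (-1) (by norm_num)
  have h2 : algebraMap ℂ L (-1) = -1 := by rw [map_neg, map_one]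
  have h3 := hν.mul (a := -1) (b := a) (by norm_num) ha
  rw [h2] at h1
  rw [h1, zero_add] at h3
  rw [← h3, neg_one_mul]

private theorem iv_one {L : Type} [Field L] [Algebra ℂ L] {ν : L → ℤ} (hν : IV L ν) : ν 1 = 0 := by
  have h := hν.mul (a := 1) (b := 1) one_ne_zero one_ne_zero
  rw [one_mul] at h
  omega

private theorem iv_pow {L : Type} [Field L] [Algebra ℂ L] {ν : L → ℤ} (hν : IV L ν) {a : L} (ha : a ≠ 0) (i : ℕ) : ν (a ^ i) = i * ν a := by
  induction i with
  | zero => rw [pow_zero, iv_one hν]; simp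
  | succ i ih =>
    rw [pow_succ, hν.mul (pow_ne_zero i ha) ha, ih]
    push_cast
    ring

/-- a nonzero sum of terms of order `> B` has order `> B` -/
private theorem iv_sum {L : Type} [Field L] [Algebra ℂ L] {ν : L → ℤ} (hν : IV L ν) (B : ℤ) (s : Finset ℕ) (f : ℕ → L) (h : ∀ i ∈ s, f i ≠ 0 → B < ν (f i)) :
    ∑ i ∈ s, f i ≠ 0 → B < ν (∑ i ∈ s, f i) := by
  classical
  induction s using Finset.induction_on with
  | empty => intro h0; exact absurd (Finset.sum_empty) h0
  | insert a s ha ih =>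
    intro h0
    rw [Finset.sum_insert ha] at h0 ⊢
    have ih' := ih (fun i hi => h i (Finset.mem_insert_of_mem hi))
    by_cases h1 : f a = 0
    · rw [h1, zero_add] at h0 ⊢
      exact ih' h0
    · by_cases h2 : ∑ i ∈ s, f i = 0
      · rw [h2, add_zero]
        exact h a (Finset.mem_insert_self _ _) h1
      · have h3 := hν.add h1 h2 h0
        have h4 := ih' h2
        have h5 := h a (Finset.mem_insert_self _ _) h1
        exact lt_of_lt_of_le (lt_min h5 h4) h3

theorem newton {K' : Type} [Field K'] [Algebra K K'] [Algebra ℂ K'] {v : K → ℤ} {ν : K' → ℤ} {e : ℤ} (he : 1 ≤ e) (hν : IV K' ν) (hext : ∀ a : K, a ≠ 0 → ν (algebraMap K K' a) = e * v a)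
    {q : Polynomial K} (hq : q.natDegree = D) {w : K} (hc : ∀ i ≤ D, (Polynomial.hasseDeriv i q).eval w ≠ 0) {μ A G : ℤ} (hμ : 1 ≤ μ)
    (hB : ∀ i < D, μ * (v ((Polynomial.hasseDeriv i q).eval w) - v ((Polynomial.hasseDeriv (i + 1) q).eval w)) ≤ μ * A - G)
    {r : K'} (hr : (q.map (algebraMap K K')).eval r = 0) (hwr : algebraMap K K' w ≠ r) : μ * ν (algebraMap K K' w - r) ≤ e * (μ * A - G) := by
  set φ := algebraMap K K' with hφ
  set T : K' := r - φ w with hT
  set c : ℕ → K := fun i => (Polynomial.hasseDeriv i q).eval w with hcdef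
  have hT0 : T ≠ 0 := sub_ne_zero.mpr (fun h => hwr h.symm)
  have hwT : φ w - r = -T := by rw [hT]; ring
  rw [hwT, iv_neg hν hT0]
  by_contra hcon
  push Not at hcon
  -- the expansion
  have hexp : ∑ i ∈ Finset.range (D + 1), φ (c i) * T ^ i = 0 := by
    have h1 : (Polynomial.taylor w q).natDegree = D := by rw [Polynomial.natDegree_taylor, hq]
    have h2 : ((Polynomial.taylor w q).map φ).eval T = 0 := by
      rw [Polynomial.taylor_apply, Polynomial.map_comp, Polynomial.eval_comp]
      have h3 : Polynomial.eval T (Polynomial.map φ (Polynomial.X + Polynomial.C w)) = r := by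
        simp [hT]
      rw [h3, hr]
    have h4 : ((Polynomial.taylor w q).map φ).natDegree ≤ D := le_trans (Polynomial.natDegree_map_le) (le_of_eq h1)
    rw [Polynomial.eval_eq_sum_range' (lt_of_le_of_lt h4 (Nat.lt_succ_self D))] at h2
    rw [← h2]
    refine Finset.sum_congr rfl fun i _ => ?_
    rw [Polynomial.coeff_map, Polynomial.taylor_coeff]
  rw [Finset.sum_range_succ'] at hexp
  have hc0 : φ (c 0) ≠ 0 := by
    rw [Ne, map_eq_zero]
    exact hc 0 (Nat.zero_le _)
  have hs : ∑ i ∈ Finset.range D, φ (c (i + 1)) * T ^ (i + 1) = -φ (c 0) := by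
    rw [pow_zero, mul_one] at hexp
    exact eq_neg_of_add_eq_zero_left hexp
  have hsne : ∑ i ∈ Finset.range D, φ (c (i + 1)) * T ^ (i + 1) ≠ 0 := by
    rw [hs]; exact neg_ne_zero.mpr hc0
  -- the telescoping sum of `hB`
  have htel : ∀ j ≤ D, μ * (v (c 0) - v (c j)) ≤ j * (μ * A - G) := by
    intro j
    induction j with
    | zero => intro _; simp
    | succ j ih =>
      intro hj
      have h1 := ih (by omega)
      have h2 := hB j (by omega)
      have h3 : μ * (v (c j) - v (c (j + 1))) ≤ μ * A - G := h2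
      push_cast
      nlinarith
  have hkey : ν (φ (c 0)) < ν (∑ i ∈ Finset.range D, φ (c (i + 1)) * T ^ (i + 1)) := by
    refine iv_sum hν _ _ _ ?_ hsne
    intro i hi _
    have hi' : i + 1 ≤ D := Finset.mem_range.mp hi
    have hci : c (i + 1) ≠ 0 := hc (i + 1) hi'
    have hci' : φ (c (i + 1)) ≠ 0 := by rw [Ne, map_eq_zero]; exact hci
    rw [hν.mul hci' (pow_ne_zero _ hT0), iv_pow hν hT0, hext _ hci, hext _ (hc 0 (Nat.zero_le _))]
    have h1 := htel (i + 1) hi'
    have h2 : ((i : ℤ) + 1) * (e * (μ * A - G)) < ((i : ℤ) + 1) * (μ * ν T) := by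
      apply mul_lt_mul_of_pos_left hcon
      positivity
    have h3 : e * (μ * (v (c 0) - v (c (i + 1)))) ≤ e * (((i : ℤ) + 1) * (μ * A - G)) := by
      apply mul_le_mul_of_nonneg_left _ (by omega)
      have := h1
      push_cast at this
      exact this
    have h4 : μ * (e * v (c 0)) < μ * (e * v (c (i + 1)) + ((i + 1 : ℕ) : ℤ) * ν T) := by
      push_cast
      nlinarith
    exact lt_of_mul_lt_mul_left h4 (by omega)
  rw [hs, iv_neg hν hc0] at hkey
  exact lt_irrefl _ hkey

end Pool.Agent.LG
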