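import Pool.Agent.LG.GD

/-!
# LG Rg: calculus of the relation `RegAt`

`RegAt ξ a f c`: `f · B(ξ) = A(ξ)`, `A`, `B` homogeneous of the same degree, `B(a) ≠ 0`, `A(a) = c B(a)`.

* `const`, `add`, `neg`, `sub`, `mul`, `pow`, `sum`, `prod`: formal (common denominators).
* `aeval_ne_zero`: if `B(ξ) = 0` then `B ∈ Q` (`GP.zero`), so `B(a) = 0` for `Cone Q a`.
* `unique`: `f B(ξ) = A(ξ)`, `f B'(ξ) = A'(ξ)` give `(A B' - A' B)(ξ) = 0`, homogeneous, so it is in `Q`, and `0` at `a`.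
* `ne_zero`: `unique` and `const 0`.  `inv`, `div`: `A(a) ≠ 0`.
-/

set_option autoImplicit false

open MvPolynomial

noncomputable section

namespace Pool.Agent.LG

variable {K : Type} [Field K] [Algebra ℂ K] {N : ℕ} {ξ : Fin (N + 1) → K} {a : Fin (N + 1) → ℂ} {f g : K} {c e : ℂ} {Q : Ideal (MvPolynomial (Fin (N + 1)) ℂ)}

theorem RegAt.const (ξ : Fin (N + 1) → K) (a : Fin (N + 1) → ℂ) (c : ℂ) : RegAt ξ a (algebraMap ℂ K c) c := by
  refine ⟨0, C c, 1, isHomogeneous_C _ c, isHomogeneous_one _ _, ?_, ?_, ?_⟩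
  · rw [map_one]
    exact one_ne_zero
  · rw [map_one, mul_one, aeval_C]
  · rw [map_one, mul_one, eval_C]

theorem RegAt.one (ξ : Fin (N + 1) → K) (a : Fin (N + 1) → ℂ) : RegAt ξ a 1 1 := by
  have h := RegAt.const ξ a 1
  rwa [map_one] at h

theorem RegAt.zero (ξ : Fin (N + 1) → K) (a : Fin (N + 1) → ℂ) : RegAt ξ a 0 0 := by
  have h := RegAt.const ξ a 0
  rwa [map_zero] at h

theorem RegAt.add (hf : RegAt ξ a f c) (hg : RegAt ξ a g e) : RegAt ξ a (f + g) (c + e) := by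
  obtain ⟨D, A, B, hA, hB, hBa, h1, h2⟩ := hf
  obtain ⟨D', A', B', hA', hB', hBa', h1', h2'⟩ := hg
  refine ⟨D + D', A * B' + B * A', B * B', (hA.mul hB').add (hB.mul hA'), hB.mul hB', ?_, ?_, ?_⟩
  · rw [map_mul]
    exact mul_ne_zero hBa hBa'
  · rw [map_add, map_mul, map_mul, map_mul, ← h1, ← h1']
    ring
  · rw [map_add, map_mul, map_mul, map_mul, h2, h2']
    ring

theorem RegAt.mul (hf : RegAt ξ a f c) (hg : RegAt ξ a g e) : RegAt ξ a (f * g) (c * e) := by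
  obtain ⟨D, A, B, hA, hB, hBa, h1, h2⟩ := hf
  obtain ⟨D', A', B', hA', hB', hBa', h1', h2'⟩ := hg
  refine ⟨D + D', A * A', B * B', hA.mul hA', hB.mul hB', ?_, ?_, ?_⟩
  · rw [map_mul]
    exact mul_ne_zero hBa hBa'
  · rw [map_mul, map_mul, ← h1, ← h1']
    ring
  · rw [map_mul, map_mul, h2, h2']
    ring

theorem RegAt.neg (hf : RegAt ξ a f c) : RegAt ξ a (-f) (-c) := by
  have h := (RegAt.const ξ a (-1)).mul hf
  rwa [map_neg, map_one, neg_one_mul, neg_one_mul] at h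

theorem RegAt.sub (hf : RegAt ξ a f c) (hg : RegAt ξ a g e) : RegAt ξ a (f - g) (c - e) := by
  rw [sub_eq_add_neg, sub_eq_add_neg]
  exact hf.add hg.neg

theorem RegAt.pow (hf : RegAt ξ a f c) (n : ℕ) : RegAt ξ a (f ^ n) (c ^ n) := by
  induction n with
  | zero =>
    rw [pow_zero, pow_zero]
    exact RegAt.one ξ a
  | succ n ih =>
    rw [pow_succ, pow_succ]
    exact ih.mul hf

theorem RegAt.sum {σ : Type} (s : Finset σ) (u : σ → K) (v : σ → ℂ) (h : ∀ i ∈ s, RegAt ξ a (u i) (v i)) : RegAt ξ a (∑ i ∈ s, u i) (∑ i ∈ s, v i) := by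
  classical
  induction s using Finset.induction_on with
  | empty =>
    rw [Finset.sum_empty, Finset.sum_empty]
    exact RegAt.zero ξ a
  | insert i s hi ih =>
    rw [Finset.sum_insert hi, Finset.sum_insert hi]
    exact (h i (Finset.mem_insert_self i s)).add (ih fun j hj => h j (Finset.mem_insert_of_mem hj))

theorem RegAt.prod {σ : Type} (s : Finset σ) (u : σ → K) (v : σ → ℂ) (h : ∀ i ∈ s, RegAt ξ a (u i) (v i)) : RegAt ξ a (∏ i ∈ s, u i) (∏ i ∈ s, v i) := by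
  classical
  induction s using Finset.induction_on with
  | empty =>
    rw [Finset.prod_empty, Finset.prod_empty]
    exact RegAt.one ξ a
  | insert i s hi ih =>
    rw [Finset.prod_insert hi, Finset.prod_insert hi]
    exact (h i (Finset.mem_insert_self i s)).mul (ih fun j hj => h j (Finset.mem_insert_of_mem hj))

theorem aeval_ne_zero (hgp : GP Q ξ) (ha : Cone Q a) {D : ℕ} {B : MvPolynomial (Fin (N + 1)) ℂ} (hB : B.IsHomogeneous D) (h : eval a B ≠ 0) : aeval ξ B ≠ 0 :=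
  fun h0 => h (ha.2 B ((hgp.zero D B hB).1 h0))

theorem RegAt.unique (hgp : GP Q ξ) (ha : Cone Q a) (h : RegAt ξ a f c) (h' : RegAt ξ a f e) : c = e := by
  obtain ⟨D, A, B, hA, hB, hBa, h1, h2⟩ := h
  obtain ⟨D', A', B', hA', hB', hBa', h1', h2'⟩ := h'
  have h3 : (A * B' - B * A').IsHomogeneous (D + D') := (hA.mul hB').sub (hB.mul hA')
  have h4 : aeval ξ (A * B' - B * A') = 0 := by
    rw [map_sub, map_mul, map_mul, ← h1, ← h1']
    ring
  have h5 := ha.2 _ ((hgp.zero _ _ h3).1 h4)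
  rw [map_sub, map_mul, map_mul, h2, h2'] at h5
  have h6 : (c - e) * (eval a B * eval a B') = 0 := by
    rw [← h5]
    ring
  exact sub_eq_zero.1 ((mul_eq_zero.1 h6).resolve_right (mul_ne_zero hBa hBa'))

theorem RegAt.ne_zero (hgp : GP Q ξ) (ha : Cone Q a) (h : RegAt ξ a f c) (hc : c ≠ 0) : f ≠ 0 := by
  intro h0
  rw [h0] at h
  exact hc (RegAt.unique hgp ha h (RegAt.zero ξ a))

theorem RegAt.inv (hgp : GP Q ξ) (ha : Cone Q a) (h : RegAt ξ a f c) (hc : c ≠ 0) : RegAt ξ a f⁻¹ c⁻¹ := by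
  have hf := RegAt.ne_zero hgp ha h hc
  obtain ⟨D, A, B, hA, hB, hBa, h1, h2⟩ := h
  refine ⟨D, B, A, hB, hA, ?_, ?_, ?_⟩
  · rw [h2]
    exact mul_ne_zero hc hBa
  · rw [← h1, ← mul_assoc, inv_mul_cancel₀ hf, one_mul]
  · rw [h2, ← mul_assoc, inv_mul_cancel₀ hc, one_mul]

theorem RegAt.div (hgp : GP Q ξ) (ha : Cone Q a) (h : RegAt ξ a f c) (h' : RegAt ξ a g e) (he : e ≠ 0) : RegAt ξ a (f / g) (c / e) := by
  rw [div_eq_mul_inv, div_eq_mul_inv]
  exact h.mul (h'.inv hgp ha he)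

theorem regAt_ratio (hgp : GP Q ξ) (ha : Cone Q a) {D : ℕ} {A B : MvPolynomial (Fin (N + 1)) ℂ} (hA : A.IsHomogeneous D) (hB : B.IsHomogeneous D) (h : eval a B ≠ 0) :
    RegAt ξ a (aeval ξ A / aeval ξ B) (eval a A / eval a B) :=
  ⟨D, A, B, hA, hB, h, div_mul_cancel₀ _ (aeval_ne_zero hgp ha hB h), (div_mul_cancel₀ _ h).symm⟩

end Pool.Agent.LG
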