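import Pool.Agent.LG.Rg

/-!
# LG Rp: the function field and the points of the cone

* `exists_repr`: the quotients `A(ξ) / B(ξ)`, `A`, `B` homogeneous of the same degree, `B ∉ Q` (that is `B(ξ) ≠ 0`), form a subfield of `K` which contains `ℂ` and the `ξ i / ξ j`; so it is `K` (`GP.gen`).
* `exists_cone_point`: take `j` with `ξ j ≠ 0`, then `X j ∉ Q` (`GP.zero`); `B X_j ∉ Q`, and `Q` is prime: by the Nullstellensatz (`MvPolynomial.vanishingIdeal_zeroLocus_eq_radical` or `H62.FC.mem_of_vanishes`) there is a zero `a` of `Q`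
  with `B(a) a_j ≠ 0`.
* `eq_of_regAt`: if `f ≠ g`: `exists_repr` for `f - g`, `A'(ξ) ≠ 0`, so `A' ∉ Q`; take a point with `A' B' B ≠ 0`; there `f - g` has the value `0` and a nonzero value: `RegAt.unique`.
-/

set_option autoImplicit false

open MvPolynomial

noncomputable section

namespace Pool.Agent.LG

variable {K : Type} [Field K] [Algebra ℂ K] {N : ℕ} {ξ : Fin (N + 1) → K} {a : Fin (N + 1) → ℂ} {f g : K} {c e : ℂ} {Q : Ideal (MvPolynomial (Fin (N + 1)) ℂ)}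

/-- the elements of the form `A(ξ) / B(ξ)` -/
private def Rpr (Q : Ideal (MvPolynomial (Fin (N + 1)) ℂ)) (ξ : Fin (N + 1) → K) (f : K) : Prop :=
  ∃ (D : ℕ) (A B : MvPolynomial (Fin (N + 1)) ℂ), A.IsHomogeneous D ∧ B.IsHomogeneous D ∧ B ∉ Q ∧ f * aeval ξ B = aeval ξ A

private theorem rpr_const (hQ : Q.IsPrime) (c : ℂ) : Rpr Q ξ (algebraMap ℂ K c) :=
  ⟨0, C c, 1, isHomogeneous_C _ _, isHomogeneous_one _ _, fun h => hQ.ne_top ((Ideal.eq_top_iff_one Q).2 h), by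
    rw [map_one, mul_one, aeval_C]⟩

private theorem rpr_add (hQ : Q.IsPrime) (hf : Rpr Q ξ f) (hg : Rpr Q ξ g) : Rpr Q ξ (f + g) := by
  obtain ⟨D, A, B, hA, hB, hBQ, h⟩ := hf
  obtain ⟨D', A', B', hA', hB', hBQ', h'⟩ := hg
  refine ⟨D + D', A * B' + A' * B, B * B', (hA.mul hB').add ?_, hB.mul hB', fun h2 => (hQ.mem_or_mem h2).elim hBQ hBQ', ?_⟩
  · rw [add_comm D D']
    exact hA'.mul hB
  · rw [map_mul, map_add, map_mul, map_mul, ← h, ← h']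
    ring

private theorem rpr_mul (hQ : Q.IsPrime) (hf : Rpr Q ξ f) (hg : Rpr Q ξ g) : Rpr Q ξ (f * g) := by
  obtain ⟨D, A, B, hA, hB, hBQ, h⟩ := hf
  obtain ⟨D', A', B', hA', hB', hBQ', h'⟩ := hg
  refine ⟨D + D', A * A', B * B', hA.mul hA', hB.mul hB', fun h2 => (hQ.mem_or_mem h2).elim hBQ hBQ', ?_⟩
  rw [map_mul, map_mul, ← h, ← h']
  ring

private theorem rpr_inv (hQ : Q.IsPrime) (hgp : GP Q ξ) (hf : Rpr Q ξ f) : Rpr Q ξ f⁻¹ := by
  by_cases h0 : f = 0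
  · rw [h0, inv_zero, ← map_zero (algebraMap ℂ K)]
    exact rpr_const hQ 0
  obtain ⟨D, A, B, hA, hB, hBQ, h⟩ := hf
  have hB0 : aeval ξ B ≠ 0 := fun h1 => hBQ ((hgp.zero D B hB).1 h1)
  have hA0 : aeval ξ A ≠ 0 := h ▸ mul_ne_zero h0 hB0
  refine ⟨D, B, A, hB, hA, fun h1 => hA0 ((hgp.zero D A hA).2 h1), ?_⟩
  rw [← h, ← mul_assoc, inv_mul_cancel₀ h0, one_mul]

private theorem rpr_ratio (hQ : Q.IsPrime) (hgp : GP Q ξ) (i j : Fin (N + 1)) : Rpr Q ξ (ξ i / ξ j) := by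
  by_cases h0 : ξ j = 0
  · rw [h0, div_zero, ← map_zero (algebraMap ℂ K)]
    exact rpr_const hQ 0
  refine ⟨1, X i, X j, isHomogeneous_X _ _, isHomogeneous_X _ _, fun h1 => h0 ?_, ?_⟩
  · have h2 := (hgp.zero 1 (X j) (isHomogeneous_X _ _)).2 h1
    rwa [aeval_X] at h2
  · rw [aeval_X, aeval_X, div_mul_cancel₀ _ h0]

theorem exists_repr (hQ : Q.IsPrime) (hgp : GP Q ξ) (f : K) :
    ∃ (D : ℕ) (A B : MvPolynomial (Fin (N + 1)) ℂ), A.IsHomogeneous D ∧ B.IsHomogeneous D ∧ B ∉ Q ∧ f * aeval ξ B = aeval ξ A := by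
  let F : IntermediateField ℂ K :=
    { carrier := {f | Rpr Q ξ f}
      mul_mem' := fun h h' => rpr_mul hQ h h'
      add_mem' := fun h h' => rpr_add hQ h h'
      algebraMap_mem' := rpr_const hQ
      inv_mem' := fun f h => rpr_inv hQ hgp h }
  have h1 : IntermediateField.adjoin ℂ {y | ∃ i j, y = ξ i / ξ j} ≤ F := by
    rw [IntermediateField.adjoin_le_iff]
    rintro y ⟨i, j, rfl⟩
    exact rpr_ratio hQ hgp i j
  rw [hgp.gen] at h1
  exact h1 (IntermediateField.mem_top (x := f))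

theorem exists_cone_point (hQ : Q.IsPrime) (hgp : GP Q ξ) {D : ℕ} {B : MvPolynomial (Fin (N + 1)) ℂ} (hB : B.IsHomogeneous D) (h : B ∉ Q) : ∃ a, Cone Q a ∧ eval a B ≠ 0 := by
  obtain ⟨j, hj⟩ : ∃ j, ξ j ≠ 0 := by
    by_contra h1
    push Not at h1
    exact hgp.ne (funext h1)
  have hX : (X j : MvPolynomial (Fin (N + 1)) ℂ) ∉ Q := fun h1 => hj (by
    have h2 := (hgp.zero 1 (X j) (isHomogeneous_X _ _)).2 h1
    rwa [aeval_X] at h2)
  have hBX : B * X j ∉ Q := fun h1 => (hQ.mem_or_mem h1).elim h hX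
  rw [← (hQ.radical), ← vanishingIdeal_zeroLocus_eq_radical (K := ℂ) Q, mem_vanishingIdeal_iff] at hBX
  push Not at hBX
  obtain ⟨a, ha, hne⟩ := hBX
  rw [mem_zeroLocus_iff] at ha
  have h3 : eval a B * a j ≠ 0 := by
    intro h4
    apply hne
    simpa using h4
  refine ⟨a, ⟨fun h4 => ?_, fun F hF => ?_⟩, left_ne_zero_of_mul h3⟩
  · rw [h4] at h3
    exact h3 (mul_zero _)
  · simpa using ha F hF

theorem eq_of_regAt (hQ : Q.IsPrime) (hgp : GP Q ξ) {D : ℕ} {B : MvPolynomial (Fin (N + 1)) ℂ} (hB : B.IsHomogeneous D) (hBQ : B ∉ Q) (h : ∀ a, Cone Q a → eval a B ≠ 0 → ∃ c, RegAt ξ a f c ∧ RegAt ξ a g c) : f = g := by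
  by_contra hfg
  have h0 : f - g ≠ 0 := sub_ne_zero.2 hfg
  obtain ⟨D', A', B', hA', hB', hBQ', h1⟩ := exists_repr hQ hgp (f - g)
  have hB0 : aeval ξ B' ≠ 0 := fun h2 => hBQ' ((hgp.zero D' B' hB').1 h2)
  have hA0 : aeval ξ A' ≠ 0 := h1 ▸ mul_ne_zero h0 hB0
  have hAQ : A' ∉ Q := fun h2 => hA0 ((hgp.zero D' A' hA').2 h2)
  have hP : A' * B' * B ∉ Q := fun h2 => (hQ.mem_or_mem h2).elim
    (fun h3 => (hQ.mem_or_mem h3).elim hAQ hBQ') hBQ
  obtain ⟨a, ha, hne⟩ := exists_cone_point hQ hgp ((hA'.mul hB').mul hB) hP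
  rw [map_mul, map_mul] at hne
  have hBa := right_ne_zero_of_mul hne
  have hAa := left_ne_zero_of_mul (left_ne_zero_of_mul hne)
  have hB'a := right_ne_zero_of_mul (left_ne_zero_of_mul hne)
  obtain ⟨c, hf, hg⟩ := h a ha hBa
  have h2 : RegAt ξ a (f - g) (c - c) := hf.sub hg
  have h3 : RegAt ξ a (f - g) (eval a A' / eval a B') :=
    ⟨D', A', B', hA', hB', hB'a, h1, (div_mul_cancel₀ _ hB'a).symm⟩
  have h4 := RegAt.unique hgp ha h2 h3
  rw [sub_self] at h4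
  exact (div_ne_zero hAa hB'a) h4.symm

end Pool.Agent.LG
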