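import Pool.Agent.LG.Gf

/-!
# LG RvA: the symmetry `w ↦ 1 / w`

`S.rev`: `X`, `δ` the same, `w⁻¹`, coefficients in reverse order.  `S.rev.P` is the reverse of `S.P` (the roots are the inverses of the roots of `S.P`, no root is `0`), `S.rev.F = S.F / w ^ D`.
`(w⁻¹ - r⁻¹)⁻¹ - (w⁻¹ - r'⁻¹)⁻¹ = - w² ((w - r)⁻¹ - (w - r')⁻¹)`; the number `m0` of the ordered pairs is even, so `S.rev.pr K' = w ^ (2 m0) * S.pr K'`.
`dd (w⁻¹) = - w⁻² • dd w`.
-/

set_option autoImplicit false

open MvPolynomial
open Pool.Agent.H23 (RatForm regularForms PrimeDivisorOver fc dualDer)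

noncomputable section

namespace Pool.Agent.LG

variable {K : Type} [Field K] [Algebra ℂ K] {k n D : ℕ} {ι : Type}

private theorem rvA_rev_rev (S : Dat K ι n D) : S.rev.rev = S := by
  cases S
  simp [Dat.rev]

private theorem rvA_coeff (S : Dat K ι n D) (i : Fin (D + 1)) : S.P.coeff (i : ℕ) = S.X (S.cf i) := by
  simp only [Dat.P, Polynomial.finsetSum_coeff, Polynomial.coeff_C_mul_X_pow]
  rw [Finset.sum_eq_single i]
  · simp
  · intro j _ hj
    rw [if_neg]
    intro h
    exact hj (Fin.ext h.symm)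
  · intro h
    exact absurd (Finset.mem_univ i) h

private theorem rvA_coeff_gt (S : Dat K ι n D) {i : ℕ} (hi : D < i) : S.P.coeff i = 0 := by
  simp only [Dat.P, Polynomial.finsetSum_coeff, Polynomial.coeff_C_mul_X_pow]
  refine Finset.sum_eq_zero fun j _ => ?_
  rw [if_neg]
  intro h
  have := j.isLt
  omega

private theorem rvA_P (S : Dat K ι n D) : S.rev.P = S.P.reflect D := by
  ext m
  rw [Polynomial.coeff_reflect]
  by_cases hm : m ≤ D
  · rw [Polynomial.revAt_le hm]
    have h1 := rvA_coeff S.rev ⟨m, by omega⟩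
    have h2 := rvA_coeff S ⟨D - m, by omega⟩
    simp only at h1 h2
    rw [h1, h2]
    change S.X (S.cf (Fin.rev ⟨m, _⟩)) = _
    have : Fin.rev (⟨m, by omega⟩ : Fin (D + 1)) = ⟨D - m, by omega⟩ := by
      apply Fin.ext
      simp only [Fin.val_rev]
      omega
    rw [this]
  · rw [Polynomial.revAt_eq_self_of_lt (by omega), rvA_coeff_gt S.rev (by omega), rvA_coeff_gt S (by omega)]

private theorem rvA_P_ne {S : Dat K ι n D} (h3 : S.Three) : S.P ≠ 0 := by
  intro h
  apply h3.zero
  rw [h]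
  simp

private theorem rvA_coeff_zero_rev {S : Dat K ι n D} (h3 : S.Three) : S.rev.P.coeff 0 ≠ 0 := by
  rw [rvA_P, Polynomial.coeff_reflect, Polynomial.revAt_zero]
  have h := Polynomial.leadingCoeff_ne_zero.mpr (rvA_P_ne h3)
  rwa [Polynomial.leadingCoeff, h3.deg] at h

private theorem rvA_deg_rev {S : Dat K ι n D} (h3 : S.Three) : S.rev.P.natDegree = D := by
  apply le_antisymm
  · rw [Polynomial.natDegree_le_iff_coeff_eq_zero]
    intro N hN
    exact rvA_coeff_gt S.rev hN
  · apply Polynomial.le_natDegree_of_ne_zero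
    rw [rvA_P, Polynomial.coeff_reflect, Polynomial.revAt_le le_rfl, Nat.sub_self]
    exact h3.zero

private theorem rvA_splits_reverse {L : Type} [Field L] {f : Polynomial L} (h : f.Splits) : f.reverse.Splits := by
  induction h using Submonoid.closure_induction with
  | mem x hx =>
    rcases hx with ⟨a, rfl⟩ | ⟨a, rfl⟩
    · rw [Polynomial.reverse_C]
      exact Polynomial.Splits.C a
    · refine Polynomial.Splits.of_natDegree_le_one ?_
      refine (Polynomial.reverse_natDegree_le _).trans ?_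
      exact (Polynomial.natDegree_X_add_C a).le
  | one =>
    have : (1 : Polynomial L).reverse = 1 := by
      have := Polynomial.reverse_C (1 : L)
      simpa using this
    rw [this]
    exact Polynomial.Splits.one
  | mul x y _ _ hx hy =>
    rw [Polynomial.reverse_mul_of_domain]
    exact hx.mul hy

private theorem rvA_map {S : Dat K ι n D} (h3 : S.Three) (K' : Type) [Field K'] [Algebra K K'] :
    S.rev.P.map (algebraMap K K') = (S.P.map (algebraMap K K')).reverse := by
  rw [rvA_P, ← Polynomial.reflect_map, Polynomial.reverse, Polynomial.natDegree_map, h3.deg]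

private theorem rvA_splits {S : Dat K ι n D} (h3 : S.Three) (K' : Type) [Field K'] [Algebra K K'] (h : (S.P.map (algebraMap K K')).Splits) :
    (S.rev.P.map (algebraMap K K')).Splits := by
  rw [rvA_map h3]
  exact rvA_splits_reverse h

open Classical in
private theorem rvA_roots {S : Dat K ι n D} (h3 : S.Three) (K' : Type) [Field K'] [Algebra K K'] :
    (S.rev.P.map (algebraMap K K')).roots.toFinset = ((S.P.map (algebraMap K K')).roots.toFinset).image (fun x => x⁻¹) := by
  have key : ∀ {T : Dat K ι n D}, T.P.coeff 0 ≠ 0 → ∀ r : K', r ∈ (T.P.map (algebraMap K K')).roots.toFinset ↔ (T.P.map (algebraMap K K')).eval r = 0 := by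
    intro T hT r
    rw [Multiset.mem_toFinset, Polynomial.mem_roots', Polynomial.IsRoot.def]
    constructor
    · exact fun h => h.2
    · intro h
      refine ⟨?_, h⟩
      intro h0
      apply hT
      have := Polynomial.map_eq_zero (algebraMap K K') |>.mp h0
      rw [this]
      simp
  have hz : ∀ {T : Dat K ι n D}, T.P.coeff 0 ≠ 0 → (T.P.map (algebraMap K K')).eval 0 ≠ 0 := by
    intro T hT h
    rw [← Polynomial.coeff_zero_eq_eval_zero, Polynomial.coeff_map, map_eq_zero] at h
    exact hT h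
  ext r
  rw [key (rvA_coeff_zero_rev h3), Finset.mem_image]
  have hrev : ∀ x : K', x ≠ 0 → ((S.rev.P.map (algebraMap K K')).eval x⁻¹ = 0 ↔ (S.P.map (algebraMap K K')).eval x = 0) := by
    intro x hx
    rw [rvA_map h3]
    let _inv : Invertible x := invertibleOfNonzero hx
    have := Polynomial.eval₂_reverse_eq_zero_iff (RingHom.id K') x (S.P.map (algebraMap K K'))
    rw [invOf_eq_inv] at this
    simpa only [Polynomial.eval₂_id] using this
  constructor
  · intro h
    have hr : r ≠ 0 := by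
      rintro rfl
      exact hz (rvA_coeff_zero_rev h3) h
    refine ⟨r⁻¹, ?_, inv_inv r⟩
    rw [key h3.zero, ← hrev _ (inv_ne_zero hr), inv_inv]
    exact h
  · rintro ⟨a, ha, rfl⟩
    rw [key h3.zero] at ha
    have ha0 : a ≠ 0 := by
      rintro rfl
      exact hz h3.zero ha
    exact (hrev a ha0).mpr ha

private theorem rvA_rev_P_ne {S : Dat K ι n D} (h3 : S.Three) : S.rev.P ≠ 0 := by
  intro h
  apply rvA_coeff_zero_rev h3
  rw [h]
  simp

private theorem rvA_ncard {S : Dat K ι n D} (h3 : S.Three) :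
    (S.rev.P.rootSet S.rev.P.SplittingField).ncard = (S.P.rootSet S.P.SplittingField).ncard := by
  classical
  have hs : (S.P.map (algebraMap K S.P.SplittingField)).Splits := Polynomial.SplittingField.splits S.P
  have h1 := (card_eq S S.P.SplittingField hs (rvA_P_ne h3)).1
  have h2 := (card_eq S.rev S.P.SplittingField (rvA_splits h3 _ hs) (rvA_rev_P_ne h3)).1
  rw [← h1, ← h2]
  have h4 := rvA_roots h3 S.P.SplittingField
  have h5 : ∀ (A B : Finset S.P.SplittingField), A = B.image (fun x => x⁻¹) → A.card = B.card := by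
    intro A B hAB
    rw [hAB]
    exact Finset.card_image_of_injective _ inv_injective
  apply h5
  exact h4

theorem rev_three {S : Dat K ι n D} (h3 : S.Three) : S.rev.Three :=
  ⟨rvA_deg_rev h3, rvA_coeff_zero_rev h3, by rw [rvA_ncard h3]; exact h3.three⟩

theorem rev_F (S : Dat K ι n D) (hw : S.w ≠ 0) : S.rev.F = S.F * (S.w ^ D)⁻¹ := by
  have h1 : S.rev.F = ∑ i : Fin (D + 1), S.X (S.cf i.rev) * S.w⁻¹ ^ (i : ℕ) := rfl
  rw [h1, Dat.F, Finset.sum_mul, ← Equiv.sum_comp Fin.revPerm]
  refine Finset.sum_congr rfl fun i _ => ?_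
  simp only [Fin.revPerm_apply, Fin.rev_rev, mul_assoc]
  congr 1
  rw [inv_pow, eq_mul_inv_iff_mul_eq₀ (pow_ne_zero _ hw), inv_mul_eq_iff_eq_mul₀ (pow_ne_zero _ hw), ← pow_add]
  congr 1
  rw [Fin.val_rev]
  have := i.isLt
  omega

theorem rev_ch [Fintype ι] {S : Dat K ι n D} {v : K → ℤ} {c : ι} (h : CH S v c) : CH S.rev v c :=
  ⟨h.ne, h.le, h.mat⟩

theorem rev_m0 {S : Dat K ι n D} (h3 : S.Three) : S.rev.m0 = S.m0 := by
  rw [Dat.m0, Dat.m0, rvA_ncard h3]

theorem rev_f0 {S : Dat K ι n D} (h3 : S.Three) (hF : S.F ≠ 0) (hw : S.w ≠ 0) {f₀ : K} (h : S.IsF0 f₀) : S.rev.IsF0 (S.w ^ (2 * S.m0) * f₀) := by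
  classical
  intro K' _ _ hsp
  have hsp' : (S.P.map (algebraMap K K')).Splits := by
    have := rvA_splits (rev_three h3) K' hsp
    rwa [rvA_rev_rev] at this
  rw [map_mul, map_pow, h K' hsp']
  have hroots := rvA_roots h3 K'
  have hcard := (card_eq S K' hsp' (rvA_P_ne h3)).2
  have hw' : algebraMap K K' S.w ≠ 0 := by
    rw [Ne, map_eq_zero]
    exact hw
  have hroot : ∀ r ∈ (S.P.map (algebraMap K K')).roots.toFinset, r ≠ 0 ∧ algebraMap K K' S.w ≠ r := by
    intro r hr
    rw [Multiset.mem_toFinset, Polynomial.mem_roots', Polynomial.IsRoot.def] at hr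
    constructor
    · rintro rfl
      have h' := hr.2
      rw [← Polynomial.coeff_zero_eq_eval_zero, Polynomial.coeff_map, map_eq_zero] at h'
      exact h3.zero h'
    · rintro rfl
      have h' := hr.2
      rw [Polynomial.eval_map, Polynomial.eval₂_at_apply, P_eval, map_eq_zero] at h'
      exact hF h'
  unfold Dat.pr
  rw [hroots]
  have hoff : (((S.P.map (algebraMap K K')).roots.toFinset).image (fun x => x⁻¹)).offDiag = (((S.P.map (algebraMap K K')).roots.toFinset).offDiag).image (fun p => (p.1⁻¹, p.2⁻¹)) := by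
    ext ⟨a, b⟩
    simp only [Finset.mem_offDiag, Finset.mem_image, Prod.mk.injEq, Prod.exists]
    constructor
    · rintro ⟨⟨x, hx, rfl⟩, ⟨y, hy, rfl⟩, hne⟩
      exact ⟨x, y, ⟨hx, hy, fun hxy => hne (by rw [hxy])⟩, rfl, rfl⟩
    · rintro ⟨x, y, ⟨hx, hy, hne⟩, rfl, rfl⟩
      exact ⟨⟨x, hx, rfl⟩, ⟨y, hy, rfl⟩, fun hxy => hne (inv_injective hxy)⟩
  rw [hoff, Finset.prod_image]
  · have hterm : ∀ p ∈ ((S.P.map (algebraMap K K')).roots.toFinset).offDiag,
        ((algebraMap K K' S.rev.w - p.1⁻¹)⁻¹ - (algebraMap K K' S.rev.w - p.2⁻¹)⁻¹) =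
          (-(algebraMap K K' S.w) ^ 2) * ((algebraMap K K' S.w - p.1)⁻¹ - (algebraMap K K' S.w - p.2)⁻¹) := by
      rintro ⟨a, b⟩ hp
      rw [Finset.mem_offDiag] at hp
      obtain ⟨ha0, haw⟩ := hroot a hp.1
      obtain ⟨hb0, hbw⟩ := hroot b hp.2.1
      have hrw : algebraMap K K' S.rev.w = (algebraMap K K' S.w)⁻¹ := by
        change algebraMap K K' (S.w⁻¹) = _
        rw [map_inv₀]
      rw [hrw]
      generalize algebraMap K K' S.w = W at hw' haw hbw
      simp only
      have key : ∀ r : K', r ≠ 0 → W ≠ r → (W⁻¹ - r⁻¹)⁻¹ = W - W ^ 2 * (W - r)⁻¹ := by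
        intro r hr hWr
        have h1 : W - r ≠ 0 := sub_ne_zero.mpr hWr
        have h2 : W⁻¹ - r⁻¹ = -(W - r) * (W * r)⁻¹ := by
          field_simp
          ring
        rw [h2, mul_inv, inv_inv, inv_neg]
        field_simp
        ring
      rw [key a ha0 haw, key b hb0 hbw]
      ring
    rw [Finset.prod_congr rfl hterm, Finset.prod_mul_distrib, Finset.prod_const, hcard]
    congr 1
    rw [pow_mul, neg_pow, ← pow_mul]
    have heven : Even S.m0 := by
      rw [Dat.m0]
      exact Nat.even_mul_pred_self _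
    rw [heven.neg_one_pow, one_mul, pow_mul]
  · rintro ⟨a, b⟩ _ ⟨c, d⟩ _ hpq
    simp only [Prod.mk.injEq] at hpq
    exact Prod.ext (inv_injective hpq.1) (inv_injective hpq.2)

theorem rev_tr {S : Dat K ι n D} (htr : Transcendental (IntermediateField.adjoin ℂ (Set.range S.X)) S.w) : Transcendental (IntermediateField.adjoin ℂ (Set.range S.rev.X)) S.rev.w := by
  change Transcendental (IntermediateField.adjoin ℂ (Set.range S.X)) (S.w⁻¹)
  intro h
  exact htr (IsAlgebraic.inv_iff.mp h)

theorem rev_wd (S : Dat K ι n D) (hw : S.w ≠ 0) (I : Fin k → Fin n) :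
    wd (sn (fun i => S.rev.δ (I i)) (dd S.rev.w)) = (-(S.w ^ 2)⁻¹ : K) • wd (sn (fun i => S.δ (I i)) (dd S.w)) := by
  have h1 : dd S.rev.w = (-(S.w ^ 2)⁻¹ : K) • dd S.w := by
    change KaehlerDifferential.D ℂ K (S.w⁻¹) = _
    rw [Derivation.leibniz_inv, inv_pow]
  have h2 : ∀ (x : Fin k → Ω[K⁄ℂ]) (y : Ω[K⁄ℂ]), sn x y = Function.update (sn x 0) (Fin.last k) y := by
    intro x y
    funext i
    refine Fin.lastCases ?_ (fun j => ?_) i
    · simp [sn]
    · simp [sn, Fin.snoc_castSucc]
  have h3 : (fun i => S.rev.δ (I i)) = fun i => S.δ (I i) := rfl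
  rw [h1, h3, h2, h2 _ (dd S.w)]
  unfold wd
  rw [AlternatingMap.map_update_smul]

end Pool.Agent.LG
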