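import Pool.Agent.LG.Fa
import Pool.Agent.LG.Co
import Pool.Agent.LG.Dl
import Pool.Agent.LG.Al

/-!
# LG Se: the choice of the data

`Geo.three` gives `(a₀, y₀)` in `U` with three points; `VMap.ex`: `q₀` with `V a₀ q₀`; `Geo.off`: `form θ y₀ q₀ ≠ 0`.  `exists_M`: `M`, `M'`.  `exists_coeff`: `Φ`.  `exists_fam_extra` (some `θ i y₀ ≠ 0`, because `form θ y₀ q₀ ≠ 0`) with `extra = Φ`: `Θ`, `cf`.  `V' a p = V a (M p)` is a `VMap` (`VMap.change`), `V' a₀ (M' q₀)`; `exists_w`: `w`.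
`Fam.chart y₀`: `b₀` with `Θ b₀ y₀ ≠ 0`, `nz_of_type`; `exists_val`: `X b`.  `exists_delta`: `δ`.  `algebraic_of_fin` for `V'` (its hypothesis `fin` for `V'`: `V (γ t) (M q)`).
-/

set_option autoImplicit false

open MvPolynomial Topology Filter
open Pool.Agent.PXF (Cn form IsThetaForm ThreePoints)

noncomputable section

namespace Pool.Agent.LG

variable {K : Type} [Field K] [Algebra ℂ K] {N κ d : ℕ}

/-- the chosen data -/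
structure Sel {s n : ℕ} (Q : Ideal (MvPolynomial (Fin (N + 1)) ℂ)) (ξ : Fin (N + 1) → K) (Λ : AddSubgroup (Cn (κ + 1))) (θ : Fin (d + 1) → Cn (κ + 1) → ℂ) (L : (Fin (N + 1) → ℂ) → Cn (κ + 1) → Prop)
    (V : (Fin (N + 1) → ℂ) → Cn 2 → Prop) (G : Fin s → MvPolynomial (Fin (N + 1)) ℂ) (Θ : Fin n → Cn (κ + 1) → ℂ) (M M' : Matrix (Fin 2) (Fin 2) ℂ) (a₀ : Fin (N + 1) → ℂ) (y₀ : Cn (κ + 1)) (b₀ : Fin n) (S : Dat K (Fin n) (κ + 1) (3 * d)) : Prop where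
  fam : Fam Λ θ Θ
  coeff : ∀ y (p : Cn 2), ∑ i, Θ (S.cf i) y * p 1 ^ (i : ℕ) * p 0 ^ (3 * d - i) = form θ y (M.mulVec p) ^ 3
  left : M * M' = 1
  right : M' * M = 1
  cone : Cone Q a₀
  inU : ∃ m, eval a₀ (G m) ≠ 0
  lift : L a₀ y₀
  three : ThreePoints θ y₀
  e0 : form θ y₀ (M.mulVec ![1, 0]) ≠ 0
  e1 : form θ y₀ (M.mulVec ![0, 1]) ≠ 0
  w_ne : S.w ≠ 0
  isV : IsV Q ξ (fun a p => V a (M.mulVec p)) S.w
  base : Θ b₀ y₀ ≠ 0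
  nz : NZ Q L (Θ b₀)
  val : ∀ b, IsVal Q ξ L (S.X b) (Θ b) (Θ b₀)
  chart : ∀ a y, Cone Q a → L a y → ∀ (c : Fin n) (b : Fin (κ + 1) → Fin n), Θ c y ≠ 0 → (Matrix.of fun i j => wr (Θ c) (Θ (b j)) i y).det ≠ 0 →
    ∃ M : Fin (κ + 1) → Fin n → K, (∀ i b, ∃ v, RegAt ξ a (M i b) v) ∧ ∀ i, S.δ i = ∑ b, M i b • dd (S.X b / S.X c)
  span : ∀ a, dd (S.X a) ∈ Submodule.span K (Set.range S.δ)
  alg : Algebra.IsAlgebraic (IntermediateField.adjoin ℂ (insert S.w (Set.range S.X))) K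

theorem exists_sel [Algebra.EssFiniteType ℂ K] {k : ℕ} {z : Fin k → K} (hz : IsTranscendenceBasis ℂ z) {s : ℕ} {Q : Ideal (MvPolynomial (Fin (N + 1)) ℂ)} {ξ : Fin (N + 1) → K} {Λ : AddSubgroup (Cn (κ + 1))} {θ : Fin (d + 1) → Cn (κ + 1) → ℂ}
    {L : (Fin (N + 1) → ℂ) → Cn (κ + 1) → Prop} {V : (Fin (N + 1) → ℂ) → Cn 2 → Prop} {G : Fin s → MvPolynomial (Fin (N + 1)) ℂ} (hΛ : Submodule.span ℝ (Λ : Set (Cn (κ + 1))) = ⊤) (hθ : IsThetaForm Λ θ) (h : Geo Q ξ Λ θ L V G) :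
    ∃ (n : ℕ) (Θ : Fin n → Cn (κ + 1) → ℂ) (M M' : Matrix (Fin 2) (Fin 2) ℂ) (a₀ : Fin (N + 1) → ℂ) (y₀ : Cn (κ + 1)) (b₀ : Fin n) (S : Dat K (Fin n) (κ + 1) (3 * d)), Sel Q ξ Λ θ L V G Θ M M' a₀ y₀ b₀ S := by
  obtain ⟨a₀, y₀, ha₀, hU, hLy, h3⟩ := h.three
  obtain ⟨q₀, hq₀, hVq⟩ := h.vmap.ex ha₀
  have hf0 : form θ y₀ q₀ ≠ 0 := h.off a₀ y₀ q₀ ha₀ hU hLy hVq
  obtain ⟨M, M', hMM, hM'M, he0, he1, hp0, hp1⟩ := exists_M (θ := θ) hq₀ ⟨q₀, hf0⟩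
  obtain ⟨Φ, hΦ, hΦf⟩ := exists_coeff hθ M
  have hθ0 : ∃ i y, θ i y ≠ 0 := by
    by_contra hcon
    push Not at hcon
    exact hf0 (by simp [form, hcon])
  obtain ⟨n, Θ, cf, hfam, hcf⟩ := exists_fam_extra hθ hθ0 hΛ Φ hΦ
  have hV' : VMap Q (fun a p => V a (M.mulVec p)) := h.vmap.change hMM
  have hVp : (fun a p => V a (M.mulVec p)) a₀ (M'.mulVec q₀) := by
    show V a₀ (M.mulVec (M'.mulVec q₀))
    rw [Matrix.mulVec_mulVec, hMM, Matrix.one_mulVec]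
    exact hVq
  obtain ⟨w, hw0, hwV⟩ := exists_w h.prime h.gp hV' ha₀ hVp hp0 hp1
  obtain ⟨b₀, _, hb₀, -⟩ := hfam.chart y₀
  have hnz : NZ Q L (Θ b₀) := nz_of_type h.reg (hfam.type b₀) ha₀ hLy hb₀
  have hX : ∀ b, ∃ f, IsVal Q ξ L f (Θ b) (Θ b₀) := fun b => exists_val h.prime h.gp h.lft h.reg (hfam.type b) (hfam.type b₀) hnz
  choose X hX using hX
  obtain ⟨δ, hδ, hspan⟩ := exists_delta hz hθ h.prime h.homog h.gp h.lft h.reg hfam hnz X hX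
  have halg := algebraic_of_fin hz h.prime h.homog h.gp h.lft hV' (fun γ y q hγ hc hl hv => h.fin γ y (M.mulVec q) hγ hc hl hv) hfam hnz X hX hwV
  refine ⟨n, Θ, M, M', a₀, y₀, b₀, ⟨X, δ, cf, w⟩, ?_⟩
  exact {
    fam := hfam
    coeff := fun y p => by
      rw [← hΦf y p]
      exact Finset.sum_congr rfl fun i _ => by simp only [hcf]
    left := hMM
    right := hM'M
    cone := ha₀
    inU := hU
    lift := hLy
    three := h3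
    e0 := he0
    e1 := he1
    w_ne := hw0
    isV := hwV
    base := hb₀
    nz := hnz
    val := hX
    chart := hδ
    span := hspan
    alg := halg }

end Pool.Agent.LG
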