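import Pool.Agent.LG.Wd

/-!
# LG Tr: functions of the base and differentials

`L` a field with `w` transcendental over it, `x i ∈ L`, `dx₁ ∧ … ∧ dx_k ∧ dw ≠ 0` (`K` has transcendence degree `k + 1`).
* `tr_alg`: `x, w` is a transcendence basis of `K` (`basis_of_wd`); if `l ∈ L` were transcendental over `ℂ(x)`, then `x, l, w` would be `k + 2` algebraically independent elements (`w` is transcendental over `L`).
* `tr_zero`: otherwise `x, l` is algebraically independent by `algInd_of_wd`, against `tr_alg`.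
* `tr_eval`: `dd (∑ a_j w^j) = ∑ w^j dd a_j + (∑ j a_j w^(j-1)) dd w`, `tr_zero` and linearity in the last factor.
* `tr_hasse`: `tr_eval` for `hasseDeriv i q`, whose derivative is `(i + 1) hasseDeriv (i + 1) q`.
-/

set_option autoImplicit false

open MvPolynomial
open Pool.Agent.H23 (RatForm regularForms PrimeDivisorOver fc dualDer)

noncomputable section

namespace Pool.Agent.LG

variable {K : Type} [Field K] [Algebra ℂ K] {k n D : ℕ} {ι : Type}

private lemma Tr_dd (x : Fin k → K) (y : K) : (fun i => dd (sn x y i)) = sn (fun i => dd (x i)) (dd y) := by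
  funext l
  refine Fin.lastCases ?_ (fun i => ?_) l
  · unfold sn
    rw [Fin.snoc_last, Fin.snoc_last]
  · unfold sn
    rw [Fin.snoc_castSucc, Fin.snoc_castSucc]

private lemma Tr_opt {x : Fin k → K} {y : K} (h : AlgebraicIndependent ℂ (sn x y)) :
    AlgebraicIndependent ℂ x ∧ Transcendental (Algebra.adjoin ℂ (Set.range x)) y := by
  have h1 : AlgebraicIndependent ℂ (sn x y ∘ finSuccEquivLast.symm) := h.comp _ finSuccEquivLast.symm.injective
  have h2 : (sn x y ∘ finSuccEquivLast.symm) = fun o : Option (Fin k) => o.elim y x := by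
    funext o
    cases o with
    | none =>
      rw [Function.comp_apply, finSuccEquivLast_symm_none]
      exact Fin.snoc_last (α := fun _ => K) _ _
    | some i =>
      rw [Function.comp_apply, finSuccEquivLast_symm_some]
      exact Fin.snoc_castSucc (α := fun _ => K) _ _ _
  rw [h2] at h1
  exact AlgebraicIndependent.option_iff.1 h1

/-- exterior multiplication by the differentials of the functions `x` as a derivation -/
private def Tr_der (x : Fin k → K) : Derivation ℂ K (RatForm K (k + 1)) :=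
  (((exteriorPower.ιMulti K (k + 1)).toMultilinearMap.toLinearMap (sn (fun i => dd (x i)) 0) (Fin.last k)) : Ω[K⁄ℂ] →ₗ[K] RatForm K (k + 1)).compDer (KaehlerDifferential.D ℂ K)

private lemma Tr_der_apply (x : Fin k → K) (y : K) : Tr_der x y = wd (sn (fun i => dd (x i)) (dd y)) := by
  have h1 : Function.update (sn (fun i => dd (x i)) (0 : Ω[K⁄ℂ])) (Fin.last k) (dd y) = sn (fun i => dd (x i)) (dd y) := by
    unfold sn
    rw [Fin.update_snoc_last]
  unfold wd
  rw [← h1]
  rfl

private lemma Tr_der_eval (x : Fin k → K) (w : K) (q : Polynomial K) (hq : ∀ i, Tr_der x (q.coeff i) = 0) :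
    Tr_der x (q.eval w) = q.derivative.eval w • Tr_der x w := by
  rw [Polynomial.eval_eq_sum_range, map_sum, Polynomial.derivative_eval, Polynomial.sum_over_range _ (by intro n; simp), Finset.sum_smul]
  refine Finset.sum_congr rfl fun i _ => ?_
  rw [Derivation.leibniz, hq i, smul_zero, add_zero, Derivation.leibniz_pow, ← Nat.cast_smul_eq_nsmul K, smul_smul, smul_smul]

theorem tr_alg {z : Fin (k + 1) → K} (hz : IsTranscendenceBasis ℂ z) {L : IntermediateField ℂ K} {w : K} (hw : Transcendental L w) {x : Fin k → K} (hx : ∀ i, x i ∈ L)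
    (h : wd (sn (fun i => dd (x i)) (dd w)) ≠ 0) {l : K} (hl : l ∈ L) : IsAlgebraic (Algebra.adjoin ℂ (Set.range x)) l := by
  classical
  by_contra hl1
  have h1 : AlgebraicIndependent ℂ (sn x w) := by
    refine algInd_of_wd ?_
    rw [Tr_dd]
    exact h
  have h2 := AlgebraicIndependent.option_iff.2 ⟨(Tr_opt h1).1, hl1⟩
  have h3 : Transcendental (Algebra.adjoin ℂ (Set.range fun o : Option (Fin k) => o.elim l x)) w := by
    refine Transcendental.of_tower_top_of_subalgebra_le (B := L.toSubalgebra) ?_ hw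
    refine Algebra.adjoin_le ?_
    rintro _ ⟨o, rfl⟩
    cases o with
    | none => exact hl
    | some i => exact hx i
  have h4 := (AlgebraicIndependent.option_iff.2 ⟨h2, h3⟩).cardinalMk_le_trdeg
  rw [← hz.cardinalMk_eq_trdeg] at h4
  simp only [Cardinal.mk_fintype, Fintype.card_option, Fintype.card_fin, Nat.cast_le] at h4
  omega

theorem tr_zero {z : Fin (k + 1) → K} (hz : IsTranscendenceBasis ℂ z) {L : IntermediateField ℂ K} {w : K} (hw : Transcendental L w) {x : Fin k → K} (hx : ∀ i, x i ∈ L)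
    (h : wd (sn (fun i => dd (x i)) (dd w)) ≠ 0) {l : K} (hl : l ∈ L) : wd (sn (fun i => dd (x i)) (dd l)) = 0 := by
  by_contra h0
  have h1 : AlgebraicIndependent ℂ (sn x l) := by
    refine algInd_of_wd ?_
    rw [Tr_dd]
    exact h0
  exact (Tr_opt h1).2 (tr_alg hz hw hx h hl)

theorem tr_eval {z : Fin (k + 1) → K} (hz : IsTranscendenceBasis ℂ z) {L : IntermediateField ℂ K} {w : K} (hw : Transcendental L w) {x : Fin k → K} (hx : ∀ i, x i ∈ L)
    (h : wd (sn (fun i => dd (x i)) (dd w)) ≠ 0) {q : Polynomial K} (hq : ∀ i, q.coeff i ∈ L) :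
    wd (sn (fun i => dd (x i)) (dd (q.eval w))) = q.derivative.eval w • wd (sn (fun i => dd (x i)) (dd w)) := by
  rw [← Tr_der_apply, ← Tr_der_apply]
  refine Tr_der_eval x w q fun i => ?_
  rw [Tr_der_apply]
  exact tr_zero hz hw hx h (hq i)

theorem tr_hasse {z : Fin (k + 1) → K} (hz : IsTranscendenceBasis ℂ z) {L : IntermediateField ℂ K} {w : K} (hw : Transcendental L w) {x : Fin k → K} (hx : ∀ i, x i ∈ L)
    (h : wd (sn (fun i => dd (x i)) (dd w)) ≠ 0) {q : Polynomial K} (hq : ∀ i, q.coeff i ∈ L) (i : ℕ) :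
    wd (sn (fun i => dd (x i)) (dd ((Polynomial.hasseDeriv i q).eval w))) = (((i : ℕ) + 1 : K) * (Polynomial.hasseDeriv (i + 1) q).eval w) • wd (sn (fun i => dd (x i)) (dd w)) := by
  have h1 : ∀ j, (Polynomial.hasseDeriv i q).coeff j ∈ L := by
    intro j
    rw [Polynomial.hasseDeriv_coeff]
    exact mul_mem (natCast_mem L _) (hq _)
  rw [tr_eval hz hw hx h h1]
  congr 1
  have h2 : (Polynomial.hasseDeriv i q).derivative = (i + 1) • Polynomial.hasseDeriv (i + 1) q := by
    rw [← Polynomial.hasseDeriv_one', ← LinearMap.comp_apply, Polynomial.hasseDeriv_comp, Nat.choose_one_right, add_comm 1 i]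
    rfl
  rw [h2, Polynomial.eval_smul, nsmul_eq_mul, Nat.cast_add, Nat.cast_one]

theorem eval_ne_zero {L : IntermediateField ℂ K} {w : K} (hw : Transcendental L w) {q : Polynomial K} (hq : ∀ i, q.coeff i ∈ L) (h0 : q ≠ 0) : q.eval w ≠ 0 := by
  intro h1
  obtain ⟨p, hp⟩ := (Polynomial.mem_lifts q).1 ((Polynomial.lifts_iff_coeff_lifts (f := algebraMap L K) q).2 fun i => ⟨⟨q.coeff i, hq i⟩, rfl⟩)
  rw [← hp, Polynomial.eval_map_algebraMap] at h1
  have h2 : p = 0 := by
    by_contra h3
    exact hw ⟨p, h3, h1⟩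
  rw [h2, Polynomial.map_zero] at hp
  exact h0 hp.symm

theorem hasse_eval_ne_zero {L : IntermediateField ℂ K} {w : K} (hw : Transcendental L w) {q : Polynomial K} (hq : ∀ i, q.coeff i ∈ L) (h0 : q ≠ 0) {i : ℕ} (hi : i ≤ q.natDegree) :
    (Polynomial.hasseDeriv i q).eval w ≠ 0 := by
  have : CharZero K := charZero_of_injective_algebraMap (algebraMap ℂ K).injective
  refine eval_ne_zero hw (fun j => ?_) ?_
  · rw [Polynomial.hasseDeriv_coeff]
    exact mul_mem (natCast_mem L _) (hq _)
  · intro h1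
    have h2 := congrArg (fun p => p.coeff (q.natDegree - i)) h1
    simp only [Polynomial.hasseDeriv_coeff, Polynomial.coeff_zero, Nat.sub_add_cancel hi] at h2
    rcases mul_eq_zero.1 h2 with h3 | h3
    · exact (Nat.choose_pos hi).ne' (Nat.cast_eq_zero.1 h3)
    · exact h0 (Polynomial.leadingCoeff_eq_zero.1 h3)

end Pool.Agent.LG
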