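import Pool.Agent.LG.Defs
import Pool.Agent.H17GT.Base

/-!
# LG Wd: exterior products of differentials

* `algInd_of_wd`: a polynomial `p ≠ 0` of minimal degree with `p (x) = 0`: `0 = ∑ (∂_i p) (x) dx_i` and the `dx_i` are linearly independent (`wd ≠ 0`: `AlternatingMap.map_linearDependent`), some `∂_i p ≠ 0` (characteristic 0).
* `wd_ne_of_basis`: `H23.exists_basis_kaehler`, `H23.fc_self`.
* `basis_of_wd`: `IsTranscendenceBasis` from the number of elements, as in `H23.exists_divisorCoords`.
* `dd_aeval`: chain rule (`MvPolynomial.mkDerivation` / `Derivation.leibniz` by `MvPolynomial.induction_on`; see `der_aeval_complex` in `H17GT/ModFORM`).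
* `wd_replace`: the other terms of `dd_aeval` give two equal factors.
-/

set_option autoImplicit false

open MvPolynomial
open Pool.Agent.H23 (RatForm regularForms PrimeDivisorOver fc dualDer)

noncomputable section

namespace Pool.Agent.LG

variable {K : Type} [Field K] [Algebra ℂ K] {k n D : ℕ} {ι : Type}

private lemma Wd_eq_C {σ : Type} (P : MvPolynomial σ ℂ)
    (h : ∀ i, pderiv i P = 0) : P = C (coeff 0 P) := by
  classical
  ext m
  rw [coeff_C]
  by_cases hm : m = 0
  · subst hm; simp
  · rw [if_neg (Ne.symm hm)]
    obtain ⟨i, hi⟩ : ∃ i, m i ≠ 0 := by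
      by_contra hcon
      push Not at hcon
      exact hm (Finsupp.ext hcon)
    have h1 := congrArg (coeff (m - Finsupp.single i 1)) (h i)
    rw [coeff_pderiv, coeff_zero] at h1
    have h2 : m - Finsupp.single i 1 + Finsupp.single i 1 = m :=
      Finsupp.sub_add_single_one_cancel hi
    rw [h2] at h1
    rcases mul_eq_zero.1 h1 with h1 | h1
    · exact h1
    · exfalso
      have : ((((m - Finsupp.single i 1 : σ →₀ ℕ)) i + 1 : ℕ) : ℂ) = 0 := by push_cast; exact h1
      exact Nat.cast_ne_zero.2 (Nat.succ_ne_zero _) this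

private lemma Wd_totalDegree {σ : Type} (P : MvPolynomial σ ℂ) (i : σ) (h : pderiv i P ≠ 0) :
    (pderiv i P).totalDegree < P.totalDegree := by
  classical
  obtain ⟨m, hm, hmd⟩ := Finset.exists_mem_eq_sup (pderiv i P).support
    (support_nonempty.2 h) (fun s => s.sum fun _ e => e)
  rw [mem_support_iff, coeff_pderiv] at hm
  have h1 : coeff (m + Finsupp.single i 1) P ≠ 0 := left_ne_zero_of_mul hm
  have h2 := le_totalDegree (mem_support_iff.2 h1)
  have h3 : (m + Finsupp.single i 1).degree = m.degree + 1 := by
    rw [map_add, Finsupp.degree_single]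
  have h4 : (m + Finsupp.single i 1).sum (fun _ e => e) = (m + Finsupp.single i 1).degree := rfl
  have h5 : m.sum (fun _ e => e) = m.degree := rfl
  have h6 : (pderiv i P).totalDegree = m.degree := hmd
  rw [h4, h3] at h2
  omega

theorem dd_aeval (x : Fin n → K) (p : MvPolynomial (Fin n) ℂ) : dd (aeval x p) = ∑ i, aeval x (pderiv i p) • dd (x i) := by
  induction p using MvPolynomial.induction_on with
  | C a =>
    rw [aeval_C, dd, Derivation.map_algebraMap]
    simp only [pderiv_C, map_zero, zero_smul, Finset.sum_const_zero]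
  | add p q hp hq =>
    simp only [dd] at hp hq ⊢
    rw [map_add, map_add, hp, hq, ← Finset.sum_add_distrib]
    refine Finset.sum_congr rfl fun i _ => ?_
    rw [map_add, map_add, add_smul]
  | mul_X p j hp =>
    simp only [dd] at hp ⊢
    rw [map_mul, aeval_X, Derivation.leibniz, hp, Finset.smul_sum]
    have h1 : ∀ i : Fin n, aeval x (pderiv i (p * X j)) • KaehlerDifferential.D ℂ K (x i) =
        x j • (aeval x (pderiv i p) • KaehlerDifferential.D ℂ K (x i)) +
          (if i = j then aeval x p • KaehlerDifferential.D ℂ K (x j) else 0) := by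
      intro i
      rw [pderiv_mul, map_add, map_mul, map_mul, aeval_X, add_smul, mul_comm, mul_smul]
      congr 1
      by_cases h : i = j
      · subst h
        rw [if_pos rfl, pderiv_X_self, map_one, mul_one]
      · rw [if_neg h, pderiv_X_of_ne (Ne.symm h), map_zero, mul_zero, zero_smul]
    simp_rw [h1]
    rw [Finset.sum_add_distrib, Finset.sum_ite_eq' Finset.univ j, if_pos (Finset.mem_univ j)]
    exact add_comm _ _

theorem algInd_of_wd {x : Fin n → K} (h : wd (fun i => dd (x i)) ≠ 0) : AlgebraicIndependent ℂ x := by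
  have hli : LinearIndependent K (fun i => dd (x i)) := by
    by_contra hcon
    exact h (AlternatingMap.map_linearDependent _ _ hcon)
  rw [algebraicIndependent_iff]
  have key : ∀ N : ℕ, ∀ P : MvPolynomial (Fin n) ℂ, P.totalDegree ≤ N → aeval x P = 0 → P = 0 := by
    intro N
    induction N with
    | zero =>
      intro P hP h0
      rw [Nat.le_zero, totalDegree_eq_zero_iff_eq_C] at hP
      rw [hP, aeval_C, map_eq_zero] at h0
      rw [hP, h0, map_zero]
    | succ N ih =>
      intro P hP h0
      have h1 : ∑ i, aeval x (pderiv i P) • dd (x i) = 0 := by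
        rw [← dd_aeval, h0]
        exact map_zero _
      have h2 : ∀ i, aeval x (pderiv i P) = 0 :=
        Fintype.linearIndependent_iff.1 hli _ h1
      have h3 : ∀ i, pderiv i P = 0 := by
        intro i
        by_contra hne
        have h4 := Wd_totalDegree P i hne
        exact hne (ih _ (by omega) (h2 i))
      have h5 := Wd_eq_C P h3
      rw [h5, aeval_C, map_eq_zero] at h0
      rw [h5, h0, map_zero]
  exact fun P hP => key _ P le_rfl hP

theorem wd_ne_of_basis {x : Fin n → K} (h : IsTranscendenceBasis ℂ x) : wd (fun i => dd (x i)) ≠ 0 := by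
  obtain ⟨b, hb⟩ := Pool.Agent.H23.exists_basis_kaehler h
  intro h0
  have h1 := Pool.Agent.H23.fc_self b
  have h2 : (fun i => b i) = fun i => dd (x i) := funext hb
  rw [h2] at h1
  have h3 : fc b (wd (fun i => dd (x i))) = 1 := h1
  rw [h0, map_zero] at h3
  exact zero_ne_one h3

theorem basis_of_wd {z : Fin n → K} (hz : IsTranscendenceBasis ℂ z) {x : Fin n → K} (h : wd (fun i => dd (x i)) ≠ 0) : IsTranscendenceBasis ℂ x := by
  apply (algInd_of_wd h).isTranscendenceBasis_of_trdeg_le_of_finite
  rw [← hz.cardinalMk_eq_trdeg]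

private lemma Wd_update {m : ℕ} (v : Fin m → Ω[K⁄ℂ]) (e : Fin k → Fin m) (he : Function.Injective e) (c : Fin k → K) (j : Fin k) :
    wd (Function.update v (e j) (∑ i, c i • v (e i))) = c j • wd v := by
  unfold wd
  rw [AlternatingMap.map_update_sum, Finset.sum_eq_single j]
  · rw [AlternatingMap.map_update_smul, Function.update_eq_self]
  · intro i _ hij
    rw [AlternatingMap.map_update_smul, AlternatingMap.map_update_self _ _ (fun h => hij (he h).symm), smul_zero]
  · intro h
    exact absurd (Finset.mem_univ j) h

/-- `dx₁ ∧ … ∧ dp(x) ∧ … ∧ dx_n ∧ η = (∂_j p)(x) dx₁ ∧ … ∧ dx_n ∧ η` -/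
theorem wd_replace (x : Fin k → K) (p : MvPolynomial (Fin k) ℂ) (j : Fin k) (η : Ω[K⁄ℂ]) :
    wd (sn (fun i => dd (Function.update x j (aeval x p) i)) η) = aeval x (pderiv j p) • wd (sn (fun i => dd (x i)) η) := by
  have h1 : sn (fun i => dd (Function.update x j (aeval x p) i)) η =
      Function.update (sn (fun i => dd (x i)) η) (Fin.castSucc j)
        (∑ i, aeval x (pderiv i p) • (sn (fun i => dd (x i)) η) (Fin.castSucc i)) := by
    have h2 : ∀ i, (sn (fun i => dd (x i)) η) (Fin.castSucc i) = dd (x i) := by
      intro i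
      exact Fin.snoc_castSucc (α := fun _ => Ω[K⁄ℂ]) _ _ _
    simp_rw [h2]
    rw [← dd_aeval]
    funext l
    refine Fin.lastCases ?_ (fun i => ?_) l
    · rw [Function.update_of_ne (Fin.castSucc_lt_last j).ne']
      unfold sn
      rw [Fin.snoc_last, Fin.snoc_last]
    · by_cases hij : i = j
      · subst hij
        rw [Function.update_self]
        unfold sn
        rw [Fin.snoc_castSucc, Function.update_self]
      · rw [Function.update_of_ne (fun h => hij (Fin.castSucc_injective _ h))]
        unfold sn
        rw [Fin.snoc_castSucc, Fin.snoc_castSucc, Function.update_of_ne hij]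
  rw [h1]
  exact Wd_update _ Fin.castSucc (Fin.castSucc_injective _) _ j

theorem wd_replace' (x : Fin n → K) (p : MvPolynomial (Fin n) ℂ) (j : Fin n) :
    wd (fun i => dd (Function.update x j (aeval x p) i)) = aeval x (pderiv j p) • wd (fun i => dd (x i)) := by
  have h1 : (fun i => dd (Function.update x j (aeval x p) i)) =
      Function.update (fun i => dd (x i)) j (∑ i, aeval x (pderiv i p) • dd (x i)) := by
    rw [← dd_aeval]
    funext i
    by_cases hij : i = j
    · subst hij
      rw [Function.update_self, Function.update_self]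
    · rw [Function.update_of_ne hij, Function.update_of_ne hij]
  rw [h1]
  exact Wd_update (fun i => dd (x i)) id Function.injective_id _ j

end Pool.Agent.LG
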