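import Pool.Agent.LG.Gd1
import Pool.Agent.LG.Gd2
import Pool.Agent.LG.Cr

/-!
# LG Zl: the varieties over the complement of `E` are of log general type

`exists_sel`, the properties `Dat.Good` (`exists_chart`, `ord_off`, `X_base`, `F_ne`, `Sel.w_ne`, `Sel.alg`, `Sel.span`) and `core`.
-/

set_option autoImplicit false

open MvPolynomial Topology Filter
open Pool.Agent.PXF (Cn form IsThetaForm ThreePoints)

noncomputable section

namespace Pool.Agent.LG

variable {K : Type} [Field K] [Algebra ℂ K] {N κ d s n : ℕ} {Q : Ideal (MvPolynomial (Fin (N + 1)) ℂ)} {ξ : Fin (N + 1) → K} {Λ : AddSubgroup (Cn (κ + 1))} {θ : Fin (d + 1) → Cn (κ + 1) → ℂ}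
  {L : (Fin (N + 1) → ℂ) → Cn (κ + 1) → Prop} {V : (Fin (N + 1) → ℂ) → Cn 2 → Prop} {G : Fin s → MvPolynomial (Fin (N + 1)) ℂ}

theorem lgt_of_geo [Algebra.EssFiniteType ℂ K] {k : ℕ} {z : Fin (k + 1) → K} (hz : IsTranscendenceBasis ℂ z) (hΛ : Submodule.span ℝ (Λ : Set (Cn (κ + 1))) = ⊤) (hθ : IsThetaForm Λ θ) (h : Geo Q ξ Λ θ L V G) :
    H17LG.IsLogGeneralType (BdG (k := k + 1) ξ G) := by
  obtain ⟨n, Θ, M, M', a₀, y₀, b₀, S, hs⟩ := exists_sel hz hΛ hθ h
  have hd := d_pos hs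
  have good : S.Good (BdG (k := k + 1) ξ G) :=
    { chart := fun E => by
        obtain ⟨a, y, c, -, -, -, -, -, hc⟩ := exists_chart h hs E
        exact ⟨c, hc⟩
      off := fun E hE c hc => ord_off h hs E hE c hc
      one := ⟨b₀, X_base h hs⟩
      w_ne := hs.w_ne
      F_ne := F_ne h hs
      alg := hs.alg
      span := hs.span }
  exact core hz S (by omega) good fun _ => sel_three h hs

/-- the function field is finitely generated -/
theorem GP.essFiniteType {Q : Ideal (MvPolynomial (Fin (N + 1)) ℂ)} {ξ : Fin (N + 1) → K} (h : GP Q ξ) : Algebra.EssFiniteType ℂ K := by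
  have hfin : {y | ∃ i j, y = ξ i / ξ j}.Finite := by
    refine Set.Finite.subset (Set.finite_range fun p : Fin (N + 1) × Fin (N + 1) => ξ p.1 / ξ p.2) ?_
    rintro _ ⟨i, j, rfl⟩
    exact ⟨(i, j), rfl⟩
  exact IntermediateField.fg_top_iff.1 ⟨hfin.toFinset, by rw [hfin.coe_toFinset]; exact h.gen⟩

/-- **the varieties over the complement of `E`, not over the special points, are of log general type** -/
theorem lg_final (hspan : Submodule.span ℝ (Λ : Set (Cn (κ + 1))) = ⊤) (hθ : IsThetaForm Λ θ) (hG : Geo Q ξ Λ θ L V G) {w : ℕ} (hw : 1 ≤ w) {z : Fin w → K} (hz : IsTranscendenceBasis ℂ z) :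
    H17LG.IsLogGeneralType (BdG (k := w) ξ G) := by
  have := hG.gp.essFiniteType
  obtain ⟨k, rfl⟩ : ∃ k, w = k + 1 := ⟨w - 1, by omega⟩
  exact lgt_of_geo hz hspan hθ hG

end Pool.Agent.LG
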